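import Pool.Agent.Lib.MP_d4c67c_gt.CfC

/-!
# JOB EA: configurations from sequences `b`, any `m + n`
-/

open scoped LinearAlgebra.Projectivization

namespace Pool.Agent.Lib.MP_d4c67c_gt

variable {k : Type*} [Field k] {m n : ℕ}

/-- extension by zero of a finite sequence -/
def sq {S : Type*} [Zero S] {l : ℕ} (b : Fin l → S) : ℕ → S :=
  fun j => if h : j < l then b ⟨j, h⟩ else 0

/-- the continuant `K(b_0, …, b_(l-1))` -/
def Kv {S : Type*} [CommRing S] {l : ℕ} (b : Fin l → S) : S := (Ws (sq b) (l + 1)).2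

/-- values of the polynomial path (`Ws_map`, `vr`) -/
theorem Ws_sq_aeval {S : Type*} [CommRing S] [Algebra k S] {l : ℕ} (b : Fin l → S) (i : ℕ) :
    Ws (sq b) i = (MvPolynomial.aeval b (Ws (vr k l) i).1, MvPolynomial.aeval b (Ws (vr k l) i).2) := by
  have h1 := Ws_map ((MvPolynomial.aeval b : MvPolynomial (Fin l) k →ₐ[k] S) :
    MvPolynomial (Fin l) k →+* S) (vr k l) i
  have h2 : sq b = fun j => ((MvPolynomial.aeval b : MvPolynomial (Fin l) k →ₐ[k] S) :
      MvPolynomial (Fin l) k →+* S) (vr k l j) := by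
    funext j
    unfold sq vr
    by_cases h : j < l
    · rw [dif_pos h, dif_pos h]
      simp
    · rw [dif_neg h, dif_neg h]
      simp
  rw [h2, h1]
  rfl

/-- the vector number `i` of the path of `b` -/
def wv {K : Type*} [Field K] {l : ℕ} (b : Fin l → K) (i : ℕ) : Fin 2 → K :=
  ![(Ws (sq b) i).1, (Ws (sq b) i).2]

theorem det2_wv_succ {K : Type*} [Field K] {l : ℕ} (b : Fin l → K) (i : ℕ) :
    det2 (wv b i) (wv b (i + 1)) = 1 :=
  dt_Ws_succ (sq b) i

theorem det2_wv_zero {K : Type*} [Field K] {l : ℕ} (b : Fin l → K) (i : ℕ) :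
    det2 (wv b 0) (wv b i) = (Ws (sq b) i).2 := by
  unfold wv det2
  simp [Ws]

theorem wv_ne_zero {K : Type*} [Field K] {l : ℕ} (b : Fin l → K) (i : ℕ) : wv b i ≠ 0 := by
  intro h
  have h1 := det2_wv_succ b i
  rw [h] at h1
  unfold det2 at h1
  simp at h1

/-- the closed polygon of `b`, indexed by `ZMod (l+2)`: `i ↦ wv b i.val` -/
def pv {K : Type*} [Field K] {l : ℕ} (b : Fin l → K) (i : ZMod (l + 2)) : Fin 2 → K := wv b i.val

/-- all edges have determinant `1` except the last one `l+1 → 0`, which has determinant `- K(b)` -/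
theorem edge_eq {K : Type*} [Field K] {l : ℕ} (b : Fin l → K) (i : ZMod (l + 2)) :
    det2 (pv b i) (pv b (i + 1)) = if i.val = l + 1 then - Kv b else 1 := by
  have hv := ZMod.val_lt i
  by_cases h : i.val + 1 < l + 2
  · have h1 : (i + 1).val = i.val + 1 := by
      rw [ZMod.val_add_of_lt]
      · rw [ZMod.val_one'' (by omega)]
      · rw [ZMod.val_one'' (by omega)]; exact h
    rw [if_neg (by omega)]
    unfold pv
    rw [h1]
    exact det2_wv_succ b _
  · have h1 : i.val = l + 1 := by omega
    have h2 : (i + 1).val = 0 := by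
      rw [ZMod.val_eq_zero]
      have h3 : i = ((l + 1 : ℕ) : ZMod (l + 2)) := by
        rw [← h1, ZMod.natCast_zmod_val]
      rw [h3]
      have := ZMod.natCast_self (l + 2)
      push_cast at this ⊢
      linear_combination this
    rw [if_pos h1]
    unfold pv
    rw [h2, CfC_det2_swap, det2_wv_zero, h1]
    rfl

theorem edge_ne {K : Type*} [Field K] {l : ℕ} (b : Fin l → K) (hb : Kv b ≠ 0) (i : ZMod (l + 2)) :
    det2 (pv b i) (pv b (i + 1)) ≠ 0 := by
  rw [edge_eq]
  split_ifs
  · exact neg_ne_zero.mpr hb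
  · exact one_ne_zero

/-- the configuration of a sequence `b` with `K(b) ≠ 0` -/
def cfgB (b : Fin (m + n) → k) (hb : Kv b ≠ 0) : Cfg k m n :=
  ofPt (fun i => Projectivization.mk k (pv b i) (wv_ne_zero b _)) (by
    intro i h
    rw [mk_eq_mk_iff_det2] at h
    exact edge_ne b hb i h)

theorem pt_cfgB (b : Fin (m + n) → k) (hb : Kv b ≠ 0) (i : ZMod (m + n + 2)) :
    pt (cfgB b hb : Cfg k m n) i = Projectivization.mk k (pv b i) (wv_ne_zero b _) :=
  pt_ofPt _ _ i

/-- If `v` are vectors on the lines of `p` with `det2 (v i) (v (i+1)) = 1` for `i = 0, …, l`, then `p` is equivalent to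
`cfgB b` with `b i = det2 (v i) (v (i+2))`, and `K(b) = det2 (v 0) (v (l+1))`.
The linear map `u ↦ ![det2 u (v 1), det2 (v 0) u]` (invertible, as `det2 (v 0) (v 1) = 1`) sends `v i` to `wv b i` for
`i = 0, …, l + 1`, by two-step induction (`v (i+2) = b i • v (i+1) - v i`, because both sides have the same determinants
with `v i` and `v (i+1)`; or directly from the Plücker relation). -/
theorem cfgB_of_lift (p : Cfg k m n) (v : ZMod (m + n + 2) → Fin 2 → k)
    (hv : ∀ i, ∃ h : v i ≠ 0, pt p i = Projectivization.mk k (v i) h)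
    (h1 : ∀ i : ℕ, i ≤ m + n → det2 (v (i : ZMod (m + n + 2))) (v ((i : ZMod (m + n + 2)) + 1)) = 1) :
    Kv (fun i : Fin (m + n) => det2 (v ((i : ℕ) : ZMod (m + n + 2))) (v (((i : ℕ) : ZMod (m + n + 2)) + 2)))
      = det2 (v 0) (v (((m + n + 1 : ℕ)) : ZMod (m + n + 2))) ∧
    ∃ hb : Kv (fun i : Fin (m + n) =>
        det2 (v ((i : ℕ) : ZMod (m + n + 2))) (v (((i : ℕ) : ZMod (m + n + 2)) + 2))) ≠ 0,
      p ≈ cfgB _ hb := by
  have h01 : det2 (v 0) (v 1) = 1 := by
    have h := h1 0 (Nat.zero_le _)
    rwa [Nat.cast_zero, zero_add] at h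
  -- Pluecker
  have hpl : ∀ u a b c : Fin 2 → k, det2 u c * det2 a b = det2 u b * det2 a c - det2 u a * det2 b c := by
    intro u a b c
    unfold det2
    ring
  have hstep : ∀ (u : Fin 2 → k) (i : ℕ), i + 1 ≤ m + n →
      det2 u (v (((i + 2 : ℕ)) : ZMod (m + n + 2))) =
        det2 (v (i : ZMod (m + n + 2))) (v ((i : ZMod (m + n + 2)) + 2)) *
          det2 u (v (((i + 1 : ℕ)) : ZMod (m + n + 2))) - det2 u (v (i : ZMod (m + n + 2))) := by
    intro u i hi
    have e1 := h1 i (by omega)
    have e2 := h1 (i + 1) hi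
    have c1 : (((i + 1 : ℕ)) : ZMod (m + n + 2)) = (i : ZMod (m + n + 2)) + 1 := by push_cast; ring
    have c2 : (((i + 2 : ℕ)) : ZMod (m + n + 2)) = (i : ZMod (m + n + 2)) + 2 := by push_cast; ring
    have c3 : (i : ZMod (m + n + 2)) + 1 + 1 = (i : ZMod (m + n + 2)) + 2 := by ring
    rw [c1, c3] at e2
    rw [c1, c2]
    have h := hpl u (v (i : ZMod (m + n + 2))) (v ((i : ZMod (m + n + 2)) + 1))
      (v ((i : ZMod (m + n + 2)) + 2))
    rw [e1, e2] at h
    linear_combination h
  set b : Fin (m + n) → k := fun i : Fin (m + n) =>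
    det2 (v ((i : ℕ) : ZMod (m + n + 2))) (v (((i : ℕ) : ZMod (m + n + 2)) + 2)) with hbdef
  have hsq : ∀ i : ℕ, i < m + n →
      sq b i = det2 (v (i : ZMod (m + n + 2))) (v ((i : ZMod (m + n + 2)) + 2)) := by
    intro i hi
    unfold sq
    rw [dif_pos hi]
  have hT : ∀ i : ℕ, i ≤ m + n + 1 → Ws (sq b) i =
      (det2 (v (i : ZMod (m + n + 2))) (v 1), det2 (v 0) (v (i : ZMod (m + n + 2)))) := by
    intro i
    induction i using Nat.strong_induction_on with
    | _ i ih =>
      match i, ih with
      | 0, _ =>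
        intro _
        rw [Nat.cast_zero, h01]
        have : det2 (v 0) (v 0) = 0 := by unfold det2; ring
        rw [this]
        rfl
      | 1, _ =>
        intro _
        rw [Nat.cast_one, h01]
        have : det2 (v 1) (v 1) = 0 := by unfold det2; ring
        rw [this]
        rfl
      | (i + 2), ih =>
        intro hi
        have e1 := ih (i + 1) (by omega) (by omega)
        have e2 := ih i (by omega) (by omega)
        have s1 := hstep (v 0) i (by omega)
        have s2 := hstep (v 1) i (by omega)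
        rw [CfC_det2_swap (v 1), CfC_det2_swap (v 1), CfC_det2_swap (v 1)] at s2
        simp only [Ws, e1, e2, hsq i (by omega), Prod.mk.injEq]
        constructor
        · linear_combination s2
        · linear_combination -s1
  have hK : Kv b = det2 (v 0) (v (((m + n + 1 : ℕ)) : ZMod (m + n + 2))) := by
    unfold Kv
    rw [hT (m + n + 1) le_rfl]
  have hb : Kv b ≠ 0 := by
    rw [hK]
    intro h0
    have htop : (((m + n + 1 : ℕ)) : ZMod (m + n + 2)) + 1 = 0 := by
      have := ZMod.natCast_self (m + n + 2)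
      push_cast at this ⊢
      linear_combination this
    have h2 := pt_ne p (((m + n + 1 : ℕ)) : ZMod (m + n + 2))
    rw [htop] at h2
    obtain ⟨a1, a2⟩ := hv (((m + n + 1 : ℕ)) : ZMod (m + n + 2))
    obtain ⟨a3, a4⟩ := hv 0
    apply h2
    rw [a2, a4, mk_eq_mk_iff_det2, CfC_det2_swap, h0, neg_zero]
  refine ⟨hK, hb, ?_⟩
  let T : (Fin 2 → k) →ₗ[k] (Fin 2 → k) :=
    { toFun := fun u => ![det2 u (v 1), det2 (v 0) u]
      map_add' := by
        intro a b
        funext i
        fin_cases i <;> simp [det2] <;> ring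
      map_smul' := by
        intro a b
        funext i
        fin_cases i <;> simp [det2] <;> ring }
  have hTd : ∀ u, T u = ![det2 u (v 1), det2 (v 0) u] := fun u => rfl
  have hinj : Function.Injective T := by
    rw [← LinearMap.ker_eq_bot, LinearMap.ker_eq_bot']
    intro u hu
    rw [hTd] at hu
    have h0 := congrFun hu 0
    have h2 := congrFun hu 1
    simp only [Matrix.cons_val_zero, Matrix.cons_val_one, Pi.zero_apply] at h0 h2
    have h3 : ∀ i, det2 (v 0) (v 1) * u i = det2 u (v 1) * v 0 i + det2 (v 0) u * v 1 i := by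
      intro i
      fin_cases i <;> simp [det2] <;> ring
    funext i
    have h4 := h3 i
    rw [h0, h2, h01, one_mul, zero_mul, zero_mul, add_zero] at h4
    exact h4
  have hTv : ∀ i : ZMod (m + n + 2), T (v i) = pv b i := by
    intro i
    have h2 := hT i.val (by have := ZMod.val_lt i; omega)
    rw [ZMod.natCast_zmod_val] at h2
    rw [hTd]
    unfold pv wv
    rw [h2]
  rw [equiv_iff]
  refine ⟨LinearMap.GeneralLinearGroup.ofLinearEquiv (LinearEquiv.ofInjectiveEndo T hinj),
    fun i => ?_⟩
  obtain ⟨a1, a2⟩ := hv i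
  have h3 : LinearMap.GeneralLinearGroup.ofLinearEquiv (LinearEquiv.ofInjectiveEndo T hinj) •
      v i = pv b i := by
    rw [← hTv i]
    rfl
  rw [a2, pt_cfgB, Projectivization.smul_mk, Projectivization.mk_eq_mk_iff']
  exact ⟨1, by rw [one_smul, h3]⟩

/-- every configuration is equivalent to some `cfgB b`: take `u i = (pt p i).rep` (`i.val`), `d i = det2 (u i) (u (i+1)) ≠ 0`,
`μ 0 = 1`, `μ (i+1) = 1 / (μ i * d i)` for `i ≤ m + n`, `v i = μ i • u i`, and `cfgB_of_lift` -/
theorem cfgB_surj (p : Cfg k m n) : ∃ (b : Fin (m + n) → k) (hb : Kv b ≠ 0), p ≈ cfgB b hb := by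
  have hd : ∀ i : ZMod (m + n + 2), det2 (pt p i).rep (pt p (i + 1)).rep ≠ 0 := by
    intro i h0
    apply pt_ne p i
    rw [← mk_eq_mk_iff_det2 (pt p i).rep_nonzero (pt p (i + 1)).rep_nonzero,
      Projectivization.mk_rep, Projectivization.mk_rep] at h0
    exact h0
  set d : ZMod (m + n + 2) → k := fun i => det2 (pt p i).rep (pt p (i + 1)).rep with hdd
  let r : ℕ → k := fun j => Nat.rec 1 (fun i ri => 1 / (ri * d ((i : ℕ) : ZMod (m + n + 2)))) j
  have hr0 : r 0 = 1 := rfl
  have hrs : ∀ i, r (i + 1) = 1 / (r i * d ((i : ℕ) : ZMod (m + n + 2))) := fun i => rfl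
  have hr : ∀ i, r i ≠ 0 := by
    intro i
    induction i with
    | zero => rw [hr0]; exact one_ne_zero
    | succ i ih =>
      rw [hrs]
      exact one_div_ne_zero (mul_ne_zero ih (hd _))
  have hrr : ∀ i : ℕ, r i * r (i + 1) * d ((i : ℕ) : ZMod (m + n + 2)) = 1 := by
    intro i
    rw [hrs]
    have h1 := hr i
    have h2 := hd ((i : ℕ) : ZMod (m + n + 2))
    have h3 : d ((i : ℕ) : ZMod (m + n + 2)) ≠ 0 := h2
    field_simp
  have key := cfgB_of_lift p (fun i => r i.val • (pt p i).rep) (fun i => ?_) (fun i hi => ?_)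
  · obtain ⟨_, hb, h2⟩ := key
    exact ⟨_, hb, h2⟩
  · have h1 : r i.val • (pt p i).rep ≠ 0 := smul_ne_zero (hr _) (pt p i).rep_nonzero
    refine ⟨h1, ?_⟩
    have h2 : Projectivization.mk k (pt p i).rep (pt p i).rep_nonzero =
        Projectivization.mk k (r i.val • (pt p i).rep) h1 := by
      rw [Projectivization.mk_eq_mk_iff']
      exact ⟨(r i.val)⁻¹, by rw [smul_smul, inv_mul_cancel₀ (hr _), one_smul]⟩
    rw [← h2, Projectivization.mk_rep]
  · have e1 : ((i : ℕ) : ZMod (m + n + 2)).val = i := ZMod.val_natCast_of_lt (by omega)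
    have e2 : (((i : ℕ) : ZMod (m + n + 2)) + 1).val = i + 1 := by
      have e3 : (((i : ℕ) : ZMod (m + n + 2)) + 1) = ((i + 1 : ℕ) : ZMod (m + n + 2)) := by
        push_cast; ring
      rw [e3]
      exact ZMod.val_natCast_of_lt (by omega)
    have h3 := hrr i
    simp only [e1, e2]
    rw [← h3]
    simp only [det2, Pi.smul_apply, smul_eq_mul, hdd]
    ring

/-- scaling: `b i ↦ c * b i` for even `i`, `c⁻¹ * b i` for odd `i` -/
def scl {K : Type*} [Field K] {l : ℕ} (c : K) (b : Fin l → K) : Fin l → K :=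
  fun i => if Even i.val then c * b i else c⁻¹ * b i

/-- `Ws (scl c b) i = (c^ε ...)`: by induction the second coordinate of `Ws (sq (scl c b)) i` is that of
`Ws (sq b) i`, times `c` for even `i`, times `1` for odd `i` (first coordinate: `1` for even `i`, `c⁻¹` for odd `i`);
`l + 1` is odd. -/
theorem Kv_scl {K : Type*} [Field K] {l : ℕ} (he : Even l) {c : K} (hc : c ≠ 0) (b : Fin l → K) :
    Kv (scl c b) = Kv b := by
  have hs : ∀ i : ℕ, sq (scl c b) i = (if Even i then c else c⁻¹) * sq b i := by
    intro i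
    unfold sq scl
    by_cases h : i < l
    · rw [dif_pos h, dif_pos h]
      show (if Even i then c * b ⟨i, h⟩ else c⁻¹ * b ⟨i, h⟩) = _
      split_ifs <;> rfl
    · rw [dif_neg h, dif_neg h, mul_zero]
  have key : ∀ i : ℕ, Ws (sq (scl c b)) i =
      ((if Even i then 1 else c⁻¹) * (Ws (sq b) i).1, (if Even i then c else 1) * (Ws (sq b) i).2) := by
    intro i
    induction i using Nat.strong_induction_on with
    | _ i ih =>
      match i, ih with
      | 0, _ => simp [Ws]
      | 1, _ => simp [Ws]
      | (i + 2), ih =>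
        have e1 := ih (i + 1) (by omega)
        have e2 := ih i (by omega)
        have p1 : Even (i + 2) ↔ Even i := by
          rw [Nat.even_add]
          simp
        have p2 : Even (i + 1) ↔ ¬ Even i := Nat.even_add_one
        simp only [Ws, e1, e2, hs i, p1, p2]
        by_cases hi : Even i
        · simp only [hi, not_true_eq_false, if_true, if_false, Prod.mk.injEq]
          constructor
          · field_simp
          · ring
        · simp only [hi, not_false_eq_true, if_true, if_false, Prod.mk.injEq]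
          constructor
          · ring
          · field_simp
  unfold Kv
  rw [key (l + 1)]
  have h1 : ¬ Even (l + 1) := by
    rw [Nat.even_add_one]
    exact not_not.mpr he
  rw [if_neg h1, if_neg h1, one_mul]

/-- `b i` is a determinant -/
theorem det2_wv_two {K : Type*} [Field K] {l : ℕ} (b : Fin l → K) (i : Fin l) :
    det2 (wv b i.val) (wv b (i.val + 2)) = b i := by
  have h1 := dt_Ws_succ (sq b) i.val
  have h2 : sq b i.val = b i := by
    unfold sq
    rw [dif_pos i.isLt]
  show dt (Ws (sq b) i.val) (Ws (sq b) (i.val + 2)) = b i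
  simp only [Ws, dt, h2] at h1 ⊢
  linear_combination (b i) * h1

/-- For `m + n` even the fibres of `b ↦ cfgB b` are the orbits of the scaling.  If `g • wv b i = μ i • wv b' i` then
`μ i * μ (i+1) = δ` for `i ≤ m + n` (`det2_gl`, `det2_wv_succ`), so `μ (i+2) = μ i`, and
`δ * b i = δ * det2 (wv b i) (wv b (i+2)) = μ i * μ (i+2) * b' i = (μ i)^2 * b' i` (`b i = det2 (wv b i) (wv b (i+2))` for
`i < m + n`), so `b' i = (δ / (μ i)^2) * b i`, and `δ / μ 1 ^ 2 = μ 0 / μ 1`, `δ / μ 0 ^ 2 = μ 1 / μ 0`; so `c = μ 1 / μ 0`.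
Conversely, with `s ^ 2 = c` (algebraically closed) the vectors `v i = s • wv b i` for even `i`, `s⁻¹ • wv b i` for odd `i`
satisfy the hypotheses of `cfgB_of_lift` with `det2 (v i) (v (i+2)) = scl c b i`. -/
theorem cfgB_equiv [IsAlgClosed k] (he : Even (m + n)) (b b' : Fin (m + n) → k) (hb : Kv b ≠ 0)
    (hb' : Kv b' ≠ 0) :
    (cfgB b hb : Cfg k m n) ≈ cfgB b' hb' ↔ ∃ c : k, c ≠ 0 ∧ b' = scl c b := by
  constructor
  · intro h
    rw [equiv_iff] at h
    obtain ⟨g, hg⟩ := h
    have hex : ∀ i : ℕ, i ≤ m + n + 1 → ∃ a : k, a ≠ 0 ∧ a • wv b' i = g • wv b i := by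
      intro i hi
      have h1 := hg (i : ZMod (m + n + 2))
      rw [pt_cfgB, pt_cfgB, Projectivization.smul_mk, Projectivization.mk_eq_mk_iff] at h1
      obtain ⟨a, ha⟩ := h1
      have e1 : ((i : ℕ) : ZMod (m + n + 2)).val = i := ZMod.val_natCast_of_lt (by omega)
      unfold pv at ha
      rw [e1] at ha
      exact ⟨(a : k), a.ne_zero, ha⟩
    have hex2 : ∀ i : ℕ, ∃ a : k, i ≤ m + n + 1 → a ≠ 0 ∧ a • wv b' i = g • wv b i := by
      intro i
      by_cases hi : i ≤ m + n + 1
      · obtain ⟨a, ha⟩ := hex i hi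
        exact ⟨a, fun _ => ha⟩
      · exact ⟨0, fun h => absurd h hi⟩
    choose μ hμ using hex2
    obtain ⟨δ, hδ, hdet⟩ := det2_gl g
    have hF : ∀ i j : ℕ, i ≤ m + n + 1 → j ≤ m + n + 1 →
        δ * det2 (wv b i) (wv b j) = μ i * μ j * det2 (wv b' i) (wv b' j) := by
      intro i j hi hj
      have h1 := hdet (wv b i) (wv b j)
      rw [← (hμ i hi).2, ← (hμ j hj).2] at h1
      rw [← h1]
      simp only [det2, Pi.smul_apply, smul_eq_mul]
      ring
    have h1 : ∀ i : ℕ, i ≤ m + n → μ i * μ (i + 1) = δ := by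
      intro i hi
      have h2 := hF i (i + 1) (by omega) (by omega)
      rw [det2_wv_succ, det2_wv_succ, mul_one, mul_one] at h2
      exact h2.symm
    have hpar : ∀ i : ℕ, i ≤ m + n + 1 → μ i = if Even i then μ 0 else μ 1 := by
      intro i
      induction i using Nat.strong_induction_on with
      | _ i ih =>
        match i, ih with
        | 0, _ => intro _; simp
        | 1, _ => intro _; simp
        | (i + 2), ih =>
          intro hi
          have p1 : Even (i + 2) ↔ Even i := by
            rw [Nat.even_add]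
            simp
          simp only [p1]
          rw [← ih i (by omega) (by omega)]
          have h3 := h1 i (by omega)
          have h4 := h1 (i + 1) (by omega)
          have h5 : μ (i + 1) ≠ 0 := (hμ (i + 1) (by omega)).1
          have h6 : μ (i + 1) * μ (i + 1 + 1) = μ (i + 1) * μ i := by
            rw [h4, ← h3, mul_comm]
          exact mul_left_cancel₀ h5 h6
    have hμ0 : μ 0 ≠ 0 := (hμ 0 (by omega)).1
    have hμ1 : μ 1 ≠ 0 := (hμ 1 (by omega)).1
    refine ⟨μ 1 / μ 0, div_ne_zero hμ1 hμ0, ?_⟩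
    funext i
    have h3 := hF i.val (i.val + 2) (by have := i.isLt; omega) (by have := i.isLt; omega)
    rw [det2_wv_two, det2_wv_two] at h3
    have h4 := hpar i.val (by have := i.isLt; omega)
    have h5 := hpar (i.val + 2) (by have := i.isLt; omega)
    have p1 : Even (i.val + 2) ↔ Even i.val := by
      rw [Nat.even_add]
      simp
    simp only [p1] at h5
    rw [h4, h5, ← h1 0 (by omega)] at h3
    unfold scl
    by_cases hi : Even i.val
    · simp only [hi, if_true] at h3 ⊢
      have h6 : μ 0 * (μ 1 * b i) = μ 0 * (μ 0 * b' i) := by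
        rw [zero_add] at h3
        linear_combination h3
      have h7 := mul_left_cancel₀ hμ0 h6
      field_simp
      linear_combination -h7
    · simp only [hi, if_false] at h3 ⊢
      have h6 : μ 1 * (μ 0 * b i) = μ 1 * (μ 1 * b' i) := by
        rw [zero_add] at h3
        linear_combination h3
      have h7 := mul_left_cancel₀ hμ1 h6
      field_simp
      linear_combination -h7
  · rintro ⟨c, hc, rfl⟩
    obtain ⟨s, hs⟩ := IsAlgClosed.exists_pow_nat_eq c (n := 2) (by norm_num)
    have hs0 : s ≠ 0 := by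
      intro h0
      rw [h0, zero_pow (by norm_num)] at hs
      exact hc hs.symm
    have hne : ∀ i : ℕ, (if Even i then s else s⁻¹) ≠ 0 := by
      intro i
      split_ifs
      · exact hs0
      · exact inv_ne_zero hs0
    have hval : ∀ i : ℕ, i < m + n + 2 → ((i : ℕ) : ZMod (m + n + 2)).val = i :=
      fun i hi => ZMod.val_natCast_of_lt hi
    obtain ⟨_, hb2, h2⟩ := cfgB_of_lift (cfgB b hb : Cfg k m n)
      (fun i => (if Even i.val then s else s⁻¹) • pv b i) (fun i => by
        have h1 : (if Even i.val then s else s⁻¹) • pv b i ≠ 0 :=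
          smul_ne_zero (hne _) (wv_ne_zero b _)
        refine ⟨h1, ?_⟩
        rw [pt_cfgB, Projectivization.mk_eq_mk_iff']
        exact ⟨(if Even i.val then s else s⁻¹)⁻¹, by
          rw [smul_smul, inv_mul_cancel₀ (hne _), one_smul]⟩) (fun i hi => by
        have e1 := hval i (by omega)
        have e2 : (((i : ℕ) : ZMod (m + n + 2)) + 1).val = i + 1 := by
          have e3 : (((i : ℕ) : ZMod (m + n + 2)) + 1) = ((i + 1 : ℕ) : ZMod (m + n + 2)) := by
            push_cast; ring
          rw [e3]
          exact hval _ (by omega)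
        unfold pv
        simp only [e1, e2]
        have h3 := det2_wv_succ b i
        have h4 : (if Even i then s else s⁻¹) * (if Even (i + 1) then s else s⁻¹) = 1 := by
          by_cases hi : Even i
          · rw [if_pos hi, if_neg (by rw [Nat.even_add_one]; exact not_not.2 hi)]
            exact mul_inv_cancel₀ hs0
          · rw [if_neg hi, if_pos (by rw [Nat.even_add_one]; exact hi)]
            exact inv_mul_cancel₀ hs0
        simp only [det2, Pi.smul_apply, smul_eq_mul] at h3 ⊢
        linear_combination h3 * ((if Even i then s else s⁻¹) * (if Even (i + 1) then s else s⁻¹)) + h4)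
    have hfun : (fun i : Fin (m + n) =>
        det2 ((fun i : ZMod (m + n + 2) => (if Even i.val then s else s⁻¹) • pv b i)
          ((i : ℕ) : ZMod (m + n + 2)))
          ((fun i : ZMod (m + n + 2) => (if Even i.val then s else s⁻¹) • pv b i)
          (((i : ℕ) : ZMod (m + n + 2)) + 2))) = scl c b := by
      funext i
      have hi := i.isLt
      have e1 := hval i.val (by omega)
      have e2 : (((i.val : ℕ) : ZMod (m + n + 2)) + 2).val = i.val + 2 := by
        have e3 : (((i.val : ℕ) : ZMod (m + n + 2)) + 2) = ((i.val + 2 : ℕ) : ZMod (m + n + 2)) := by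
          push_cast; ring
        rw [e3]
        exact hval _ (by omega)
      have p1 : Even (i.val + 2) ↔ Even i.val := by
        rw [Nat.even_add]
        simp
      unfold pv scl
      simp only [e1, e2, p1]
      have h3 := det2_wv_two b i
      have h4 : ∀ a : k, det2 (a • wv b i.val) (a • wv b (i.val + 2)) = a ^ 2 * b i := by
        intro a
        rw [← h3]
        simp only [det2, Pi.smul_apply, smul_eq_mul]
        ring
      by_cases hi : Even i.val
      · simp only [hi, if_true]
        rw [h4, hs]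
      · simp only [hi, if_false]
        rw [h4, inv_pow, hs]
    have h5 : ∀ (b₁ b₂ : Fin (m + n) → k) (h₁ : Kv b₁ ≠ 0) (h₂ : Kv b₂ ≠ 0), b₁ = b₂ →
        (cfgB b₁ h₁ : Cfg k m n) ≈ cfgB b₂ h₂ := by
      rintro b₁ b₂ h₁ h₂ rfl
      exact Setoid.refl _
    exact Setoid.trans h2 (h5 _ _ _ _ hfun)

end Pool.Agent.Lib.MP_d4c67c_gt
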