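import Pool.Agent.Lib.MP_d4c67c_gt.E.B
import Pool.Agent.Lib.MP_d4c67c_gt.Q

/-!
# JOB EC: the algebra `Reg k m n`: domain, descent, units (descent and units for `m + n` even)

(You may use `E/A.lean`, `E/B.lean`, `Q.lean`, which are other jobs.)
Notation: `K = (Ws (vr k l) (l+1)).2`, the polynomial with `eval b K = Kv b`.
-/

open scoped LinearAlgebra.Projectivization

namespace Pool.Agent.Lib.MP_d4c67c_gt

variable {k : Type*} [Field k] {m n : ℕ}

private theorem EC_surj (x : Conf k m n) : ∃ (b : Fin (m + n) → k) (hb : Kv b ≠ 0),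
    x = Quotient.mk _ (cfgB b hb) := by
  obtain ⟨p, rfl⟩ := Quotient.exists_rep x
  obtain ⟨b, hb, hp⟩ := cfgB_surj p
  exact ⟨b, hb, Quotient.sound hp⟩

private theorem EC_eval {l : ℕ} (b : Fin l → k) :
    MvPolynomial.eval b (Ws (vr k l) (l + 1)).2 = Kv b := by
  unfold Kv
  rw [Ws_sq_aeval (k := k) b (l + 1)]
  rfl

private theorem EC_ne (l : ℕ) : (Ws (vr k l) (l + 1)).2 ≠ 0 := q_ne_zero l (l + 1) (by omega) le_rfl

/-- an element of `Reg` is determined by its values at the `cfgB b` (`cfgB_surj`) -/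
theorem Reg_ext {f g : Reg k m n}
    (h : ∀ (b : Fin (m + n) → k) (hb : Kv b ≠ 0),
      f.1 (Quotient.mk _ (cfgB b hb)) = g.1 (Quotient.mk _ (cfgB b hb))) : f = g := by
  refine Subtype.ext (funext fun x => ?_)
  obtain ⟨b, hb, hx⟩ := EC_surj x
  rw [hx]
  exact h b hb

/-- If a polynomial vanishes at all `b` with `K(b) ≠ 0` it is zero (`k` infinite, `K ≠ 0` by `q_ne_zero`). -/
theorem poly_zero_of_U [CharZero k] {l : ℕ} (P : MvPolynomial (Fin l) k)
    (h : ∀ b : Fin l → k, Kv b ≠ 0 → MvPolynomial.eval b P = 0) : P = 0 := by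
  have _inst : Infinite k := Infinite.of_injective (Nat.cast : ℕ → k) Nat.cast_injective
  have h1 : P * (Ws (vr k l) (l + 1)).2 = 0 := by
    refine MvPolynomial.funext fun b => ?_
    rw [map_mul, map_zero, EC_eval]
    by_cases hb : Kv b = 0
    · rw [hb, mul_zero]
    · rw [h b hb, zero_mul]
  exact (mul_eq_zero.1 h1).resolve_right (EC_ne l)

private theorem EC_eq {l : ℕ} [CharZero k] (P P' : MvPolynomial (Fin l) k)
    (h : ∀ b : Fin l → k, Kv b ≠ 0 → MvPolynomial.eval b P = MvPolynomial.eval b P') : P = P' := by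
  refine sub_eq_zero.1 (poly_zero_of_U _ fun b hb => ?_)
  rw [map_sub, h b hb, sub_self]

private theorem EC_zero {f : Reg k m n} {e : ℕ} (h : ∀ (b : Fin (m + n) → k) (hb : Kv b ≠ 0),
    f.1 (Quotient.mk _ (cfgB b hb)) * (Kv b) ^ e = 0) : f = 0 := by
  refine Reg_ext fun b hb => ?_
  exact (mul_eq_zero.1 (h b hb)).resolve_right (pow_ne_zero _ hb)

/-- `reg_poly` for both functions: `P * P' * K = 0`, … -/
theorem Reg_isDomain [CharZero k] : IsDomain (Reg k m n) := by
  have _inst : Nontrivial (Reg k m n) := by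
    refine ⟨⟨0, 1, fun h01 => ?_⟩⟩
    have h1 : (1 : MvPolynomial (Fin (m + n)) k) = 0 := by
      refine poly_zero_of_U _ fun b hb => ?_
      have h2 : (0 : Reg k m n).1 (Quotient.mk _ (cfgB b hb)) = (1 : Reg k m n).1 (Quotient.mk _ (cfgB b hb)) := by
        rw [h01]
      have h3 : (0 : k) = 1 := h2
      exact absurd h3 zero_ne_one
    exact one_ne_zero h1
  have _inst : NoZeroDivisors (Reg k m n) := by
    refine ⟨fun {f g} hfg => ?_⟩
    obtain ⟨P, e, hP⟩ := reg_poly f.1 f.2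
    obtain ⟨P', e', hP'⟩ := reg_poly g.1 g.2
    have h1 : P * P' = 0 := by
      refine poly_zero_of_U _ fun b hb => ?_
      rw [map_mul, ← hP b hb, ← hP' b hb]
      have h2 : (f * g).1 (Quotient.mk _ (cfgB b hb)) = (0 : Reg k m n).1 (Quotient.mk _ (cfgB b hb)) := by
        rw [hfg]
      have h3 : f.1 (Quotient.mk _ (cfgB b hb)) * g.1 (Quotient.mk _ (cfgB b hb)) = 0 := h2
      linear_combination (Kv b ^ e * Kv b ^ e') * h3
    rcases mul_eq_zero.1 h1 with h2 | h2
    · left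
      refine EC_zero (e := e) fun b hb => ?_
      rw [hP b hb, h2, map_zero]
    · right
      refine EC_zero (e := e') fun b hb => ?_
      rw [hP' b hb, h2, map_zero]
  exact NoZeroDivisors.to_isDomain _

/-- Descent.  Let `Q/K^e` be a function on `{K(b) ≠ 0}` such that `f = g * (Q/K^e)` with `f, g` in `Reg`, `g ≠ 0`; then
`Q/K^e` is an element of `Reg`.  Invariance: let `c ≠ 0`, and `Qc` the polynomial with `eval b Qc = eval (scl c b) Q`.  For
`b` with `K(b) ≠ 0`, `f` and `g` take the same values at `cfgB b` and `cfgB (scl c b)` (`cfgB_equiv`, `Kv_scl`), so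
`g(b) * (eval b Qc - eval b Q) = 0`; with `g = P_g / K^a`, `P_g * (Qc - Q) = 0` by `poly_zero_of_U`, so `Qc = Q`.
Hence `h(P) = Q(b)/K(b)^e`, `b` chosen with `P = [cfgB b]` (`cfgB_surj`), satisfies the formula for every `b` by
`cfgB_equiv`, and it is regular by `poly_reg`. -/
theorem descend [IsAlgClosed k] [CharZero k] (he : Even (m + n)) (Q : MvPolynomial (Fin (m + n)) k)
    (e : ℕ) (f g : Reg k m n) (hg : g ≠ 0)
    (h : ∀ (b : Fin (m + n) → k) (hb : Kv b ≠ 0), f.1 (Quotient.mk _ (cfgB b hb)) * (Kv b) ^ e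
      = g.1 (Quotient.mk _ (cfgB b hb)) * MvPolynomial.eval b Q) :
    ∃ q : Reg k m n, f = g * q ∧ ∀ (b : Fin (m + n) → k) (hb : Kv b ≠ 0),
      q.1 (Quotient.mk _ (cfgB b hb)) * (Kv b) ^ e = MvPolynomial.eval b Q := by
  obtain ⟨P, a, hP⟩ := reg_poly g.1 g.2
  have hP0 : P ≠ 0 := by
    intro h0
    refine hg (EC_zero (e := a) fun b hb => ?_)
    rw [hP b hb, h0, map_zero]
  -- invariance
  have hinv : ∀ c : k, c ≠ 0 → ∀ b : Fin (m + n) → k,
      MvPolynomial.eval (scl c b) Q = MvPolynomial.eval b Q := by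
    intro c hc
    obtain ⟨Qc, hQc⟩ : ∃ Qc : MvPolynomial (Fin (m + n)) k, ∀ b : Fin (m + n) → k,
        MvPolynomial.eval b Qc = MvPolynomial.eval (scl c b) Q := by
      refine ⟨MvPolynomial.bind₁ (fun i : Fin (m + n) =>
        MvPolynomial.C (if Even i.val then c else c⁻¹) * MvPolynomial.X i) Q, fun b => ?_⟩
      have h1 : MvPolynomial.eval b (MvPolynomial.bind₁ (fun i : Fin (m + n) =>
          MvPolynomial.C (if Even i.val then c else c⁻¹) * MvPolynomial.X i) Q) =
          MvPolynomial.eval (fun i => MvPolynomial.eval b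
            (MvPolynomial.C (if Even i.val then c else c⁻¹) * MvPolynomial.X i)) Q := by
        have h2 := MvPolynomial.eval₂Hom_bind₁ (RingHom.id k) b (fun i : Fin (m + n) =>
          MvPolynomial.C (if Even i.val then c else c⁻¹) * MvPolynomial.X i) Q
        exact h2
      rw [h1]
      congr 2
      funext i
      unfold scl
      rw [map_mul, MvPolynomial.eval_C, MvPolynomial.eval_X]
      split_ifs <;> rfl
    have h1 : P * (Qc - Q) = 0 := by
      refine poly_zero_of_U _ fun b hb => ?_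
      have hb' : Kv (scl c b) ≠ 0 := by
        rw [Kv_scl he hc]
        exact hb
      have h2 : (Quotient.mk _ (cfgB b hb) : Conf k m n) = Quotient.mk _ (cfgB (scl c b) hb') :=
        Quotient.sound ((cfgB_equiv he b (scl c b) hb hb').2 ⟨c, hc, rfl⟩)
      have h3 := h b hb
      have h4 := h (scl c b) hb'
      have h5 := hP b hb
      rw [← h2, Kv_scl he hc, ← hQc] at h4
      rw [map_mul, map_sub, ← h5]
      linear_combination (Kv b) ^ a * (h3 - h4)
    have h2 : Qc = Q := sub_eq_zero.1 ((mul_eq_zero.1 h1).resolve_left hP0)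
    intro b
    rw [← hQc, h2]
  choose B HB hB using (EC_surj : ∀ x : Conf k m n, _)
  have hval : ∀ (b : Fin (m + n) → k) (hb : Kv b ≠ 0),
      (MvPolynomial.eval (B (Quotient.mk _ (cfgB b hb))) Q / (Kv (B (Quotient.mk _ (cfgB b hb)))) ^ e)
        * (Kv b) ^ e = MvPolynomial.eval b Q := by
    intro b hb
    obtain ⟨c, hc, hc'⟩ := (cfgB_equiv he b _ hb (HB (Quotient.mk _ (cfgB b hb)))).1
      (Quotient.exact (hB (Quotient.mk _ (cfgB b hb))))
    rw [hc', hinv c hc, Kv_scl he hc]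
    exact div_mul_cancel₀ _ (pow_ne_zero _ hb)
  have hreg : IsRegular (fun x : Conf k m n => MvPolynomial.eval (B x) Q / (Kv (B x)) ^ e) :=
    poly_reg (fun x : Conf k m n => MvPolynomial.eval (B x) Q / (Kv (B x)) ^ e) Q e
      (fun b hb => hval b hb)
  refine ⟨⟨fun x => MvPolynomial.eval (B x) Q / (Kv (B x)) ^ e, hreg⟩, ?_, fun b hb => hval b hb⟩
  refine Reg_ext fun b hb => ?_
  have h1 := h b hb
  have h2 := hval b hb
  rw [← h2, ← mul_assoc] at h1
  exact mul_right_cancel₀ (pow_ne_zero e hb) h1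

/-- Units.  `u = P/K^a`, `u⁻¹ = P'/K^a'`, so `P * P' = K^(a+a')` as polynomials; `K` is prime (`q_irred` with `n = l + 1`,
UFD), so `P = c * K^s` (`dvd_prime_pow`; units of the polynomial ring are constants). -/
theorem units_reg [CharZero k] (h1 : 1 ≤ m + n) (u : Reg k m n) (hu : IsUnit u) :
    ∃ (c : k) (z : ℤ), c ≠ 0 ∧ ∀ (b : Fin (m + n) → k) (hb : Kv b ≠ 0),
      u.1 (Quotient.mk _ (cfgB b hb)) = c * (Kv b) ^ z := by
  obtain ⟨v, huv⟩ := hu.exists_right_inv
  obtain ⟨P, a, hP⟩ := reg_poly u.1 u.2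
  obtain ⟨P', a', hP'⟩ := reg_poly v.1 v.2
  have h2 : P * P' = (Ws (vr k (m + n)) (m + n + 1)).2 ^ (a + a') := by
    refine EC_eq _ _ fun b hb => ?_
    rw [map_mul, map_pow, EC_eval, ← hP b hb, ← hP' b hb]
    have h3 : (u * v).1 (Quotient.mk _ (cfgB b hb)) = (1 : Reg k m n).1 (Quotient.mk _ (cfgB b hb)) := by
      rw [huv]
    have h4 : u.1 (Quotient.mk _ (cfgB b hb)) * v.1 (Quotient.mk _ (cfgB b hb)) = 1 := h3
    rw [pow_add]
    linear_combination (Kv b ^ a * Kv b ^ a') * h4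
  have hprime : Prime (Ws (vr k (m + n)) (m + n + 1)).2 :=
    (q_irred (m + n) (m + n + 1) (by omega) le_rfl).prime
  obtain ⟨i, hi, hassoc⟩ := (dvd_prime_pow hprime _).1 (Dvd.intro _ h2)
  obtain ⟨w, hw⟩ := hassoc.symm
  obtain ⟨c, hc, hwc⟩ := MvPolynomial.isUnit_iff_eq_C_of_isReduced.1 w.isUnit
  refine ⟨c, (i : ℤ) - (a : ℤ), hc.ne_zero, fun b hb => ?_⟩
  have h5 := hP b hb
  rw [← hw, hwc, map_mul, map_pow, EC_eval, MvPolynomial.eval_C] at h5
  rw [zpow_sub₀ hb, zpow_natCast, zpow_natCast, eq_comm, ← mul_div_assoc, div_eq_iff (pow_ne_zero a hb)]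
  linear_combination - h5

/-- for `m + n` even the function `κ`, `κ [cfgB b] = K(b)`, is a unit of `Reg` (well defined by `cfgB_equiv`, `Kv_scl`;
regular by `poly_reg`, and so is its inverse with `P = 1`, `e = 1`) -/
theorem exists_kappa [IsAlgClosed k] (he : Even (m + n)) :
    ∃ κ : Reg k m n, IsUnit κ ∧ ∀ (b : Fin (m + n) → k) (hb : Kv b ≠ 0),
      κ.1 (Quotient.mk _ (cfgB b hb)) = Kv b := by
  choose B HB hB using (EC_surj : ∀ x : Conf k m n, _)
  have hval : ∀ (b : Fin (m + n) → k) (hb : Kv b ≠ 0), Kv (B (Quotient.mk _ (cfgB b hb))) = Kv b := by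
    intro b hb
    obtain ⟨c, hc, hc'⟩ := (cfgB_equiv he b _ hb (HB (Quotient.mk _ (cfgB b hb)))).1
      (Quotient.exact (hB (Quotient.mk _ (cfgB b hb))))
    rw [hc', Kv_scl he hc]
  have h1 : IsRegular (fun x : Conf k m n => Kv (B x)) := by
    refine poly_reg _ (Ws (vr k (m + n)) (m + n + 1)).2 0 fun b hb => ?_
    rw [pow_zero, mul_one, EC_eval]
    exact hval b hb
  have h2 : IsRegular (fun x : Conf k m n => (Kv (B x))⁻¹) := by
    refine poly_reg _ 1 1 fun b hb => ?_
    rw [pow_one, map_one]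
    show (Kv (B (Quotient.mk _ (cfgB b hb))))⁻¹ * Kv b = 1
    rw [hval b hb]
    exact inv_mul_cancel₀ hb
  refine ⟨⟨fun x => Kv (B x), h1⟩, ?_, fun b hb => hval b hb⟩
  have h3 : (⟨fun x => Kv (B x), h1⟩ : Reg k m n) * ⟨fun x => (Kv (B x))⁻¹, h2⟩ = 1 := by
    refine Subtype.ext (funext fun x => ?_)
    exact mul_inv_cancel₀ (HB x)
  exact IsUnit.of_mul_eq_one _ h3

end Pool.Agent.Lib.MP_d4c67c_gt
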