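import Pool.Agent.Lib.MP_d4c67c_gt.E.H

/-!
# JOB EI: special points; comaximal pairs

(You may use `E/A.lean`, …, `E/H.lean`, which are other jobs.)
-/

open scoped LinearAlgebra.Projectivization

namespace Pool.Agent.Lib.MP_d4c67c_gt

variable {k : Type*} [Field k] {m n : ℕ}

/-- the same unordered pair -/
def Sm {N : ℕ} (i j a b : ZMod N) : Prop := (i = a ∧ j = b) ∨ (i = b ∧ j = a)

/-- the unordered pairs share an element and the other elements are adjacent -/
def Nb {N : ℕ} (i j a b : ZMod N) : Prop :=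
  (i = a ∧ (b = j + 1 ∨ j = b + 1)) ∨ (i = b ∧ (a = j + 1 ∨ j = a + 1)) ∨
  (j = a ∧ (b = i + 1 ∨ i = b + 1)) ∨ (j = b ∧ (a = i + 1 ∨ i = a + 1))

private theorem EI_cast_ne (c : ℕ) (h0 : 0 < c) (hc : c < m + n + 2) : ((c : ℕ) : ZMod (m + n + 2)) ≠ 0 := by
  intro h
  have h1 := ZMod.val_natCast_of_lt hc
  rw [h, ZMod.val_zero] at h1
  omega

private theorem EI_succ_ne (a : ZMod (m + n + 2)) : a + 1 ≠ a := by
  intro h
  have h1 : ((1 : ℕ) : ZMod (m + n + 2)) ≠ 0 := EI_cast_ne 1 (by omega) (by omega)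
  apply h1
  rw [Nat.cast_one]
  linear_combination h

private theorem EI_van_symm {i j : ZMod (m + n + 2)} {f : Reg k m n} (h : Van i j f) : Van j i f :=
  fun P hP => h P ((ZS_symm i j P).2 hP)

/-- A point from a labelling: if `t : ZMod N → ℕ` takes different values at adjacent labels, there is a configuration with
flags `i`, `j` equal if and only if `t i = t j` (flag number `i` is the line of `![t i, 1]`, `k` of characteristic `0`;
`ofPt`, `pt_ofPt`, `mk_eq_mk_iff_det2`). -/
theorem point_of_label [CharZero k] (t : ZMod (m + n + 2) → ℕ) (ht : ∀ i, t i ≠ t (i + 1)) :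
    ∃ P : Conf k m n, ∀ i j, ZS i j P ↔ t i = t j := by
  have hne : ∀ c : k, (![c, 1] : Fin 2 → k) ≠ 0 := by
    intro c h
    have h1 := congrFun h 1
    simp at h1
  have key : ∀ i j : ZMod (m + n + 2),
      (Projectivization.mk k (![((t i : ℕ) : k), 1] : Fin 2 → k) (hne _) =
        Projectivization.mk k (![((t j : ℕ) : k), 1] : Fin 2 → k) (hne _)) ↔ t i = t j := by
    intro i j
    rw [mk_eq_mk_iff_det2]
    unfold det2
    simp only [Matrix.cons_val_zero, Matrix.cons_val_one, mul_one, one_mul]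
    rw [sub_eq_zero]
    exact Nat.cast_inj
  refine ⟨Quotient.mk _ (ofPt (fun i => Projectivization.mk k (![((t i : ℕ) : k), 1] : Fin 2 → k) (hne _))
    (fun i h => ht i ((key i (i + 1)).1 h))), fun i j => ?_⟩
  rw [ZS_mk, pt_ofPt, pt_ofPt]
  exact key i j

/-- one coincidence only: `t i = i.val`, except `t j = i.val` -/
theorem pts_one [CharZero k] (i j : ZMod (m + n + 2)) (h : Dg i j) :
    ∃ P : Conf k m n, ZS i j P ∧ ∀ a b, a ≠ b → ZS a b P → Sm i j a b := by
  obtain ⟨h1, h2, h3⟩ := h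
  obtain ⟨P, hP⟩ := point_of_label (k := k) (m := m) (n := n)
    (fun a => if a = j then i.val else a.val) (by
      intro a h
      have h0 := EI_succ_ne a
      by_cases ha : a = j
      · have hb : a + 1 ≠ j := fun hb => h0 (hb.trans ha.symm)
        simp only [if_pos ha, if_neg hb] at h
        exact h3 ((ZMod.val_injective _ h).trans (by rw [ha]))
      · by_cases hb : a + 1 = j
        · simp only [if_neg ha, if_pos hb] at h
          exact h2 (by rw [← hb, ZMod.val_injective _ h])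
        · simp only [if_neg ha, if_neg hb] at h
          exact h0 (ZMod.val_injective _ h).symm)
  refine ⟨P, (hP i j).2 ?_, fun a b hab hz => ?_⟩
  · simp only [if_neg h1.symm, if_true]
  · have h := (hP a b).1 hz
    by_cases ha : a = j
    · have hb : b ≠ j := fun hb => hab (ha.trans hb.symm)
      simp only [if_pos ha, if_neg hb] at h
      exact Or.inr ⟨ZMod.val_injective _ h, ha.symm⟩
    · by_cases hb : b = j
      · simp only [if_neg ha, if_pos hb] at h
        exact Or.inl ⟨(ZMod.val_injective _ h).symm, hb.symm⟩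
      · simp only [if_neg ha, if_neg hb] at h
        exact absurd (ZMod.val_injective _ h) hab

/-- Two coincidences that are not neighbours: `t` is `val` composed with the map that identifies `j` with `i` and `b` with `a`
(if the pairs share a label, all three labels get the same value); two adjacent labels have the same value only if they
belong to the same class, which is impossible as `(i,j)`, `(a,b)` are diagonals and the pairs are not neighbours. -/
theorem pts_two [CharZero k] (i j a b : ZMod (m + n + 2)) (h : Dg i j) (h' : Dg a b)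
    (hn : ¬ Nb i j a b) : ∃ P : Conf k m n, ZS i j P ∧ ZS a b P := by
  obtain ⟨h1, h2, h3⟩ := h
  obtain ⟨h4, h5, h6⟩ := h'
  unfold Nb at hn
  push Not at hn
  obtain ⟨n1, n2, n3, n4⟩ := hn
  obtain ⟨u, hu⟩ : ∃ u : ZMod (m + n + 2) → ZMod (m + n + 2), ∀ x, u x = if x = b then a else x :=
    ⟨_, fun x => rfl⟩
  obtain ⟨σ, hσ⟩ : ∃ σ : ZMod (m + n + 2) → ZMod (m + n + 2), ∀ x, σ x = if u x = u j then u i else u x :=
    ⟨_, fun x => rfl⟩
  obtain ⟨P, hP⟩ := point_of_label (k := k) (m := m) (n := n) (fun x => (σ x).val) (by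
      intro x h
      have h0 := EI_succ_ne x
      have h := ZMod.val_injective _ h
      rw [hσ, hσ, hu, hu, hu, hu] at h
      grind)
  refine ⟨P, (hP i j).2 ?_, (hP a b).2 ?_⟩
  · show (σ i).val = (σ j).val
    rw [hσ i, hσ j, if_pos rfl]
    split_ifs <;> rfl
  · show (σ a).val = (σ b).val
    have h7 : u a = u b := by
      rw [hu a, hu b, if_pos rfl, if_neg h4.symm]
    rw [hσ a, hσ b, h7]

/-- neighbours are comaximal: `cR i j - gR i j = 1` -/
theorem comax (i j : ZMod (m + n + 2)) :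
    ∃ f g : Reg k m n, Van i j f ∧ Van i (j + 1) g ∧ f + g = 1 := by
  refine ⟨cR i j, - gR i j, fun P hP => (cF_zero i j P).2 (Or.inl hP), fun P hP => ?_, ?_⟩
  · show - (cG i j P) = 0
    rw [(cG_zero i j P).2 (Or.inl hP), neg_zero]
  · refine Subtype.ext (funext fun P => ?_)
    show cF i j P + - cG i j P = 1
    rw [cF_eq]
    ring

/-- for all pairs of neighbours (by `comax` and the symmetry of `Van`, `ZS_symm`) -/
theorem comax_nb (i j a b : ZMod (m + n + 2)) (h : Nb i j a b) :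
    ∃ f g : Reg k m n, Van i j f ∧ Van a b g ∧ f + g = 1 := by
  have s1 : ∀ i j : ZMod (m + n + 2), ∃ f g : Reg k m n, Van i j f ∧ Van i (j + 1) g ∧ f + g = 1 := comax
  have s2 : ∀ i j : ZMod (m + n + 2), ∃ f g : Reg k m n, Van i (j + 1) f ∧ Van i j g ∧ f + g = 1 := by
    intro i j
    obtain ⟨f, g, h1, h2, h3⟩ := s1 i j
    exact ⟨g, f, h2, h1, by rw [add_comm, h3]⟩
  have s3 : ∀ i j a b : ZMod (m + n + 2),
      (∃ f g : Reg k m n, Van i j f ∧ Van a b g ∧ f + g = 1) →
      ∃ f g : Reg k m n, Van j i f ∧ Van a b g ∧ f + g = 1 := by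
    rintro i j a b ⟨f, g, h1, h2, h3⟩
    exact ⟨f, g, EI_van_symm h1, h2, h3⟩
  have s4 : ∀ i j a b : ZMod (m + n + 2),
      (∃ f g : Reg k m n, Van i j f ∧ Van a b g ∧ f + g = 1) →
      ∃ f g : Reg k m n, Van i j f ∧ Van b a g ∧ f + g = 1 := by
    rintro i j a b ⟨f, g, h1, h2, h3⟩
    exact ⟨f, g, h1, EI_van_symm h2, h3⟩
  rcases h with ⟨rfl, rfl | rfl⟩ | ⟨rfl, rfl | rfl⟩ | ⟨rfl, rfl | rfl⟩ | ⟨rfl, rfl | rfl⟩
  · exact s1 _ _
  · exact s2 _ _
  · exact s4 _ _ _ _ (s1 _ _)
  · exact s4 _ _ _ _ (s2 _ _)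
  · exact s3 _ _ _ _ (s1 _ _)
  · exact s3 _ _ _ _ (s2 _ _)
  · exact s3 _ _ _ _ (s4 _ _ _ _ (s1 _ _))
  · exact s3 _ _ _ _ (s4 _ _ _ _ (s2 _ _))

/-- comaximal diagonals are neighbours (`pts_two`) -/
theorem nb_of_comax [CharZero k] (i j a b : ZMod (m + n + 2)) (h : Dg i j) (h' : Dg a b)
    (hc : ∃ f g : Reg k m n, Van i j f ∧ Van a b g ∧ f + g = 1) : Nb i j a b := by
  by_contra hn
  obtain ⟨P, h1, h2⟩ := pts_two (k := k) i j a b h h' hn
  obtain ⟨f, g, hf, hg, hfg⟩ := hc
  have h3 : (f + g).1 P = (1 : Reg k m n).1 P := by rw [hfg]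
  have h4 : f.1 P + g.1 P = 1 := h3
  rw [hf P h1, hg P h2, add_zero] at h4
  exact zero_ne_one h4

/-- if all functions vanishing for `(a,b)` vanish for the diagonal `(i,j)`, `a ≠ b`, the pairs are the same: take the point of
`pts_one i j`; if the pairs differ, one of `cR a b`, `cR (a-1) (b-1)`, which vanish for `(a,b)`, does not vanish there
(`cF_zero`: otherwise both `{a+1,b+1}` and `{a-1,b-1}` are `{i,j}`, hence `{a+1,b+1} = {a-1,b-1}`, `2 = 0` or `4 = 0` and …,
impossible for `m + n + 2 ≥ 5`; with `m+n+2 = 6` even one needs `a+1 = b-1` and `b+1 = a-1`, so `4 = 0`) -/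
theorem van_sub [CharZero k] (h4 : 4 ≤ m + n) (i j a b : ZMod (m + n + 2)) (h : Dg i j) (hab : a ≠ b)
    (hs : ∀ f : Reg k m n, Van a b f → Van i j f) : Sm i j a b := by
  obtain ⟨P, h1, h2⟩ := pts_one (k := k) i j h
  by_contra hns
  have c1 : cF a b P = 0 := hs (cR a b) (fun Q hQ => (cF_zero a b Q).2 (Or.inl hQ)) P h1
  have c2 : cF (a - 1) (b - 1) P = 0 := by
    refine hs (cR (a - 1) (b - 1)) (fun Q hQ => (cF_zero (a - 1) (b - 1) Q).2 (Or.inr ?_)) P h1
    rw [sub_add_cancel, sub_add_cancel]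
    exact hQ
  have d1 : Sm i j (a + 1) (b + 1) := by
    rcases (cF_zero a b P).1 c1 with h3 | h3
    · exact absurd (h2 a b hab h3) hns
    · exact h2 _ _ (fun h4 => hab (add_right_cancel h4)) h3
  have d2 : Sm i j (a - 1) (b - 1) := by
    rcases (cF_zero (a - 1) (b - 1) P).1 c2 with h3 | h3
    · exact h2 _ _ (fun h4 => hab (sub_left_injective h4)) h3
    · rw [sub_add_cancel, sub_add_cancel] at h3
      exact absurd (h2 a b hab h3) hns
  have e2 : (2 : ZMod (m + n + 2)) ≠ 0 := by exact_mod_cast EI_cast_ne (m := m) (n := n) 2 (by omega) (by omega)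
  have e4 : (4 : ZMod (m + n + 2)) ≠ 0 := by exact_mod_cast EI_cast_ne (m := m) (n := n) 4 (by omega) (by omega)
  rcases d1 with ⟨x1, x2⟩ | ⟨x1, x2⟩ <;> rcases d2 with ⟨y1, y2⟩ | ⟨y1, y2⟩
  · exact e2 (by linear_combination y1 - x1)
  · exact e4 (by linear_combination y1 - x1 + y2 - x2)
  · exact e4 (by linear_combination y1 - x1 + y2 - x2)
  · exact e2 (by linear_combination y1 - x1)

end Pool.Agent.Lib.MP_d4c67c_gt
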