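import Pool.Agent.Lib.MP_d4c67c_gt.E.S
import Pool.Agent.Lib.MP_d4c67c_gt.E.I
import Pool.Agent.Lib.MP_d4c67c_gt.E.C

/-!
# JOB EL: the small cells `m + n ≤ 2`

(You may use all files `E/A.lean`, …, `E/S.lean`, which are other jobs; the lemmas here are independent.)
-/

open scoped LinearAlgebra.Projectivization

namespace Pool.Agent.Lib.MP_d4c67c_gt

variable {k : Type*} [Field k] {m n m' n' : ℕ}

private theorem EL_surj (x : Conf k m n) : ∃ (b : Fin (m + n) → k) (hb : Kv b ≠ 0),
    x = Quotient.mk _ (cfgB b hb) := by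
  obtain ⟨p, rfl⟩ := Quotient.exists_rep x
  obtain ⟨b, hb, hp⟩ := cfgB_surj p
  exact ⟨b, hb, Quotient.sound hp⟩

private theorem EL_cast_ne (c : ℕ) (h0 : 0 < c) (hc : c < m + n + 2) : ((c : ℕ) : ZMod (m + n + 2)) ≠ 0 := by
  intro h
  have h1 := ZMod.val_natCast_of_lt hc
  rw [h, ZMod.val_zero] at h1
  omega

/-- `m + n = 1`: every configuration is equivalent to `cfgB (fun _ => 1)` -/
private theorem EL_one [IsAlgClosed k] (h : m + n = 1) (p : Cfg k m n) :
    ∃ hb : Kv (fun _ : Fin (m + n) => (1 : k)) ≠ 0, p ≈ cfgB (fun _ => 1) hb := by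
  have hd : ∀ i : ZMod (m + n + 2), det2 (pt p i).rep (pt p (i + 1)).rep ≠ 0 := by
    intro i h0
    apply pt_ne p i
    rw [← mk_eq_mk_iff_det2 (pt p i).rep_nonzero (pt p (i + 1)).rep_nonzero,
      Projectivization.mk_rep, Projectivization.mk_rep] at h0
    exact h0
  obtain ⟨d, hdd⟩ : ∃ d : ZMod (m + n + 2) → k, ∀ i, d i = det2 (pt p i).rep (pt p (i + 1)).rep :=
    ⟨_, fun i => rfl⟩
  have hd' : ∀ i, d i ≠ 0 := fun i => by rw [hdd]; exact hd i
  obtain ⟨s, hs⟩ := IsAlgClosed.exists_pow_nat_eq (- d 1 / (d 0 * d 2)) (n := 2) (by norm_num)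
  have hs0 : s ≠ 0 := by
    intro h0
    rw [h0, zero_pow (by norm_num)] at hs
    have h1 : - d 1 / (d 0 * d 2) ≠ 0 :=
      div_ne_zero (neg_ne_zero.mpr (hd' 1)) (mul_ne_zero (hd' 0) (hd' 2))
    exact h1 hs.symm
  obtain ⟨r, hr⟩ : ∃ r : ℕ → k, ∀ j, r j = if j = 0 then s else if j = 1 then 1 / (s * d 0) else s * d 0 / d 1 :=
    ⟨_, fun j => rfl⟩
  have hr0 : r 0 = s := by rw [hr, if_pos rfl]
  have hr1 : r 1 = 1 / (s * d 0) := by rw [hr, if_neg (by norm_num), if_pos rfl]
  have hr2 : r 2 = s * d 0 / d 1 := by rw [hr, if_neg (by norm_num), if_neg (by norm_num)]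
  have hrne : ∀ j, r j ≠ 0 := by
    intro j
    rw [hr]
    split_ifs
    · exact hs0
    · exact one_div_ne_zero (mul_ne_zero hs0 (hd' 0))
    · exact div_ne_zero (mul_ne_zero hs0 (hd' 0)) (hd' 1)
  have c3 : (3 : ZMod (m + n + 2)) = 0 := by
    have h1 := ZMod.natCast_self (m + n + 2)
    have h2 : ((m + n : ℕ) : ZMod (m + n + 2)) = ((1 : ℕ) : ZMod (m + n + 2)) :=
      congrArg (fun t : ℕ => (t : ZMod (m + n + 2))) h
    rw [Nat.cast_add, h2] at h1
    rw [← h1]
    push_cast
    norm_num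
  have v0 : (0 : ZMod (m + n + 2)).val = 0 := ZMod.val_zero
  have v1 : (1 : ZMod (m + n + 2)).val = 1 := by
    have h1 := ZMod.val_natCast_of_lt (n := m + n + 2) (a := 1) (by omega)
    rwa [Nat.cast_one] at h1
  have v2 : (2 : ZMod (m + n + 2)).val = 2 := by
    have h1 := ZMod.val_natCast_of_lt (n := m + n + 2) (a := 2) (by omega)
    exact_mod_cast h1
  obtain ⟨-, hb, h2⟩ := cfgB_of_lift p (fun i => r i.val • (pt p i).rep) (fun i => by
      have h1 : r i.val • (pt p i).rep ≠ 0 := smul_ne_zero (hrne _) (pt p i).rep_nonzero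
      refine ⟨h1, ?_⟩
      have h2 : Projectivization.mk k (pt p i).rep (pt p i).rep_nonzero =
          Projectivization.mk k (r i.val • (pt p i).rep) h1 := by
        rw [Projectivization.mk_eq_mk_iff']
        exact ⟨(r i.val)⁻¹, by rw [smul_smul, inv_mul_cancel₀ (hrne _), one_smul]⟩
      rw [← h2, Projectivization.mk_rep]) (fun i hi => by
      have hi' : i = 0 ∨ i = 1 := by omega
      have hsm : ∀ (a b : k) (x y : Fin 2 → k), det2 (a • x) (b • y) = a * b * det2 x y := by
        intro a b x y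
        simp only [det2, Pi.smul_apply, smul_eq_mul]
        ring
      rcases hi' with rfl | rfl
      · rw [Nat.cast_zero, hsm, ← hdd, zero_add, v0, v1, hr0, hr1]
        have := hd' 0
        field_simp
      · rw [Nat.cast_one, hsm, ← hdd, v1, show (1 : ZMod (m + n + 2)) + 1 = 2 by norm_num, v2, hr1, hr2]
        have := hd' 0
        have := hd' 1
        field_simp)
  have hbe : (fun i : Fin (m + n) =>
      det2 (r ((i : ℕ) : ZMod (m + n + 2)).val • (pt p ((i : ℕ) : ZMod (m + n + 2))).rep)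
        (r (((i : ℕ) : ZMod (m + n + 2)) + 2).val • (pt p (((i : ℕ) : ZMod (m + n + 2)) + 2)).rep)) =
      fun _ => 1 := by
    funext i
    have hi : (i : ℕ) = 0 := by have := i.isLt; omega
    rw [hi, Nat.cast_zero, zero_add, v0, v2, hr0, hr2]
    have h3 := hdd 2
    rw [show (2 : ZMod (m + n + 2)) + 1 = 3 by norm_num, c3] at h3
    have h4 : det2 (s • (pt p 0).rep) ((s * d 0 / d 1) • (pt p 2).rep) = s * (s * d 0 / d 1) * (- d 2) := by
      rw [h3]
      simp only [det2, Pi.smul_apply, smul_eq_mul]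
      ring
    rw [h4]
    have h5 : s * (s * d 0 / d 1) * (- d 2) = s ^ 2 * (- (d 0 * d 2) / d 1) := by ring
    rw [h5, hs]
    have := hd' 0
    have := hd' 1
    have := hd' 2
    field_simp
  have fin : ∀ b' : Fin (m + n) → k, (fun i : Fin (m + n) =>
      det2 (r ((i : ℕ) : ZMod (m + n + 2)).val • (pt p ((i : ℕ) : ZMod (m + n + 2))).rep)
        (r (((i : ℕ) : ZMod (m + n + 2)) + 2).val • (pt p (((i : ℕ) : ZMod (m + n + 2)) + 2)).rep)) = b' →
      ∃ hb' : Kv b' ≠ 0, p ≈ cfgB b' hb' := by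
    rintro b' rfl
    exact ⟨hb, h2⟩
  exact fin _ hbe

/-- All configurations are equivalent.  `m + n = 0`: `cfgB_surj`, and there is only one `b : Fin 0 → k`.  `m + n = 1`:
let `u i = (pt p i).rep`, `d i = det2 (u i) (u (i+1)) ≠ 0` (`i = 0, 1, 2` in `ZMod 3`); choose `μ` with
`μ 0 * μ 1 * d 0 = 1`, `μ 1 * μ 2 * d 1 = 1`, `μ 2 * μ 0 * d 2 = -1` (`k` algebraically closed: `(μ 0)^2 = - d 1 / (d 0 * d 2)`)
and use `cfgB_of_lift` for `v i = μ i • u i`: `b 0 = det2 (v 0) (v 2) = - det2 (v 2) (v 0) = 1`; so every `p` is equivalent to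
`cfgB (fun _ => 1)`. -/
theorem low_subsingleton [IsAlgClosed k] (h : m + n ≤ 1) (P Q : Conf k m n) : P = Q := by
  rcases Nat.lt_or_ge (m + n) 1 with h0 | h1
  · obtain ⟨b, hb, rfl⟩ := EL_surj P
    obtain ⟨b', hb', rfl⟩ := EL_surj Q
    have e : b = b' := funext fun i => absurd i.isLt (by omega)
    subst e
    rfl
  · obtain ⟨p, rfl⟩ := Quotient.exists_rep P
    obtain ⟨q, rfl⟩ := Quotient.exists_rep Q
    obtain ⟨hb, h2⟩ := EL_one (by omega) p
    obtain ⟨hb', h3⟩ := EL_one (by omega) q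
    exact Quotient.sound (Setoid.trans h2 (Setoid.symm h3))

/-- `pts_one 0 2` and `point_of_label` for `t i = i.val` (`m + n + 2 ≥ 4`) -/
theorem low_nontrivial [CharZero k] (h : 2 ≤ m + n) : ∃ P Q : Conf k m n, P ≠ Q := by
  have c1 : ((1 : ℕ) : ZMod (m + n + 2)) ≠ 0 := EL_cast_ne 1 (by omega) (by omega)
  have c2 : ((2 : ℕ) : ZMod (m + n + 2)) ≠ 0 := EL_cast_ne 2 (by omega) (by omega)
  have c3 : ((3 : ℕ) : ZMod (m + n + 2)) ≠ 0 := EL_cast_ne 3 (by omega) (by omega)
  push_cast at c1 c2 c3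
  obtain ⟨P, hP, -⟩ := pts_one (k := k) (m := m) (n := n) 0 2 ⟨c2, fun h => c1 (by linear_combination h),
    fun h => c3 (by linear_combination - h)⟩
  obtain ⟨Q, hQ⟩ := point_of_label (k := k) (m := m) (n := n) (fun i => i.val) (fun i hi =>
    c1 (by linear_combination - ZMod.val_injective _ hi))
  refine ⟨P, Q, fun hPQ => ?_⟩
  rw [hPQ] at hP
  exact c2 (ZMod.val_injective _ ((hQ 0 2).1 hP)).symm

/-- odd entries zero -/
private theorem EL_K {l : ℕ} (he : Even l) (b : Fin l → k) (hb : ∀ i, ¬ Even i.val → b i = 0) :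
    Kv b = (-1) ^ (l / 2) := by
  have hs : ∀ j : ℕ, sq b (2 * j + 1) = 0 := by
    intro j
    unfold sq
    split_ifs with h
    · exact hb _ (by
        intro h1
        have h2 : Even (2 * j + 1) := h1
        rw [Nat.even_add_one] at h2
        exact h2 (even_two_mul j))
    · rfl
  have key : ∀ j : ℕ, Ws (sq b) (2 * j + 1) = (0, (-1) ^ j) := by
    intro j
    induction j with
    | zero => simp [Ws]
    | succ j ih =>
      have h1 : 2 * (j + 1) + 1 = (2 * j + 1) + 2 := by ring
      rw [h1]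
      simp only [Ws, ih, hs j]
      rw [Prod.mk.injEq]
      constructor
      · ring
      · ring
  obtain ⟨t, ht⟩ := he
  have h1 : l + 1 = 2 * t + 1 := by omega
  have h2 : l / 2 = t := by omega
  unfold Kv
  rw [h1, key t, h2]

/-- `P i = [cfgB b]` with `b = (1, 0, i, 0, …, 0)`.  `K(b) = ± 1` (`Ws (sq b) (2 j + 1) = ((-1)^j …)`, all entries with odd
number are `0`).  Not equivalent by `cfgB_equiv`.  For `f` in `Reg` let `f [cfgB b] * K(b)^e = eval b Q` (`reg_poly`); for `t ≠ 0`
`scl t b = t • b` for these `b`, so `eval (t • b) Q = eval b Q` (`cfgB_equiv`, `Kv_scl`), the polynomial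
`eval (X • b) Q - eval b Q` in one variable has infinitely many zeros, so `eval b Q = eval 0 Q`; and `K(b)` does not depend on `i`. -/
theorem no_sep [IsAlgClosed k] [CharZero k] (he : Even (m + n)) (h4 : 4 ≤ m + n) :
    ∃ P : Fin 4 → Conf k m n, Function.Injective P ∧ ∀ (f : Reg k m n) (i j : Fin 4), f.1 (P i) = f.1 (P j) := by
  have _inst : Infinite k := Infinite.of_injective (Nat.cast : ℕ → k) Nat.cast_injective
  obtain ⟨b, hbd⟩ : ∃ b : Fin 4 → Fin (m + n) → k, ∀ i j, b i j =
      if j.val = 0 then 1 else if j.val = 2 then ((i.val : ℕ) : k) else 0 := ⟨_, fun i j => rfl⟩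
  have hodd : ∀ i j, ¬ Even j.val → b i j = 0 := by
    intro i j hj
    rw [hbd, if_neg (fun h => hj (by rw [h]; exact Even.zero)), if_neg (fun h => hj (by rw [h]; exact even_two))]
  have hK : ∀ i, Kv (b i) = (-1) ^ ((m + n) / 2) := fun i => EL_K he (b i) (hodd i)
  have hK0 : ∀ i, Kv (b i) ≠ 0 := by
    intro i
    rw [hK i]
    exact pow_ne_zero _ (neg_ne_zero.mpr one_ne_zero)
  refine ⟨fun i => Quotient.mk _ (cfgB (b i) (hK0 i)), ?_, ?_⟩
  · intro i j hij
    obtain ⟨c, hc, hcb⟩ := (cfgB_equiv he (b i) (b j) (hK0 i) (hK0 j)).1 (Quotient.exact hij)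
    have h0 := congrFun hcb ⟨0, by omega⟩
    have h2 := congrFun hcb ⟨2, by omega⟩
    have e0 : ∀ i, b i ⟨0, by omega⟩ = 1 := fun i => by rw [hbd, if_pos rfl]
    have e2 : ∀ i, b i ⟨2, by omega⟩ = ((i.val : ℕ) : k) := fun i => by
      rw [hbd, if_neg (by norm_num), if_pos rfl]
    unfold scl at h0 h2
    rw [if_pos Even.zero, e0, e0, mul_one] at h0
    rw [if_pos even_two, e2, e2, ← h0, one_mul] at h2
    have h3 : (j.val : ℕ) = i.val := Nat.cast_injective h2
    exact Fin.ext h3.symm
  · intro f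
    obtain ⟨Q, e, hQ⟩ := reg_poly f.1 f.2
    have key : ∀ i, f.1 (Quotient.mk _ (cfgB (b i) (hK0 i))) * ((-1) ^ ((m + n) / 2)) ^ e =
        MvPolynomial.eval 0 Q := by
      intro i
      have h1 := hQ (b i) (hK0 i)
      rw [hK i] at h1
      rw [h1]
      -- one variable
      have hp : ∀ t : k, Polynomial.eval t (MvPolynomial.aeval
          (fun j => Polynomial.C (b i j) * Polynomial.X) Q : Polynomial k) =
          MvPolynomial.eval (fun j => b i j * t) Q := by
        intro t
        have h5 := MvPolynomial.aeval_unique ((Polynomial.aeval t : Polynomial k →ₐ[k] k).comp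
          (MvPolynomial.aeval (fun j => Polynomial.C (b i j) * Polynomial.X)))
        have h6 := congrArg (fun F : MvPolynomial (Fin (m + n)) k →ₐ[k] k => F Q) h5
        simp only [AlgHom.comp_apply] at h6
        rw [Polynomial.coe_aeval_eq_eval] at h6
        rw [h6, MvPolynomial.aeval_eq_eval]
        congr 1
        congr 1
        funext j
        simp
      have hinf : Set.Infinite {t : k | Polynomial.eval t (MvPolynomial.aeval
          (fun j => Polynomial.C (b i j) * Polynomial.X) Q : Polynomial k) =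
          Polynomial.eval t (Polynomial.C (MvPolynomial.eval (b i) Q))} := by
        refine Set.Infinite.mono (s := {t : k | t ≠ 0}) ?_ ?_
        · intro t ht
          have ht' : t ≠ 0 := ht
          show _ = _
          rw [hp t, Polynomial.eval_C]
          have hsc : scl t (b i) = fun j => b i j * t := by
            funext j
            unfold scl
            split_ifs with h7
            · ring
            · rw [hodd i j h7]
              ring
          have hKs : Kv (scl t (b i)) ≠ 0 := by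
            rw [Kv_scl he ht']
            exact hK0 i
          have h8 : (Quotient.mk _ (cfgB (b i) (hK0 i)) : Conf k m n) =
              Quotient.mk _ (cfgB (scl t (b i)) hKs) :=
            Quotient.sound ((cfgB_equiv he (b i) (scl t (b i)) (hK0 i) hKs).2 ⟨t, ht', rfl⟩)
          have h9 := hQ (scl t (b i)) hKs
          rw [← h8, Kv_scl he ht', hK i, h1, hsc] at h9
          exact h9.symm
        · exact (Set.finite_singleton (0 : k)).infinite_compl
      have h10 := Polynomial.eq_of_infinite_eval_eq _ _ hinf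
      have h11 := congrArg (Polynomial.eval 0) h10
      rw [hp 0, Polynomial.eval_C] at h11
      rw [← h11]
      congr 2
      funext j
      rw [mul_zero]
      rfl
    intro i j
    have h1 := (key i).trans (key j).symm
    exact mul_right_cancel₀ (pow_ne_zero _ (pow_ne_zero _ (neg_ne_zero.mpr one_ne_zero))) h1

/-- `P i = [cfgB b]` (`cfgB_surj`); `K(b) = b 0 * b 1 - 1` (`m + n = 2`) has the same value for all `i` (`exists_kappa`), so
`b 0 * b 1` has.  If it is not `0` all `b` are `scl c` of each other (`cfgB_equiv`); if it is `0` each `b` is equivalent to one of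
`(0,0)`, `(1,0)`, `(0,1)`; pigeonhole. -/
theorem sep_two [IsAlgClosed k] (h2 : m + n = 2) (P : Fin 4 → Conf k m n) (hP : Function.Injective P)
    (h : ∀ (f : Reg k m n) (i j : Fin 4), f.1 (P i) = f.1 (P j)) : False := by
  have he : Even (m + n) := by rw [h2]; exact even_two
  choose b hb hPb using fun i => EL_surj (P i)
  obtain ⟨κ, -, hκ⟩ := exists_kappa (k := k) (m := m) (n := n) he
  obtain ⟨i0, hi0⟩ : ∃ i0 : Fin (m + n), i0.val = 0 := ⟨⟨0, by omega⟩, rfl⟩
  obtain ⟨i1, hi1⟩ : ∃ i1 : Fin (m + n), i1.val = 1 := ⟨⟨1, by omega⟩, rfl⟩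
  have hcase : ∀ j : Fin (m + n), j = i0 ∨ j = i1 := by
    intro j
    have hj := j.isLt
    rcases Nat.lt_or_ge j.val 1 with h3 | h3
    · exact Or.inl (Fin.ext (by omega))
    · exact Or.inr (Fin.ext (by omega))
  have hKv : ∀ c : Fin (m + n) → k, Kv c = c i0 * c i1 - 1 := by
    intro c
    have s0 : sq c 0 = c i0 := by
      unfold sq
      rw [dif_pos (by omega)]
      exact congrArg c (Fin.ext hi0.symm)
    have s1 : sq c 1 = c i1 := by
      unfold sq
      rw [dif_pos (by omega)]
      exact congrArg c (Fin.ext hi1.symm)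
    unfold Kv
    have h3 : Ws (sq c) (m + n + 1) = Ws (sq c) 3 := by rw [show m + n + 1 = 3 by omega]
    rw [h3]
    simp only [Ws, s0, s1]
    ring
  have hq : ∀ i j, b i i0 * b i i1 = b j i0 * b j i1 := by
    intro i j
    have h3 := h κ i j
    rw [hPb i, hPb j, hκ, hκ, hKv, hKv] at h3
    linear_combination h3
  have hsc : ∀ (i j : Fin 4) (c : k), c ≠ 0 → b j i0 = c * b i i0 → b j i1 = c⁻¹ * b i i1 → i = j := by
    intro i j c hc h3 h4
    apply hP
    rw [hPb i, hPb j]
    refine Quotient.sound ((cfgB_equiv he (b i) (b j) (hb i) (hb j)).2 ⟨c, hc, ?_⟩)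
    funext t
    unfold scl
    rcases hcase t with rfl | rfl
    · rw [if_pos (by rw [hi0]; exact Even.zero)]
      exact h3
    · rw [if_neg (by rw [hi1]; exact Nat.not_even_one)]
      exact h4
  by_cases hz : b 0 i0 * b 0 i1 = 0
  · -- types
    obtain ⟨ty, hty⟩ : ∃ ty : Fin 4 → Fin 3, ∀ i, (ty i = 0 ↔ b i i0 = 0 ∧ b i i1 = 0) ∧
        (ty i = 1 ↔ b i i0 ≠ 0) ∧ (ty i = 2 ↔ b i i0 = 0 ∧ b i i1 ≠ 0) := by
      classical
      refine ⟨fun i => if b i i0 = 0 then (if b i i1 = 0 then 0 else 2) else 1, fun i => ?_⟩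
      by_cases h3 : b i i0 = 0
      · by_cases h4 : b i i1 = 0
        · simp [h3, h4]
        · simp [h3, h4]
      · simp [h3]
    obtain ⟨i, j, hij, htij⟩ := Fintype.exists_ne_map_eq_of_card_lt ty (by simp)
    apply hij
    have hzi : b i i0 * b i i1 = 0 := by rw [hq i 0, hz]
    have hzj : b j i0 * b j i1 = 0 := by rw [hq j 0, hz]
    obtain ⟨t0, t1, t2⟩ := hty i
    obtain ⟨u0, u1, u2⟩ := hty j
    have h3 : ty i = 0 ∨ ty i = 1 ∨ ty i = 2 := by
      have : ∀ x : Fin 3, x = 0 ∨ x = 1 ∨ x = 2 := by decide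
      exact this _
    rcases h3 with h3 | h3 | h3
    · have a1 := t0.1 h3
      have a2 := u0.1 (by rw [← htij]; exact h3)
      refine hsc i j 1 one_ne_zero ?_ ?_
      · rw [a1.1, a2.1, mul_zero]
      · rw [a1.2, a2.2, mul_zero]
    · have a1 := t1.1 h3
      have a2 := u1.1 (by rw [← htij]; exact h3)
      have a3 := (mul_eq_zero.1 hzi).resolve_left a1
      have a4 := (mul_eq_zero.1 hzj).resolve_left a2
      refine hsc i j (b j i0 / b i i0) (div_ne_zero a2 a1) ?_ ?_
      · field_simp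
      · rw [a3, a4, mul_zero]
    · have a1 := t2.1 h3
      have a2 := u2.1 (by rw [← htij]; exact h3)
      have b1 := a1.2
      have b2 := a2.2
      refine hsc i j (b i i1 / b j i1) (div_ne_zero b1 b2) ?_ ?_
      · rw [a1.1, a2.1, mul_zero]
      · field_simp
  · have hne : ∀ i, b i i0 ≠ 0 ∧ b i i1 ≠ 0 := by
      intro i
      have h3 : b i i0 * b i i1 ≠ 0 := by rw [hq i 0]; exact hz
      exact ⟨left_ne_zero_of_mul h3, right_ne_zero_of_mul h3⟩
    have a1 := (hne 0).1
    have a2 := (hne 1).1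
    have h3 := hsc 0 1 (b 1 i0 / b 0 i0) (div_ne_zero a2 a1) (by field_simp) (by
      have h4 := hq 0 1
      field_simp
      linear_combination - h4)
    exact absurd h3 (by decide)

/-- no vertices (`m + n - 1 = 0`); words `U^m D^n` (`nU (fun i => decide (i < m)) t = min t m`), `L = []`, `f = 1`; `Conf k m n` is
not empty by `point_of_label` with `t i = i.val` -/
theorem clus_low [CharZero k] (h : m + n ≤ 1) (h' : m' + n' ≤ 1) (Φ : Conf k m n → Conf k m' n') :
    IsClusterPoisson Φ := by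
  have hw : ∀ a t : ℕ, nU (fun i => decide (i < a)) t = min t a := by
    intro a t
    induction t with
    | zero => simp [nU]
    | succ t ih =>
      unfold nU
      rw [ih]
      by_cases h1 : t < a
      · simp only [h1, decide_true, if_true]
        omega
      · simp only [h1, decide_false, Bool.false_eq_true, if_false]
        omega
  have c1 : ((1 : ℕ) : ZMod (m + n + 2)) ≠ 0 := EL_cast_ne 1 (by omega) (by omega)
  push_cast at c1
  obtain ⟨Q, -⟩ := point_of_label (k := k) (m := m) (n := n) (fun i => i.val) (fun i hi =>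
    c1 (by linear_combination - ZMod.val_injective _ hi))
  refine ⟨fun i => decide (i < m), fun i => decide (i < m'), [], finCongr (by omega), fun _ => 1, ?_, ?_, ?_,
    ⟨Q, one_ne_zero⟩, ?_⟩
  · rw [hw]; omega
  · rw [hw]; omega
  · refine ⟨1, 0, fun p v _ => ?_⟩
    rw [pow_zero, mul_one, map_one]
  · intro p q _ _
    apply Seed.ext
    · funext i
      exact absurd i.isLt (by omega)
    · funext i
      exact absurd i.isLt (by omega)

end Pool.Agent.Lib.MP_d4c67c_gt
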