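import Pool.Agent.Lib.MP_d4c67c_gt.E.S
import Pool.Agent.Lib.MP_d4c67c_gt.E.I
import Pool.Agent.Lib.MP_d4c67c_gt.E.C

/-!
# JOB EN: the cell with `m + n = 2`

(You may use all files `E/A.lean`, …, `E/S.lean`, which are other jobs; only `clus_two` uses the other two theorems.)
-/

open scoped LinearAlgebra.Projectivization

namespace Pool.Agent.Lib.MP_d4c67c_gt

variable {k : Type*} [Field k] {m n m' n' : ℕ}

/-- `K(b)` for two letters -/
private theorem EN_Kv {K : Type*} [CommRing K] {l : ℕ} (hl : l = 2) (b : Fin l → K) :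
    Kv b = b ⟨0, by omega⟩ * b ⟨1, by omega⟩ - 1 := by
  subst hl
  unfold Kv
  simp only [Ws, sq]
  simp
  ring

/-- the sequence `(x, y)` -/
private def EN_b {K : Type*} (l : ℕ) (x y : K) : Fin l → K := fun i => if i.val = 0 then x else y

private theorem EN_Kb {K : Type*} [CommRing K] {l : ℕ} (hl : l = 2) (x y : K) :
    Kv (EN_b l x y) = x * y - 1 := by
  rw [EN_Kv hl]
  unfold EN_b
  rw [if_pos rfl, if_neg (by norm_num)]

private theorem EN_scl {K : Type*} [Field K] {l : ℕ} (hl : l = 2) (c x y : K) :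
    scl c (EN_b l x y) = EN_b l (c * x) (c⁻¹ * y) := by
  subst hl
  funext i
  unfold scl EN_b
  fin_cases i
  · simp
  · simp

private theorem EN_ext {K : Type*} {l : ℕ} (hl : l = 2) (b : Fin l → K) :
    b = EN_b l (b ⟨0, by omega⟩) (b ⟨1, by omega⟩) := by
  subst hl
  funext i
  unfold EN_b
  fin_cases i
  · simp
  · simp

private theorem EN_surj (x : Conf k m n) : ∃ (b : Fin (m + n) → k) (hb : Kv b ≠ 0),
    x = Quotient.mk _ (cfgB b hb) := by
  obtain ⟨p, rfl⟩ := Quotient.exists_rep x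
  obtain ⟨b, hb, hp⟩ := cfgB_surj p
  exact ⟨b, hb, Quotient.sound hp⟩

/-- a point with `κ ≠ -1` is determined by `κ` -/
private theorem EN_det [IsAlgClosed k] (h2 : m + n = 2) (κ : Reg k m n)
    (hκ : ∀ (b : Fin (m + n) → k) (hb : Kv b ≠ 0), κ.1 (Quotient.mk _ (cfgB b hb)) = Kv b)
    (P Q : Conf k m n) (h : κ.1 P = κ.1 Q) (h' : κ.1 P ≠ -1) : P = Q := by
  obtain ⟨b, hb, rfl⟩ := EN_surj P
  obtain ⟨b', hb', rfl⟩ := EN_surj Q
  rw [hκ b hb, hκ b' hb'] at h
  rw [hκ b hb] at h'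
  refine Quotient.sound ((cfgB_equiv (by rw [h2]; exact even_two) b b' hb hb').2 ?_)
  have e1 := EN_Kv h2 b
  have e2 := EN_Kv h2 b'
  rw [EN_ext h2 b, EN_ext h2 b']
  set x := b ⟨0, by omega⟩
  set y := b ⟨1, by omega⟩
  set x' := b' ⟨0, by omega⟩
  set y' := b' ⟨1, by omega⟩
  have hxy : x * y ≠ 0 := by
    intro h0
    apply h'
    rw [e1, h0, zero_sub]
  have hxy' : x' * y' = x * y := by
    rw [e1, e2] at h
    linear_combination -h
  have hx : x ≠ 0 := left_ne_zero_of_mul hxy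
  have hx' : x' ≠ 0 := by
    intro h0
    apply hxy
    rw [← hxy', h0, zero_mul]
  refine ⟨x' / x, div_ne_zero hx' hx, ?_⟩
  rw [EN_scl h2]
  have e3 : x' / x * x = x' := div_mul_cancel₀ _ hx
  have e4 : (x' / x)⁻¹ * y = y' := by
    rw [inv_div, div_mul_eq_mul_div, div_eq_iff hx']
    linear_combination -hxy'
  rw [e3, e4]

/-- two different points that are not separated by functions -/
private theorem EN_nosep [IsAlgClosed k] [CharZero k] (h2 : m + n = 2) (κ : Reg k m n)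
    (hκ : ∀ (b : Fin (m + n) → k) (hb : Kv b ≠ 0), κ.1 (Quotient.mk _ (cfgB b hb)) = Kv b) :
    ∃ P0 P1 : Conf k m n, P0 ≠ P1 ∧ κ.1 P0 = -1 ∧ ∀ f : Reg k m n, f.1 P0 = f.1 P1 := by
  have he : Even (m + n) := by rw [h2]; exact even_two
  have hK : ∀ x : k, Kv (EN_b (m + n) x 0) ≠ 0 := by
    intro x
    rw [EN_Kb h2, mul_zero, zero_sub]
    exact neg_ne_zero.2 one_ne_zero
  have hK' : ∀ x : k, Kv (EN_b (m + n) x 0) = -1 := by
    intro x
    rw [EN_Kb h2, mul_zero, zero_sub]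
  refine ⟨Quotient.mk _ (cfgB _ (hK 0)), Quotient.mk _ (cfgB _ (hK 1)), ?_, ?_, ?_⟩
  · intro h
    obtain ⟨c, hc, hc'⟩ := (cfgB_equiv he _ _ (hK 0) (hK 1)).1 (Quotient.exact h)
    rw [EN_scl h2] at hc'
    have h3 := congrFun hc' ⟨0, by omega⟩
    unfold EN_b at h3
    rw [if_pos rfl, if_pos rfl, mul_zero] at h3
    exact one_ne_zero h3
  · rw [hκ, hK']
  · intro f
    obtain ⟨Q, e, hQ⟩ := reg_poly f.1 f.2
    have h3 : ∀ t : k, t ≠ 0 → MvPolynomial.eval (EN_b (m + n) t 0) Q =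
        f.1 (Quotient.mk _ (cfgB _ (hK 1))) * (-1) ^ e := by
      intro t ht
      rw [← hQ _ (hK t), hK']
      have h4 : (Quotient.mk _ (cfgB _ (hK t)) : Conf k m n) = Quotient.mk _ (cfgB _ (hK 1)) := by
        refine Quotient.sound ((cfgB_equiv he _ _ (hK t) (hK 1)).2 ⟨t⁻¹, inv_ne_zero ht, ?_⟩)
        rw [EN_scl h2, inv_mul_cancel₀ ht, mul_zero]
      rw [h4]
    have h5 : ∀ t : k, Polynomial.eval t (MvPolynomial.aeval
        (EN_b (m + n) (Polynomial.X : Polynomial k) 0) Q) = MvPolynomial.eval (EN_b (m + n) t 0) Q := by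
      intro t
      have h6 : Polynomial.eval t (MvPolynomial.aeval (EN_b (m + n) (Polynomial.X : Polynomial k) 0) Q) =
          (Polynomial.aeval t : Polynomial k →ₐ[k] k)
            (MvPolynomial.aeval (EN_b (m + n) (Polynomial.X : Polynomial k) 0) Q) := by
        rw [Polynomial.coe_aeval_eq_eval]
      have h7 : (fun i => (Polynomial.aeval t : Polynomial k →ₐ[k] k)
          (EN_b (m + n) (Polynomial.X : Polynomial k) 0 i)) = EN_b (m + n) t 0 := by
        funext i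
        unfold EN_b
        split_ifs
        · simp
        · simp
      rw [h6, MvPolynomial.comp_aeval_apply, h7]
      rfl
    have h8 : MvPolynomial.aeval (EN_b (m + n) (Polynomial.X : Polynomial k) 0) Q =
        Polynomial.C (f.1 (Quotient.mk _ (cfgB _ (hK 1))) * (-1) ^ e) := by
      refine Polynomial.eq_of_infinite_eval_eq _ _ ?_
      have h9 : Set.range (fun i : ℕ => ((i : k) + 1)) ⊆ {x | Polynomial.eval x (MvPolynomial.aeval
          (EN_b (m + n) (Polynomial.X : Polynomial k) 0) Q) = Polynomial.eval x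
            (Polynomial.C (f.1 (Quotient.mk _ (cfgB _ (hK 1))) * (-1) ^ e))} := by
        rintro _ ⟨i, rfl⟩
        rw [Set.mem_ofPred_eq, h5, Polynomial.eval_C]
        exact h3 _ (Nat.cast_add_one_ne_zero i)
      refine Set.Infinite.mono h9 (Set.infinite_range_of_injective ?_)
      intro i j hij
      exact Nat.cast_injective (add_right_cancel hij)
    have h10 := hQ _ (hK 0)
    rw [← h5 0, h8, Polynomial.eval_C, hK'] at h10
    exact mul_right_cancel₀ (pow_ne_zero e (neg_ne_zero.2 one_ne_zero)) h10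

private theorem EN_two {z : ℤ} (h : (2 : k) ^ z = 2) [CharZero k] : z = 1 := by
  have h1 : (((2 : ℚ) ^ z : ℚ) : k) = ((2 : ℚ) : k) := by
    push_cast
    exact h
  have h2 : (2 : ℚ) ^ z = 2 ^ (1 : ℤ) := by
    rw [zpow_one]
    exact Rat.cast_injective h1
  exact zpow_right_injective₀ (by norm_num) (by norm_num) h2

private theorem EN_nU (m t : ℕ) : nU (fun i => decide (i < m)) t = min t m := by
  induction t with
  | zero => simp [nU]
  | succ t ih =>
    simp only [nU, ih]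
    by_cases h : t < m
    · simp only [h, decide_true, if_true]; omega
    · simp only [h, decide_false]
      simp only [Bool.false_eq_true, if_false]; omega

/-- `κ' ∘ Φ = c * κ ^ z` -/
private theorem EN_unit [IsAlgClosed k] [CharZero k] (h2 : m + n = 2) (h2' : m' + n' = 2) (κ : Reg k m n)
    (κ' : Reg k m' n')
    (hκ : ∀ (b : Fin (m + n) → k) (hb : Kv b ≠ 0), κ.1 (Quotient.mk _ (cfgB b hb)) = Kv b)
    (hκ' : ∀ (b : Fin (m' + n') → k) (hb : Kv b ≠ 0), κ'.1 (Quotient.mk _ (cfgB b hb)) = Kv b)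
    (Φ : Conf k m n → Conf k m' n') (h1 : IsRegularMap Φ) :
    ∃ (c : k) (z : ℤ), c ≠ 0 ∧ ∀ P, κ'.1 (Φ P) = c * (κ.1 P) ^ z := by
  obtain ⟨κ0, hu, hκ0⟩ := exists_kappa (k := k) (m := m') (n := n') (by rw [h2']; exact even_two)
  have he : κ' = κ0 := Reg_ext fun b hb => by rw [hκ' b hb, hκ0 b hb]
  obtain ⟨v, hv⟩ := hu.exists_right_inv
  have hu' : IsUnit (⟨κ0.1 ∘ Φ, h1 _ κ0.2⟩ : Reg k m n) := by
    refine IsUnit.of_mul_eq_one ⟨v.1 ∘ Φ, h1 _ v.2⟩ ?_
    refine Subtype.ext (funext fun x => ?_)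
    have h3 : (κ0 * v).1 (Φ x) = (1 : Reg k m' n').1 (Φ x) := by rw [hv]
    exact h3
  obtain ⟨c, z, hc, hcz⟩ := units_reg (by omega) _ hu'
  refine ⟨c, z, hc, fun P => ?_⟩
  obtain ⟨b, hb, rfl⟩ := EN_surj P
  rw [he, hκ b hb]
  exact hcz b hb

private theorem EN_ne (κ : Reg k m n)
    (hκ : ∀ (b : Fin (m + n) → k) (hb : Kv b ≠ 0), κ.1 (Quotient.mk _ (cfgB b hb)) = Kv b)
    (P : Conf k m n) : κ.1 P ≠ 0 := by
  obtain ⟨b, hb, rfl⟩ := EN_surj P
  rw [hκ b hb]
  exact hb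

private theorem EN_val (h2 : m + n = 2) (κ : Reg k m n)
    (hκ : ∀ (b : Fin (m + n) → k) (hb : Kv b ≠ 0), κ.1 (Quotient.mk _ (cfgB b hb)) = Kv b)
    (t : k) (ht : t ≠ 0) : ∃ P : Conf k m n, κ.1 P = t := by
  have hK : Kv (EN_b (m + n) (t + 1) 1) = t := by
    rw [EN_Kb h2]
    ring
  have hK' : Kv (EN_b (m + n) (t + 1) 1) ≠ 0 := by rwa [hK]
  exact ⟨Quotient.mk _ (cfgB _ hK'), by rw [hκ _ hK', hK]⟩

private theorem EN_Lft (b : Fin (m + n) → k) (hb : Kv b ≠ 0) : Lft (cfgB b hb : Cfg k m n) (pv b) :=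
  Lft_of _ _ (fun i => ⟨wv_ne_zero b _, pt_cfgB b hb i⟩)

/-- the coordinate of the seed on the polygon of `b` -/
private theorem EN_Tv {K : Type*} [Field K] {l : ℕ} (hl : l = 2) (w : ℕ → Bool) (b : Fin l → K)
    (a : Fin (l - 1)) : (Tv l (-1) w (pv b)).y a = if w 0 then Kv b else (Kv b)⁻¹ := by
  subst hl
  have ha : a.val = 0 := by omega
  have e0 := edge_eq b 0
  have e1 := edge_eq b 1
  have e2 := edge_eq b 2
  have e3 := edge_eq b 3
  have v0 : (0 : ZMod (2 + 2)).val = 0 := rfl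
  have v1 : (1 : ZMod (2 + 2)).val = 1 := rfl
  have v2 : (2 : ZMod (2 + 2)).val = 2 := rfl
  have v3 : (3 : ZMod (2 + 2)).val = 3 := rfl
  have s0 : (0 : ZMod (2 + 2)) + 1 = 1 := rfl
  have s1 : (1 : ZMod (2 + 2)) + 1 = 2 := rfl
  have s2 : (2 : ZMod (2 + 2)) + 1 = 3 := rfl
  have s3 : (3 : ZMod (2 + 2)) + 1 = 0 := rfl
  rw [v0, if_neg (by norm_num), s0] at e0
  rw [v1, if_neg (by norm_num), s1] at e1
  rw [v2, if_neg (by norm_num), s2] at e2
  rw [v3, if_pos (by norm_num), s3] at e3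
  unfold Tv
  simp only [ha]
  cases hw : w 0
  · have hnU : nU w (0 + 1) = 0 := by simp [nU, hw]
    have hnD : nD w (0 + 1) = 1 := by simp [nD, hw]
    rw [hnU, hnD]
    have q1 : (-1 : ZMod (2 + 2)) + 1 + ((0 : ℕ) : ZMod (2 + 2)) = 0 := rfl
    have q2 : (-1 : ZMod (2 + 2)) - ((1 : ℕ) : ZMod (2 + 2)) = 2 := rfl
    have q3 : (0 : ZMod (2 + 2)) + 1 = 1 := rfl
    have q4 : (2 : ZMod (2 + 2)) - 1 = 1 := rfl
    rw [q1, q2, q3, q4, ite_self]
    simp only [Bool.false_eq_true, if_false]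
    rw [s2, e0, e2, e1, CfC_det2_swap (pv b 0) (pv b 3), e3]
    simp
  · have hnU : nU w (0 + 1) = 1 := by simp [nU, hw]
    have hnD : nD w (0 + 1) = 0 := by simp [nD, hw]
    rw [hnU, hnD]
    have q1 : (-1 : ZMod (2 + 2)) + 1 + ((1 : ℕ) : ZMod (2 + 2)) = 1 := rfl
    have q2 : (-1 : ZMod (2 + 2)) - ((0 : ℕ) : ZMod (2 + 2)) = 3 := rfl
    have q3 : (1 : ZMod (2 + 2)) + 1 = 2 := rfl
    have q4 : (3 : ZMod (2 + 2)) - 1 = 2 := rfl
    have q5 : (1 : ZMod (2 + 2)) - 1 = 0 := rfl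
    rw [q1, q2, q3, q4, ite_self]
    simp only [if_true]
    rw [q5, e1, e2, e3, CfC_det2_swap (pv b 1) (pv b 0), e0]
    simp

/-- `κ, κ'` from `exists_kappa`, so `κ' ∘ Φ` is a unit of `Reg k m n`, `κ' (Φ P) = c * κ(P)^z` (`units_reg`, `cfgB_surj`), and the
same for `Φ.symm`: `κ (Φ.symm Q) = c' * κ'(Q)^z'`.  Hence `κ(P) = c' * c^z' * κ(P)^(z * z')` for all `P`; as `κ` takes all nonzero
values (`b = (t, 1)`, `K(b) = t - 1`), `z * z' = 1`, `z = ± 1`.  The different points `P0 = [cfgB (0,0)]`, `P1 = [cfgB (1,0)]` have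
the same value under all functions in `Reg` (proof of `no_sep`), hence so have `Φ P0 ≠ Φ P1`, hence `κ'(Φ P0) = -1` (if
`b 0 * b 1 ≠ 0` the point is determined by `K(b) = b 0 * b 1 - 1`).  As `κ(P0) = -1`, `c = 1`. -/
theorem kappa_two [IsAlgClosed k] [CharZero k] (h2 : m + n = 2) (h2' : m' + n' = 2) (κ : Reg k m n)
    (κ' : Reg k m' n')
    (hκ : ∀ (b : Fin (m + n) → k) (hb : Kv b ≠ 0), κ.1 (Quotient.mk _ (cfgB b hb)) = Kv b)
    (hκ' : ∀ (b : Fin (m' + n') → k) (hb : Kv b ≠ 0), κ'.1 (Quotient.mk _ (cfgB b hb)) = Kv b)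
    (Φ : Conf k m n ≃ Conf k m' n') (h1 : IsRegularMap Φ) (h1' : IsRegularMap Φ.symm) :
    (∀ P, κ'.1 (Φ P) = κ.1 P) ∨ (∀ P, κ'.1 (Φ P) = (κ.1 P)⁻¹) := by
  obtain ⟨c, z, hc, hz⟩ := EN_unit h2 h2' κ κ' hκ hκ' Φ h1
  obtain ⟨c', z', hc', hz'⟩ := EN_unit h2' h2 κ' κ hκ' hκ Φ.symm h1'
  have hcomp : ∀ t : k, t ≠ 0 → t = c' * c ^ z' * t ^ (z * z') := by
    intro t ht
    obtain ⟨P, hP⟩ := EN_val h2 κ hκ t ht
    have h3 := hz' (Φ P)
    rw [Equiv.symm_apply_apply, hP, hz P, hP, mul_zpow, ← zpow_mul] at h3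
    rw [mul_assoc]
    exact h3
  have hone : c' * c ^ z' = 1 := by
    have h3 := hcomp 1 one_ne_zero
    rw [one_zpow, mul_one] at h3
    exact h3.symm
  have hzz : z * z' = 1 := by
    refine EN_two (k := k) ?_
    have h3 := hcomp 2 two_ne_zero
    rw [hone, one_mul] at h3
    exact h3.symm
  have hz1 := Int.eq_one_or_neg_one_of_mul_eq_one hzz
  obtain ⟨P0, P1, hne, hP0, hsep⟩ := EN_nosep h2 κ hκ
  have hm1 : κ'.1 (Φ P0) = -1 := by
    by_contra h3
    apply hne
    apply Φ.injective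
    refine EN_det h2' κ' hκ' _ _ ?_ h3
    exact hsep ⟨κ'.1 ∘ Φ, h1 _ κ'.2⟩
  have hc1 : c = 1 := by
    rw [hz P0, hP0] at hm1
    rcases hz1 with h3 | h3
    · rw [h3, zpow_one] at hm1
      linear_combination -hm1
    · rw [h3, zpow_neg, zpow_one, inv_neg, inv_one] at hm1
      linear_combination -hm1
  rcases hz1 with h3 | h3
  · left
    intro P
    rw [hz P, hc1, h3, zpow_one, one_mul]
  · right
    intro P
    rw [hz P, hc1, h3, zpow_neg, zpow_one, one_mul]

/-- By `seedOf_eqV` for some `v` on the lines of `p`, and `p ≈ cfgB b`, `Lft_equiv` (the coordinates of `Tv` do not change, see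
`Tv_scale` in `E/TA.lean`) reduce to `Tv 2 (-1) w (pv b)`.  With `[i,j] = det2 (pv b i) (pv b j)`, `N = 4`, the coordinate is
`[1,2][3,0] / ([2,3][1,0]) = K` for `w 0 = true` (both for `w 1 = true`, `w 1 = false`) and `[0,1][2,3] / ([1,2][0,3]) = 1 / K`
for `w 0 = false` (`edge_eq`: `[0,1] = [1,2] = [2,3] = 1`, `[3,0] = - K`). -/
theorem seed_two (h2 : m + n = 2) (w : ℕ → Bool) (hw : nU w (m + n) = m) (κ : Reg k m n)
    (hκ : ∀ (b : Fin (m + n) → k) (hb : Kv b ≠ 0), κ.1 (Quotient.mk _ (cfgB b hb)) = Kv b)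
    (p : Cfg k m n) (a b : Fin (m + n - 1)) :
    (seedOf w p).ε a b = 0 ∧
      (seedOf w p).y a = if w 0 then κ.1 (Quotient.mk _ p) else (κ.1 (Quotient.mk _ p))⁻¹ := by
  obtain ⟨c, hb, hp⟩ := cfgB_surj p
  obtain ⟨v, hv⟩ := exists_Lft p
  obtain ⟨δ, μ, hδ, hμ, hdet⟩ := Lft_equiv hp hv (EN_Lft c hb)
  have h3 := seedOf_eqV w hw p v hv
  rw [← Tv_scale (m + n) (-1) w v (pv c) δ μ hδ hμ hdet] at h3
  have h4 : κ.1 (Quotient.mk _ p) = Kv c := by
    rw [← hκ c hb]
    exact congrArg κ.1 (Quotient.sound hp)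
  refine ⟨?_, ?_⟩
  · show epsW (m + n - 1) w a b = 0
    unfold epsW
    rw [if_neg (by omega), if_neg (by omega)]
  · rw [h3, EN_Tv h2, h4]

/-- words `U^m D^n`, `U^m' D^n'` (`nU (fun i => decide (i < m)) t = min t m`, see `nU_std` in `Fin.lean`), `f = 1`, the unique
bijection `e` (`Fin (m + n - 1)` has one element), and `L = []` or `L = [0]` (the mutation of a seed with `ε = 0` inverts `y`), by
`kappa_two` and `seed_two` (the values `κ'(Φ P)^(±1)`, `κ(P)^(±1)` are equal or inverse to each other) -/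
theorem clus_two [IsAlgClosed k] [CharZero k] (h2 : m + n = 2) (h2' : m' + n' = 2)
    (Φ : Conf k m n ≃ Conf k m' n') (h1 : IsRegularMap Φ) (h1' : IsRegularMap Φ.symm) :
    IsClusterPoisson Φ := by
  obtain ⟨κ, _, hκ⟩ := exists_kappa (k := k) (m := m) (n := n) (by rw [h2]; exact even_two)
  obtain ⟨κ', _, hκ'⟩ := exists_kappa (k := k) (m := m') (n := n') (by rw [h2']; exact even_two)
  have hw : nU (fun i => decide (i < m)) (m + n) = m := by
    rw [EN_nU]
    omega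
  have hw' : nU (fun i => decide (i < m')) (m' + n') = m' := by
    rw [EN_nU]
    omega
  have hne : ∃ P : Conf k m n, (1 : Conf k m n → k) P ≠ 0 := by
    obtain ⟨P, _⟩ := EN_val h2 κ hκ 1 one_ne_zero
    exact ⟨P, one_ne_zero⟩
  have hS := seed_two h2 (fun i => decide (i < m)) hw κ hκ
  have hS' := seed_two h2' (fun i => decide (i < m')) hw' κ' hκ'
  set e : Fin (m + n - 1) ≃ Fin (m' + n' - 1) := finCongr (by omega)
  set a0 : Fin (m + n - 1) := ⟨0, by omega⟩
  have ha0 : ∀ a : Fin (m + n - 1), a = a0 := by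
    intro a
    apply Fin.ext
    show a.val = 0
    omega
  -- the two possible conclusions
  have key1 : (∀ (p : Cfg k m n) (q : Cfg k m' n'), Φ (Quotient.mk _ p) = Quotient.mk _ q →
      ∀ a b, (seedOf (fun i => decide (i < m')) q).y a = (seedOf (fun i => decide (i < m)) p).y b) →
      IsClusterPoisson Φ := by
    intro h
    refine ⟨_, _, [], e, 1, hw, hw', (1 : Reg k m n).2, hne, ?_⟩
    intro p q hpq _
    refine Seed.ext ?_ ?_
    · funext i j
      show (seedOf (fun i => decide (i < m)) p).ε (e.symm i) (e.symm j) = _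
      rw [(hS p (e.symm i) (e.symm j)).1, (hS' q i j).1]
    · funext i
      show (seedOf (fun i => decide (i < m)) p).y (e.symm i) = _
      exact (h p q hpq i (e.symm i)).symm
  have key2 : (∀ (p : Cfg k m n) (q : Cfg k m' n'), Φ (Quotient.mk _ p) = Quotient.mk _ q →
      ∀ a b, (seedOf (fun i => decide (i < m')) q).y a = ((seedOf (fun i => decide (i < m)) p).y b)⁻¹) →
      IsClusterPoisson Φ := by
    intro h
    refine ⟨_, _, [a0], e, 1, hw, hw', (1 : Reg k m n).2, hne, ?_⟩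
    intro p q hpq _
    refine Seed.ext ?_ ?_
    · funext i j
      show (if e.symm i = a0 ∨ e.symm j = a0 then
        - (seedOf (fun i => decide (i < m)) p).ε (e.symm i) (e.symm j) else _) = _
      rw [if_pos (Or.inl (ha0 _)), (hS p (e.symm i) (e.symm j)).1, (hS' q i j).1, neg_zero]
    · funext i
      show (if e.symm i = a0 then ((seedOf (fun i => decide (i < m)) p).y a0)⁻¹ else _) = _
      rw [if_pos (ha0 _)]
      exact (h p q hpq i a0).symm
  have hy : ∀ (p : Cfg k m n) (b : Fin (m + n - 1)), (seedOf (fun i => decide (i < m)) p).y b =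
      if decide (0 < m) then κ.1 (Quotient.mk _ p) else (κ.1 (Quotient.mk _ p))⁻¹ :=
    fun p b => (hS p b b).2
  have hy' : ∀ (q : Cfg k m' n') (b : Fin (m' + n' - 1)), (seedOf (fun i => decide (i < m')) q).y b =
      if decide (0 < m') then κ'.1 (Quotient.mk _ q) else (κ'.1 (Quotient.mk _ q))⁻¹ :=
    fun q b => (hS' q b b).2
  rcases kappa_two h2 h2' κ κ' hκ hκ' Φ h1 h1' with hA | hA
  · cases hm : decide (0 < m) <;> cases hm' : decide (0 < m')
    · apply key1
      intro p q hpq a b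
      rw [hy, hy', hm, hm', ← hpq, hA]
    · apply key2
      intro p q hpq a b
      rw [hy, hy', hm, hm', ← hpq, hA]
      simp
    · apply key2
      intro p q hpq a b
      rw [hy, hy', hm, hm', ← hpq, hA]
      simp
    · apply key1
      intro p q hpq a b
      rw [hy, hy', hm, hm', ← hpq, hA]
  · cases hm : decide (0 < m) <;> cases hm' : decide (0 < m')
    · apply key2
      intro p q hpq a b
      rw [hy, hy', hm, hm', ← hpq, hA]
      simp
    · apply key1
      intro p q hpq a b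
      rw [hy, hy', hm, hm', ← hpq, hA]
      simp
    · apply key1
      intro p q hpq a b
      rw [hy, hy', hm, hm', ← hpq, hA]
      simp
    · apply key2
      intro p q hpq a b
      rw [hy, hy', hm, hm', ← hpq, hA]
      simp

end Pool.Agent.Lib.MP_d4c67c_gt
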