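import Pool.Agent.Lib.MP_d4c67c_gt.E.Fin
import Pool.Agent.Lib.MP_d4c67c_gt.E.L
import Pool.Agent.Lib.MP_d4c67c_gt.E.N

/-!
# Final assembly, all `m, n`
-/

namespace Pool.Agent.Lib.MP_d4c67c_gt

variable {k : Type*} [Field k] [IsAlgClosed k] [CharZero k] {m n m' n' : ℕ}

/-- numbers of letters agree, if one of them is at least `2` -/
theorem len_eq (h2 : 2 ≤ m + n) (h2' : 2 ≤ m' + n') (Φ : Conf k m n ≃ Conf k m' n')
    (h1 : IsRegularMap Φ) (h1' : IsRegularMap Φ.symm) : m + n = m' + n' := by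
  by_cases h3 : 3 ≤ m + n
  · by_cases h3' : 3 ≤ m' + n'
    · exact (main_all h3 h3' Φ h1 h1').1
    · exfalso
      have e2 : m' + n' = 2 := by omega
      rcases Nat.even_or_odd (m + n) with he | ho
      · have h4 : 4 ≤ m + n := by
          obtain ⟨t, ht⟩ := he; omega
        obtain ⟨P, hP, hPf⟩ := no_sep (k := k) he h4
        refine sep_two (k := k) e2 (fun i => Φ (P i)) (fun i j hij => hP (Φ.injective hij)) ?_
        intro f i j
        exact hPf ⟨f.1 ∘ Φ, h1 _ f.2⟩ i j
      · exact no_mixed ho h3 (by rw [e2]; exact even_two) (by omega) Φ h1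
  · have e2 : m + n = 2 := by omega
    by_cases h3' : 3 ≤ m' + n'
    · exfalso
      rcases Nat.even_or_odd (m' + n') with he | ho
      · have h4 : 4 ≤ m' + n' := by
          obtain ⟨t, ht⟩ := he; omega
        obtain ⟨P, hP, hPf⟩ := no_sep (k := k) he h4
        refine sep_two (k := k) e2 (fun i => Φ.symm (P i)) (fun i j hij => hP (Φ.symm.injective hij)) ?_
        intro f i j
        exact hPf ⟨f.1 ∘ Φ.symm, h1' _ f.2⟩ i j
      · exact no_mixed ho h3' (by rw [e2]; exact even_two) (by omega) Φ.symm h1'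
    · omega

theorem main_full (Φ : Conf k m n ≃ Conf k m' n')
    (h1 : IsRegularMap Φ) (h1' : IsRegularMap Φ.symm) :
    (2 ≤ m + n → m + n = m' + n') ∧
    (IsClusterPoisson Φ ∨ IsClusterPoisson (rev ∘ Φ)) ∧
    (3 ≤ m + n → ¬ (IsClusterPoisson Φ ∧ IsClusterPoisson (rev ∘ Φ))) := by
  have hlen : 2 ≤ m + n → m + n = m' + n' := by
    intro h2
    by_cases h2' : 2 ≤ m' + n'
    · exact len_eq h2 h2' Φ h1 h1'
    · exfalso
      obtain ⟨P, Q, hPQ⟩ := low_nontrivial (k := k) h2
      exact hPQ (Φ.injective (low_subsingleton (by omega) _ _))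
  refine ⟨hlen, ?_, ?_⟩
  · by_cases h3 : 3 ≤ m + n
    · have hl := hlen (by omega)
      exact (main_all h3 (by omega) Φ h1 h1').2.or
    · by_cases h2 : 2 ≤ m + n
      · have hl := hlen h2
        exact Or.inl (clus_two (by omega) (by omega) Φ h1 h1')
      · have hl' : m' + n' ≤ 1 := by
          by_contra hcon
          obtain ⟨P, Q, hPQ⟩ := low_nontrivial (k := k) (m := m') (n := n') (by omega)
          exact hPQ (Φ.symm.injective (low_subsingleton (by omega) _ _))
        exact Or.inl (clus_low (by omega) hl' Φ)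
  · intro h3
    have hl := hlen (by omega)
    have := (main_all h3 (by omega) Φ h1 h1').2
    rcases this with h | h
    · exact fun hh => h.2 hh.2
    · exact fun hh => h.2 hh.1

end Pool.Agent.Lib.MP_d4c67c_gt
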