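import Pool.Agent.Lib.MP_d4c67c_gt.E.A

/-!
# JOB EB: regular functions as fractions `P(b) / K(b)^e`, any `m + n`

(You may use `E/A.lean`, which is another job.)
-/

open scoped LinearAlgebra.Projectivization

namespace Pool.Agent.Lib.MP_d4c67c_gt

variable {k : Type*} [Field k] {m n : ℕ}

/-- the algebra of regular functions on `Conf` (sums and products: common denominators, i.e. multiply the polynomials by
powers of the polynomial whose value is `bdry v`) -/
def Reg (k : Type*) [Field k] (m n : ℕ) : Subalgebra k (Conf k m n → k) where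
  carrier := {f | IsRegular f}
  mul_mem' := by
    rintro f g ⟨P, e, hP⟩ ⟨Q, e', hQ⟩
    refine ⟨P * Q, e + e', ?_⟩
    intro p v hv
    have h1 := hP p v hv
    have h2 := hQ p v hv
    rw [Pi.mul_apply, map_mul, ← h1, ← h2, pow_add]
    ring
  add_mem' := by
    rintro f g ⟨P, e, hP⟩ ⟨Q, e', hQ⟩
    refine ⟨P * CfC_bP k m n ^ e' + Q * CfC_bP k m n ^ e, e + e', ?_⟩
    intro p v hv
    have h1 := hP p v hv
    have h2 := hQ p v hv
    rw [Pi.add_apply]
    simp only [map_add, map_mul, map_pow, CfC_bP_eval, pow_add] at h1 h2 ⊢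
    rw [← h1, ← h2]
    ring
  algebraMap_mem' := by
    intro c
    refine ⟨MvPolynomial.C c, 0, ?_⟩
    intro p v _
    rw [pow_zero, mul_one, MvPolynomial.eval_C]
    rfl

/-- the product of the edge determinants of the polygon of `b` -/
theorem EB_prod {K : Type*} [Field K] {l : ℕ} (b : Fin l → K) :
    ∏ i : ZMod (l + 2), det2 (pv b i) (pv b (i + 1)) = - Kv b := by
  have h1 : ∏ i : ZMod (l + 2), det2 (pv b i) (pv b (i + 1)) =
      ∏ i : ZMod (l + 2), (if i = ((l + 1 : ℕ) : ZMod (l + 2)) then - Kv b else 1) := by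
    apply Finset.prod_congr rfl
    intro i _
    rw [edge_eq]
    have h2 : (i.val = l + 1) ↔ (i = ((l + 1 : ℕ) : ZMod (l + 2))) := by
      constructor
      · intro h
        rw [← h, ZMod.natCast_zmod_val]
      · intro h
        rw [h]
        exact ZMod.val_natCast_of_lt (by omega)
    by_cases h : i.val = l + 1
    · rw [if_pos h, if_pos (h2.mp h)]
    · rw [if_neg h, if_neg (fun h3 => h (h2.mpr h3))]
  rw [h1, Finset.prod_ite_eq' Finset.univ]
  simp

/-- the standard framing of the configuration of `b` -/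
def EB_fr (b : Fin (m + n) → k) : Fin (m + 1) ⊕ Fin (n + 1) → Fin 2 → k
  | Sum.inl i => wv b i.val
  | Sum.inr j => wv b (m + n + 1 - j.val)

theorem EB_vz (b : Fin (m + n) → k) (i : ZMod (m + n + 2)) :
    vz (EB_fr b : Fin (m + 1) ⊕ Fin (n + 1) → Fin 2 → k) i = pv b i := by
  have hv := ZMod.val_lt i
  unfold vz pv
  split_ifs with h
  · rfl
  · show wv b (m + n + 1 - (m + n + 1 - i.val)) = wv b i.val
    have h1 : m + n + 1 - (m + n + 1 - i.val) = i.val := by omega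
    rw [h1]

theorem EB_framing (b : Fin (m + n) → k) (hb : Kv b ≠ 0) :
    IsFraming (cfgB b hb : Cfg k m n) (EB_fr b) := by
  constructor
  · intro i
    refine ⟨wv_ne_zero b _, ?_⟩
    have h1 := pt_up (cfgB b hb : Cfg k m n) i.val (by omega)
    have h2 : ((i.val : ℕ) : ZMod (m + n + 2)).val = i.val := ZMod.val_natCast_of_lt (by omega)
    rw [pt_cfgB] at h1
    have h3 : (cfgB b hb : Cfg k m n).up i = (cfgB b hb : Cfg k m n).up ⟨i.val, by omega⟩ := rfl
    rw [h3, ← h1, mk_eq_mk_iff_det2]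
    unfold pv EB_fr
    rw [h2]
    unfold det2
    ring
  · intro j
    refine ⟨wv_ne_zero b _, ?_⟩
    have h1 := pt_dn (cfgB b hb : Cfg k m n) j.val (by omega)
    have h2 : ((m + n + 1 - j.val : ℕ) : ZMod (m + n + 2)).val = m + n + 1 - j.val :=
      ZMod.val_natCast_of_lt (by omega)
    rw [pt_cfgB] at h1
    have h3 : (cfgB b hb : Cfg k m n).dn j = (cfgB b hb : Cfg k m n).dn ⟨j.val, by omega⟩ := rfl
    rw [h3, ← h1, mk_eq_mk_iff_det2]
    unfold pv EB_fr
    rw [h2]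
    unfold det2
    ring

theorem EB_bdry (b : Fin (m + n) → k) :
    bdry (EB_fr b : Fin (m + 1) ⊕ Fin (n + 1) → Fin 2 → k) = (-1) ^ (n + 1) * (- Kv b) := by
  rw [bdry_eq]
  have h1 : ∏ i : ZMod (m + n + 2), det2 (vz (EB_fr b : Fin (m + 1) ⊕ Fin (n + 1) → Fin 2 → k) i)
      (vz (EB_fr b : Fin (m + 1) ⊕ Fin (n + 1) → Fin 2 → k) (i + 1)) =
      ∏ i : ZMod (m + n + 2), det2 (pv b i) (pv b (i + 1)) := by
    apply Finset.prod_congr rfl
    intro i _
    rw [EB_vz, EB_vz]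
  rw [h1, EB_prod]

/-- the coordinates of the standard framing as polynomials -/
noncomputable def EB_cP (k : Type*) [Field k] (m n : ℕ)
    (a : (Fin (m + 1) ⊕ Fin (n + 1)) × Fin 2) : MvPolynomial (Fin (m + n)) k :=
  (fun q : MvPolynomial (Fin (m + n)) k × MvPolynomial (Fin (m + n)) k =>
    if a.2 = 0 then q.1 else q.2)
    (Ws (vr k (m + n)) (match a.1 with
      | Sum.inl i => i.val
      | Sum.inr j => m + n + 1 - j.val))

theorem EB_wv {l : ℕ} (b : Fin l → k) (i : ℕ) (c : Fin 2) :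
    MvPolynomial.eval b (if c = 0 then (Ws (vr k l) i).1 else (Ws (vr k l) i).2) = wv b i c := by
  have h1 := Ws_sq_aeval (k := k) b i
  unfold wv
  rw [h1]
  fin_cases c <;> rfl

theorem EB_cP_eval (b : Fin (m + n) → k) (a : (Fin (m + 1) ⊕ Fin (n + 1)) × Fin 2) :
    MvPolynomial.eval b (EB_cP k m n a) =
      (EB_fr b : Fin (m + 1) ⊕ Fin (n + 1) → Fin 2 → k) a.1 a.2 := by
  obtain ⟨a1, a2⟩ := a
  cases a1 with
  | inl i => exact EB_wv b i.val a2
  | inr j => exact EB_wv b (m + n + 1 - j.val) a2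

/-- Evaluate the defining identity of `IsRegular` at `cfgB b` with the framing `v (inl i) = wv b i`,
`v (inr j) = wv b (m+n+1-j)`, so that `vz v i = pv b i` and `bdry v = (-1)^(n+1) * (- K(b))` (`bdry_eq`, `edge_eq`);
`P` is obtained by substituting the polynomials `Ws (vr k _) _` (`Ws_sq_aeval`). -/
theorem reg_poly (f : Conf k m n → k) (hf : IsRegular f) :
    ∃ (P : MvPolynomial (Fin (m + n)) k) (e : ℕ), ∀ (b : Fin (m + n) → k) (hb : Kv b ≠ 0),
      f (Quotient.mk _ (cfgB b hb)) * (Kv b) ^ e = MvPolynomial.eval b P := by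
  obtain ⟨P, e, hP⟩ := hf
  refine ⟨MvPolynomial.C (((-1) ^ (n + 2)) ^ e) * MvPolynomial.bind₁ (EB_cP k m n) P, e, ?_⟩
  intro b hb
  have h1 := hP (cfgB b hb) (EB_fr b) (EB_framing b hb)
  rw [EB_bdry] at h1
  have h2 : MvPolynomial.eval b (MvPolynomial.bind₁ (EB_cP k m n) P) =
      MvPolynomial.eval (fun a => (EB_fr b : Fin (m + 1) ⊕ Fin (n + 1) → Fin 2 → k) a.1 a.2) P := by
    have h3 : (fun a : (Fin (m + 1) ⊕ Fin (n + 1)) × Fin 2 =>
        (EB_fr b : Fin (m + 1) ⊕ Fin (n + 1) → Fin 2 → k) a.1 a.2) =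
        fun a => MvPolynomial.eval b (EB_cP k m n a) := by
      funext a
      exact (EB_cP_eval b a).symm
    rw [h3]
    exact MvPolynomial.eval₂Hom_bind₁ (RingHom.id k) b (EB_cP k m n) P
  rw [map_mul, MvPolynomial.eval_C, h2, ← h1]
  have h4 : ((-1 : k) ^ (n + 2)) ^ e * ((-1 : k) ^ (n + 1) * - Kv b) ^ e = (Kv b) ^ e := by
    rw [← mul_pow]
    congr 1
    have h5 : (-1 : k) ^ (n + 2) * (-1) ^ (n + 1) = -1 := by
      rw [← pow_add]
      have : n + 2 + (n + 1) = 2 * (n + 1) + 1 := by ring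
      rw [this, pow_succ, pow_mul]
      simp
    linear_combination (- Kv b) * h5
  rw [← h4]
  ring

/-- Laurent functions of framings -/
def EB_LP (h : (Fin (m + 1) ⊕ Fin (n + 1) → Fin 2 → k) → k) : Prop :=
  ∃ (Q : MvPolynomial ((Fin (m + 1) ⊕ Fin (n + 1)) × Fin 2) k) (M : ℕ),
    ∀ v : Fin (m + 1) ⊕ Fin (n + 1) → Fin 2 → k, bdry v ≠ 0 →
      h v * bdry v ^ M = MvPolynomial.eval (fun a => v a.1 a.2) Q

theorem EB_LP_const (c : k) : EB_LP (fun _ : Fin (m + 1) ⊕ Fin (n + 1) → Fin 2 → k => c) := by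
  refine ⟨MvPolynomial.C c, 0, ?_⟩
  intro v _
  rw [pow_zero, mul_one, MvPolynomial.eval_C]

theorem EB_LP_mul {f g : (Fin (m + 1) ⊕ Fin (n + 1) → Fin 2 → k) → k} (hf : EB_LP f)
    (hg : EB_LP g) : EB_LP (fun v => f v * g v) := by
  obtain ⟨P, e, hP⟩ := hf
  obtain ⟨Q, e', hQ⟩ := hg
  refine ⟨P * Q, e + e', ?_⟩
  intro v hv
  have h1 := hP v hv
  have h2 := hQ v hv
  rw [map_mul, ← h1, ← h2, pow_add]
  ring

theorem EB_LP_add {f g : (Fin (m + 1) ⊕ Fin (n + 1) → Fin 2 → k) → k} (hf : EB_LP f)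
    (hg : EB_LP g) : EB_LP (fun v => f v + g v) := by
  obtain ⟨P, e, hP⟩ := hf
  obtain ⟨Q, e', hQ⟩ := hg
  refine ⟨P * CfC_bP k m n ^ e' + Q * CfC_bP k m n ^ e, e + e', ?_⟩
  intro v hv
  have h1 := hP v hv
  have h2 := hQ v hv
  simp only [map_add, map_mul, map_pow, CfC_bP_eval, pow_add] at h1 h2 ⊢
  rw [← h1, ← h2]
  ring

theorem EB_LP_pow {f : (Fin (m + 1) ⊕ Fin (n + 1) → Fin 2 → k) → k} (hf : EB_LP f) (e : ℕ) :
    EB_LP (fun v => f v ^ e) := by
  induction e with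
  | zero =>
    simp only [pow_zero]
    exact EB_LP_const 1
  | succ e ih =>
    simp only [pow_succ]
    exact EB_LP_mul ih hf

theorem EB_LP_eval {l : ℕ} (g : Fin l → (Fin (m + 1) ⊕ Fin (n + 1) → Fin 2 → k) → k)
    (hg : ∀ i, EB_LP (g i)) (P : MvPolynomial (Fin l) k) :
    EB_LP (fun v => MvPolynomial.eval (fun i => g i v) P) := by
  induction P using MvPolynomial.induction_on with
  | C a =>
    simp only [MvPolynomial.eval_C]
    exact EB_LP_const a
  | add p q hp hq =>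
    simp only [map_add]
    exact EB_LP_add hp hq
  | mul_X p i hp =>
    simp only [map_mul, MvPolynomial.eval_X]
    exact EB_LP_mul hp (hg i)

theorem EB_LP_det (i j : ZMod (m + n + 2)) :
    EB_LP (fun v : Fin (m + 1) ⊕ Fin (n + 1) → Fin 2 → k => det2 (vz v i) (vz v j)) := by
  refine ⟨CfC_dP k m n i j, 0, ?_⟩
  intro v _
  rw [pow_zero, mul_one, CfC_dP_eval]

theorem EB_det_ne {v : Fin (m + 1) ⊕ Fin (n + 1) → Fin 2 → k} (hv : bdry v ≠ 0)
    (i : ZMod (m + n + 2)) : det2 (vz v i) (vz v (i + 1)) ≠ 0 := by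
  rw [bdry_eq] at hv
  have h1 := right_ne_zero_of_mul hv
  rw [Finset.prod_ne_zero_iff] at h1
  exact h1 i (Finset.mem_univ _)

theorem EB_LP_inv (i : ZMod (m + n + 2)) :
    EB_LP (fun v : Fin (m + 1) ⊕ Fin (n + 1) → Fin 2 → k =>
      (det2 (vz v i) (vz v (i + 1)))⁻¹) := by
  classical
  refine ⟨(-1) ^ (n + 1) * ∏ j ∈ Finset.univ.erase i, CfC_dP k m n j (j + 1), 1, ?_⟩
  intro v hv
  have h0 := EB_det_ne hv i
  rw [pow_one, map_mul, map_pow, map_neg, map_one, map_prod, bdry_eq]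
  have h1 : ∏ j ∈ Finset.univ.erase i,
      MvPolynomial.eval (fun a => v a.1 a.2) (CfC_dP k m n j (j + 1)) =
      ∏ j ∈ Finset.univ.erase i, det2 (vz v j) (vz v (j + 1)) := by
    apply Finset.prod_congr rfl
    intro j _
    exact CfC_dP_eval v j (j + 1)
  rw [h1, ← Finset.mul_prod_erase Finset.univ (fun j => det2 (vz v j) (vz v (j + 1)))
    (Finset.mem_univ i)]
  field_simp

/-- the scalars of the normalised lift -/
def EB_mu (v : Fin (m + 1) ⊕ Fin (n + 1) → Fin 2 → k) : ℕ → k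
  | 0 => 1
  | (i + 1) => (EB_mu v i)⁻¹ * (det2 (vz v (i : ZMod (m + n + 2)))
      (vz v ((i : ZMod (m + n + 2)) + 1)))⁻¹

theorem EB_mu_LP (i : ℕ) :
    EB_LP (fun v : Fin (m + 1) ⊕ Fin (n + 1) → Fin 2 → k => EB_mu v i) ∧
    EB_LP (fun v : Fin (m + 1) ⊕ Fin (n + 1) → Fin 2 → k => (EB_mu v i)⁻¹) := by
  induction i with
  | zero =>
    constructor
    · exact EB_LP_const 1
    · have h1 : (fun v : Fin (m + 1) ⊕ Fin (n + 1) → Fin 2 → k => (EB_mu v 0)⁻¹) = fun _ => 1 := by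
        funext v
        exact inv_one
      rw [h1]
      exact EB_LP_const 1
  | succ i ih =>
    constructor
    · exact EB_LP_mul ih.2 (EB_LP_inv (i : ZMod (m + n + 2)))
    · have h1 : (fun v : Fin (m + 1) ⊕ Fin (n + 1) → Fin 2 → k => (EB_mu v (i + 1))⁻¹) =
          fun v => EB_mu v i * det2 (vz v (i : ZMod (m + n + 2)))
            (vz v ((i : ZMod (m + n + 2)) + 1)) := by
        funext v
        show ((EB_mu v i)⁻¹ * (det2 (vz v (i : ZMod (m + n + 2)))
          (vz v ((i : ZMod (m + n + 2)) + 1)))⁻¹)⁻¹ = _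
        rw [mul_inv, inv_inv, inv_inv]
      rw [h1]
      exact EB_LP_mul ih.1 (EB_LP_det _ _)

theorem EB_mu_ne {v : Fin (m + 1) ⊕ Fin (n + 1) → Fin 2 → k} (hv : bdry v ≠ 0) (i : ℕ) :
    EB_mu v i ≠ 0 := by
  induction i with
  | zero => exact one_ne_zero
  | succ i ih => exact mul_ne_zero (inv_ne_zero ih) (inv_ne_zero (EB_det_ne hv _))

theorem EB_mu_mul {v : Fin (m + 1) ⊕ Fin (n + 1) → Fin 2 → k} (hv : bdry v ≠ 0) (i : ℕ) :
    EB_mu v i * EB_mu v (i + 1) *
      det2 (vz v (i : ZMod (m + n + 2))) (vz v ((i : ZMod (m + n + 2)) + 1)) = 1 := by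
  have h1 := EB_mu_ne hv i
  have h2 := EB_det_ne hv (i : ZMod (m + n + 2))
  show EB_mu v i * ((EB_mu v i)⁻¹ * (det2 (vz v (i : ZMod (m + n + 2)))
      (vz v ((i : ZMod (m + n + 2)) + 1)))⁻¹) * _ = 1
  field_simp

/-- the entries of the normalised lift -/
def EB_b (v : Fin (m + 1) ⊕ Fin (n + 1) → Fin 2 → k) (i : Fin (m + n)) : k :=
  EB_mu v i.val * EB_mu v (i.val + 2) *
    det2 (vz v ((i.val : ℕ) : ZMod (m + n + 2))) (vz v (((i.val : ℕ) : ZMod (m + n + 2)) + 2))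

theorem EB_b_LP (i : Fin (m + n)) :
    EB_LP (fun v : Fin (m + 1) ⊕ Fin (n + 1) → Fin 2 → k => EB_b v i) :=
  EB_LP_mul (EB_LP_mul (EB_mu_LP i.val).1 (EB_mu_LP (i.val + 2)).1) (EB_LP_det _ _)

/-- the inverse of the continuant of the normalised lift -/
def EB_Ki (v : Fin (m + 1) ⊕ Fin (n + 1) → Fin 2 → k) : k :=
  -1 * ((EB_mu v (m + n + 1))⁻¹ * (det2 (vz v (((m + n + 1 : ℕ)) : ZMod (m + n + 2)))
    (vz v ((((m + n + 1 : ℕ)) : ZMod (m + n + 2)) + 1)))⁻¹)

theorem EB_Ki_LP : EB_LP (fun v : Fin (m + 1) ⊕ Fin (n + 1) → Fin 2 → k => EB_Ki v) :=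
  EB_LP_mul (EB_LP_const (-1)) (EB_LP_mul (EB_mu_LP (m + n + 1)).2 (EB_LP_inv _))

theorem EB_norm {p : Cfg k m n} {v : Fin (m + 1) ⊕ Fin (n + 1) → Fin 2 → k} (h : IsFraming p v) :
    Kv (EB_b v) * EB_Ki v = 1 ∧ ∃ hb : Kv (EB_b v) ≠ 0, p ≈ cfgB (EB_b v) hb := by
  have hv := bdry_ne_zero h
  have hval : ∀ i : ℕ, i < m + n + 2 → ((i : ℕ) : ZMod (m + n + 2)).val = i :=
    fun i hi => ZMod.val_natCast_of_lt hi
  have key := cfgB_of_lift p (fun i => EB_mu v i.val • vz v i) (fun i => ?_) (fun i hi => ?_)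
  · have hfun : (fun i : Fin (m + n) =>
        det2 ((fun i : ZMod (m + n + 2) => EB_mu v i.val • vz v i) ((i : ℕ) : ZMod (m + n + 2)))
          ((fun i : ZMod (m + n + 2) => EB_mu v i.val • vz v i)
          (((i : ℕ) : ZMod (m + n + 2)) + 2))) = EB_b v := by
      funext i
      have hi := i.isLt
      have e1 := hval i.val (by omega)
      have e2 : (((i.val : ℕ) : ZMod (m + n + 2)) + 2).val = i.val + 2 := by
        have e3 : (((i.val : ℕ) : ZMod (m + n + 2)) + 2) = ((i.val + 2 : ℕ) : ZMod (m + n + 2)) := by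
          push_cast; ring
        rw [e3]
        exact hval _ (by omega)
      unfold EB_b
      simp only [e1, e2, det2, Pi.smul_apply, smul_eq_mul]
      ring
    obtain ⟨h1, h2⟩ := key
    have h3 : Kv (EB_b v) = det2 (EB_mu v (0 : ZMod (m + n + 2)).val • vz v 0)
        (EB_mu v (((m + n + 1 : ℕ)) : ZMod (m + n + 2)).val •
          vz v (((m + n + 1 : ℕ)) : ZMod (m + n + 2))) := by
      rw [← hfun]
      exact h1
    have h4 : ∀ b : Fin (m + n) → k, b = EB_b v → (∃ hb : Kv b ≠ 0, p ≈ cfgB b hb) →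
        ∃ hb : Kv (EB_b v) ≠ 0, p ≈ cfgB (EB_b v) hb := by
      rintro b rfl hh
      exact hh
    refine ⟨?_, h4 _ hfun h2⟩
    have e1 := hval (m + n + 1) (by omega)
    have e0 : (0 : ZMod (m + n + 2)).val = 0 := ZMod.val_zero
    have e2 : (((m + n + 1 : ℕ)) : ZMod (m + n + 2)) + 1 = 0 := by
      have := ZMod.natCast_self (m + n + 2)
      push_cast at this ⊢
      linear_combination this
    rw [e1, e0] at h3
    have h5 := EB_mu_ne hv (m + n + 1)
    have h6 := EB_det_ne hv (((m + n + 1 : ℕ)) : ZMod (m + n + 2))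
    have h7 : Kv (EB_b v) = - (EB_mu v (m + n + 1) *
        det2 (vz v (((m + n + 1 : ℕ)) : ZMod (m + n + 2)))
          (vz v ((((m + n + 1 : ℕ)) : ZMod (m + n + 2)) + 1))) := by
      rw [h3, e2]
      have h8 : EB_mu v 0 = 1 := rfl
      rw [h8]
      simp only [det2, Pi.smul_apply, smul_eq_mul]
      ring
    rw [h7]
    unfold EB_Ki
    field_simp
  · obtain ⟨h1, h2⟩ := framing_vz h i
    have h3 : EB_mu v i.val • vz v i ≠ 0 := smul_ne_zero (EB_mu_ne hv _) h1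
    refine ⟨h3, ?_⟩
    rw [h2, Projectivization.mk_eq_mk_iff']
    exact ⟨(EB_mu v i.val)⁻¹, by rw [smul_smul, inv_mul_cancel₀ (EB_mu_ne hv _), one_smul]⟩
  · have e1 := hval i (by omega)
    have e2 : (((i : ℕ) : ZMod (m + n + 2)) + 1).val = i + 1 := by
      have e3 : (((i : ℕ) : ZMod (m + n + 2)) + 1) = ((i + 1 : ℕ) : ZMod (m + n + 2)) := by
        push_cast; ring
      rw [e3]
      exact hval _ (by omega)
    have h3 := EB_mu_mul hv i
    simp only [e1, e2]
    rw [← h3]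
    simp only [det2, Pi.smul_apply, smul_eq_mul]
    ring

/-- Converse.  Call a function `h` of framings `v` (families with `bdry v ≠ 0`) LP if there are a polynomial `Q` and `M` with
`h v * bdry v ^ M = eval Q` for all such `v`.  LP functions are closed under sums and products and contain constants, all
`det2 (vz v i) (vz v j)`, and `1 / d i`, `d i = det2 (vz v i) (vz v (i+1))` (`bdry_eq`: `bdry v / d i` is `±` the product of the
other `d j`).  Let `μ 0 = 1`, `μ (i+1) = 1 / (μ i * d i)`; `μ i` and `1 / μ i` are LP for `i ≤ m + n + 1` (induction).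
For a framing `v` of `p`, `cfgB_of_lift` for the vectors `μ i • vz v i` gives `p ≈ cfgB b`,
`b i = μ i * μ (i+2) * det2 (vz v i) (vz v (i+2))`, `K(b) = μ 0 * μ (m+n+1) * det2 (vz v 0) (vz v (m+n+1))
= - μ (m+n+1) * d (m+n+1)`.  So `f [p] = P(b) * (1/K(b))^e` is LP. -/
theorem poly_reg (f : Conf k m n → k) (P : MvPolynomial (Fin (m + n)) k) (e : ℕ)
    (h : ∀ (b : Fin (m + n) → k) (hb : Kv b ≠ 0),
      f (Quotient.mk _ (cfgB b hb)) * (Kv b) ^ e = MvPolynomial.eval b P) : IsRegular f := by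
  obtain ⟨Q, M, hQ⟩ := EB_LP_mul
    (EB_LP_eval (fun (i : Fin (m + n)) (v : Fin (m + 1) ⊕ Fin (n + 1) → Fin 2 → k) => EB_b v i)
      EB_b_LP P) (EB_LP_pow (EB_Ki_LP (k := k) (m := m) (n := n)) e)
  refine ⟨Q, M, ?_⟩
  intro p v hv
  have h1 := hQ v (bdry_ne_zero hv)
  rw [← h1]
  obtain ⟨h2, hb, h3⟩ := EB_norm hv
  have h4 : (Quotient.mk _ p : Conf k m n) = Quotient.mk _ (cfgB (EB_b v) hb) :=
    Quotient.sound h3
  have h5 := h (EB_b v) hb
  have h6 : f (Quotient.mk _ p) = MvPolynomial.eval (EB_b v) P * EB_Ki v ^ e := by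
    rw [h4, ← h5, mul_assoc, ← mul_pow, h2, one_pow, mul_one]
  rw [h6]

end Pool.Agent.Lib.MP_d4c67c_gt
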