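import Pool.Agent.Lib.MP_d4c67c_gt.E.B

/-!
# JOB ED: the functions `cF i j`, `cG i j`, rotation and reflection of `Conf`

(You may use `E/A.lean`, `E/B.lean`, which are other jobs.)
-/

open scoped LinearAlgebra.Projectivization

namespace Pool.Agent.Lib.MP_d4c67c_gt

variable {k : Type*} [Field k] {m n : ℕ}

/-- `c_ij = [i,j][i+1,j+1] / ([i,i+1][j,j+1])` for a polygon -/
def cFv {K : Type*} [Field K] {N : ℕ} (v : ZMod N → Fin 2 → K) (i j : ZMod N) : K :=
  det2 (v i) (v j) * det2 (v (i + 1)) (v (j + 1)) / (det2 (v i) (v (i + 1)) * det2 (v j) (v (j + 1)))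

/-- `c'_ij = [i,j+1][i+1,j] / ([i,i+1][j,j+1])` for a polygon -/
def cGv {K : Type*} [Field K] {N : ℕ} (v : ZMod N → Fin 2 → K) (i j : ZMod N) : K :=
  det2 (v i) (v (j + 1)) * det2 (v (i + 1)) (v j) / (det2 (v i) (v (i + 1)) * det2 (v j) (v (j + 1)))

/-- Plücker relation -/
theorem cFv_eq {K : Type*} [Field K] {N : ℕ} (v : ZMod N → Fin 2 → K) (i j : ZMod N)
    (hi : det2 (v i) (v (i + 1)) ≠ 0) (hj : det2 (v j) (v (j + 1)) ≠ 0) :
    cFv v i j = 1 + cGv v i j := by
  unfold cFv cGv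
  have h : det2 (v i) (v j) * det2 (v (i + 1)) (v (j + 1)) =
      det2 (v i) (v (i + 1)) * det2 (v j) (v (j + 1)) +
        det2 (v i) (v (j + 1)) * det2 (v (i + 1)) (v j) := by
    unfold det2
    ring
  rw [h, add_div, div_self (mul_ne_zero hi hj)]

theorem ED_rep (p : Cfg k m n) (s : ZMod (m + n + 2)) :
    ∃ h : (pt p s).rep ≠ 0, pt p s = Projectivization.mk k (pt p s).rep h :=
  ⟨(pt p s).rep_nonzero, (Projectivization.mk_rep (pt p s)).symm⟩

/-- independence of the vectors chosen on the lines and invariance under `GL_2`: if `v'` is obtained from `v` by an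
invertible linear map and rescalings, the values agree -/
theorem cFv_lift {p q : Cfg k m n} (hpq : p ≈ q) {v w : ZMod (m + n + 2) → Fin 2 → k}
    (hv : ∀ i, ∃ h : v i ≠ 0, pt p i = Projectivization.mk k (v i) h)
    (hw : ∀ i, ∃ h : w i ≠ 0, pt q i = Projectivization.mk k (w i) h) (i j : ZMod (m + n + 2)) :
    cFv v i j = cFv w i j ∧ cGv v i j = cGv w i j := by
  rw [equiv_iff] at hpq
  obtain ⟨g, hg⟩ := hpq
  obtain ⟨δ, hδ, hdet⟩ := det2_gl g
  have hex : ∀ s, ∃ a : k, a ≠ 0 ∧ a • (g • v s) = w s := by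
    intro s
    obtain ⟨h1, h2⟩ := hv s
    obtain ⟨h3, h4⟩ := hw s
    have h5 := hg s
    rw [h2, h4, Projectivization.smul_mk] at h5
    have h6 := h5.symm
    rw [Projectivization.mk_eq_mk_iff'] at h6
    obtain ⟨a, ha⟩ := h6
    refine ⟨a, ?_, ha⟩
    rintro rfl
    rw [zero_smul] at ha
    exact h3 ha.symm
  choose μ hμ hμw using hex
  have hD : ∀ s t, det2 (w s) (w t) = μ s * μ t * δ * det2 (v s) (v t) := by
    intro s t
    rw [← hμw s, ← hμw t]
    have h1 := hdet (v s) (v t)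
    simp only [det2, Pi.smul_apply, smul_eq_mul] at h1 ⊢
    linear_combination μ s * μ t * h1
  have hC : μ i * μ j * μ (i + 1) * μ (j + 1) * δ * δ ≠ 0 :=
    mul_ne_zero (mul_ne_zero (mul_ne_zero (mul_ne_zero (mul_ne_zero (hμ i) (hμ j)) (hμ (i + 1)))
      (hμ (j + 1))) hδ) hδ
  constructor
  · unfold cFv
    rw [hD, hD, hD, hD]
    have e1 : μ i * μ j * δ * det2 (v i) (v j) *
        (μ (i + 1) * μ (j + 1) * δ * det2 (v (i + 1)) (v (j + 1))) =
        (μ i * μ j * μ (i + 1) * μ (j + 1) * δ * δ) *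
          (det2 (v i) (v j) * det2 (v (i + 1)) (v (j + 1))) := by ring
    have e2 : μ i * μ (i + 1) * δ * det2 (v i) (v (i + 1)) *
        (μ j * μ (j + 1) * δ * det2 (v j) (v (j + 1))) =
        (μ i * μ j * μ (i + 1) * μ (j + 1) * δ * δ) *
          (det2 (v i) (v (i + 1)) * det2 (v j) (v (j + 1))) := by ring
    rw [e1, e2, mul_div_mul_left _ _ hC]
  · unfold cGv
    rw [hD, hD, hD, hD]
    have e1 : μ i * μ (j + 1) * δ * det2 (v i) (v (j + 1)) *
        (μ (i + 1) * μ j * δ * det2 (v (i + 1)) (v j)) =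
        (μ i * μ j * μ (i + 1) * μ (j + 1) * δ * δ) *
          (det2 (v i) (v (j + 1)) * det2 (v (i + 1)) (v j)) := by ring
    have e2 : μ i * μ (i + 1) * δ * det2 (v i) (v (i + 1)) *
        (μ j * μ (j + 1) * δ * det2 (v j) (v (j + 1))) =
        (μ i * μ j * μ (i + 1) * μ (j + 1) * δ * δ) *
          (det2 (v i) (v (i + 1)) * det2 (v j) (v (j + 1))) := by ring
    rw [e1, e2, mul_div_mul_left _ _ hC]

/-- the function `c_ij` on `Conf` -/
noncomputable def cF (i j : ZMod (m + n + 2)) : Conf k m n → k :=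
  Quotient.lift (fun p => cFv (fun s => (pt p s).rep) i j) (by
    intro p q hpq
    exact (cFv_lift hpq (ED_rep p) (ED_rep q) i j).1)

/-- the function `c'_ij` on `Conf` -/
noncomputable def cG (i j : ZMod (m + n + 2)) : Conf k m n → k :=
  Quotient.lift (fun p => cGv (fun s => (pt p s).rep) i j) (by
    intro p q hpq
    exact (cFv_lift hpq (ED_rep p) (ED_rep q) i j).2)

theorem cF_mk (p : Cfg k m n) (v : ZMod (m + n + 2) → Fin 2 → k)
    (hv : ∀ i, ∃ h : v i ≠ 0, pt p i = Projectivization.mk k (v i) h) (i j : ZMod (m + n + 2)) :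
    cF i j (Quotient.mk _ p : Conf k m n) = cFv v i j ∧ cG i j (Quotient.mk _ p : Conf k m n) = cGv v i j :=
  cFv_lift (Setoid.refl p) (ED_rep p) hv i j

theorem ED_det2_rep (p : Cfg k m n) (s t : ZMod (m + n + 2)) :
    det2 (pt p s).rep (pt p t).rep = 0 ↔ pt p s = pt p t := by
  rw [← mk_eq_mk_iff_det2 (pt p s).rep_nonzero (pt p t).rep_nonzero, Projectivization.mk_rep,
    Projectivization.mk_rep]

theorem ED_edge (p : Cfg k m n) (s : ZMod (m + n + 2)) :
    det2 (pt p s).rep (pt p (s + 1)).rep ≠ 0 := by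
  rw [Ne, ED_det2_rep]
  exact pt_ne p s

theorem cF_eq (i j : ZMod (m + n + 2)) (P : Conf k m n) : cF i j P = 1 + cG i j P := by
  obtain ⟨p, rfl⟩ := Quotient.exists_rep P
  exact cFv_eq (fun s => (pt p s).rep) i j (ED_edge p i) (ED_edge p j)

theorem ED_bdry_sq (v : Fin (m + 1) ⊕ Fin (n + 1) → Fin 2 → k) (i j : ZMod (m + n + 2)) :
    bdry v ^ 2 = (det2 (vz v i) (vz v (i + 1)) * det2 (vz v j) (vz v (j + 1))) *
      ((∏ s ∈ Finset.univ.erase i, det2 (vz v s) (vz v (s + 1))) *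
        ∏ s ∈ Finset.univ.erase j, det2 (vz v s) (vz v (s + 1))) := by
  have h1 := Finset.mul_prod_erase Finset.univ
    (fun s : ZMod (m + n + 2) => det2 (vz v s) (vz v (s + 1))) (Finset.mem_univ i)
  have h2 := Finset.mul_prod_erase Finset.univ
    (fun s : ZMod (m + n + 2) => det2 (vz v s) (vz v (s + 1))) (Finset.mem_univ j)
  have h3 : ((-1 : k) ^ (n + 1)) ^ 2 = 1 := by
    rw [← pow_mul, mul_comm, pow_mul]
    simp
  rw [bdry_eq, mul_pow, h3, one_mul]
  calc (∏ s : ZMod (m + n + 2), det2 (vz v s) (vz v (s + 1))) ^ 2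
      = (∏ s : ZMod (m + n + 2), det2 (vz v s) (vz v (s + 1))) *
        (∏ s : ZMod (m + n + 2), det2 (vz v s) (vz v (s + 1))) := by ring
    _ = (det2 (vz v i) (vz v (i + 1)) *
          (∏ s ∈ Finset.univ.erase i, det2 (vz v s) (vz v (s + 1)))) *
        (det2 (vz v j) (vz v (j + 1)) *
          ∏ s ∈ Finset.univ.erase j, det2 (vz v s) (vz v (s + 1))) := by
        rw [h1, h2]
    _ = _ := by ring

theorem ED_edge_vz {p : Cfg k m n} {v : Fin (m + 1) ⊕ Fin (n + 1) → Fin 2 → k}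
    (h : IsFraming p v) (s : ZMod (m + n + 2)) : det2 (vz v s) (vz v (s + 1)) ≠ 0 := by
  obtain ⟨h1, h2⟩ := framing_vz h s
  obtain ⟨h3, h4⟩ := framing_vz h (s + 1)
  intro h0
  apply pt_ne p s
  rw [h2, h4, mk_eq_mk_iff_det2]
  exact h0

/-- regular: for a framing `v`, `cF i j [p] * bdry v ^ 2` is a polynomial (`bdry_eq`: `bdry v ^ 2` is the square of the
product of all `det2 (vz v s) (vz v (s+1))`, which contains `d i * d j`, even if `i = j`). -/
theorem cF_reg (i j : ZMod (m + n + 2)) : IsRegular (cF i j : Conf k m n → k) := by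
  refine ⟨CfC_dP k m n i j * CfC_dP k m n (i + 1) (j + 1) *
    ((∏ s ∈ Finset.univ.erase i, CfC_dP k m n s (s + 1)) *
      ∏ s ∈ Finset.univ.erase j, CfC_dP k m n s (s + 1)), 2, ?_⟩
  intro p v hv
  rw [(cF_mk p (vz v) (framing_vz hv) i j).1, ED_bdry_sq v i j]
  simp only [map_mul, map_prod, CfC_dP_eval]
  unfold cFv
  rw [← mul_assoc, div_mul_cancel₀ _ (mul_ne_zero (ED_edge_vz hv i) (ED_edge_vz hv j))]

theorem cG_reg (i j : ZMod (m + n + 2)) : IsRegular (cG i j : Conf k m n → k) := by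
  refine ⟨CfC_dP k m n i (j + 1) * CfC_dP k m n (i + 1) j *
    ((∏ s ∈ Finset.univ.erase i, CfC_dP k m n s (s + 1)) *
      ∏ s ∈ Finset.univ.erase j, CfC_dP k m n s (s + 1)), 2, ?_⟩
  intro p v hv
  rw [(cF_mk p (vz v) (framing_vz hv) i j).2, ED_bdry_sq v i j]
  simp only [map_mul, map_prod, CfC_dP_eval]
  unfold cGv
  rw [← mul_assoc, div_mul_cancel₀ _ (mul_ne_zero (ED_edge_vz hv i) (ED_edge_vz hv j))]

/-- the flags number `i` and `j` coincide -/
def ZS (i j : ZMod (m + n + 2)) : Conf k m n → Prop :=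
  Quotient.lift (fun p => pt p i = pt p j) (by
    intro p q hpq
    rw [equiv_iff] at hpq
    obtain ⟨g, hg⟩ := hpq
    show (pt p i = pt p j) = (pt q i = pt q j)
    rw [← hg i, ← hg j]
    exact propext ⟨fun h => by rw [h], fun h => smul_left_cancel g h⟩)

theorem ZS_mk (p : Cfg k m n) (i j : ZMod (m + n + 2)) :
    ZS i j (Quotient.mk _ p : Conf k m n) ↔ pt p i = pt p j := Iff.rfl

theorem ZS_symm (i j : ZMod (m + n + 2)) (P : Conf k m n) : ZS i j P ↔ ZS j i P := by
  obtain ⟨p, rfl⟩ := Quotient.exists_rep P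
  exact eq_comm

/-- `cF i j P = 0` iff the flags `i, j` or the flags `i+1, j+1` coincide; `cG i j P = 0` iff `i, j+1` or `i+1, j` do -/
theorem cF_zero (i j : ZMod (m + n + 2)) (P : Conf k m n) :
    cF i j P = 0 ↔ ZS i j P ∨ ZS (i + 1) (j + 1) P := by
  obtain ⟨p, rfl⟩ := Quotient.exists_rep P
  show cFv (fun s => (pt p s).rep) i j = 0 ↔ pt p i = pt p j ∨ pt p (i + 1) = pt p (j + 1)
  unfold cFv
  rw [div_eq_zero_iff, or_iff_left (mul_ne_zero (ED_edge p i) (ED_edge p j)), mul_eq_zero,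
    ED_det2_rep, ED_det2_rep]

theorem cG_zero (i j : ZMod (m + n + 2)) (P : Conf k m n) :
    cG i j P = 0 ↔ ZS i (j + 1) P ∨ ZS (i + 1) j P := by
  obtain ⟨p, rfl⟩ := Quotient.exists_rep P
  show cGv (fun s => (pt p s).rep) i j = 0 ↔ pt p i = pt p (j + 1) ∨ pt p (i + 1) = pt p j
  unfold cGv
  rw [div_eq_zero_iff, or_iff_left (mul_ne_zero (ED_edge p i) (ED_edge p j)), mul_eq_zero,
    ED_det2_rep, ED_det2_rep]

/-- rotation by `c`: the flag number `i` of the new configuration is the flag number `i + c` -/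
noncomputable def rotC (c : ZMod (m + n + 2)) : Conf k m n ≃ Conf k m n where
  toFun := Quotient.map (fun p => ofPt (fun i => pt p (i + c)) (by
      intro i
      have h := pt_ne p (i + c)
      rw [add_right_comm i c 1] at h
      exact h)) (by
      intro p q hpq
      rw [equiv_iff] at hpq
      obtain ⟨g, hg⟩ := hpq
      exact (equiv_iff _ _).2 ⟨g, fun i => by rw [pt_ofPt, pt_ofPt]; exact hg _⟩)
  invFun := Quotient.map (fun p => ofPt (fun i => pt p (i - c)) (by
      intro i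
      have h := pt_ne p (i - c)
      have e : i - c + 1 = i + 1 - c := by ring
      rw [e] at h
      exact h)) (by
      intro p q hpq
      rw [equiv_iff] at hpq
      obtain ⟨g, hg⟩ := hpq
      exact (equiv_iff _ _).2 ⟨g, fun i => by rw [pt_ofPt, pt_ofPt]; exact hg _⟩)
  left_inv := by
    intro P
    obtain ⟨p, rfl⟩ := Quotient.exists_rep P
    refine congrArg (Quotient.mk _) (pt_injective fun i => ?_)
    rw [pt_ofPt, pt_ofPt]
    exact congrArg (pt p) (by ring)
  right_inv := by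
    intro P
    obtain ⟨p, rfl⟩ := Quotient.exists_rep P
    refine congrArg (Quotient.mk _) (pt_injective fun i => ?_)
    rw [pt_ofPt, pt_ofPt]
    exact congrArg (pt p) (by ring)

/-- reflection about `c`: the flag number `i` of the new configuration is the flag number `c - i` -/
noncomputable def refC (c : ZMod (m + n + 2)) : Conf k m n ≃ Conf k m n where
  toFun := Quotient.map (fun p => ofPt (fun i => pt p (c - i)) (by
      intro i
      have h := (pt_ne p (c - (i + 1))).symm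
      have e : c - (i + 1) + 1 = c - i := by ring
      rw [e] at h
      exact h)) (by
      intro p q hpq
      rw [equiv_iff] at hpq
      obtain ⟨g, hg⟩ := hpq
      exact (equiv_iff _ _).2 ⟨g, fun i => by rw [pt_ofPt, pt_ofPt]; exact hg _⟩)
  invFun := Quotient.map (fun p => ofPt (fun i => pt p (c - i)) (by
      intro i
      have h := (pt_ne p (c - (i + 1))).symm
      have e : c - (i + 1) + 1 = c - i := by ring
      rw [e] at h
      exact h)) (by
      intro p q hpq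
      rw [equiv_iff] at hpq
      obtain ⟨g, hg⟩ := hpq
      exact (equiv_iff _ _).2 ⟨g, fun i => by rw [pt_ofPt, pt_ofPt]; exact hg _⟩)
  left_inv := by
    intro P
    obtain ⟨p, rfl⟩ := Quotient.exists_rep P
    refine congrArg (Quotient.mk _) (pt_injective fun i => ?_)
    rw [pt_ofPt, pt_ofPt]
    exact congrArg (pt p) (by ring)
  right_inv := by
    intro P
    obtain ⟨p, rfl⟩ := Quotient.exists_rep P
    refine congrArg (Quotient.mk _) (pt_injective fun i => ?_)
    rw [pt_ofPt, pt_ofPt]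
    exact congrArg (pt p) (by ring)

theorem rotC_mk (c : ZMod (m + n + 2)) (p : Cfg k m n) :
    ∃ q : Cfg k m n, rotC c (Quotient.mk _ p : Conf k m n) = Quotient.mk _ q ∧ ∀ i, pt q i = pt p (i + c) :=
  ⟨_, rfl, fun i => pt_ofPt _ _ i⟩

theorem refC_mk (c : ZMod (m + n + 2)) (p : Cfg k m n) :
    ∃ q : Cfg k m n, refC c (Quotient.mk _ p : Conf k m n) = Quotient.mk _ q ∧ ∀ i, pt q i = pt p (c - i) :=
  ⟨_, rfl, fun i => pt_ofPt _ _ i⟩

/-- cyclic label of an index -/
def ED_lab (m n : ℕ) (a : Fin (m + 1) ⊕ Fin (n + 1)) : ZMod (m + n + 2) :=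
  Sum.elim (fun i => ((i.val : ℕ) : ZMod (m + n + 2)))
    (fun j => ((m + n + 1 - j.val : ℕ) : ZMod (m + n + 2))) a

theorem ED_lab_idx (i : ZMod (m + n + 2)) : ED_lab m n (CfC_idx m n i) = i := by
  have hi := ZMod.val_lt i
  unfold CfC_idx
  split_ifs with h
  · show ((i.val : ℕ) : ZMod (m + n + 2)) = i
    exact ZMod.natCast_zmod_val i
  · show ((m + n + 1 - (m + n + 1 - i.val) : ℕ) : ZMod (m + n + 2)) = i
    have h1 : m + n + 1 - (m + n + 1 - i.val) = i.val := by omega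
    rw [h1, ZMod.natCast_zmod_val]

theorem ED_vz (v : Fin (m + 1) ⊕ Fin (n + 1) → Fin 2 → k)
    (π : ZMod (m + n + 2) → ZMod (m + n + 2)) (i : ZMod (m + n + 2)) :
    vz (fun a => vz v (π (ED_lab m n a))) i = vz v (π i) := by
  rw [CfC_vz, ED_lab_idx]

theorem ED_framing {p q : Cfg k m n} {π : ZMod (m + n + 2) → ZMod (m + n + 2)}
    (hq : ∀ i, pt q i = pt p (π i)) {v : Fin (m + 1) ⊕ Fin (n + 1) → Fin 2 → k}
    (hv : IsFraming p v) : IsFraming q (fun a => vz v (π (ED_lab m n a))) := by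
  constructor
  · intro i
    have h1 := framing_vz hv (π (ED_lab m n (Sum.inl i)))
    rw [← hq] at h1
    have h2 : pt q (ED_lab m n (Sum.inl i)) = q.up i := pt_up q i.val (by omega)
    rw [h2] at h1
    exact h1
  · intro j
    have h1 := framing_vz hv (π (ED_lab m n (Sum.inr j)))
    rw [← hq] at h1
    have h2 : pt q (ED_lab m n (Sum.inr j)) = q.dn j := pt_dn q j.val (by omega)
    rw [h2] at h1
    exact h1

theorem ED_reg_perm (Φ : Conf k m n → Conf k m n) (π : ZMod (m + n + 2) → ZMod (m + n + 2))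
    (ε : k) (hε : ε * ε = 1)
    (hΦ : ∀ p : Cfg k m n, ∃ q : Cfg k m n, Φ (Quotient.mk _ p) = Quotient.mk _ q ∧
      ∀ i, pt q i = pt p (π i))
    (hb : ∀ v : Fin (m + 1) ⊕ Fin (n + 1) → Fin 2 → k,
      bdry (fun a => vz v (π (ED_lab m n a))) = ε * bdry v) : IsRegularMap Φ := by
  rintro f ⟨P, e, hP⟩
  refine ⟨MvPolynomial.C (ε ^ e) *
    MvPolynomial.rename (fun a => (CfC_idx m n (π (ED_lab m n a.1)), a.2)) P, e, ?_⟩
  intro p v hv
  obtain ⟨q, hq1, hq2⟩ := hΦ p
  have h1 := hP q _ (ED_framing hq2 hv)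
  rw [hb v] at h1
  have h2 : MvPolynomial.eval (fun a : (Fin (m + 1) ⊕ Fin (n + 1)) × Fin 2 =>
      vz v (π (ED_lab m n a.1)) a.2) P =
      MvPolynomial.eval (fun a => v a.1 a.2)
        (MvPolynomial.rename (fun a => (CfC_idx m n (π (ED_lab m n a.1)), a.2)) P) := by
    rw [MvPolynomial.eval_rename]
    refine congrArg (fun z => MvPolynomial.eval z P) ?_
    funext a
    rw [CfC_vz]
    rfl
  rw [Function.comp_apply, hq1, map_mul, MvPolynomial.eval_C, ← h2, ← h1, mul_pow]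
  have h3 : ε ^ e * ε ^ e = 1 := by rw [← mul_pow, hε, one_pow]
  linear_combination (-(f (Quotient.mk _ q) * bdry v ^ e)) * h3

/-- a rotation permutes the vectors of a framing and changes `bdry` at most by a sign (`bdry_eq`) -/
theorem rotC_reg (c : ZMod (m + n + 2)) : IsRegularMap (rotC c : Conf k m n ≃ Conf k m n) := by
  refine ED_reg_perm _ (fun i => i + c) 1 (by ring) (fun p => rotC_mk c p) ?_
  intro v
  rw [bdry_eq, bdry_eq, one_mul]
  refine congrArg (fun z => (-1 : k) ^ (n + 1) * z) ?_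
  refine Fintype.prod_equiv (Equiv.addRight c) _ _ (fun i => ?_)
  rw [ED_vz v (fun i => i + c), ED_vz v (fun i => i + c)]
  show det2 (vz v (i + c)) (vz v (i + 1 + c)) = det2 (vz v (i + c)) (vz v (i + c + 1))
  rw [add_right_comm i 1 c]

theorem refC_reg (c : ZMod (m + n + 2)) : IsRegularMap (refC c : Conf k m n ≃ Conf k m n) := by
  refine ED_reg_perm _ (fun i => c - i) ((-1) ^ (m + n + 2)) ?_ (fun p => refC_mk c p) ?_
  · rw [← mul_pow]
    simp
  intro v
  rw [bdry_eq, bdry_eq]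
  have h1 : ∏ i : ZMod (m + n + 2), det2 (vz (fun a => vz v (c - ED_lab m n a)) i)
      (vz (fun a => vz v (c - ED_lab m n a)) (i + 1)) =
      (-1) ^ (m + n + 2) * ∏ i : ZMod (m + n + 2), det2 (vz v i) (vz v (i + 1)) := by
    have h2 : ((-1 : k)) ^ (m + n + 2) = ∏ i : ZMod (m + n + 2), (-1 : k) := by
      rw [Finset.prod_const, Finset.card_univ, ZMod.card]
    rw [h2, ← Finset.prod_mul_distrib]
    refine Fintype.prod_equiv (Equiv.subLeft (c - 1)) _ _ (fun i => ?_)
    rw [ED_vz v (fun i => c - i), ED_vz v (fun i => c - i)]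
    show det2 (vz v (c - i)) (vz v (c - (i + 1))) =
      -1 * det2 (vz v (c - 1 - i)) (vz v (c - 1 - i + 1))
    have e1 : c - (i + 1) = c - 1 - i := by ring
    have e2 : c - 1 - i + 1 = c - i := by ring
    rw [e1, e2, CfC_det2_swap]
    ring
  rw [h1]
  ring

theorem cF_rotC (c i j : ZMod (m + n + 2)) (P : Conf k m n) :
    cF i j (rotC c P) = cF (i + c) (j + c) P ∧ cG i j (rotC c P) = cG (i + c) (j + c) P := by
  obtain ⟨p, rfl⟩ := Quotient.exists_rep P
  obtain ⟨q, hq1, hq2⟩ := rotC_mk c p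
  have h1 := cF_mk q (fun s => (pt p (s + c)).rep) (fun s => by
    rw [hq2 s]
    exact ED_rep p (s + c)) i j
  have e1 : i + c + 1 = i + 1 + c := by ring
  have e2 : j + c + 1 = j + 1 + c := by ring
  have h2 : cFv (fun s => (pt p (s + c)).rep) i j = cFv (fun s => (pt p s).rep) (i + c) (j + c) := by
    unfold cFv
    rw [e1, e2]
  have h3 : cGv (fun s => (pt p (s + c)).rep) i j = cGv (fun s => (pt p s).rep) (i + c) (j + c) := by
    unfold cGv
    rw [e1, e2]
  rw [hq1, h1.1, h1.2, h2, h3]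
  exact ⟨rfl, rfl⟩

/-- `[c-i, c-j][c-i-1, c-j-1] / ([c-i,c-i-1][c-j,c-j-1])` is `c` at `(c-i-1, c-j-1)` -/
theorem cF_refC (c i j : ZMod (m + n + 2)) (P : Conf k m n) :
    cF i j (refC c P) = cF (c - i - 1) (c - j - 1) P := by
  obtain ⟨p, rfl⟩ := Quotient.exists_rep P
  obtain ⟨q, hq1, hq2⟩ := refC_mk c p
  have h1 := cF_mk q (fun s => (pt p (c - s)).rep) (fun s => by
    rw [hq2 s]
    exact ED_rep p (c - s)) i j
  have e1 : c - (i + 1) = c - i - 1 := by ring
  have e2 : c - (j + 1) = c - j - 1 := by ring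
  have e3 : c - i - 1 + 1 = c - i := by ring
  have e4 : c - j - 1 + 1 = c - j := by ring
  rw [hq1, h1.1]
  show cFv (fun s => (pt p (c - s)).rep) i j = cFv (fun s => (pt p s).rep) (c - i - 1) (c - j - 1)
  unfold cFv
  beta_reduce
  rw [e1, e2, e3, e4, CfC_det2_swap (pt p (c - i)).rep (pt p (c - i - 1)).rep,
    CfC_det2_swap (pt p (c - j)).rep (pt p (c - j - 1)).rep, neg_mul_neg,
    mul_comm (det2 (pt p (c - i)).rep (pt p (c - j)).rep)]

theorem ZS_rotC (c i j : ZMod (m + n + 2)) (P : Conf k m n) : ZS i j (rotC c P) ↔ ZS (i + c) (j + c) P := by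
  obtain ⟨p, rfl⟩ := Quotient.exists_rep P
  obtain ⟨q, hq1, hq2⟩ := rotC_mk c p
  rw [hq1, ZS_mk, hq2, hq2]
  exact Iff.rfl

theorem ZS_refC (c i j : ZMod (m + n + 2)) (P : Conf k m n) : ZS i j (refC c P) ↔ ZS (c - i) (c - j) P := by
  obtain ⟨p, rfl⟩ := Quotient.exists_rep P
  obtain ⟨q, hq1, hq2⟩ := refC_mk c p
  rw [hq1, ZS_mk, hq2, hq2]
  exact Iff.rfl

end Pool.Agent.Lib.MP_d4c67c_gt
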