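import Pool.Agent.Lib.MP_d4c67c_gt.E.C
import Pool.Agent.Lib.MP_d4c67c_gt.E.D

/-!
# JOB EF: functions vanishing on coincidence loci (`m + n` even)

(You may use `E/A.lean`, …, `E/D.lean`, `Q.lean`, which are other jobs.)
-/

open scoped LinearAlgebra.Projectivization

namespace Pool.Agent.Lib.MP_d4c67c_gt

variable {k : Type*} [Field k] {m n : ℕ}

/-- `f` vanishes where the flags `i` and `j` coincide -/
def Van (i j : ZMod (m + n + 2)) (f : Reg k m n) : Prop := ∀ P, ZS i j P → f.1 P = 0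

/-- `c_ij` as an element of `Reg` -/
noncomputable def cR (i j : ZMod (m + n + 2)) : Reg k m n := ⟨cF i j, cF_reg i j⟩

/-- `c'_ij` as an element of `Reg` -/
noncomputable def gR (i j : ZMod (m + n + 2)) : Reg k m n := ⟨cG i j, cG_reg i j⟩

theorem EF_p_step (l n : ℕ) : (Ws (vr k l) (n + 2)).1
    = vr k l n * (Ws (vr k l) (n + 1)).1 - (Ws (vr k l) n).1 := rfl

/-- The first coordinates `p n = (Ws (vr k l) n).1` do not involve the variable `0` -/
theorem p_vars (l n : ℕ) (i : Fin l) (hi : i ∈ ((Ws (vr k l) n).1).vars) : 1 ≤ i.val ∧ i.val + 2 ≤ n := by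
  classical
  induction n using Nat.strong_induction_on with
  | _ n ih =>
    match n, ih, hi with
    | 0, _, hi =>
      have h0 : (Ws (vr k l) 0).1 = 1 := rfl
      rw [h0, MvPolynomial.vars_one] at hi
      simp at hi
    | 1, _, hi =>
      have h0 : (Ws (vr k l) 1).1 = 0 := rfl
      rw [h0, MvPolynomial.vars_0] at hi
      simp at hi
    | 2, _, hi =>
      have h0 : (Ws (vr k l) 2).1 = -1 := by
        have h1 := EF_p_step (k := k) l 0
        have h2 : (Ws (vr k l) (0 + 1)).1 = 0 := rfl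
        have h3 : (Ws (vr k l) 0).1 = 1 := rfl
        rw [h2, h3, mul_zero, zero_sub] at h1
        exact h1
      rw [h0, MvPolynomial.vars_neg, MvPolynomial.vars_one] at hi
      simp at hi
    | (n + 3), ih, hi =>
      have e : n + 3 = (n + 1) + 2 := rfl
      rw [e, EF_p_step] at hi
      have h1 := MvPolynomial.vars_sub_subset (p := vr k l (n + 1) * (Ws (vr k l) (n + 1 + 1)).1)
        (q := (Ws (vr k l) (n + 1)).1) hi
      rcases Finset.mem_union.mp h1 with h2 | h2
      · have h3 := MvPolynomial.vars_mul _ _ h2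
        rcases Finset.mem_union.mp h3 with h4 | h4
        · unfold vr at h4
          split_ifs at h4 with hl
          · rw [MvPolynomial.vars_X] at h4
            have h5 := Finset.mem_singleton.mp h4
            have h6 : i.val = n + 1 := congrArg Fin.val h5
            omega
          · rw [MvPolynomial.vars_0] at h4
            simp at h4
        · have := ih (n + 1 + 1) (by omega) h4
          omega
      · have := ih (n + 1) (by omega) h2
        omega

theorem EF_p_two (l : ℕ) : (Ws (vr k l) 2).1 = -1 := by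
  have h1 := EF_p_step (k := k) l 0
  have h2 : (Ws (vr k l) (0 + 1)).1 = 0 := rfl
  have h3 : (Ws (vr k l) 0).1 = 1 := rfl
  rw [h2, h3, mul_zero, zero_sub] at h1
  exact h1

theorem EF_p_coprime (l r : ℕ) : IsCoprime ((Ws (vr k l) (r + 1)).1) ((Ws (vr k l) r).1) := by
  refine ⟨- (Ws (vr k l) r).2, (Ws (vr k l) (r + 1)).2, ?_⟩
  have h := dt_Ws_succ (vr k l) r
  unfold dt at h
  linear_combination h

/-- and are irreducible for `3 ≤ n ≤ l + 1` (`p 2 = -1`, `p 3 = - X_1`, `p (n+2) = X_n * p (n+1) - p n`; same proof as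
`q_irred`, with `IsCoprime (p (n+1)) (p n)` from `dt_Ws_succ`). -/
theorem p_irred (l n : ℕ) (h3 : 3 ≤ n) (hn : n ≤ l + 1) : Irreducible ((Ws (vr k l) n).1) := by
  induction n using Nat.strong_induction_on with
  | _ n ih =>
    obtain ⟨r, rfl⟩ : ∃ r, n = r + 2 := ⟨n - 2, by omega⟩
    have hr : r < l := by omega
    have hne : (Ws (vr k l) (r + 1)).1 ≠ 0 := by
      rcases Nat.lt_or_ge r 2 with h0 | h0
      · have h1 : r = 1 := by omega
        subst h1
        rw [EF_p_two]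
        exact neg_ne_zero.mpr one_ne_zero
      · exact (ih (r + 1) (by omega) (by omega) (by omega)).ne_zero
    have he : (Ws (vr k l) (r + 2)).1
        = (Ws (vr k l) (r + 1)).1 * MvPolynomial.X ⟨r, hr⟩ + (- (Ws (vr k l) r).1) := by
      rw [EF_p_step]
      have hv : vr k l r = MvPolynomial.X ⟨r, hr⟩ := by
        unfold vr
        rw [dif_pos hr]
      rw [hv]
      ring
    rw [he]
    apply MvPolynomial.irreducible_mul_X_add
    · exact hne
    · intro hmem
      have h5 := (p_vars l (r + 1) _ hmem).2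
      have h6 : (⟨r, hr⟩ : Fin l).val = r := rfl
      rw [h6] at h5
      omega
    · intro hmem
      rw [MvPolynomial.vars_neg] at hmem
      have h5 := (p_vars l r _ hmem).2
      have h6 : (⟨r, hr⟩ : Fin l).val = r := rfl
      rw [h6] at h5
      omega
    · have hc := (EF_p_coprime (k := k) l r).neg_right
      exact hc.isRelPrime

theorem EF_Kv_eval {l : ℕ} (b : Fin l → k) :
    Kv b = MvPolynomial.eval b ((Ws (vr k l) (l + 1)).2) := by
  unfold Kv
  rw [Ws_sq_aeval (k := k)]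
  simp only [MvPolynomial.aeval_eq_eval]

/-- If a polynomial `P` vanishes at all `b` with `K(b) ≠ 0` and `x(b) = 0`, where `x` is irreducible and does not divide
`K = (Ws (vr k l) (l+1)).2`, then `x ∣ P`: `P * K` vanishes on the zero locus of the prime ideal `(x)`, so
`x ∣ P * K` (Nullstellensatz, `MvPolynomial.IsPrime.vanishingIdeal_zeroLocus`), `x` is prime. -/
theorem dvd_of_vanish [IsAlgClosed k] {l : ℕ} (P x : MvPolynomial (Fin l) k) (hx : Irreducible x)
    (hK : ¬ x ∣ (Ws (vr k l) (l + 1)).2)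
    (h : ∀ b : Fin l → k, Kv b ≠ 0 → MvPolynomial.eval b x = 0 → MvPolynomial.eval b P = 0) : x ∣ P := by
  have hp : Prime x := hx.prime
  have hI : (Ideal.span {x}).IsPrime := (Ideal.span_singleton_prime hp.ne_zero).mpr hp
  have h1 : P * (Ws (vr k l) (l + 1)).2 ∈
      MvPolynomial.vanishingIdeal k (MvPolynomial.zeroLocus k (Ideal.span {x})) := by
    rw [MvPolynomial.mem_vanishingIdeal_iff]
    intro b hb
    rw [MvPolynomial.zeroLocus_span] at hb
    have hb1 : MvPolynomial.eval b x = 0 := by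
      have h2 := hb x (Set.mem_singleton x)
      simpa only [MvPolynomial.aeval_eq_eval] using h2
    rw [map_mul]
    simp only [MvPolynomial.aeval_eq_eval]
    by_cases hz : Kv b = 0
    · rw [← EF_Kv_eval, hz, mul_zero]
    · rw [h b hz hb1, zero_mul]
  rw [MvPolynomial.IsPrime.vanishingIdeal_zeroLocus, Ideal.mem_span_singleton] at h1
  rcases hp.dvd_or_dvd h1 with h2 | h2
  · exact h2
  · exact absurd h2 hK


theorem EF_pderiv_q0 {l : ℕ} (h0 : 0 < l) (n : ℕ) :
    MvPolynomial.pderiv (⟨0, h0⟩ : Fin l) ((Ws (vr k l) (n + 1)).2) = - (Ws (vr k l) (n + 1)).1 := by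
  have hv : ∀ j : ℕ, 1 ≤ j → MvPolynomial.pderiv (⟨0, h0⟩ : Fin l) (vr k l j) = 0 := by
    intro j hj
    unfold vr
    split_ifs with h
    · apply MvPolynomial.pderiv_X_of_ne
      intro h1
      have h2 : j = 0 := congrArg Fin.val h1
      omega
    · exact map_zero _
  induction n using Nat.strong_induction_on with
  | _ n ih =>
    match n, ih with
    | 0, _ =>
      have e1 : (Ws (vr k l) (0 + 1)).2 = 1 := rfl
      have e2 : (Ws (vr k l) (0 + 1)).1 = 0 := rfl
      rw [e1, e2, MvPolynomial.pderiv_one, neg_zero]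
    | 1, _ =>
      have e1 : (Ws (vr k l) (1 + 1)).2 = MvPolynomial.X ⟨0, h0⟩ := by
        have h1 := Q_step (k := k) l 0
        have h2 : (Ws (vr k l) (0 + 1)).2 = 1 := rfl
        have h3 : (Ws (vr k l) 0).2 = 0 := rfl
        rw [h2, h3, mul_one, sub_zero] at h1
        have h4 : vr k l 0 = MvPolynomial.X ⟨0, h0⟩ := by
          unfold vr
          rw [dif_pos h0]
        rw [← h4]
        exact h1
      have e2 : (Ws (vr k l) (1 + 1)).1 = -1 := EF_p_two l
      rw [e1, e2, MvPolynomial.pderiv_X_self, neg_neg]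
    | (n + 2), ih =>
      have e1 := ih (n + 1) (by omega)
      have e2 := ih n (by omega)
      have e3 : (Ws (vr k l) (n + 2 + 1)).2
          = vr k l (n + 1) * (Ws (vr k l) (n + 1 + 1)).2 - (Ws (vr k l) (n + 1)).2 := Q_step l (n + 1)
      have e4 : (Ws (vr k l) (n + 2 + 1)).1
          = vr k l (n + 1) * (Ws (vr k l) (n + 1 + 1)).1 - (Ws (vr k l) (n + 1)).1 := EF_p_step l (n + 1)
      rw [e3, e4, map_sub, MvPolynomial.pderiv_mul, hv (n + 1) (by omega), e1, e2]
      ring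

theorem EF_p_ne_zero (l n : ℕ) (h2 : 2 ≤ n) (hn : n ≤ l + 1) : (Ws (vr k l) n).1 ≠ 0 := by
  rcases Nat.lt_or_ge n 3 with h | h
  · have : n = 2 := by omega
    subst this
    rw [EF_p_two]
    exact neg_ne_zero.mpr one_ne_zero
  · exact (p_irred l n h hn).ne_zero

theorem EF_pderiv_last {l : ℕ} (h0 : l < l + 1) :
    MvPolynomial.pderiv (⟨l, h0⟩ : Fin (l + 1)) ((Ws (vr k (l + 1)) (l + 1 + 1)).2)
      = (Ws (vr k (l + 1)) (l + 1)).2 := by
  have e3 : (Ws (vr k (l + 1)) (l + 1 + 1)).2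
      = vr k (l + 1) l * (Ws (vr k (l + 1)) (l + 1)).2 - (Ws (vr k (l + 1)) l).2 := Q_step (l + 1) l
  have h4 : vr k (l + 1) l = MvPolynomial.X ⟨l, h0⟩ := by
    unfold vr
    rw [dif_pos h0]
  rw [e3, h4, map_sub, MvPolynomial.pderiv_mul, MvPolynomial.pderiv_X_self,
    MvPolynomial.pderiv_eq_zero_of_notMem_vars, MvPolynomial.pderiv_eq_zero_of_notMem_vars]
  · ring
  · intro hmem
    have h5 := q_vars (l + 1) l _ hmem
    have h6 : (⟨l, h0⟩ : Fin (l + 1)).val = l := rfl
    rw [h6] at h5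
    omega
  · intro hmem
    have h5 := q_vars (l + 1) (l + 1) _ hmem
    have h6 : (⟨l, h0⟩ : Fin (l + 1)).val = l := rfl
    rw [h6] at h5
    omega

theorem EF_ndvd {l : ℕ} (x y : MvPolynomial (Fin l) k) (hx : Irreducible x) (hy : Irreducible y)
    (i : Fin l) (hxi : i ∉ x.vars) (hyi : MvPolynomial.pderiv i y ≠ 0) : ¬ x ∣ y := by
  intro hd
  obtain ⟨u, hu⟩ := hx.associated_of_dvd hy hd
  obtain ⟨c, _, hc⟩ := MvPolynomial.isUnit_iff_eq_C_of_isReduced.mp u.isUnit
  apply hyi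
  rw [← hu, hc, MvPolynomial.pderiv_mul, MvPolynomial.pderiv_eq_zero_of_notMem_vars hxi,
    MvPolynomial.pderiv_C]
  ring

theorem EF_q_K (l s : ℕ) (h2 : 2 ≤ s) (hs : s ≤ l) :
    ¬ (Ws (vr k l) s).2 ∣ (Ws (vr k l) (l + 1)).2 := by
  obtain ⟨t, rfl⟩ : ∃ t, l = t + 1 := ⟨l - 1, by omega⟩
  apply EF_ndvd _ _ (q_irred _ _ h2 (by omega)) (q_irred _ _ (by omega) le_rfl) ⟨t, by omega⟩
  · intro hmem
    have h5 := q_vars (t + 1) s _ hmem
    have h6 : (⟨t, by omega⟩ : Fin (t + 1)).val = t := rfl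
    rw [h6] at h5
    omega
  · rw [EF_pderiv_last]
    exact q_ne_zero _ _ (by omega) (by omega)

theorem EF_p_q (l s t : ℕ) (h3 : 3 ≤ s) (hs : s ≤ l + 1) (ht2 : 2 ≤ t) (ht : t ≤ l + 1) :
    ¬ (Ws (vr k l) s).1 ∣ (Ws (vr k l) t).2 := by
  have h0 : 0 < l := by omega
  apply EF_ndvd _ _ (p_irred _ _ h3 hs) (q_irred _ _ ht2 ht) ⟨0, h0⟩
  · intro hmem
    have h5 := (p_vars l s _ hmem).1
    have h6 : (⟨0, h0⟩ : Fin l).val = 0 := rfl
    rw [h6] at h5
    omega
  · obtain ⟨r, rfl⟩ : ∃ r, t = r + 1 := ⟨t - 1, by omega⟩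
    rw [EF_pderiv_q0]
    exact neg_ne_zero.mpr (EF_p_ne_zero _ _ ht2 ht)

theorem EF_det_one {l : ℕ} (b : Fin l → k) (i : ℕ) :
    det2 (wv b 1) (wv b i) = - (Ws (sq b) i).1 := by
  unfold wv det2
  simp [Ws]

theorem EF_q_eval {l : ℕ} (b : Fin l → k) (i : ℕ) :
    (Ws (sq b) i).2 = MvPolynomial.eval b ((Ws (vr k l) i).2) := by
  rw [Ws_sq_aeval (k := k)]
  simp only [MvPolynomial.aeval_eq_eval]

theorem EF_p_eval {l : ℕ} (b : Fin l → k) (i : ℕ) :
    (Ws (sq b) i).1 = MvPolynomial.eval b ((Ws (vr k l) i).1) := by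
  rw [Ws_sq_aeval (k := k)]
  simp only [MvPolynomial.aeval_eq_eval]

theorem EF_ZS (b : Fin (m + n) → k) (hb : Kv b ≠ 0) (i j : ZMod (m + n + 2)) :
    ZS i j (Quotient.mk _ (cfgB b hb) : Conf k m n) ↔ det2 (pv b i) (pv b j) = 0 := by
  rw [ZS_mk, pt_cfgB, pt_cfgB]
  exact mk_eq_mk_iff_det2 _ _

theorem EF_pv_cast {l : ℕ} (b : Fin l → k) (s : ℕ) (hs : s ≤ l + 1) :
    pv b ((s : ℕ) : ZMod (l + 2)) = wv b s := by
  unfold pv
  rw [ZMod.val_natCast_of_lt (by omega)]

theorem EF_pv_succ {l : ℕ} (b : Fin l → k) (s : ℕ) (hs : s ≤ l) :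
    pv b (((s : ℕ) : ZMod (l + 2)) + 1) = wv b (s + 1) := by
  have h1 : ((s : ℕ) : ZMod (l + 2)) + 1 = ((s + 1 : ℕ) : ZMod (l + 2)) := by push_cast; ring
  rw [h1, EF_pv_cast b (s + 1) (by omega)]

theorem EF_pv_zero {l : ℕ} (b : Fin l → k) : pv b (0 : ZMod (l + 2)) = wv b 0 := by
  have h := EF_pv_cast b 0 (by omega)
  rwa [Nat.cast_zero] at h

theorem EF_pv_one {l : ℕ} (b : Fin l → k) : pv b (1 : ZMod (l + 2)) = wv b 1 := by
  have h := EF_pv_cast b 1 (by omega)
  rwa [Nat.cast_one] at h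

theorem EF_vals (b : Fin (m + n) → k) (hb : Kv b ≠ 0) (s : ℕ) (hs : s ≤ m + n) :
    (cR 0 ((s : ℕ) : ZMod (m + n + 2)) : Reg k m n).1 (Quotient.mk _ (cfgB b hb))
      = MvPolynomial.eval b ((Ws (vr k (m + n)) s).2) *
        (- MvPolynomial.eval b ((Ws (vr k (m + n)) (s + 1)).1)) ∧
    (gR 0 ((s : ℕ) : ZMod (m + n + 2)) : Reg k m n).1 (Quotient.mk _ (cfgB b hb))
      = MvPolynomial.eval b ((Ws (vr k (m + n)) (s + 1)).2) *
        (- MvPolynomial.eval b ((Ws (vr k (m + n)) s).1)) := by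
  have h1 := cF_mk (cfgB b hb : Cfg k m n) (pv b) (fun i => ⟨wv_ne_zero b _, pt_cfgB b hb i⟩) 0
    ((s : ℕ) : ZMod (m + n + 2))
  have e1 : det2 (wv b 0) (wv b 1) = 1 := det2_wv_succ b 0
  have e2 : det2 (wv b s) (wv b (s + 1)) = 1 := det2_wv_succ b s
  unfold cFv cGv at h1
  rw [zero_add, EF_pv_zero, EF_pv_one, EF_pv_cast b s (by omega), EF_pv_succ b s hs, e1, e2,
    det2_wv_zero, det2_wv_zero, EF_det_one, EF_det_one, EF_q_eval, EF_q_eval, EF_p_eval, EF_p_eval,
    mul_one, div_one, div_one] at h1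
  exact h1

theorem EF_cR_ne [CharZero k] (s : ℕ) (h2 : 2 ≤ s) (hs : s ≤ m + n) :
    (cR 0 ((s : ℕ) : ZMod (m + n + 2)) : Reg k m n) ≠ 0 := by
  intro h0
  have hz : (Ws (vr k (m + n)) s).2 * (- (Ws (vr k (m + n)) (s + 1)).1) = 0 := by
    apply poly_zero_of_U
    intro b hb
    have h1 := (EF_vals b hb s hs).1
    rw [h0] at h1
    rw [map_mul, map_neg, ← h1]
    rfl
  rcases mul_eq_zero.mp hz with h | h
  · exact q_ne_zero _ _ (by omega) (by omega) h
  · exact EF_p_ne_zero _ _ (by omega) (by omega) (neg_eq_zero.mp h)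

theorem EF_gR_ne [CharZero k] (s : ℕ) (h2 : 2 ≤ s) (hs : s ≤ m + n) :
    (gR 0 ((s : ℕ) : ZMod (m + n + 2)) : Reg k m n) ≠ 0 := by
  intro h0
  have hz : (Ws (vr k (m + n)) (s + 1)).2 * (- (Ws (vr k (m + n)) s).1) = 0 := by
    apply poly_zero_of_U
    intro b hb
    have h1 := (EF_vals b hb s hs).2
    rw [h0] at h1
    rw [map_mul, map_neg, ← h1]
    rfl
  rcases mul_eq_zero.mp hz with h | h
  · exact q_ne_zero _ _ (by omega) (by omega) h
  · exact EF_p_ne_zero _ _ (by omega) (by omega) (neg_eq_zero.mp h)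

/-- Case `i = 0` of the next theorem, `j = s`, `2 ≤ s ≤ m + n`.  On `cfgB b`: `cF 0 s = x(b) * y(b)` with `x = q s = (Ws s).2`
(`= det2 (wv 0) (wv s)`) and `y = - p (s+1) = - (Ws (s+1)).1` (`= det2 (wv 1) (wv (s+1))`), as the edges `0`, `s` have
determinant `1` (`s ≤ m + n`).  `f = P / K^e`.  `P` is divisible by `x` and by `y` (`dvd_of_vanish`; `q s`, `s ≤ l`, and
`p (s+1)` do not divide `K`: all three are irreducible, `K` has degree `1` in `X_(l-1)` which does not occur in `q s`,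
and in `X_0` which does not occur in `p (s+1)`, so they are not associated); they are not associated to each other
(`q s` involves `X_0`), so `P = x * y * Q`; then `descend` with `g = cR 0 s`. -/
theorem vanish_dvd0 [IsAlgClosed k] [CharZero k] (he : Even (m + n)) (s : ℕ) (h2 : 2 ≤ s) (hs : s ≤ m + n)
    (f : Reg k m n) (h1 : Van 0 ((s : ℕ) : ZMod (m + n + 2)) f)
    (h2' : Van 1 (((s : ℕ) : ZMod (m + n + 2)) + 1) f) :
    ∃ q : Reg k m n, f = cR 0 ((s : ℕ) : ZMod (m + n + 2)) * q := by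
  obtain ⟨P, e, hP⟩ := reg_poly f.1 f.2
  have hx : (Ws (vr k (m + n)) s).2 ∣ P := by
    apply dvd_of_vanish _ _ (q_irred _ _ h2 (by omega)) (EF_q_K _ _ h2 hs)
    intro b hb hz
    rw [← hP b hb, h1 _ ((EF_ZS b hb _ _).mpr _), zero_mul]
    rw [EF_pv_zero, EF_pv_cast b s (by omega), det2_wv_zero, EF_q_eval, hz]
  have hy : (Ws (vr k (m + n)) (s + 1)).1 ∣ P := by
    apply dvd_of_vanish _ _ (p_irred _ _ (by omega) (by omega))
      (EF_p_q _ _ _ (by omega) (by omega) (by omega) le_rfl)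
    intro b hb hz
    rw [← hP b hb, h2' _ ((EF_ZS b hb _ _).mpr _), zero_mul]
    rw [EF_pv_one, EF_pv_succ b s hs, EF_det_one, EF_p_eval, hz, neg_zero]
  obtain ⟨P1, rfl⟩ := hx
  obtain ⟨Q, rfl⟩ : (Ws (vr k (m + n)) (s + 1)).1 ∣ P1 := by
    rcases (p_irred (k := k) (m + n) (s + 1) (by omega) (by omega)).prime.dvd_or_dvd hy with h | h
    · exact absurd h (EF_p_q _ _ _ (by omega) (by omega) h2 (by omega))
    · exact h
  obtain ⟨q, hq, _⟩ := descend he (-Q) e f (cR 0 ((s : ℕ) : ZMod (m + n + 2))) (EF_cR_ne s h2 hs) (by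
    intro b hb
    rw [hP b hb, (EF_vals b hb s hs).1, map_mul, map_mul, map_neg]
    ring)
  exact ⟨q, hq⟩

/-- Case `i = 0`, `j = s`, `2 ≤ s ≤ m + n`: on `cfgB b`, `cG 0 s = x(b) * y(b)` with `x = q (s+1)`, `y = - p s`
(`= det2 (wv 1) (wv s)`).  If `s = 2`, `y = 1` (`p 2 = -1`); if `s = m + n`, `x = K`; otherwise as before.
If `s = m + n` write `P = y * Q`, so `f * K^(e+1) = cG * Q`. -/
theorem vanish_dvd0' [IsAlgClosed k] [CharZero k] (he : Even (m + n)) (s : ℕ) (h2 : 2 ≤ s) (hs : s ≤ m + n)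
    (f : Reg k m n) (h1 : Van 0 (((s : ℕ) : ZMod (m + n + 2)) + 1) f)
    (h2' : Van 1 ((s : ℕ) : ZMod (m + n + 2)) f) :
    ∃ q : Reg k m n, f = gR 0 ((s : ℕ) : ZMod (m + n + 2)) * q := by
  obtain ⟨P, e, hP, hx⟩ : ∃ (P : MvPolynomial (Fin (m + n)) k) (e : ℕ),
      (∀ (b : Fin (m + n) → k) (hb : Kv b ≠ 0),
        f.1 (Quotient.mk _ (cfgB b hb)) * (Kv b) ^ e = MvPolynomial.eval b P) ∧
      (Ws (vr k (m + n)) (s + 1)).2 ∣ P := by
    obtain ⟨P, e, hP⟩ := reg_poly f.1 f.2
    rcases Nat.lt_or_ge s (m + n) with h | h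
    · refine ⟨P, e, hP, ?_⟩
      apply dvd_of_vanish _ _ (q_irred _ _ (by omega) (by omega)) (EF_q_K _ _ (by omega) (by omega))
      intro b hb hz
      rw [← hP b hb, h1 _ ((EF_ZS b hb _ _).mpr _), zero_mul]
      rw [EF_pv_zero, EF_pv_succ b s hs, det2_wv_zero, EF_q_eval, hz]
    · have hs1 : s = m + n := le_antisymm hs h
      refine ⟨P * (Ws (vr k (m + n)) (m + n + 1)).2, e + 1, ?_, ?_⟩
      · intro b hb
        rw [map_mul, ← hP b hb, ← EF_Kv_eval, pow_succ, mul_assoc]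
      · rw [hs1]
        exact dvd_mul_left _ _
  have hy : (Ws (vr k (m + n)) s).1 ∣ P := by
    rcases Nat.lt_or_ge s 3 with h | h
    · have hs2 : s = 2 := by omega
      rw [hs2, EF_p_two]
      exact neg_dvd.mpr (one_dvd _)
    · apply dvd_of_vanish _ _ (p_irred _ _ h (by omega))
        (EF_p_q _ _ _ h (by omega) (by omega) le_rfl)
      intro b hb hz
      rw [← hP b hb, h2' _ ((EF_ZS b hb _ _).mpr _), zero_mul]
      rw [EF_pv_one, EF_pv_cast b s (by omega), EF_det_one, EF_p_eval, hz, neg_zero]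
  obtain ⟨P1, rfl⟩ := hx
  obtain ⟨Q, rfl⟩ : (Ws (vr k (m + n)) s).1 ∣ P1 := by
    rcases Nat.lt_or_ge s 3 with h | h
    · have hs2 : s = 2 := by omega
      rw [hs2, EF_p_two]
      exact neg_dvd.mpr (one_dvd _)
    · rcases (p_irred (k := k) (m + n) s h (by omega)).prime.dvd_or_dvd hy with h' | h'
      · exact absurd h' (EF_p_q _ _ _ h (by omega) (by omega) (by omega))
      · exact h'
  obtain ⟨q, hq, _⟩ := descend he (-Q) e f (gR 0 ((s : ℕ) : ZMod (m + n + 2))) (EF_gR_ne s h2 hs) (by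
    intro b hb
    rw [hP b hb, (EF_vals b hb s hs).2, map_mul, map_mul, map_neg]
    ring)
  exact ⟨q, hq⟩

/-- `rotC (-c)` and `rotC c` are inverse to each other -/
theorem EF_rot_inv (c : ZMod (m + n + 2)) (P : Conf k m n) : rotC (-c) (rotC c P) = P := by
  induction P using Quotient.inductionOn with
  | _ p =>
    obtain ⟨q, hq, hq2⟩ := rotC_mk c p
    obtain ⟨r, hr, hr2⟩ := rotC_mk (-c) q
    rw [hq, hr]
    have h : r = p := by
      apply pt_injective
      intro i
      rw [hr2, hq2, neg_add_cancel_right]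
    rw [h]

/-- composition with a rotation, as a map of `Reg` -/
noncomputable def EF_rot (c : ZMod (m + n + 2)) (f : Reg k m n) : Reg k m n :=
  ⟨fun P => f.1 (rotC c P), rotC_reg c f.1 f.2⟩

theorem EF_rot_rot (c : ZMod (m + n + 2)) (f : Reg k m n) : EF_rot c (EF_rot (-c) f) = f := by
  apply Subtype.ext
  funext P
  show f.1 (rotC (-c) (rotC c P)) = f.1 P
  rw [EF_rot_inv]

theorem EF_rot_mul (c : ZMod (m + n + 2)) (f g : Reg k m n) :
    EF_rot c (f * g) = EF_rot c f * EF_rot c g := by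
  apply Subtype.ext
  rfl

theorem EF_rot_cR (c i j : ZMod (m + n + 2)) :
    EF_rot c (cR i j : Reg k m n) = cR (i + c) (j + c) ∧
    EF_rot c (gR i j : Reg k m n) = gR (i + c) (j + c) := by
  constructor
  · apply Subtype.ext
    funext P
    exact (cF_rotC c i j P).1
  · apply Subtype.ext
    funext P
    exact (cF_rotC c i j P).2

theorem EF_Van_rot (c i j : ZMod (m + n + 2)) (f : Reg k m n) (h : Van (i + c) (j + c) f) :
    Van i j (EF_rot (-c) f) := by
  intro P hP
  show f.1 (rotC (-c) P) = 0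
  apply h
  rw [ZS_rotC]
  rw [add_neg_cancel_right, add_neg_cancel_right]
  exact hP

/-- Reduction to `i = 0` by `rotC (-i)`; if `j = i ± 1` then `cF i j = 1` and `q = f`. -/
theorem vanish_dvd [IsAlgClosed k] [CharZero k] (he : Even (m + n)) (i j : ZMod (m + n + 2)) (hij : i ≠ j)
    (f : Reg k m n) (h1 : Van i j f) (h2 : Van (i + 1) (j + 1) f) : ∃ q : Reg k m n, f = cR i j * q := by
  obtain ⟨s, hs, hsj⟩ : ∃ s : ℕ, s < m + n + 2 ∧ j = ((s : ℕ) : ZMod (m + n + 2)) + i :=
    ⟨(j - i).val, ZMod.val_lt _, by rw [ZMod.natCast_zmod_val]; ring⟩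
  have hs0 : s ≠ 0 := by
    rintro rfl
    apply hij
    rw [hsj, Nat.cast_zero, zero_add]
  have hadj : j = i + 1 ∨ i = j + 1 → ∃ q : Reg k m n, f = cR i j * q := by
    intro h
    refine ⟨f, ?_⟩
    have h3 : (cR i j : Reg k m n) = 1 := by
      apply Subtype.ext
      funext P
      induction P using Quotient.inductionOn with
      | _ p =>
        have hv : ∀ s, ∃ h : (pt p s).rep ≠ 0, pt p s = Projectivization.mk k ((pt p s).rep) h :=
          fun s => ⟨(pt p s).rep_nonzero, ((pt p s).mk_rep).symm⟩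
        have h4 := (cF_mk p (fun s => (pt p s).rep) hv i j).1
        show cF i j (Quotient.mk _ p : Conf k m n) = 1
        rw [h4]
        have h5 : ∀ t : ZMod (m + n + 2), det2 (pt p t).rep (pt p (t + 1)).rep ≠ 0 := by
          intro t h0
          apply pt_ne p t
          rw [← mk_eq_mk_iff_det2 (pt p t).rep_nonzero (pt p (t + 1)).rep_nonzero,
            Projectivization.mk_rep, Projectivization.mk_rep] at h0
          exact h0
        unfold cFv
        rcases h with rfl | rfl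
        · exact div_self (mul_ne_zero (h5 _) (h5 _))
        · have h6 := CfC_det2_swap (pt p (j + 1)).rep (pt p j).rep
          have h7 := CfC_det2_swap (pt p (j + 1 + 1)).rep (pt p (j + 1)).rep
          rw [h6, h7, neg_mul_neg, mul_comm]
          exact div_self (mul_ne_zero (h5 _) (h5 _))
    rw [h3, one_mul]
  by_cases hs1 : s = 1
  · apply hadj
    left
    rw [hsj, hs1, Nat.cast_one]
    exact add_comm _ _
  by_cases hs2 : s = m + n + 1
  · apply hadj
    right
    rw [hsj, hs2]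
    have := ZMod.natCast_self (m + n + 2)
    push_cast at this ⊢
    linear_combination -this
  have hv1 : Van 0 ((s : ℕ) : ZMod (m + n + 2)) (EF_rot (-i) f) := by
    apply EF_Van_rot
    rw [zero_add, ← hsj]
    exact h1
  have hv2 : Van 1 (((s : ℕ) : ZMod (m + n + 2)) + 1) (EF_rot (-i) f) := by
    apply EF_Van_rot
    have e1 : ((s : ℕ) : ZMod (m + n + 2)) + 1 + i = j + 1 := by rw [hsj]; ring
    have e2 : (1 : ZMod (m + n + 2)) + i = i + 1 := add_comm _ _
    rw [e1, e2]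
    exact h2
  obtain ⟨q, hq⟩ := vanish_dvd0 he s (by omega) (by omega) _ hv1 hv2
  refine ⟨EF_rot i q, ?_⟩
  have h3 := congrArg (EF_rot i) hq
  rw [EF_rot_rot, EF_rot_mul, (EF_rot_cR _ _ _).1, zero_add, ← hsj] at h3
  exact h3

/-- Reduction to `i = 0` by `rotC (-i)`; if `i = j` then `cG i i = -1`. -/
theorem vanish_dvd' [IsAlgClosed k] [CharZero k] (he : Even (m + n)) (i j : ZMod (m + n + 2))
    (h1 : i ≠ j + 1) (h2 : j ≠ i + 1) (f : Reg k m n) (h3 : Van i (j + 1) f) (h4 : Van (i + 1) j f) :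
    ∃ q : Reg k m n, f = gR i j * q := by
  obtain ⟨s, hs, hsj⟩ : ∃ s : ℕ, s < m + n + 2 ∧ j = ((s : ℕ) : ZMod (m + n + 2)) + i :=
    ⟨(j - i).val, ZMod.val_lt _, by rw [ZMod.natCast_zmod_val]; ring⟩
  by_cases hs0 : s = 0
  · have hji : j = i := by rw [hsj, hs0, Nat.cast_zero, zero_add]
    refine ⟨-f, ?_⟩
    have h5 : (gR i j : Reg k m n) = -1 := by
      apply Subtype.ext
      funext P
      induction P using Quotient.inductionOn with
      | _ p =>
        have hv : ∀ s, ∃ h : (pt p s).rep ≠ 0, pt p s = Projectivization.mk k ((pt p s).rep) h :=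
          fun s => ⟨(pt p s).rep_nonzero, ((pt p s).mk_rep).symm⟩
        have h4 := (cF_mk p (fun s => (pt p s).rep) hv i j).2
        show cG i j (Quotient.mk _ p : Conf k m n) = -1
        rw [h4]
        have h5 : ∀ t : ZMod (m + n + 2), det2 (pt p t).rep (pt p (t + 1)).rep ≠ 0 := by
          intro t h0
          apply pt_ne p t
          rw [← mk_eq_mk_iff_det2 (pt p t).rep_nonzero (pt p (t + 1)).rep_nonzero,
            Projectivization.mk_rep, Projectivization.mk_rep] at h0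
          exact h0
        unfold cGv
        rw [hji]
        have h6 := CfC_det2_swap (pt p (i + 1)).rep (pt p i).rep
        have h7 := h5 i
        simp only [h6]
        rw [mul_neg, neg_div]
        rw [div_self (mul_ne_zero h7 h7)]
    rw [h5]
    ring
  by_cases hs1 : s = 1
  · exfalso
    apply h2
    rw [hsj, hs1, Nat.cast_one]
    exact add_comm _ _
  by_cases hs2 : s = m + n + 1
  · exfalso
    apply h1
    rw [hsj, hs2]
    have := ZMod.natCast_self (m + n + 2)
    push_cast at this ⊢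
    linear_combination -this
  have hv1 : Van 0 (((s : ℕ) : ZMod (m + n + 2)) + 1) (EF_rot (-i) f) := by
    apply EF_Van_rot
    have e1 : ((s : ℕ) : ZMod (m + n + 2)) + 1 + i = j + 1 := by rw [hsj]; ring
    rw [zero_add, e1]
    exact h3
  have hv2 : Van 1 ((s : ℕ) : ZMod (m + n + 2)) (EF_rot (-i) f) := by
    apply EF_Van_rot
    have e2 : (1 : ZMod (m + n + 2)) + i = i + 1 := add_comm _ _
    rw [← hsj, e2]
    exact h4
  obtain ⟨q, hq⟩ := vanish_dvd0' he s (by omega) (by omega) _ hv1 hv2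
  refine ⟨EF_rot i q, ?_⟩
  have h3 := congrArg (EF_rot i) hq
  rw [EF_rot_rot, EF_rot_mul, (EF_rot_cR _ _ _).2, zero_add, ← hsj] at h3
  exact h3

end Pool.Agent.Lib.MP_d4c67c_gt
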