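import Pool.Agent.Lib.MP_d4c67c_gt.E.K

/-!
# JOB EM: automorphisms of `Reg k m n` are dihedral (`m + n` even)

(You may use all files `E/A.lean`, …, `E/K.lean`, which are other jobs.)
-/

open scoped LinearAlgebra.Projectivization

namespace Pool.Agent.Lib.MP_d4c67c_gt

variable {k : Type*} [Field k] {m n : ℕ}

/-- the value of `cR s (s+2)` at `cfgB b` -/
theorem EM_cR_val (b : Fin (m + n) → k) (hb : Kv b ≠ 0) (s : ℕ) (hs : s + 1 < m + n) :
    (cR (s : ZMod (m + n + 2)) ((s : ZMod (m + n + 2)) + 2) : Reg k m n).1 (Quotient.mk _ (cfgB b hb))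
      = sq b s * sq b (s + 1) := by
  have hval : ∀ i : ℕ, i < m + n + 2 → ((i : ℕ) : ZMod (m + n + 2)).val = i :=
    fun i hi => ZMod.val_natCast_of_lt hi
  have hpv : ∀ i : ℕ, i < m + n + 2 → pv b ((i : ℕ) : ZMod (m + n + 2)) = wv b i := by
    intro i hi
    unfold pv
    rw [hval i hi]
  have h0 := (cF_mk (cfgB b hb : Cfg k m n) (pv b) (fun i => ⟨wv_ne_zero b _, pt_cfgB b hb i⟩)
    (s : ZMod (m + n + 2)) ((s : ZMod (m + n + 2)) + 2)).1
  have h00 : (cR (s : ZMod (m + n + 2)) ((s : ZMod (m + n + 2)) + 2) : Reg k m n).1 (Quotient.mk _ (cfgB b hb))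
      = cF (s : ZMod (m + n + 2)) ((s : ZMod (m + n + 2)) + 2) (Quotient.mk _ (cfgB b hb) : Conf k m n) := rfl
  rw [h00, h0]
  unfold cFv
  have e2 : ((s : ZMod (m + n + 2)) + 2) = ((s + 2 : ℕ) : ZMod (m + n + 2)) := by push_cast; ring
  have e1 : ((s : ZMod (m + n + 2)) + 1) = ((s + 1 : ℕ) : ZMod (m + n + 2)) := by push_cast; ring
  have e3 : (((s + 2 : ℕ) : ZMod (m + n + 2)) + 1) = ((s + 3 : ℕ) : ZMod (m + n + 2)) := by push_cast; ring
  rw [e2, e1, e3, hpv s (by omega), hpv (s + 2) (by omega), hpv (s + 1) (by omega), hpv (s + 3) (by omega)]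
  have h1 := det2_wv_two b ⟨s, by omega⟩
  have h2 := det2_wv_two b ⟨s + 1, by omega⟩
  have h3 := det2_wv_succ b s
  have h4 := det2_wv_succ b (s + 2)
  simp only at h1 h2
  rw [h1, h2, h3, h4]
  unfold sq
  rw [dif_pos (show s < m + n by omega), dif_pos (show s + 1 < m + n by omega)]
  ring

/-- `h` is, up to a power of the product of all `r_s = b_s b_(s+1)`, given by an element of the algebra
generated by the `cR i (i+2)` -/
def EM_Good (k : Type*) [Field k] (m n : ℕ) (h : (Fin (m + n) → k) → k) : Prop :=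
  ∃ (M : ℕ) (a : Reg k m n), a ∈ Algebra.adjoin k (Set.range (fun i : ZMod (m + n + 2) => (cR i (i + 2) : Reg k m n))) ∧
    ∀ (b : Fin (m + n) → k) (hb : Kv b ≠ 0),
      (∏ s ∈ Finset.range (m + n - 1), (sq b s * sq b (s + 1))) ^ M * h b = a.1 (Quotient.mk _ (cfgB b hb))

theorem EM_prod_mem (S : Finset ℕ) : (∏ s ∈ S, (cR (s : ZMod (m + n + 2)) ((s : ZMod (m + n + 2)) + 2)
        : Reg k m n)) ∈ Algebra.adjoin k (Set.range (fun i : ZMod (m + n + 2) => (cR i (i + 2) : Reg k m n))) :=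
  Subalgebra.prod_mem _ (fun s _ => Algebra.subset_adjoin ⟨(s : ZMod (m + n + 2)), rfl⟩)

theorem EM_prod_val (S : Finset ℕ) (hS : ∀ s ∈ S, s + 1 < m + n) (b : Fin (m + n) → k) (hb : Kv b ≠ 0) :
    (∏ s ∈ S, (cR (s : ZMod (m + n + 2)) ((s : ZMod (m + n + 2)) + 2)
        : Reg k m n)).1 (Quotient.mk _ (cfgB b hb)) = ∏ s ∈ S, (sq b s * sq b (s + 1)) := by
  classical
  induction S using Finset.induction_on with
  | empty => simp; rfl
  | insert a S ha ih =>
    rw [Finset.prod_insert ha, Finset.prod_insert ha, ← ih (fun s hs => hS s (Finset.mem_insert_of_mem hs)),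
      ← EM_cR_val b hb a (hS a (Finset.mem_insert_self a S))]
    rfl

theorem EM_Good_one : EM_Good k m n (fun _ => 1) :=
  ⟨0, 1, Subalgebra.one_mem _, fun b hb => by simp; rfl⟩

theorem EM_Good_r (s : ℕ) (hs : s + 1 < m + n) : EM_Good k m n (fun b => sq b s * sq b (s + 1)) :=
  ⟨0, cR (s : ZMod (m + n + 2)) ((s : ZMod (m + n + 2)) + 2),
    Algebra.subset_adjoin ⟨(s : ZMod (m + n + 2)), rfl⟩, fun b hb => by
      rw [EM_cR_val b hb s hs, pow_zero, one_mul]⟩

theorem EM_Good_mul {f g : (Fin (m + n) → k) → k} (hf : EM_Good k m n f) (hg : EM_Good k m n g) :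
    EM_Good k m n (fun b => f b * g b) := by
  obtain ⟨M, a, ha, h1⟩ := hf
  obtain ⟨M', a', ha', h1'⟩ := hg
  refine ⟨M + M', a * a', Subalgebra.mul_mem _ ha ha', fun b hb => ?_⟩
  have e : (a * a').1 (Quotient.mk _ (cfgB b hb)) = a.1 (Quotient.mk _ (cfgB b hb)) * a'.1 (Quotient.mk _ (cfgB b hb)) := rfl
  rw [e, ← h1 b hb, ← h1' b hb, pow_add]
  ring

theorem EM_Good_sub {f g : (Fin (m + n) → k) → k} (hf : EM_Good k m n f) (hg : EM_Good k m n g) :
    EM_Good k m n (fun b => f b - g b) := by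
  obtain ⟨M, a, ha, h1⟩ := hf
  obtain ⟨M', a', ha', h1'⟩ := hg
  set R : Reg k m n := ∏ s ∈ Finset.range (m + n - 1), (cR (s : ZMod (m + n + 2)) ((s : ZMod (m + n + 2)) + 2)
        : Reg k m n) with hR
  have hRm := EM_prod_mem (k := k) (m := m) (n := n) (Finset.range (m + n - 1))
  refine ⟨M + M', R ^ M' * a - R ^ M * a', Subalgebra.sub_mem _ (Subalgebra.mul_mem _ (Subalgebra.pow_mem _ hRm _) ha)
    (Subalgebra.mul_mem _ (Subalgebra.pow_mem _ hRm _) ha'), fun b hb => ?_⟩
  have hv := EM_prod_val (Finset.range (m + n - 1)) (fun s hs => by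
    have := Finset.mem_range.mp hs
    omega) b hb
  have e : (R ^ M' * a - R ^ M * a').1 (Quotient.mk _ (cfgB b hb)) =
      (R.1 (Quotient.mk _ (cfgB b hb))) ^ M' * a.1 (Quotient.mk _ (cfgB b hb))
      - (R.1 (Quotient.mk _ (cfgB b hb))) ^ M * a'.1 (Quotient.mk _ (cfgB b hb)) := rfl
  rw [e, ← h1 b hb, ← h1' b hb, hR, hv, pow_add]
  ring

/-- division by `r_s` -/
theorem EM_Good_div {f : (Fin (m + n) → k) → k} (s : ℕ) (hs : s + 1 < m + n)
    (hf : EM_Good k m n (fun b => sq b s * sq b (s + 1) * f b)) : EM_Good k m n f := by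
  obtain ⟨M, a, ha, h1⟩ := hf
  have hmem : s ∈ Finset.range (m + n - 1) := Finset.mem_range.mpr (by omega)
  refine ⟨M + 1, (∏ t ∈ (Finset.range (m + n - 1)).erase s, (cR (t : ZMod (m + n + 2)) ((t : ZMod (m + n + 2)) + 2)
        : Reg k m n)) * a, Subalgebra.mul_mem _ (EM_prod_mem _) ha, fun b hb => ?_⟩
  have hv := EM_prod_val ((Finset.range (m + n - 1)).erase s) (fun t ht => by
    have := Finset.mem_range.mp (Finset.mem_of_mem_erase ht)
    omega) b hb
  have e : ∀ x y : Reg k m n, (x * y).1 (Quotient.mk _ (cfgB b hb)) =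
      x.1 (Quotient.mk _ (cfgB b hb)) * y.1 (Quotient.mk _ (cfgB b hb)) := fun x y => rfl
  rw [e, hv, ← h1 b hb, pow_succ]
  have e2 := Finset.mul_prod_erase (Finset.range (m + n - 1)) (fun t => sq b t * sq b (t + 1)) hmem
  rw [← e2]
  ring

theorem EM_Good_q (j : ℕ) (hj : 2 * j ≤ m + n) :
    EM_Good k m n (fun b => (Ws (sq b) (2 * j + 1)).2) ∧
      (2 * j + 2 ≤ m + n → EM_Good k m n (fun b => sq b (2 * j + 1) * (Ws (sq b) (2 * j + 2)).2)) := by
  induction j with
  | zero =>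
    refine ⟨?_, fun h => ?_⟩
    · have e : (fun b : Fin (m + n) → k => (Ws (sq b) (2 * 0 + 1)).2) = fun _ => 1 := by
        funext b
        simp [Ws]
      rw [e]
      exact EM_Good_one
    · have e : (fun b : Fin (m + n) → k => sq b (2 * 0 + 1) * (Ws (sq b) (2 * 0 + 2)).2)
          = fun b => sq b 0 * sq b (0 + 1) := by
        funext b
        simp [Ws]
        ring
      rw [e]
      exact EM_Good_r 0 (by omega)
  | succ j ih =>
    obtain ⟨h1, h2⟩ := ih (by omega)
    have h2 := h2 (by omega)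
    have e1 : ∀ b : Fin (m + n) → k, (Ws (sq b) (2 * j + 3)).2
        = sq b (2 * j + 1) * (Ws (sq b) (2 * j + 2)).2 - (Ws (sq b) (2 * j + 1)).2 := fun b => rfl
    have h3 : EM_Good k m n (fun b => (Ws (sq b) (2 * j + 3)).2) := by
      have := EM_Good_sub h2 h1
      exact this
    refine ⟨h3, fun h => ?_⟩
    have h4 : EM_Good k m n (fun b => sq b (2 * j + 3) * (Ws (sq b) (2 * j + 2)).2) := by
      apply EM_Good_div (2 * j + 1) (by omega)
      have h5 := EM_Good_mul (EM_Good_r (k := k) (m := m) (n := n) (2 * j + 2) (by omega)) h2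
      have e2 : (fun b : Fin (m + n) → k => sq b (2 * j + 2) * sq b (2 * j + 2 + 1) *
          (sq b (2 * j + 1) * (Ws (sq b) (2 * j + 2)).2)) = fun b => sq b (2 * j + 1) * sq b (2 * j + 1 + 1) *
          (sq b (2 * j + 3) * (Ws (sq b) (2 * j + 2)).2) := by
        funext b
        show sq b (2 * j + 2) * sq b (2 * j + 3) *
          (sq b (2 * j + 1) * (Ws (sq b) (2 * j + 2)).2) = sq b (2 * j + 1) * sq b (2 * j + 2) *
          (sq b (2 * j + 3) * (Ws (sq b) (2 * j + 2)).2)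
        ring
      rw [e2] at h5
      exact h5
    have h6 := EM_Good_sub (EM_Good_mul (EM_Good_r (k := k) (m := m) (n := n) (2 * j + 2) (by omega)) h3) h4
    have e3 : (fun b : Fin (m + n) → k => sq b (2 * j + 2) * sq b (2 * j + 2 + 1) * (Ws (sq b) (2 * j + 3)).2
        - sq b (2 * j + 3) * (Ws (sq b) (2 * j + 2)).2) = fun b => sq b (2 * (j + 1) + 1) * (Ws (sq b) (2 * (j + 1) + 2)).2 := by
      funext b
      show sq b (2 * j + 2) * sq b (2 * j + 3) * (Ws (sq b) (2 * j + 3)).2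
        - sq b (2 * j + 3) * (Ws (sq b) (2 * j + 2)).2 = sq b (2 * j + 3) *
          (sq b (2 * j + 2) * (Ws (sq b) (2 * j + 3)).2 - (Ws (sq b) (2 * j + 2)).2)
      ring
    rw [e3] at h6
    exact h6

/-- the case `f = κ`, `e = 0` of `gen_r` (with `P = K`, so no power of `κ` is needed); same proof -/
theorem gen_kappa [IsAlgClosed k] [CharZero k] (he : Even (m + n)) (h4 : 4 ≤ m + n) (κ : Reg k m n)
    (hκ : ∀ (b : Fin (m + n) → k) (hb : Kv b ≠ 0), κ.1 (Quotient.mk _ (cfgB b hb)) = Kv b) :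
    ∃ M : ℕ, (∏ s ∈ Finset.range (m + n - 1), (cR (s : ZMod (m + n + 2)) ((s : ZMod (m + n + 2)) + 2)
        : Reg k m n)) ^ M * κ
      ∈ Algebra.adjoin k (Set.range (fun i : ZMod (m + n + 2) => (cR i (i + 2) : Reg k m n))) := by
  obtain ⟨j, hj⟩ := he
  obtain ⟨⟨M, a, ha, h1⟩, _⟩ := EM_Good_q (k := k) (m := m) (n := n) j (by omega)
  refine ⟨M, ?_⟩
  have e : (∏ s ∈ Finset.range (m + n - 1), (cR (s : ZMod (m + n + 2)) ((s : ZMod (m + n + 2)) + 2)
        : Reg k m n)) ^ M * κ = a := by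
    apply Reg_ext
    intro b hb
    rw [← h1 b hb]
    have hv := EM_prod_val (Finset.range (m + n - 1)) (fun s hs => by
      have := Finset.mem_range.mp hs
      omega) b hb
    set R : Reg k m n := ∏ s ∈ Finset.range (m + n - 1), (cR (s : ZMod (m + n + 2)) ((s : ZMod (m + n + 2)) + 2)
        : Reg k m n) with hR
    have e1 : (R ^ M * κ).1 (Quotient.mk _ (cfgB b hb)) =
      (R.1 (Quotient.mk _ (cfgB b hb))) ^ M * κ.1 (Quotient.mk _ (cfgB b hb)) := rfl
    rw [e1, hv, hκ b hb]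
    have e2 : Kv b = (Ws (sq b) (2 * j + 1)).2 := by
      unfold Kv
      rw [show m + n + 1 = 2 * j + 1 by omega]
    rw [e2]
  rw [e]
  exact ha

theorem EM_rotC_symm (c : ZMod (m + n + 2)) (P : Conf k m n) : rotC c (rotC (-c) P) = P := by
  induction P using Quotient.inductionOn with
  | _ p =>
    obtain ⟨q, hq, h1⟩ := rotC_mk (-c) p
    obtain ⟨q', hq', h2⟩ := rotC_mk c q
    rw [hq, hq']
    have : q' = p := by
      apply pt_injective
      intro i
      rw [h2, h1]
      congr 1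
      ring
    rw [this]

theorem EM_refC_refC (c : ZMod (m + n + 2)) (P : Conf k m n) : refC c (refC c P) = P := by
  induction P using Quotient.inductionOn with
  | _ p =>
    obtain ⟨q, hq, h1⟩ := refC_mk c p
    obtain ⟨q', hq', h2⟩ := refC_mk c q
    rw [hq, hq']
    have : q' = p := by
      apply pt_injective
      intro i
      rw [h2, h1]
      congr 1
      ring
    rw [this]

/-- pull-back of regular functions -/
def EM_pull (Φ Ψ : Conf k m n → Conf k m n) (h1 : IsRegularMap Φ) (h2 : IsRegularMap Ψ)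
    (h : ∀ P, Φ (Ψ P) = P) (h' : ∀ P, Ψ (Φ P) = P) : Reg k m n ≃ₐ[k] Reg k m n where
  toFun f := ⟨f.1 ∘ Φ, h1 f.1 f.2⟩
  invFun f := ⟨f.1 ∘ Ψ, h2 f.1 f.2⟩
  left_inv f := by
    apply Subtype.ext
    funext P
    show f.1 (Φ (Ψ P)) = f.1 P
    rw [h]
  right_inv f := by
    apply Subtype.ext
    funext P
    show f.1 (Ψ (Φ P)) = f.1 P
    rw [h']
  map_mul' f g := rfl
  map_add' f g := rfl
  commutes' r := rfl

theorem EM_pull_apply (Φ Ψ : Conf k m n → Conf k m n) (h1 : IsRegularMap Φ) (h2 : IsRegularMap Ψ)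
    (h : ∀ P, Φ (Ψ P) = P) (h' : ∀ P, Ψ (Φ P) = P) (f : Reg k m n) (P : Conf k m n) :
    (EM_pull Φ Ψ h1 h2 h h' f).1 P = f.1 (Φ P) := rfl

/-- pull-back by a rotation -/
noncomputable def EM_rot (c : ZMod (m + n + 2)) : Reg k m n ≃ₐ[k] Reg k m n :=
  EM_pull (rotC c) (rotC (-c)) (rotC_reg c) (rotC_reg (-c)) (EM_rotC_symm c)
    (fun P => by
      have := EM_rotC_symm (-c) P
      rw [neg_neg] at this
      exact this)

theorem EM_rot_apply (c : ZMod (m + n + 2)) (f : Reg k m n) (P : Conf k m n) :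
    (EM_rot c f).1 P = f.1 (rotC c P) := rfl

noncomputable def EM_ref (c : ZMod (m + n + 2)) : Reg k m n ≃ₐ[k] Reg k m n :=
  EM_pull (refC c) (refC c) (refC_reg c) (refC_reg c) (EM_refC_refC c) (EM_refC_refC c)

theorem EM_ref_apply (c : ZMod (m + n + 2)) (f : Reg k m n) (P : Conf k m n) :
    (EM_ref c f).1 P = f.1 (refC c P) := rfl

/-- the sequence `0, 0, t, 1, 0, …` -/
def EM_b (k : Type*) [Field k] (l : ℕ) (t : k) : Fin l → k :=
  fun i => if i.val = 2 then t else if i.val = 3 then 1 else 0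

theorem EM_Kv (t : k) (j : ℕ) : (Ws (sq (EM_b k (4 + 2 * j) t)) (2 * j + 5)).2 = (-1) ^ j * (1 - t) := by
  have key : ∀ l : ℕ, ∀ j : ℕ, 4 + 2 * j ≤ l → (Ws (sq (EM_b k l t)) (2 * j + 5)).2 = (-1) ^ j * (1 - t) := by
    intro l j
    induction j with
    | zero =>
      intro hl
      have e0 : sq (EM_b k l t) 0 = 0 := by
        unfold sq
        rw [dif_pos (by omega)]
        simp [EM_b]
      have e1 : sq (EM_b k l t) 1 = 0 := by
        unfold sq
        rw [dif_pos (by omega)]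
        simp [EM_b]
      have e2 : sq (EM_b k l t) 2 = t := by
        unfold sq
        rw [dif_pos (by omega)]
        simp [EM_b]
      have e3 : sq (EM_b k l t) 3 = 1 := by
        unfold sq
        rw [dif_pos (by omega)]
        simp [EM_b]
      show (Ws (sq (EM_b k l t)) 5).2 = _
      simp only [Ws, e0, e1, e2, e3]
      ring
    | succ j ih =>
      intro hl
      have h1 := ih (by omega)
      have e0 : sq (EM_b k l t) (2 * j + 5) = 0 := by
        unfold sq
        rw [dif_pos (by omega)]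
        unfold EM_b
        rw [if_neg (by simp only; omega), if_neg (by simp only; omega)]
      show (Ws (sq (EM_b k l t)) (2 * j + 5 + 2)).2 = _
      simp only [Ws] at h1 ⊢
      rw [e0, h1, pow_succ]
      ring
  exact key _ j le_rfl

theorem EM_Kv' (l j : ℕ) (hl : l = 4 + 2 * j) (t : k) : Kv (EM_b k l t) = (-1) ^ j * (1 - t) := by
  subst hl
  unfold Kv
  rw [show 4 + 2 * j + 1 = 2 * j + 5 by omega]
  exact EM_Kv t j

theorem EM_ZS02 (h4 : 4 ≤ m + n) (t : k) (hb : Kv (EM_b k (m + n) t) ≠ 0) :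
    ZS 0 (0 + 2) (Quotient.mk _ (cfgB (EM_b k (m + n) t) hb) : Conf k m n) := by
  rw [ZS_mk, pt_cfgB, pt_cfgB, mk_eq_mk_iff_det2]
  unfold pv
  have e0 : (0 : ZMod (m + n + 2)).val = 0 := ZMod.val_zero
  have e2 : (0 + 2 : ZMod (m + n + 2)).val = 2 := by
    have e : (0 + 2 : ZMod (m + n + 2)) = ((2 : ℕ) : ZMod (m + n + 2)) := by push_cast; ring
    rw [e]
    exact ZMod.val_natCast_of_lt (by omega)
  rw [e0, e2]
  have h1 := det2_wv_two (EM_b k (m + n) t) ⟨0, by omega⟩
  simp only [Nat.zero_add] at h1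
  rw [h1]
  simp [EM_b]

theorem EM_zpow_two [CharZero k] (z : ℤ) (h : (2 : k) ^ z = 1) : z = 0 := by
  have h1 : (((2 : ℚ) ^ z : ℚ) : k) = ((1 : ℚ) : k) := by
    push_cast
    exact h
  have h2 : (2 : ℚ) ^ z = 1 := by exact_mod_cast h1
  exact (zpow_eq_one_iff_right₀ (by norm_num) (by norm_num)).mp h2

theorem EM_unit_zero [IsAlgClosed k] [CharZero k] (he : Even (m + n)) (h4 : 4 ≤ m + n)
    (u : Reg k m n) (hu : IsUnit u) (h : ∀ P, ZS 0 (0 + 2) P → u.1 P = 1) : u = 1 := by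
  obtain ⟨c, z, hc, hu1⟩ := units_reg (by omega) u hu
  obtain ⟨j', hj'⟩ := he
  obtain ⟨j, hj⟩ : ∃ j, m + n = 4 + 2 * j := ⟨j' - 2, by omega⟩
  have hK2 : Kv (EM_b k (m + n) (2 : k)) = (-1) ^ (j + 1) := by
    rw [EM_Kv' (m + n) j hj, pow_succ]
    ring
  have hK3 : Kv (EM_b k (m + n) (3 : k)) = (-1) ^ (j + 1) * 2 := by
    rw [EM_Kv' (m + n) j hj, pow_succ]
    ring
  have hn : ((-1 : k)) ^ (j + 1) ≠ 0 := pow_ne_zero _ (by norm_num)
  have hb2 : Kv (EM_b k (m + n) (2 : k)) ≠ 0 := by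
    rw [hK2]
    exact hn
  have hb3 : Kv (EM_b k (m + n) (3 : k)) ≠ 0 := by
    rw [hK3]
    exact mul_ne_zero hn (by norm_num)
  have e2 := h _ (EM_ZS02 (m := m) (n := n) h4 (2 : k) hb2)
  have e3 := h _ (EM_ZS02 (m := m) (n := n) h4 (3 : k) hb3)
  rw [hu1, hK2] at e2
  rw [hu1, hK3, mul_zpow, ← mul_assoc, e2, one_mul] at e3
  have hz := EM_zpow_two z e3
  rw [hz, zpow_zero, mul_one] at e2
  apply Reg_ext
  intro b hb
  rw [hu1 b hb, hz, e2, zpow_zero, one_mul]
  rfl

/-- A unit which is `1` where the flags `i`, `i+2` coincide is `1`.  By rotation `i = 0` (`rotC`).  `u [cfgB b] = c * K(b)^z`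
(`units_reg`).  Take `b_2 = t`, `b_3 = 1`, the other `b_i = 0`: the flags `0`, `2` coincide (`b_0 = 0`), and
`K(b) = ± (t - 1)` with a sign depending only on `m + n` (`K(0, 0, t, 1, 0, …, 0)`).  With `t = 2, 3`:
`c * (±1)^z = 1`, `c * (±2)^z = 1`, so `2^z = 1`, `z = 0`, `c = 1`. -/
theorem unit_one [IsAlgClosed k] [CharZero k] (he : Even (m + n)) (h4 : 4 ≤ m + n) (i : ZMod (m + n + 2))
    (u : Reg k m n) (hu : IsUnit u) (h : ∀ P, ZS i (i + 2) P → u.1 P = 1) : u = 1 := by
  have h1 : EM_rot (-i) u = 1 := by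
    apply EM_unit_zero he h4
    · exact hu.map (EM_rot (-i))
    · intro P hP
      rw [EM_rot_apply]
      apply h
      rw [ZS_rotC]
      have e1 : i + -i = (0 : ZMod (m + n + 2)) := by ring
      have e2 : i + 2 + -i = (0 + 2 : ZMod (m + n + 2)) := by ring
      rw [e1, e2]
      exact hP
  exact (EM_rot (-i)).injective (by rw [h1, map_one])

theorem EM_ne (h4 : 4 ≤ m + n) (c : ℕ) (h1 : 0 < c) (h2 : c < 6) : ((c : ℕ) : ZMod (m + n + 2)) ≠ 0 := by
  intro h
  rw [ZMod.natCast_eq_zero_iff] at h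
  have := Nat.le_of_dvd h1 h
  omega

theorem EM_nb1 (i a b : ZMod (m + n + 2)) (hd : Dg a b) (h : Nb a b i (i + 2)) :
    (a = i ∧ b = i + 3) ∨ (a = i + 3 ∧ b = i) ∨ (a = i - 1 ∧ b = i + 2) ∨ (a = i + 2 ∧ b = i - 1) := by
  obtain ⟨d1, d2, d3⟩ := hd
  rcases h with ⟨h1, h2 | h2⟩ | ⟨h1, h2 | h2⟩ | ⟨h1, h2 | h2⟩ | ⟨h1, h2 | h2⟩
  · exact absurd (by linear_combination -h2 - h1) d2
  · exact Or.inl ⟨h1, by linear_combination h2⟩
  · exact Or.inr (Or.inr (Or.inr ⟨h1, by linear_combination -h2⟩))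
  · exact absurd (by linear_combination h1 - h2) d3
  · exact absurd (by linear_combination -h2 - h1) d3
  · exact Or.inr (Or.inl ⟨by linear_combination h2, h1⟩)
  · exact Or.inr (Or.inr (Or.inl ⟨by linear_combination -h2, h1⟩))
  · exact absurd (by linear_combination h1 - h2) d2

theorem EM_nb2 (h4 : 4 ≤ m + n) (i a b : ZMod (m + n + 2)) (hd : Dg a b) (h : Nb a b i (i + 2))
    (h' : Nb a b (i + 1) (i + 3)) : Sm a b i (i + 3) := by
  have n1 : (1 : ZMod (m + n + 2)) ≠ 0 := by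
    have := EM_ne h4 1 (by norm_num) (by norm_num)
    simpa using this
  have n2 : (2 : ZMod (m + n + 2)) ≠ 0 := by
    have := EM_ne h4 2 (by norm_num) (by norm_num)
    simpa using this
  have e : (i + 3 : ZMod (m + n + 2)) = i + 1 + 2 := by ring
  rw [e] at h'
  have A := EM_nb1 i a b hd h
  have B := EM_nb1 (i + 1) a b hd h'
  rcases A with ⟨h1, h2⟩ | ⟨h1, h2⟩ | ⟨h1, h2⟩ | ⟨h1, h2⟩
  · exact Or.inl ⟨h1, h2⟩
  · exact Or.inr ⟨h1, h2⟩
  · rcases B with ⟨h1', h2'⟩ | ⟨h1', h2'⟩ | ⟨h1', h2'⟩ | ⟨h1', h2'⟩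
    · exact absurd (by linear_combination h1 - h1') n2
    · exact absurd (by linear_combination h2' - h2) n1
    · exact absurd (by linear_combination h1 - h1') n1
    · exact absurd (by linear_combination h2' - h2) n2
  · rcases B with ⟨h1', h2'⟩ | ⟨h1', h2'⟩ | ⟨h1', h2'⟩ | ⟨h1', h2'⟩
    · exact absurd (by linear_combination h1' - h1) n1
    · exact absurd (by linear_combination h2 - h2') n2
    · exact absurd (by linear_combination h1' - h1) n2
    · exact absurd (by linear_combination h2 - h2') n1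

theorem EM_Van_symm {i j : ZMod (m + n + 2)} {f : Reg k m n} (h : Van i j f) : Van j i f :=
  fun P hP => h P ((ZS_symm j i P).mp hP)

theorem EM_cR_ne [CharZero k] (h4 : 4 ≤ m + n) (i : ZMod (m + n + 2)) : (cR i (i + 2) : Reg k m n) ≠ 0 := by
  intro h
  have n1 : (1 : ZMod (m + n + 2)) ≠ 0 := by
    have := EM_ne h4 1 (by norm_num) (by norm_num)
    simpa using this
  have n2 : (2 : ZMod (m + n + 2)) ≠ 0 := by
    have := EM_ne h4 2 (by norm_num) (by norm_num)
    simpa using this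
  obtain ⟨P, hP⟩ := point_of_label (k := k) (m := m) (n := n) (fun i => i.val) (fun i h => by
    have h1 := ZMod.val_injective _ h
    exact n1 (by linear_combination -h1))
  have h0 : cF i (i + 2) P = 0 := by
    have e : (cR i (i + 2) : Reg k m n).1 P = cF i (i + 2) P := rfl
    rw [← e, h]
    rfl
  rw [cF_zero, hP, hP] at h0
  rcases h0 with h0 | h0
  · have h1 := ZMod.val_injective _ h0
    exact n2 (by linear_combination -h1)
  · have h1 := ZMod.val_injective _ h0
    exact n2 (by linear_combination -h1)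

theorem EM_gR_ne [CharZero k] (h4 : 4 ≤ m + n) (i : ZMod (m + n + 2)) : (gR i (i + 2) : Reg k m n) ≠ 0 := by
  intro h
  have n1 : (1 : ZMod (m + n + 2)) ≠ 0 := by
    have := EM_ne h4 1 (by norm_num) (by norm_num)
    simpa using this
  have n3 : (3 : ZMod (m + n + 2)) ≠ 0 := by
    have := EM_ne h4 3 (by norm_num) (by norm_num)
    simpa using this
  obtain ⟨P, hP⟩ := point_of_label (k := k) (m := m) (n := n) (fun i => i.val) (fun i h => by
    have h1 := ZMod.val_injective _ h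
    exact n1 (by linear_combination -h1))
  have h0 : cG i (i + 2) P = 0 := by
    have e : (gR i (i + 2) : Reg k m n).1 P = cG i (i + 2) P := rfl
    rw [← e, h]
    rfl
  rw [cG_zero, hP, hP] at h0
  rcases h0 with h0 | h0
  · have h1 := ZMod.val_injective _ h0
    exact n3 (by linear_combination -h1)
  · have h1 := ZMod.val_injective _ h0
    exact n1 (by linear_combination -h1)

theorem EM_ZS_adj (i : ZMod (m + n + 2)) (P : Conf k m n) : ¬ ZS i (i + 1) P := by
  induction P using Quotient.inductionOn with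
  | _ p =>
    intro h
    exact pt_ne p i h

theorem EM_Cor3 [IsAlgClosed k] [CharZero k] (he : Even (m + n)) (h4 : 4 ≤ m + n)
    (φ : Reg k m n ≃ₐ[k] Reg k m n) (h : ∀ i : ZMod (m + n + 2), Cor φ i (i + 2) i (i + 2))
    (i : ZMod (m + n + 2)) : Cor φ i (i + 3) i (i + 3) := by
  have n1 : (1 : ZMod (m + n + 2)) ≠ 0 := by
    have := EM_ne h4 1 (by norm_num) (by norm_num)
    simpa using this
  have n2 : (2 : ZMod (m + n + 2)) ≠ 0 := by
    have := EM_ne h4 2 (by norm_num) (by norm_num)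
    simpa using this
  have n3 : (3 : ZMod (m + n + 2)) ≠ 0 := by
    have := EM_ne h4 3 (by norm_num) (by norm_num)
    simpa using this
  have n4 : (4 : ZMod (m + n + 2)) ≠ 0 := by
    have := EM_ne h4 4 (by norm_num) (by norm_num)
    simpa using this
  have hd3 : Dg i (i + 3) := ⟨fun h => n3 (by linear_combination h), fun h => n2 (by linear_combination h),
    fun h => n4 (by linear_combination -h)⟩
  have hd2 : ∀ i : ZMod (m + n + 2), Dg i (i + 2) := fun i =>
    ⟨fun h => n2 (by linear_combination h), fun h => n1 (by linear_combination h),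
    fun h => n3 (by linear_combination -h)⟩
  obtain ⟨a, b, hab, hc⟩ := cor_ex he he h4 h4 φ i (i + 3) hd3
  have e : (i + 1 + 2 : ZMod (m + n + 2)) = i + 3 := by ring
  have hN1 : Nb a b i (i + 2) := cor_nb hab (hd2 i) hc (h i)
    (Or.inl ⟨rfl, Or.inr (by ring)⟩)
  have hN2 : Nb a b (i + 1) (i + 3) := by
    have h2 := h (i + 1)
    have h3 := hd2 (i + 1)
    rw [e] at h2 h3
    exact cor_nb hab h3 hc h2 (Or.inr (Or.inr (Or.inr ⟨rfl, Or.inl rfl⟩)))
  rcases EM_nb2 h4 i a b hab hN1 hN2 with ⟨rfl, rfl⟩ | ⟨rfl, rfl⟩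
  · exact hc
  · intro f
    rw [hc f]
    exact ⟨EM_Van_symm, EM_Van_symm⟩

theorem EM_unitC [IsAlgClosed k] [CharZero k] (he : Even (m + n)) (h4 : 4 ≤ m + n)
    (φ : Reg k m n ≃ₐ[k] Reg k m n) (h : ∀ i : ZMod (m + n + 2), Cor φ i (i + 2) i (i + 2))
    (i : ZMod (m + n + 2)) : ∃ q : Reg k m n, φ (cR i (i + 2)) = cR i (i + 2) * q := by
  have n2 : (2 : ZMod (m + n + 2)) ≠ 0 := by
    have := EM_ne h4 2 (by norm_num) (by norm_num)
    simpa using this
  apply vanish_dvd he i (i + 2) (fun h => n2 (by linear_combination -h))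
  · rw [← h i]
    intro P hP
    exact (cF_zero i (i + 2) P).mpr (Or.inl hP)
  · have e : (i + 2 + 1 : ZMod (m + n + 2)) = i + 1 + 2 := by ring
    rw [e, ← h (i + 1)]
    intro P hP
    rw [← e] at hP
    exact (cF_zero i (i + 2) P).mpr (Or.inr hP)

theorem EM_unitG [IsAlgClosed k] [CharZero k] (he : Even (m + n)) (h4 : 4 ≤ m + n)
    (φ : Reg k m n ≃ₐ[k] Reg k m n) (h : ∀ i : ZMod (m + n + 2), Cor φ i (i + 2) i (i + 2))
    (i : ZMod (m + n + 2)) : ∃ q : Reg k m n, φ (gR i (i + 2)) = gR i (i + 2) * q := by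
  have n1 : (1 : ZMod (m + n + 2)) ≠ 0 := by
    have := EM_ne h4 1 (by norm_num) (by norm_num)
    simpa using this
  have n3 : (3 : ZMod (m + n + 2)) ≠ 0 := by
    have := EM_ne h4 3 (by norm_num) (by norm_num)
    simpa using this
  apply vanish_dvd' he i (i + 2) (fun h => n3 (by linear_combination -h)) (fun h => n1 (by linear_combination h))
  · have e : (i + 2 + 1 : ZMod (m + n + 2)) = i + 3 := by ring
    rw [e, ← EM_Cor3 he h4 φ h i]
    intro P hP
    rw [← e] at hP
    exact (cG_zero i (i + 2) P).mpr (Or.inl hP)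
  · intro P hP
    have e : (i + 2 : ZMod (m + n + 2)) = i + 1 + 1 := by ring
    rw [e] at hP
    exact absurd hP (EM_ZS_adj (i + 1) P)

theorem EM_isUnit [CharZero k] (φ : Reg k m n ≃ₐ[k] Reg k m n) (c q q' : Reg k m n) (hc : c ≠ 0)
    (h : φ c = c * q) (h' : φ.symm c = c * q') : IsUnit q := by
  have := Reg_isDomain (k := k) (m := m) (n := n)
  have h1 : c * (q * φ q') = c * 1 := by
    have h2 : φ (φ.symm c) = c := φ.apply_symm_apply c
    rw [h', map_mul, h] at h2
    rw [mul_one, ← mul_assoc]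
    exact h2
  exact IsUnit.of_mul_eq_one _ (mul_left_cancel₀ hc h1)

theorem EM_fix [IsAlgClosed k] [CharZero k] (he : Even (m + n)) (h4 : 4 ≤ m + n)
    (φ : Reg k m n ≃ₐ[k] Reg k m n) (h : ∀ i : ZMod (m + n + 2), Cor φ i (i + 2) i (i + 2))
    (i : ZMod (m + n + 2)) : φ (cR i (i + 2)) = cR i (i + 2) := by
  have := Reg_isDomain (k := k) (m := m) (n := n)
  have hs : ∀ i : ZMod (m + n + 2), Cor φ.symm i (i + 2) i (i + 2) := fun i => (h i).symm
  obtain ⟨u, hu⟩ := EM_unitC he h4 φ h i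
  obtain ⟨v, hv⟩ := EM_unitG he h4 φ h i
  obtain ⟨v', hv'⟩ := EM_unitG he h4 φ.symm hs i
  have hvU : IsUnit v := EM_isUnit φ _ v v' (EM_gR_ne h4 i) hv hv'
  have e1 : (cR i (i + 2) : Reg k m n) = 1 + gR i (i + 2) := by
    apply Subtype.ext
    funext P
    exact cF_eq i (i + 2) P
  have e2 : (cR i (i + 2) : Reg k m n) * (u - v) = 1 - v := by
    have e3 : φ (cR i (i + 2)) = 1 + φ (gR i (i + 2)) := by
      rw [e1, map_add, map_one]
    rw [hu, hv] at e3
    have e4 : (gR i (i + 2) : Reg k m n) = cR i (i + 2) - 1 := by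
      rw [e1]
      ring
    rw [e4] at e3
    linear_combination e3
  have hv1 : v = 1 := by
    apply unit_one he h4 i v hvU
    intro P hP
    have e5 : ((cR i (i + 2) : Reg k m n) * (u - v)).1 P = (1 - v : Reg k m n).1 P := by rw [e2]
    have e6 : ((cR i (i + 2) : Reg k m n) * (u - v)).1 P = cF i (i + 2) P * (u.1 P - v.1 P) := rfl
    have e7 : (1 - v : Reg k m n).1 P = 1 - v.1 P := rfl
    rw [e6, e7, (cF_zero i (i + 2) P).mpr (Or.inl hP), zero_mul] at e5
    exact (sub_eq_zero.mp e5.symm).symm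
  rw [hv1, sub_self] at e2
  rcases mul_eq_zero.mp e2 with h0 | h0
  · exact absurd h0 (EM_cR_ne h4 i)
  · rw [hu, sub_eq_zero.mp h0, mul_one]

/-- If all short diagonals correspond to themselves then `φ` is the identity.
(a) `Cor φ i (i+3) i (i+3)`: `(a,b)` from `cor_ex` is a neighbour of `(i,i+2)` and of `(i+1,i+3)` (`cor_nb`), so it is the same as
`(i,i+3)` (`m + n + 2 ≥ 6`).
(b) `φ (cR i (i+2)) = cR i (i+2) * u` (`vanish_dvd`: it vanishes for `(i,i+2)` and `(i+1,i+3)`), and the same for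
`φ.symm`, so `u` is a unit (domain, `cR i (i+2) ≠ 0`).  Similarly `φ (gR i (i+2)) = gR i (i+2) * u''` with `u''` a unit
(`vanish_dvd'`: `(i,i+3)`, and `(i+1,i+2)` is vacuous).
(c) `cR = 1 + gR`: `cR * u = 1 + (cR - 1) * u''`, so `cR * (u - u'') = 1 - u''`; where the flags `i`, `i+2` coincide `cR`
vanishes, so `u'' = 1` there, `u'' = 1` by `unit_one`, and `u = 1`.
(d) So `φ` fixes all `cR i (i+2)`, hence the algebra they generate, hence `κ` (`gen_kappa`, cancel in the domain), hence every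
`f` (`gen_r`). -/
theorem id_of_cor [IsAlgClosed k] [CharZero k] (he : Even (m + n)) (h4 : 4 ≤ m + n)
    (φ : Reg k m n ≃ₐ[k] Reg k m n) (h : ∀ i : ZMod (m + n + 2), Cor φ i (i + 2) i (i + 2)) (f : Reg k m n) :
    φ f = f := by
  have := Reg_isDomain (k := k) (m := m) (n := n)
  have hfix := EM_fix he h4 φ h
  have hadj : ∀ a ∈ Algebra.adjoin k (Set.range (fun i : ZMod (m + n + 2) => (cR i (i + 2) : Reg k m n))),
      φ a = a := by
    intro a ha
    have hle : Algebra.adjoin k (Set.range (fun i : ZMod (m + n + 2) => (cR i (i + 2) : Reg k m n))) ≤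
        AlgHom.equalizer (φ : Reg k m n →ₐ[k] Reg k m n) (AlgHom.id k (Reg k m n)) := by
      rw [Algebra.adjoin_le_iff]
      rintro _ ⟨i, rfl⟩
      exact hfix i
    exact hle ha
  set R : Reg k m n := ∏ s ∈ Finset.range (m + n - 1), (cR (s : ZMod (m + n + 2)) ((s : ZMod (m + n + 2)) + 2)
        : Reg k m n) with hR
  have hR0 : R ≠ 0 := by
    rw [hR]
    exact Finset.prod_ne_zero_iff.mpr (fun s _ => EM_cR_ne h4 _)
  have hRf : φ R = R := by
    apply hadj
    rw [hR]
    exact EM_prod_mem _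
  obtain ⟨κ, hκu, hκ⟩ := exists_kappa (k := k) (m := m) (n := n) he
  have hκf : φ κ = κ := by
    obtain ⟨M, hM⟩ := gen_kappa he h4 κ hκ
    have h1 := hadj _ hM
    rw [← hR, map_mul, map_pow, hRf] at h1
    exact mul_left_cancel₀ (pow_ne_zero M hR0) h1
  obtain ⟨M, e, hM⟩ := gen_r he h4 κ hκ f
  have h1 := hadj _ hM
  rw [← hR, map_mul, map_mul, map_pow, map_pow, hRf, hκf] at h1
  exact mul_left_cancel₀ (mul_ne_zero (pow_ne_zero M hR0) (pow_ne_zero e hκu.ne_zero)) h1

theorem EM_Van_rot (d a b : ZMod (m + n + 2)) (f : Reg k m n) :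
    Van a b (EM_rot d f) ↔ Van (a - d) (b - d) f := by
  have ea : a - d + d = a := by ring
  have eb : b - d + d = b := by ring
  constructor
  · intro h Q hQ
    obtain ⟨P, rfl⟩ := (rotC d).surjective Q
    rw [ZS_rotC, ea, eb] at hQ
    exact h P hQ
  · intro h P hP
    apply h (rotC d P)
    rw [ZS_rotC, ea, eb]
    exact hP

theorem EM_Van_ref (d a b : ZMod (m + n + 2)) (f : Reg k m n) :
    Van a b (EM_ref d f) ↔ Van (d - a) (d - b) f := by
  have ea : d - (d - a) = a := by ring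
  have eb : d - (d - b) = b := by ring
  constructor
  · intro h Q hQ
    obtain ⟨P, rfl⟩ := (refC d).surjective Q
    rw [ZS_refC, ea, eb] at hQ
    exact h P hQ
  · intro h P hP
    apply h (refC d P)
    rw [ZS_refC, ea, eb]
    exact hP

theorem EM_rot_rot (c : ZMod (m + n + 2)) (f : Reg k m n) : EM_rot (-c) (EM_rot c f) = f := by
  apply Subtype.ext
  funext P
  show f.1 (rotC c (rotC (-c) P)) = f.1 P
  rw [EM_rotC_symm]

theorem EM_ref_ref (c : ZMod (m + n + 2)) (f : Reg k m n) : EM_ref c (EM_ref c f) = f := by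
  apply Subtype.ext
  funext P
  show f.1 (refC c (refC c P)) = f.1 P
  rw [EM_refC_refC]

/-- Let `φ f = f ∘ Φ`.  By `dihE` and `id_of_cor` applied to `f ↦ φ (f ∘ rotC (-c))` (resp. `f ↦ φ (f ∘ refC c)`) we get
`φ g = g ∘ rotC c` (resp. `g ∘ refC c`).  (`Van a b (f ∘ rotC d) ↔ Van (a - d) (b - d) f`,
`Van a b (f ∘ refC c) ↔ Van (c - a) (c - b) f`, by `ZS_rotC`, `ZS_refC` and bijectivity.) -/
theorem autoE [IsAlgClosed k] [CharZero k] (he : Even (m + n)) (h4 : 4 ≤ m + n)
    (Φ : Conf k m n ≃ Conf k m n) (h1 : IsRegularMap Φ) (h2 : IsRegularMap Φ.symm) :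
    ∃ c : ZMod (m + n + 2), (∀ (f : Reg k m n) (P : Conf k m n), f.1 (Φ P) = f.1 (rotC c P)) ∨
      (∀ (f : Reg k m n) (P : Conf k m n), f.1 (Φ P) = f.1 (refC c P)) := by
  let φ : Reg k m n ≃ₐ[k] Reg k m n := EM_pull Φ Φ.symm h1 h2 (fun P => Φ.apply_symm_apply P)
    (fun P => Φ.symm_apply_apply P)
  have hφ : ∀ (f : Reg k m n) (P : Conf k m n), (φ f).1 P = f.1 (Φ P) := fun f P => rfl
  obtain ⟨c, hc | hc⟩ := dihE he h4 φ
  · refine ⟨c, Or.inl ?_⟩
    have hid : ∀ f : Reg k m n, φ (EM_rot (-c) f) = f := by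
      intro f
      have := id_of_cor he h4 ((EM_rot (-c) : Reg k m n ≃ₐ[k] Reg k m n).trans φ) (fun i f => by
        have h3 := hc (i - c) (EM_rot (-c) f)
        rw [EM_Van_rot] at h3
        have e1 : i - c - -c = i := by ring
        have e2 : i - c + 2 - -c = i + 2 := by ring
        have e3 : i - c + c = i := by ring
        rw [e1, e2, e3] at h3
        exact h3) f
      exact this
    intro f P
    have h3 := hid (EM_rot c f)
    rw [EM_rot_rot] at h3
    rw [← hφ, h3]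
    rfl
  · refine ⟨c, Or.inr ?_⟩
    have hid : ∀ f : Reg k m n, φ (EM_ref c f) = f := by
      intro f
      have := id_of_cor he h4 ((EM_ref c : Reg k m n ≃ₐ[k] Reg k m n).trans φ) (fun i f => by
        have h3 := hc (c - i - 2) (EM_ref c f)
        rw [EM_Van_ref] at h3
        have e1 : c - (c - i - 2) = i + 2 := by ring
        have e2 : c - (c - i - 2 + 2) = i := by ring
        have e3 : c - (c - i - 2) - 2 = i := by ring
        rw [e3, e1, e2] at h3
        exact ⟨fun h => h3.mp (EM_Van_symm h), fun h => EM_Van_symm (h3.mpr h)⟩) f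
      exact this
    intro f P
    have h3 := hid (EM_ref c f)
    rw [EM_ref_ref] at h3
    rw [← hφ, h3]
    rfl

/-- Separation: write `P = [cfgB b]`, `Q = [cfgB b']`; `cF s (s+2)` gives `b_s * b_(s+1) = b'_s * b'_(s+1) ≠ 0` for
`s ≤ m + n - 2`, so `b' = scl c b` with `c = b'_0 / b_0`; `cfgB_equiv`. -/
theorem sepE [IsAlgClosed k] (he : Even (m + n)) (h4 : 4 ≤ m + n) (P Q : Conf k m n)
    (h : ∀ f : Reg k m n, f.1 P = f.1 Q) (hP : ∀ i : ZMod (m + n + 2), cF i (i + 2) P ≠ 0) : P = Q := by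
  induction P using Quotient.inductionOn with
  | _ p =>
  induction Q using Quotient.inductionOn with
  | _ q =>
  obtain ⟨b, hb, hpb⟩ := cfgB_surj p
  obtain ⟨b', hb', hqb⟩ := cfgB_surj q
  have eP : (Quotient.mk _ p : Conf k m n) = Quotient.mk _ (cfgB b hb) := Quotient.sound hpb
  have eQ : (Quotient.mk _ q : Conf k m n) = Quotient.mk _ (cfgB b' hb') := Quotient.sound hqb
  have hPv : ∀ s : ℕ, s + 1 < m + n → sq b s * sq b (s + 1) ≠ 0 := by
    intro s hs
    rw [← EM_cR_val b hb s hs, ← eP]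
    exact hP _
  have hval : ∀ s : ℕ, s + 1 < m + n → sq b s * sq b (s + 1) = sq b' s * sq b' (s + 1) := by
    intro s hs
    rw [← EM_cR_val b hb s hs, ← EM_cR_val b' hb' s hs, ← eP, ← eQ]
    exact h _
  have hb0 : ∀ s : ℕ, s < m + n → sq b s ≠ 0 := by
    intro s hs
    rcases Nat.lt_or_ge (s + 1) (m + n) with h1 | h1
    · exact left_ne_zero_of_mul (hPv s h1)
    · have h2 := hPv (s - 1) (by omega)
      rw [show s - 1 + 1 = s by omega] at h2
      exact right_ne_zero_of_mul h2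
  have hb0' : ∀ s : ℕ, s < m + n → sq b' s ≠ 0 := by
    intro s hs
    rcases Nat.lt_or_ge (s + 1) (m + n) with h1 | h1
    · have h3 := hPv s h1
      rw [hval s h1] at h3
      exact left_ne_zero_of_mul h3
    · have h2 := hPv (s - 1) (by omega)
      rw [hval (s - 1) (by omega)] at h2
      rw [show s - 1 + 1 = s by omega] at h2
      exact right_ne_zero_of_mul h2
  set c : k := sq b' 0 / sq b 0 with hc
  have hc0 : c ≠ 0 := div_ne_zero (hb0' 0 (by omega)) (hb0 0 (by omega))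
  have key : ∀ s : ℕ, s < m + n → sq b' s = if Even s then c * sq b s else c⁻¹ * sq b s := by
    intro s
    induction s with
    | zero =>
      intro hs
      rw [if_pos (by norm_num), hc, div_mul_cancel₀ _ (hb0 0 hs)]
    | succ s ih =>
      intro hs
      have h3 := ih (by omega)
      have h4 := hval s hs
      have h5 := hb0 s (by omega)
      by_cases hes : Even s
      · rw [if_pos hes] at h3
        rw [if_neg (by rw [Nat.even_add_one]; exact not_not.mpr hes)]
        rw [h3] at h4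
        have h6 : sq b s * (c * sq b' (s + 1)) = sq b s * sq b (s + 1) := by
          rw [h4]
          ring
        have h7 := mul_left_cancel₀ h5 h6
        rw [← h7, ← mul_assoc, inv_mul_cancel₀ hc0, one_mul]
      · rw [if_neg hes] at h3
        rw [if_pos (by rw [Nat.even_add_one]; exact hes)]
        rw [h3] at h4
        have h6 : sq b s * (c⁻¹ * sq b' (s + 1)) = sq b s * sq b (s + 1) := by
          rw [h4]
          ring
        have h7 := mul_left_cancel₀ h5 h6
        rw [← h7, ← mul_assoc, mul_inv_cancel₀ hc0, one_mul]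
  rw [eP, eQ]
  apply Quotient.sound
  rw [cfgB_equiv he]
  refine ⟨c, hc0, ?_⟩
  funext i
  have h3 := key i.val i.isLt
  have e1 : ∀ b : Fin (m + n) → k, sq b i.val = b i := by
    intro b
    unfold sq
    rw [dif_pos i.isLt]
  rw [e1, e1] at h3
  exact h3

end Pool.Agent.Lib.MP_d4c67c_gt
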