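import Pool.Agent.Lib.MP_d4c67c_gt.E.C
import Pool.Agent.Lib.MP_d4c67c_gt.Fin

/-!
# JOB EX: the parities of `m + n` and `m' + n'` agree

(You may use all files, which are other jobs.)
-/

namespace Pool.Agent.Lib.MP_d4c67c_gt

variable {k : Type*} [Field k] [IsAlgClosed k] [CharZero k] {m n m' n' : ℕ}

private theorem EX_Ws {R : Type*} [CommRing R] (s : ℕ → R) (t : R) (h0 : s 0 = t) (h1 : s 1 = 1)
    (h2 : ∀ j, s (j + 2) = 0) (r : ℕ) : (Ws s (2 * r + 3)).2 = (-1) ^ r * (t - 1) := by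
  induction r with
  | zero =>
    simp only [Ws]
    rw [h0, h1]
    ring
  | succ r ih =>
    have e : (Ws s (2 * (r + 1) + 3)).2 =
        s (2 * r + 1 + 2) * (Ws s (2 * r + 1 + 2 + 1)).2 - (Ws s (2 * r + 3)).2 := rfl
    rw [e, h2, ih]
    ring

/-- the sequence `(t, 1, 0, …, 0)` -/
private def EX_b (l : ℕ) (t : k) (i : Fin l) : k :=
  if i.val = 0 then t else if i.val = 1 then 1 else 0

omit [IsAlgClosed k] [CharZero k] in
private theorem EX_K (l r : ℕ) (hl : l = 2 * r + 2) (t : k) : Kv (EX_b l t) = (-1) ^ r * (t - 1) := by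
  subst hl
  unfold Kv
  refine EX_Ws (sq (EX_b (2 * r + 2) t)) t ?_ ?_ ?_ r
  · unfold sq EX_b
    rw [dif_pos (by omega)]
    simp
  · unfold sq EX_b
    rw [dif_pos (by omega)]
    simp
  · intro j
    unfold sq EX_b
    by_cases h : j + 2 < 2 * r + 2
    · rw [dif_pos h]
      simp
    · rw [dif_neg h]

/-- Suppose `m + n` odd, `m' + n'` even.  `κ` from `exists_kappa` is a unit of `Reg k m' n'`, so `κ ∘ Φ` and `κ⁻¹ ∘ Φ` are
regular functions with product `1` on `Conf k m n`; by `A_of_reg` they are given by `a, a'` in `A k (m+n)` with `a * a' = 1`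
(`eval_inj`), so `a` is a constant (`units_A`) and `κ` is constant (`Φ` is surjective).  But `κ [cfgB b] = K(b)` takes
different values: for `b = (t, 1, 0, …, 0)`, `K(b) = ± (t - 1)` (`m' + n' ≥ 2` even; the sign depends only on `m' + n'`). -/
theorem no_mixed (ho : Odd (m + n)) (h3 : 3 ≤ m + n) (he' : Even (m' + n')) (h4' : 2 ≤ m' + n')
    (Φ : Conf k m n ≃ Conf k m' n') (h1 : IsRegularMap Φ) : False := by
  obtain ⟨κ, hκu, hκ⟩ := exists_kappa (k := k) (m := m') (n := n') he'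
  obtain ⟨κ', hκκ'⟩ := hκu.exists_right_inv
  obtain ⟨a, ha⟩ := A_of_reg ho _ (h1 _ κ.2)
  obtain ⟨a', ha'⟩ := A_of_reg ho _ (h1 _ κ'.2)
  have haa : a * a' - 1 = 0 := by
    refine eval_inj (m + n) (Or.inr h3) _ fun F => ?_
    obtain ⟨P, rfl⟩ := (frz ho).surjective F
    rw [map_sub, map_mul, map_one, ← ha P, ← ha' P]
    have h2 : (κ * κ').1 (Φ P) = (1 : Reg k m' n').1 (Φ P) := by rw [hκκ']
    have h3 : κ.1 (Φ P) * κ'.1 (Φ P) = 1 := h2
    exact sub_eq_zero.2 h3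
  have hau : IsUnit a := IsUnit.of_mul_eq_one _ (sub_eq_zero.1 haa)
  obtain ⟨c, -, hc⟩ := units_A (m + n) ho a hau
  have hconst : ∀ Q : Conf k m' n', κ.1 Q = c := by
    intro Q
    obtain ⟨P, rfl⟩ := Φ.surjective Q
    have h2 : κ.1 (Φ P) = lift (frz ho P) a := ha P
    rw [h2, hc]
    exact AlgHom.commutes _ c
  obtain ⟨r, hr⟩ : ∃ r, m' + n' = 2 * r + 2 := by
    obtain ⟨s, hs⟩ := he'
    exact ⟨s - 1, by omega⟩
  have hval : ∀ t : k, t ≠ 1 → (-1) ^ r * (t - 1) = c := by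
    intro t ht
    have e := EX_K (m' + n') r hr t
    have hb : Kv (EX_b (m' + n') t) ≠ 0 := by
      rw [e]
      exact mul_ne_zero (pow_ne_zero _ (neg_ne_zero.2 one_ne_zero)) (sub_ne_zero.2 ht)
    rw [← e, ← hκ _ hb]
    exact hconst _
  have h5 := hval 0 (zero_ne_one)
  have h6 := hval 2 (by norm_num)
  have h7 : ((-1 : k)) ^ r * 2 = 0 := by linear_combination h6 - h5
  exact (mul_ne_zero (pow_ne_zero _ (neg_ne_zero.2 one_ne_zero)) two_ne_zero) h7

end Pool.Agent.Lib.MP_d4c67c_gt
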