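import Pool.Agent.Lib.MP_d4c67c_gt.E.P
import Pool.Agent.Lib.MP_d4c67c_gt.E.M
import Pool.Agent.Lib.MP_d4c67c_gt.E.X

/-!
# Final assembly, any parity
-/

namespace Pool.Agent.Lib.MP_d4c67c_gt

universe u

variable {k : Type u} [Field k] {m n m' n' : ℕ}

/-- composition with a biregular bijection, an isomorphism of the algebras of regular functions -/
def pullE (Φ : Conf k m n ≃ Conf k m' n') (h1 : IsRegularMap Φ) (h2 : IsRegularMap Φ.symm) :
    Reg k m' n' ≃ₐ[k] Reg k m n where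
  toFun f := ⟨f.1 ∘ Φ, h1 _ f.2⟩
  invFun f := ⟨f.1 ∘ Φ.symm, h2 _ f.2⟩
  left_inv f := by
    apply Subtype.ext
    funext P
    show f.1 (Φ (Φ.symm P)) = f.1 P
    rw [Φ.apply_symm_apply]
  right_inv f := by
    apply Subtype.ext
    funext P
    show f.1 (Φ.symm (Φ P)) = f.1 P
    rw [Φ.symm_apply_apply]
  map_mul' _ _ := rfl
  map_add' _ _ := rfl
  commutes' _ := rfl

theorem two_ne_zero' (h : 1 ≤ m + n) : (2 : ZMod (m + n + 2)) ≠ 0 := by
  intro h0
  have h1 : ((2 : ℕ) : ZMod (m + n + 2)) = 0 := by exact_mod_cast h0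
  rw [ZMod.natCast_eq_zero_iff] at h1
  have := Nat.le_of_dvd (by norm_num) h1
  omega

theorem dihE_main [IsAlgClosed k] [CharZero k] (he : Even (m + n)) (h4 : 4 ≤ m + n)
    (he' : Even (m' + n')) (h4' : 4 ≤ m' + n') (Φ : Conf k m n ≃ Conf k m' n')
    (h1 : IsRegularMap Φ) (h2 : IsRegularMap Φ.symm) :
    m' + n' = m + n ∧ ∃ c : ℤ,
      (∀ (p : Cfg k m n) (q : Cfg k m' n'), Φ (Quotient.mk _ p) = Quotient.mk _ q →
        (allc k m n).1 (Quotient.mk _ p) ≠ 0 → AffV 1 c p q) ∨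
      (∀ (p : Cfg k m n) (q : Cfg k m' n'), Φ (Quotient.mk _ p) = Quotient.mk _ q →
        (allc k m n).1 (Quotient.mk _ p) ≠ 0 → AffV (-1) c p q) := by
  have hl : m' + n' = m + n := card_eqE he he' h4 h4' (pullE Φ h1 h2)
  refine ⟨hl, ?_⟩
  obtain ⟨R, hR1, hR2, hR⟩ := exists_relC (k := k) hl
  have hΦ1 : IsRegularMap (Φ.trans R.symm : Conf k m n ≃ Conf k m n) := fun f hf => h1 _ (hR2 f hf)
  have hΦ2 : IsRegularMap (Φ.trans R.symm : Conf k m n ≃ Conf k m n).symm := fun f hf => hR1 _ (h2 f hf)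
  have h22 := two_ne_zero' (m := m) (n := n) (by omega)
  have hAR : ∀ (p : Cfg k m n) (q : Cfg k m' n'), R (Quotient.mk _ p) = Quotient.mk _ q →
      AffV 1 0 p q := by
    intro p q h
    obtain ⟨v, v', hv, hv', hvv⟩ := hR p q h
    refine ⟨v, v', hv, hv', fun i => ?_⟩
    rw [hvv i]
    norm_num
  obtain ⟨c, hc⟩ := autoE he h4 (Φ.trans R.symm) hΦ1 hΦ2
  obtain ⟨c, rfl⟩ := ZMod.intCast_surjective c
  refine ⟨c, ?_⟩
  rcases hc with hc | hc
  · left
    intro p q hpq hp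
    have hsep : rotC (c : ZMod (m + n + 2)) (Quotient.mk _ p : Conf k m n)
        = (Φ.trans R.symm) (Quotient.mk _ p) := by
      refine sepE he h4 _ _ (fun f => (hc f _).symm) ?_
      intro i
      rw [(cF_rotC _ _ _ _).1]
      apply cF_of_allc _ hp
      intro h
      apply h22
      linear_combination -h
    obtain ⟨r, hr⟩ := Quotient.exists_rep (rotC (c : ZMod (m + n + 2)) (Quotient.mk _ p : Conf k m n))
    have hRr : R (Quotient.mk _ r) = Quotient.mk _ q := by
      rw [← hpq, hr, hsep]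
      show R (R.symm (Φ (Quotient.mk _ p))) = _
      rw [R.apply_symm_apply]
    have ha : AffV 1 c p r := by
      obtain ⟨v, v', hv, hv', hvv⟩ := rotC_Lft c p r hr.symm
      refine ⟨v, v', hv, hv', fun i => ?_⟩
      rw [hvv i, one_mul]
    have := AffV.comp (s := 1) (by norm_num) rfl ha (hAR r q hRr)
    simpa using this
  · right
    intro p q hpq hp
    have hsep : refC (c : ZMod (m + n + 2)) (Quotient.mk _ p : Conf k m n)
        = (Φ.trans R.symm) (Quotient.mk _ p) := by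
      refine sepE he h4 _ _ (fun f => (hc f _).symm) ?_
      intro i
      rw [cF_refC]
      apply cF_of_allc _ hp
      intro h
      apply h22
      linear_combination h
    obtain ⟨r, hr⟩ := Quotient.exists_rep (refC (c : ZMod (m + n + 2)) (Quotient.mk _ p : Conf k m n))
    have hRr : R (Quotient.mk _ r) = Quotient.mk _ q := by
      rw [← hpq, hr, hsep]
      show R (R.symm (Φ (Quotient.mk _ p))) = _
      rw [R.apply_symm_apply]
    have ha : AffV (-1) c p r := by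
      obtain ⟨v, v', hv, hv', hvv⟩ := refC_Lft c p r hr.symm
      refine ⟨v, v', hv, hv', fun i => ?_⟩
      rw [hvv i]
      congr 2
      ring
    have := AffV.comp (s := -1) (by norm_num) rfl ha (hAR r q hRr)
    simpa using this

/-- after the reversal of the target -/
theorem rev_AffV (s : ℤ) (hs : s * s = 1) (hl : m' + n' = m + n) (Φ : Conf k m n → Conf k m' n') (c : ℤ)
    (g : Reg k m n)
    (h : ∀ (p : Cfg k m n) (q : Cfg k m' n'), Φ (Quotient.mk _ p) = Quotient.mk _ q →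
      g.1 (Quotient.mk _ p) ≠ 0 → AffV s c p q) :
    ∀ (p : Cfg k m n) (q : Cfg k m' n'), (rev ∘ Φ) (Quotient.mk _ p) = Quotient.mk _ q →
      g.1 (Quotient.mk _ p) ≠ 0 → AffV (s * (-1)) (s * m' + c) p q := by
  intro p q hpq hp
  obtain ⟨r, hr⟩ := Quotient.exists_rep (Φ (Quotient.mk _ p))
  have hrq : rev (Quotient.mk _ r : Conf k m' n') = Quotient.mk _ q := by
    rw [← hpq, hr]
    rfl
  have ha : AffV (-1) (m' : ℤ) r q := by
    obtain ⟨v, v', hv, hv', hvv⟩ := rev_Lft r q hrq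
    refine ⟨v, v', hv, hv', fun i => ?_⟩
    rw [hvv i]
    congr 2
    ring
  exact (h p r hr.symm hp).comp hs hl ha

theorem mainE [IsAlgClosed k] [CharZero k] (he : Even (m + n)) (h4 : 4 ≤ m + n)
    (he' : Even (m' + n')) (h4' : 4 ≤ m' + n') (Φ : Conf k m n ≃ Conf k m' n')
    (h1 : IsRegularMap Φ) (h2 : IsRegularMap Φ.symm) :
    m + n = m' + n' ∧ Xor (IsClusterPoisson Φ) (IsClusterPoisson (rev ∘ Φ)) := by
  obtain ⟨hl, c, hc⟩ := dihE_main he h4 he' h4' Φ h1 h2
  have h3 : 3 ≤ m + n := by omega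
  have hg : allc k m n ≠ 0 := allc_ne_zero (by omega)
  refine ⟨hl.symm, ?_⟩
  rcases hc with hc | hc
  · left
    refine ⟨posE h3 hl Φ c _ hg hc, negE h3 hl (rev ∘ Φ) (1 * m' + c) _ hg ?_⟩
    exact rev_AffV 1 (by norm_num) hl Φ c _ hc
  · right
    refine ⟨posE h3 hl (rev ∘ Φ) (-1 * m' + c) _ hg ?_, negE h3 hl Φ c _ hg hc⟩
    exact rev_AffV (-1) (by norm_num) hl Φ c _ hc

/-- any parity -/
theorem main_all [IsAlgClosed k] [CharZero k] (h3 : 3 ≤ m + n) (h3' : 3 ≤ m' + n')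
    (Φ : Conf k m n ≃ Conf k m' n') (h1 : IsRegularMap Φ) (h2 : IsRegularMap Φ.symm) :
    m + n = m' + n' ∧ Xor (IsClusterPoisson Φ) (IsClusterPoisson (rev ∘ Φ)) := by
  rcases Nat.even_or_odd (m + n) with he | ho
  · have h4 : 4 ≤ m + n := by
      obtain ⟨t, ht⟩ := he; omega
    rcases Nat.even_or_odd (m' + n') with he' | ho'
    · have h4' : 4 ≤ m' + n' := by
        obtain ⟨t, ht⟩ := he'; omega
      exact mainE he h4 he' h4' Φ h1 h2
    · exact (no_mixed ho' h3' he (by omega) Φ.symm h2).elim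
  · rcases Nat.even_or_odd (m' + n') with he' | ho'
    · have h4' : 4 ≤ m' + n' := by
        obtain ⟨t, ht⟩ := he'; omega
      exact (no_mixed ho h3 he' (by omega) Φ h1).elim
    · exact main ho h3 ho' h3' Φ h1 h2

end Pool.Agent.Lib.MP_d4c67c_gt
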