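import Pool.Agent.Lib.MP_d4c67c_gt.E.F

/-!
# JOB EG: homomorphisms `Reg → F[X]` with kernel the functions vanishing where two flags coincide

(You may use `E/A.lean`, …, `E/F.lean`, `Q.lean`, which are other jobs.)
-/

open scoped LinearAlgebra.Projectivization

namespace Pool.Agent.Lib.MP_d4c67c_gt

variable {k : Type*} [Field k] {m n : ℕ}

/-- the field of rational functions in `b_0, …, b_(l-1)` -/
abbrev FF (k : Type*) [Field k] (l : ℕ) : Type _ := FractionRing (MvPolynomial (Fin l) k)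

/-- `f = P / K^e` on the configurations `cfgB b` -/
def EG_rp (f : Reg k m n) (P : MvPolynomial (Fin (m + n)) k) (e : ℕ) : Prop :=
  ∀ (b : Fin (m + n) → k) (hb : Kv b ≠ 0),
    f.1 (Quotient.mk _ (cfgB b hb)) * (Kv b) ^ e = MvPolynomial.eval b P

theorem EG_eval {S : Type*} [CommRing S] [Algebra k S] {l : ℕ} (β : Fin l → S) :
    MvPolynomial.aeval β (Ws (vr k l) (l + 1)).2 = Kv β := by
  unfold Kv
  rw [Ws_sq_aeval (k := k) β (l + 1)]

theorem EG_eval' {l : ℕ} (b : Fin l → k) (i : ℕ) :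
    MvPolynomial.eval b (Ws (vr k l) i).2 = (Ws (sq b) i).2 := by
  rw [Ws_sq_aeval (k := k) b i]
  rfl

theorem EG_uniq [CharZero k] {S : Type*} [CommRing S] [Algebra k S] (β : Fin (m + n) → S)
    {f : Reg k m n} {P P' : MvPolynomial (Fin (m + n)) k} {e e' : ℕ} (h : EG_rp f P e)
    (h' : EG_rp f P' e') :
    MvPolynomial.aeval β P * (Kv β) ^ e' = MvPolynomial.aeval β P' * (Kv β) ^ e := by
  have h1 : P * (Ws (vr k (m + n)) (m + n + 1)).2 ^ e' -
      P' * (Ws (vr k (m + n)) (m + n + 1)).2 ^ e = 0 := by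
    refine poly_zero_of_U _ fun b hb => ?_
    have h2 := h b hb
    have h3 := h' b hb
    have h4 : MvPolynomial.eval b (Ws (vr k (m + n)) (m + n + 1)).2 = Kv b := EG_eval' b _
    rw [map_sub, map_mul, map_mul, map_pow, map_pow, h4, ← h2, ← h3]
    ring
  have h2 : P * (Ws (vr k (m + n)) (m + n + 1)).2 ^ e' =
      P' * (Ws (vr k (m + n)) (m + n + 1)).2 ^ e := sub_eq_zero.1 h1
  have h3 := congrArg (MvPolynomial.aeval β) h2
  rw [map_mul, map_mul, map_pow, map_pow, EG_eval] at h3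
  exact h3

theorem EG_rp_mul {f g : Reg k m n} {P Q : MvPolynomial (Fin (m + n)) k} {e a : ℕ}
    (h : EG_rp f P e) (h' : EG_rp g Q a) : EG_rp (f * g) (P * Q) (e + a) := by
  intro b hb
  have h2 := h b hb
  have h3 := h' b hb
  rw [map_mul, ← h2, ← h3, pow_add]
  show f.1 _ * g.1 _ * _ = _
  ring

theorem EG_rp_add {f g : Reg k m n} {P Q : MvPolynomial (Fin (m + n)) k} {e a : ℕ}
    (h : EG_rp f P e) (h' : EG_rp g Q a) :
    EG_rp (f + g) (P * (Ws (vr k (m + n)) (m + n + 1)).2 ^ a +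
      Q * (Ws (vr k (m + n)) (m + n + 1)).2 ^ e) (e + a) := by
  intro b hb
  have h2 := h b hb
  have h3 := h' b hb
  have h4 : MvPolynomial.eval b (Ws (vr k (m + n)) (m + n + 1)).2 = Kv b := EG_eval' b _
  rw [map_add, map_mul, map_mul, map_pow, map_pow, h4, ← h2, ← h3, pow_add]
  show (f.1 _ + g.1 _) * _ = _
  ring

theorem EG_rp_const (c : k) : EG_rp (algebraMap k (Reg k m n) c) (MvPolynomial.C c) 0 := by
  intro b hb
  rw [pow_zero, mul_one, MvPolynomial.eval_C]
  rfl

/-- Evaluation at a point `β` with values in a `k`-algebra.  `ε f = aeval β P * (Kv β)⁻¹^e` for a chosen `(P, e)` as in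
`reg_poly`; independent of the choice because `P K^e' = P' K^e` as polynomials (`poly_zero_of_U`), `Ws_sq_aeval`. -/
theorem exists_ev [CharZero k] {S : Type*} [CommRing S] [Algebra k S] (β : Fin (m + n) → S)
    (hβ : IsUnit (Kv β)) :
    ∃ ε : Reg k m n →ₐ[k] S, ∀ (f : Reg k m n) (P : MvPolynomial (Fin (m + n)) k) (e : ℕ),
      (∀ (b : Fin (m + n) → k) (hb : Kv b ≠ 0),
        f.1 (Quotient.mk _ (cfgB b hb)) * (Kv b) ^ e = MvPolynomial.eval b P) →
      ε f * (Kv β) ^ e = MvPolynomial.aeval β P := by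
  have hex : ∀ f : Reg k m n, ∃ (a : MvPolynomial (Fin (m + n)) k × ℕ), EG_rp f a.1 a.2 := by
    intro f
    obtain ⟨P, e, h⟩ := reg_poly f.1 f.2
    exact ⟨(P, e), h⟩
  choose R hR using hex
  obtain ⟨u, hu⟩ := hβ
  let E : Reg k m n → S := fun f => MvPolynomial.aeval β (R f).1 * (↑(u⁻¹) : S) ^ (R f).2
  have hE : ∀ (f : Reg k m n) (P : MvPolynomial (Fin (m + n)) k) (e : ℕ), EG_rp f P e →
      E f * (Kv β) ^ e = MvPolynomial.aeval β P := by
    intro f P e h
    have h1 := EG_uniq β (hR f) h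
    have h2 : (↑(u⁻¹) : S) ^ (R f).2 * (Kv β) ^ (R f).2 = 1 := by
      rw [← mul_pow, ← hu, Units.inv_mul, one_pow]
    show MvPolynomial.aeval β (R f).1 * (↑(u⁻¹) : S) ^ (R f).2 * (Kv β) ^ e = _
    linear_combination (↑(u⁻¹) : S) ^ (R f).2 * h1 + MvPolynomial.aeval β P * h2
  have hcan : ∀ (x y : S) (e : ℕ), x * (Kv β) ^ e = y * (Kv β) ^ e → x = y := by
    intro x y e h
    have h1 : IsUnit ((Kv β) ^ e) := by
      rw [← hu]
      exact (Units.isUnit u).pow e
    exact h1.mul_right_cancel h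
  have hmul : ∀ f g, E (f * g) = E f * E g := by
    intro f g
    refine hcan _ _ ((R f).2 + (R g).2) ?_
    rw [hE _ _ _ (EG_rp_mul (hR f) (hR g)), map_mul, ← hE f _ _ (hR f), ← hE g _ _ (hR g), pow_add]
    ring
  have hadd : ∀ f g, E (f + g) = E f + E g := by
    intro f g
    refine hcan _ _ ((R f).2 + (R g).2) ?_
    rw [hE _ _ _ (EG_rp_add (hR f) (hR g)), map_add, map_mul, map_mul, map_pow, map_pow,
      ← hE f _ _ (hR f), ← hE g _ _ (hR g), pow_add, EG_eval]
    ring
  have hconst : ∀ c : k, E (algebraMap k (Reg k m n) c) = algebraMap k S c := by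
    intro c
    have h1 := hE _ _ _ (EG_rp_const (m := m) (n := n) c)
    rw [pow_zero, mul_one, MvPolynomial.aeval_C] at h1
    exact h1
  refine ⟨{ toFun := E
            map_one' := ?_
            map_mul' := hmul
            map_zero' := ?_
            map_add' := hadd
            commutes' := hconst }, hE⟩
  · have h1 := hconst 1
    rw [map_one, map_one] at h1
    exact h1
  · have h1 := hconst 0
    rw [map_zero, map_zero] at h1
    exact h1

/-- the generic point of the locus `q s = 0` (`2 ≤ s ≤ l`): `β i = X_i` for `i ≠ s-2, s-1`, `β (s-2) = q (s-2) / q (s-1)`,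
`β (s-1) = X` (the polynomial variable), where `q` are the continuants in the `X_i` -/
noncomputable def bet (k : Type*) [Field k] (l s : ℕ) : Fin l → Polynomial (FF k l) :=
  fun i => if i.val + 2 = s then
      Polynomial.C (algebraMap (MvPolynomial (Fin l) k) (FF k l) (Ws (vr k l) (s - 2)).2 / algebraMap (MvPolynomial (Fin l) k) (FF k l) (Ws (vr k l) (s - 1)).2)
    else if i.val + 1 = s then Polynomial.X
    else Polynomial.C (algebraMap (MvPolynomial (Fin l) k) (FF k l) (MvPolynomial.X i))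

/-- the inclusion of the polynomials in the rational functions -/
noncomputable def EG_i (k : Type*) [Field k] (l : ℕ) : MvPolynomial (Fin l) k →+* FF k l :=
  algebraMap (MvPolynomial (Fin l) k) (FF k l)

theorem EG_i_inj (l : ℕ) {P : MvPolynomial (Fin l) k} (h : EG_i k l P = 0) : P = 0 := by
  have h1 : Function.Injective (algebraMap (MvPolynomial (Fin l) k) (FF k l)) :=
    IsFractionRing.injective _ _
  refine h1 ?_
  rw [map_zero]
  exact h

theorem EG_bet1 (l s i : ℕ) (hi : i < l) (h : i + 2 = s) :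
    sq (bet k l s) i = Polynomial.C (EG_i k l (Ws (vr k l) (s - 2)).2 / EG_i k l (Ws (vr k l) (s - 1)).2) := by
  unfold sq bet
  rw [dif_pos hi, if_pos h]
  rfl

theorem EG_bet2 (l s i : ℕ) (hi : i < l) (h : i + 1 = s) :
    sq (bet k l s) i = Polynomial.X := by
  unfold sq bet
  rw [dif_pos hi, if_neg (by show ¬ i + 2 = s; omega), if_pos h]

theorem EG_bet3 (l s i : ℕ) (h : i + 2 ≠ s) (h' : i + 1 ≠ s) :
    sq (bet k l s) i = Polynomial.C (EG_i k l (vr k l i)) := by
  unfold sq bet vr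
  by_cases hi : i < l
  · rw [dif_pos hi, dif_pos hi, if_neg h, if_neg h']
    rfl
  · rw [dif_neg hi, dif_neg hi, map_zero, map_zero]

theorem EG_q_ne (l j : ℕ) (h1 : 1 ≤ j) (h2 : j ≤ l + 1) : EG_i k l (Ws (vr k l) j).2 ≠ 0 :=
  fun h => q_ne_zero l j h1 h2 (EG_i_inj l h)

/-- the second coordinate of the path of `bet` before `s` -/
theorem EG_path1 (l s : ℕ) (_hs : s ≤ l) (i : ℕ) (hi : i < s) :
    (Ws (sq (bet k l s)) i).2 = Polynomial.C (EG_i k l (Ws (vr k l) i).2) := by
  induction i using Nat.strong_induction_on with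
  | _ i ih =>
    match i, ih, hi with
    | 0, _, _ => simp [Ws]
    | 1, _, _ => simp [Ws]
    | (i + 2), ih, hi =>
      have e1 := ih (i + 1) (by omega) (by omega)
      have e2 := ih i (by omega) (by omega)
      show sq (bet k l s) i * (Ws (sq (bet k l s)) (i + 1)).2 - (Ws (sq (bet k l s)) i).2 = _
      rw [e1, e2, EG_bet3 l s i (by omega) (by omega), Q_step, map_sub, map_mul, map_sub, map_mul]

theorem EG_path2 (l s : ℕ) (h2 : 2 ≤ s) (hs : s ≤ l) : (Ws (sq (bet k l s)) s).2 = 0 := by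
  obtain ⟨t, rfl⟩ : ∃ t, s = t + 2 := ⟨s - 2, by omega⟩
  show sq (bet k l (t + 2)) t * (Ws (sq (bet k l (t + 2))) (t + 1)).2 -
    (Ws (sq (bet k l (t + 2))) t).2 = _
  rw [EG_path1 l (t + 2) hs (t + 1) (by omega), EG_path1 l (t + 2) hs t (by omega),
    EG_bet1 l (t + 2) t (by omega) rfl]
  have e1 : t + 2 - 2 = t := by omega
  have e2 : t + 2 - 1 = t + 1 := by omega
  rw [e1, e2, ← map_mul, div_mul_cancel₀ _ (EG_q_ne l (t + 1) (by omega) (by omega)), sub_self]

theorem EG_path3 (l s : ℕ) (h2 : 2 ≤ s) (hs : s ≤ l) (j : ℕ) :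
    (Ws (sq (bet k l s)) (s + j)).2 = Polynomial.C (- EG_i k l (Ws (vr k l) (s - 1)).2 *
      EG_i k l (Ws (fun t => vr k l (s + t)) j).2) := by
  induction j using Nat.strong_induction_on with
  | _ j ih =>
    match j, ih with
    | 0, _ =>
      rw [Nat.add_zero, EG_path2 l s h2 hs]
      simp [Ws]
    | 1, _ =>
      obtain ⟨t, rfl⟩ : ∃ t, s = t + 1 := ⟨s - 1, by omega⟩
      have e2 : t + 1 - 1 = t := by omega
      show sq (bet k l (t + 1)) t * (Ws (sq (bet k l (t + 1))) (t + 1)).2 -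
        (Ws (sq (bet k l (t + 1))) t).2 = _
      rw [EG_path2 l (t + 1) h2 hs, EG_path1 l (t + 1) hs t (by omega), e2]
      simp [Ws]
    | (j + 2), ih =>
      have e1 := ih (j + 1) (by omega)
      have e2 := ih j (by omega)
      have e3 : s + (j + 1) = s + j + 1 := by omega
      rw [e3] at e1
      show sq (bet k l s) (s + j) * (Ws (sq (bet k l s)) (s + j + 1)).2 -
        (Ws (sq (bet k l s)) (s + j)).2 = _
      have e4 : (Ws (fun t => vr k l (s + t)) (j + 2)).2 =
        vr k l (s + j) * (Ws (fun t => vr k l (s + t)) (j + 1)).2 -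
          (Ws (fun t => vr k l (s + t)) j).2 := rfl
      rw [e1, e2, EG_bet3 l s (s + j) (by omega) (by omega), e4, (EG_i k l).map_sub,
        (EG_i k l).map_mul, ← Polynomial.C_mul, ← Polynomial.C_sub]
      congr 1
      ring

/-- the path of `1, 2, 2, 2, …` has second coordinates `1` -/
theorem EG_ones {K : Type*} [CommRing K] (c : ℕ → K) (h0 : c 0 = 1) (h1 : ∀ t, c (t + 1) = 2)
    (j : ℕ) : (Ws c (j + 1)).2 = 1 := by
  induction j using Nat.strong_induction_on with
  | _ j ih =>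
    match j, ih with
    | 0, _ => rfl
    | 1, _ =>
      show c 0 * (Ws c 1).2 - (Ws c 0).2 = 1
      rw [h0]
      simp [Ws]
    | (j + 2), ih =>
      have e1 := ih (j + 1) (by omega)
      have e2 := ih j (by omega)
      show c (j + 1) * (Ws c (j + 1 + 1)).2 - (Ws c (j + 1)).2 = 1
      rw [e1, e2, h1]
      ring

theorem EG_shift_ne (l s : ℕ) (j : ℕ) (h1 : 1 ≤ j) (hj : s + j ≤ l + 1) :
    (Ws (fun t => vr k l (s + t)) j).2 ≠ 0 := by
  intro h
  obtain ⟨j, rfl⟩ : ∃ i, j = i + 1 := ⟨j - 1, by omega⟩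
  set φ : MvPolynomial (Fin l) k →+* k :=
    MvPolynomial.eval (fun i : Fin l => if i.val = s then (1 : k) else 2) with hφ
  have h2 := Ws_map φ (fun t => vr k l (s + t)) (j + 1)
  have h3 : Ws (fun t => φ (vr k l (s + t))) (j + 1) =
      Ws (fun t : ℕ => if t = 0 then (1 : k) else 2) (j + 1) := by
    refine Ws_congr fun i hi => ?_
    have h4 : s + i < l := by omega
    unfold vr
    rw [dif_pos h4, hφ, MvPolynomial.eval_X]
    show (if s + i = s then (1 : k) else 2) = _
    by_cases h5 : i = 0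
    · rw [if_pos (by omega), if_pos h5]
    · rw [if_neg (by omega), if_neg h5]
  have h4 := EG_ones (fun t : ℕ => if t = 0 then (1 : k) else 2) (by simp) (fun t => by simp) j
  rw [← h3, h2] at h4
  have h5 : φ (Ws (fun t => vr k l (s + t)) (j + 1)).2 = 1 := h4
  rw [h, map_zero] at h5
  exact zero_ne_one h5

/-- `K(β) = C (- q (s-1) * K(X_s, …, X_(l-1)))` is a nonzero constant: in the path of `β`, the second coordinate is `q i` for
`i < s`, `0` for `i = s`, and for `i ≥ s` it is `- q (s-1)` times the continuant of `X_s, …` of length `i - s - 1`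
(both satisfy the same recursion, with values `0, - q (s-1)` at `i = s, s+1`); it is not zero since the continuant of
distinct variables is not zero. -/
theorem bet_K (l s : ℕ) (h2 : 2 ≤ s) (hs : s ≤ l) :
    ∃ c : FF k l, c ≠ 0 ∧ Kv (bet k l s) = Polynomial.C c := by
  refine ⟨- EG_i k l (Ws (vr k l) (s - 1)).2 *
      EG_i k l (Ws (fun t => vr k l (s + t)) (l + 1 - s)).2, ?_, ?_⟩
  · refine mul_ne_zero (neg_ne_zero.2 (EG_q_ne l (s - 1) (by omega) (by omega))) ?_
    intro h
    exact EG_shift_ne l s (l + 1 - s) (by omega) (by omega) (EG_i_inj l h)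
  · unfold Kv
    have e1 : l + 1 = s + (l + 1 - s) := by omega
    rw [← EG_path3 l s h2 hs (l + 1 - s), ← e1]

/-- clearing denominators: `P * q (s-1)^M` is a polynomial `Q` without `X_(s-2)` where
`X_(s-2) * q (s-1) = q (s-2)` -/
theorem EG_clear (l s : ℕ) (h2 : 2 ≤ s) (P : MvPolynomial (Fin l) k) :
    ∃ (M : ℕ) (Q : MvPolynomial (Fin l) k),
      (∀ γ γ' : Fin l → FF k l, (∀ i : Fin l, i.val + 2 ≠ s → γ i = γ' i) →
        MvPolynomial.aeval γ Q = MvPolynomial.aeval γ' Q) ∧
      (∀ γ : Fin l → FF k l, sq γ (s - 2) * (Ws (sq γ) (s - 1)).2 = (Ws (sq γ) (s - 2)).2 →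
        MvPolynomial.aeval γ P * (Ws (sq γ) (s - 1)).2 ^ M = MvPolynomial.aeval γ Q) ∧
      (∀ b : Fin l → k, sq b (s - 2) * (Ws (sq b) (s - 1)).2 = (Ws (sq b) (s - 2)).2 →
        MvPolynomial.eval b P * (Ws (sq b) (s - 1)).2 ^ M = MvPolynomial.eval b Q) := by
  have hin : ∀ (j : ℕ), j ≤ s - 1 → ∀ γ γ' : Fin l → FF k l,
      (∀ i : Fin l, i.val + 2 ≠ s → γ i = γ' i) →
      MvPolynomial.aeval γ (Ws (vr k l) j).2 = MvPolynomial.aeval γ' (Ws (vr k l) j).2 := by
    intro j hj γ γ' h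
    have h1 := Ws_sq_aeval (k := k) γ j
    have h3 := Ws_sq_aeval (k := k) γ' j
    have h4 : Ws (sq γ) j = Ws (sq γ') j := by
      refine Ws_congr fun i hi => ?_
      unfold sq
      by_cases hl : i < l
      · rw [dif_pos hl, dif_pos hl]
        exact h ⟨i, hl⟩ (by show i + 2 ≠ s; omega)
      · rw [dif_neg hl, dif_neg hl]
    rw [h1, h3] at h4
    exact congrArg Prod.snd h4
  have hq : ∀ (j : ℕ) (γ : Fin l → FF k l),
      MvPolynomial.aeval γ (Ws (vr k l) j).2 = (Ws (sq γ) j).2 := by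
    intro j γ
    rw [Ws_sq_aeval (k := k) γ j]
  induction P using MvPolynomial.induction_on with
  | C a =>
    refine ⟨0, MvPolynomial.C a, ?_, ?_, ?_⟩
    · intro γ γ' _
      rw [MvPolynomial.aeval_C, MvPolynomial.aeval_C]
    · intro γ _
      rw [pow_zero, mul_one]
    · intro b _
      rw [pow_zero, mul_one]
  | add P₁ P₂ ih₁ ih₂ =>
    obtain ⟨M₁, Q₁, a₁, b₁, c₁⟩ := ih₁
    obtain ⟨M₂, Q₂, a₂, b₂, c₂⟩ := ih₂
    refine ⟨M₁ + M₂, Q₁ * (Ws (vr k l) (s - 1)).2 ^ M₂ + Q₂ * (Ws (vr k l) (s - 1)).2 ^ M₁,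
      ?_, ?_, ?_⟩
    · intro γ γ' h
      rw [map_add, map_add, map_mul, map_mul, map_mul, map_mul, map_pow, map_pow, map_pow, map_pow,
        a₁ γ γ' h, a₂ γ γ' h, hin (s - 1) le_rfl γ γ' h]
    · intro γ h
      rw [map_add, map_add, map_mul, map_mul, map_pow, map_pow, hq, ← b₁ γ h, ← b₂ γ h, pow_add]
      ring
    · intro b h
      rw [map_add, map_add, map_mul, map_mul, map_pow, map_pow, EG_eval', ← c₁ b h, ← c₂ b h,
        pow_add]
      ring
  | mul_X P i ih =>
    obtain ⟨M, Q, a, b, c⟩ := ih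
    by_cases hi : i.val + 2 = s
    · refine ⟨M + 1, Q * (Ws (vr k l) (s - 2)).2, ?_, ?_, ?_⟩
      · intro γ γ' h
        rw [map_mul, map_mul, a γ γ' h, hin (s - 2) (by omega) γ γ' h]
      · intro γ h
        have h3 : sq γ (s - 2) = γ i := by
          unfold sq
          rw [dif_pos (by omega)]
          exact congrArg γ (Fin.ext (by show s - 2 = i.val; omega))
        have h4 := b γ h
        rw [h3] at h
        rw [map_mul, map_mul, MvPolynomial.aeval_X, hq, ← h4, ← h]
        ring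
      · intro b' h
        have h3 : sq b' (s - 2) = b' i := by
          unfold sq
          rw [dif_pos (by omega)]
          exact congrArg b' (Fin.ext (by show s - 2 = i.val; omega))
        have h4 := c b' h
        rw [h3] at h
        rw [map_mul, map_mul, MvPolynomial.eval_X, EG_eval', ← h4, ← h]
        ring
    · refine ⟨M, Q * MvPolynomial.X i, ?_, ?_, ?_⟩
      · intro γ γ' h
        rw [map_mul, map_mul, a γ γ' h, MvPolynomial.aeval_X, MvPolynomial.aeval_X, h i hi]
      · intro γ h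
        rw [map_mul, map_mul, MvPolynomial.aeval_X, ← b γ h]
        ring
      · intro b' h
        rw [map_mul, map_mul, MvPolynomial.eval_X, ← c b' h]
        ring

/-- if `P` vanishes at the generic point of `q s = 0` then `P` vanishes on `q s = 0` -/
theorem EG_special (l s : ℕ) (h2 : 2 ≤ s) (hs : s ≤ l) (P : MvPolynomial (Fin l) k)
    (hP : MvPolynomial.aeval (bet k l s) P = 0) (b : Fin l → k) (hb : (Ws (sq b) s).2 = 0) :
    MvPolynomial.eval b P = 0 := by
  obtain ⟨M, Q, hQ1, hQ2, hQ3⟩ := EG_clear l s h2 P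
  -- specialise `X` to `X_(s-1)`
  set π : Polynomial (FF k l) →ₐ[k] FF k l :=
    (Polynomial.aeval (EG_i k l (vr k l (s - 1)))).restrictScalars k with hπ
  have hπX : π Polynomial.X = EG_i k l (vr k l (s - 1)) := by
    rw [hπ]
    exact Polynomial.aeval_X _
  have hπC : ∀ a : FF k l, π (Polynomial.C a) = a := by
    intro a
    rw [hπ]
    exact Polynomial.aeval_C _ a
  have h1 : MvPolynomial.aeval (fun i => π (bet k l s i)) P = 0 := by
    have h3 : MvPolynomial.aeval (fun i => π (bet k l s i)) P =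
        π (MvPolynomial.aeval (bet k l s) P) := by
      have h4 := MvPolynomial.comp_aeval (R := k) (bet k l s) π
      exact (AlgHom.congr_fun h4 P).symm
    rw [h3, hP, map_zero]
  have hsqπ : ∀ i, sq (fun i => π (bet k l s i)) i = π (sq (bet k l s) i) := by
    intro i
    unfold sq
    by_cases hi : i < l
    · rw [dif_pos hi, dif_pos hi]
    · rw [dif_neg hi, dif_neg hi, map_zero]
  have hpath : ∀ i, (Ws (sq (fun i => π (bet k l s i))) i).2 = π (Ws (sq (bet k l s)) i).2 := by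
    intro i
    have h3 := Ws_map (π : Polynomial (FF k l) →+* FF k l) (sq (bet k l s)) i
    have h4 : sq (fun i => π (bet k l s i)) =
        fun i => (π : Polynomial (FF k l) →+* FF k l) (sq (bet k l s) i) := funext hsqπ
    rw [h4, h3]
    rfl
  have hrel : sq (fun i => π (bet k l s i)) (s - 2) *
      (Ws (sq (fun i => π (bet k l s i))) (s - 1)).2 =
      (Ws (sq (fun i => π (bet k l s i))) (s - 2)).2 := by
    rw [hpath, hpath, hsqπ, EG_bet1 l s (s - 2) (by omega) (by omega), EG_path1 l s hs (s - 1) (by omega),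
      EG_path1 l s hs (s - 2) (by omega), hπC, hπC, hπC,
      div_mul_cancel₀ _ (EG_q_ne l (s - 1) (by omega) (by omega))]
  have h5 := hQ2 _ hrel
  rw [h1, zero_mul] at h5
  have h6 : MvPolynomial.aeval (fun i => EG_i k l (MvPolynomial.X i)) Q = 0 := by
    rw [h5]
    refine hQ1 _ _ fun i hi => ?_
    by_cases h7 : i.val + 1 = s
    · have h8 : bet k l s i = Polynomial.X := by
        unfold bet
        rw [if_neg hi, if_pos h7]
      rw [h8, hπX]
      unfold vr
      rw [dif_pos (by omega)]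
      exact congrArg (fun z => EG_i k l (MvPolynomial.X z)) (Fin.ext (by show i.val = s - 1; omega))
    · have h8 : bet k l s i = Polynomial.C (EG_i k l (MvPolynomial.X i)) := by
        unfold bet
        rw [if_neg hi, if_neg h7]
        rfl
      rw [h8, hπC]
  have h7 : EG_i k l Q = 0 := by
    have h8 : MvPolynomial.aeval (fun i => EG_i k l (MvPolynomial.X i)) Q = EG_i k l Q := by
      have h9 : (MvPolynomial.aeval (fun i => EG_i k l (MvPolynomial.X i)) :
          MvPolynomial (Fin l) k →ₐ[k] FF k l) =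
          IsScalarTower.toAlgHom k (MvPolynomial (Fin l) k) (FF k l) := by
        refine MvPolynomial.algHom_ext fun i => ?_
        rw [MvPolynomial.aeval_X]
        rfl
      rw [h9]
      rfl
    rw [← h8]
    exact h6
  have h8 : Q = 0 := EG_i_inj l h7
  have hne : (Ws (sq b) (s - 1)).2 ≠ 0 := by
    intro h0
    have h9 := dt_Ws_succ (sq b) (s - 1)
    have e1 : s - 1 + 1 = s := by omega
    rw [e1] at h9
    unfold dt at h9
    rw [h0, hb] at h9
    simp at h9
  have hrelb : sq b (s - 2) * (Ws (sq b) (s - 1)).2 = (Ws (sq b) (s - 2)).2 := by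
    obtain ⟨t, rfl⟩ : ∃ t, s = t + 2 := ⟨s - 2, by omega⟩
    have h9 : sq b t * (Ws (sq b) (t + 1)).2 - (Ws (sq b) t).2 = 0 := hb
    have e1 : t + 2 - 2 = t := by omega
    have e2 : t + 2 - 1 = t + 1 := by omega
    rw [e1, e2]
    linear_combination h9
  have h9 := hQ3 b hrelb
  rw [h8, map_zero] at h9
  exact (mul_eq_zero.1 h9).resolve_right (pow_ne_zero _ hne)

theorem EG_val {l : ℕ} {t : ℕ} (ht : t < l + 2) : ((t : ℕ) : ZMod (l + 2)).val = t :=
  ZMod.val_natCast_of_lt ht

/-- flags `a`, `c` of `cfgB b` coincide -/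
theorem EG_ZS (b : Fin (m + n) → k) (hb : Kv b ≠ 0) (i j : ZMod (m + n + 2)) :
    ZS i j (Quotient.mk _ (cfgB b hb) : Conf k m n) ↔ det2 (pv b i) (pv b j) = 0 := by
  rw [ZS_mk, pt_cfgB, pt_cfgB, mk_eq_mk_iff_det2]

theorem EG_ZS0 (b : Fin (m + n) → k) (hb : Kv b ≠ 0) (s : ℕ) (hs : s ≤ m + n) :
    ZS 0 ((s : ℕ) : ZMod (m + n + 2)) (Quotient.mk _ (cfgB b hb) : Conf k m n) ↔
      (Ws (sq b) s).2 = 0 := by
  rw [EG_ZS]
  unfold pv
  rw [EG_val (by omega), ZMod.val_zero, det2_wv_zero]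

theorem EG_ZS13 (h4 : 4 ≤ m + n) (b : Fin (m + n) → k) (hb : Kv b ≠ 0) :
    ZS 1 3 (Quotient.mk _ (cfgB b hb) : Conf k m n) ↔ b ⟨1, by omega⟩ = 0 := by
  rw [EG_ZS]
  have e1 : (1 : ZMod (m + n + 2)) = ((1 : ℕ) : ZMod (m + n + 2)) := by push_cast; rfl
  have e3 : (3 : ZMod (m + n + 2)) = ((3 : ℕ) : ZMod (m + n + 2)) := by push_cast; rfl
  unfold pv
  rw [e1, e3, EG_val (by omega), EG_val (by omega)]
  have h := det2_wv_two b ⟨1, by omega⟩
  have h' : det2 (wv b 1) (wv b 3) = b ⟨1, by omega⟩ := h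
  rw [h']

/-- `cF t (t+2)` on `cfgB b` is `b t * b (t+1)` -/
theorem EG_cF (t : ℕ) (ht : t + 2 ≤ m + n) :
    EG_rp (cR ((t : ℕ) : ZMod (m + n + 2)) (((t : ℕ) : ZMod (m + n + 2)) + 2) : Reg k m n)
      (MvPolynomial.X ⟨t, by omega⟩ * MvPolynomial.X ⟨t + 1, by omega⟩) 0 := by
  intro b hb
  rw [pow_zero, mul_one, map_mul, MvPolynomial.eval_X, MvPolynomial.eval_X]
  show cF ((t : ℕ) : ZMod (m + n + 2)) (((t : ℕ) : ZMod (m + n + 2)) + 2)
    (Quotient.mk _ (cfgB b hb) : Conf k m n) = _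
  rw [(cF_mk (cfgB b hb : Cfg k m n) (pv b) (fun i => ⟨wv_ne_zero b _, pt_cfgB b hb i⟩) _ _).1]
  have e1 : ((t : ℕ) : ZMod (m + n + 2)) + 1 = ((t + 1 : ℕ) : ZMod (m + n + 2)) := by push_cast; ring
  have e2 : ((t : ℕ) : ZMod (m + n + 2)) + 2 = ((t + 2 : ℕ) : ZMod (m + n + 2)) := by push_cast; ring
  have e3 : ((t + 2 : ℕ) : ZMod (m + n + 2)) + 1 = ((t + 3 : ℕ) : ZMod (m + n + 2)) := by
    push_cast; ring
  unfold cFv pv
  rw [e1, e2, e3, EG_val (by omega), EG_val (by omega), EG_val (by omega), EG_val (by omega)]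
  have h1 := det2_wv_two b ⟨t, by omega⟩
  have h2 := det2_wv_two b ⟨t + 1, by omega⟩
  have h3 := det2_wv_succ b t
  have h4 := det2_wv_succ b (t + 2)
  have h1' : det2 (wv b t) (wv b (t + 2)) = b ⟨t, by omega⟩ := h1
  have h2' : det2 (wv b (t + 1)) (wv b (t + 3)) = b ⟨t + 1, by omega⟩ := h2
  have h4' : det2 (wv b (t + 2)) (wv b (t + 3)) = 1 := h4
  rw [h1', h2', h3, h4', one_mul, div_one]

/-- `X_1` does not divide `K` -/
theorem EG_X1 (l : ℕ) (h4 : 4 ≤ l) :
    ¬ (MvPolynomial.X ⟨1, by omega⟩ : MvPolynomial (Fin l) k) ∣ (Ws (vr k l) (l + 1)).2 := by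
  rintro ⟨R, hR⟩
  set b : Fin l → k := fun i => if i.val = 0 then 1 else if i.val ≤ 2 then 0 else 2 with hb
  have h1 := congrArg (MvPolynomial.eval b) hR
  have h0 : b ⟨1, by omega⟩ = 0 := by simp [hb]
  rw [map_mul, MvPolynomial.eval_X, h0, zero_mul, EG_eval'] at h1
  have h3 : ∀ j, j + 3 ≤ l + 1 → (Ws (sq b) (j + 3)).2 = -1 := by
    intro j
    induction j using Nat.strong_induction_on with
    | _ j ih =>
      match j, ih with
      | 0, _ =>
        intro _
        have s0 : sq b 0 = 1 := by unfold sq; rw [dif_pos (by omega)]; simp [hb]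
        have s1 : sq b 1 = 0 := by unfold sq; rw [dif_pos (by omega)]; simp [hb]
        simp [Ws, s0, s1]
      | 1, _ =>
        intro _
        have s0 : sq b 0 = 1 := by unfold sq; rw [dif_pos (by omega)]; simp [hb]
        have s1 : sq b 1 = 0 := by unfold sq; rw [dif_pos (by omega)]; simp [hb]
        have s2 : sq b 2 = 0 := by unfold sq; rw [dif_pos (by omega)]; simp [hb]
        simp [Ws, s0, s1, s2]
      | (j + 2), ih =>
        intro hj
        have e1 := ih (j + 1) (by omega) (by omega)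
        have e2 := ih j (by omega) (by omega)
        have s3 : sq b (j + 3) = 2 := by
          unfold sq
          rw [dif_pos (by omega)]
          show (if j + 3 = 0 then (1 : k) else if j + 3 ≤ 2 then 0 else 2) = 2
          rw [if_neg (by omega), if_neg (by omega)]
        show sq b (j + 3) * (Ws (sq b) (j + 1 + 3)).2 - (Ws (sq b) (j + 3)).2 = -1
        rw [e1, e2, s3]
        ring
  have h5 := h3 (l - 2) (by omega)
  have e1 : l - 2 + 3 = l + 1 := by omega
  rw [e1, h1] at h5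
  exact one_ne_zero (neg_eq_zero.1 h5.symm)

/-- The homomorphism of `(0, s)`.  `g = ε` for `β = bet`.  Kernel.  If `f` vanishes where the flags `0, s` coincide, then
`P(b) = 0` for all `b` with `K(b) ≠ 0` and `q s (b) = 0`; `q s` is irreducible and does not divide `K`
(as in `vanish_dvd0`), so `q s ∣ P` (`dvd_of_vanish`), and `aeval β (q s) = 0`, so `g f = 0`.  Conversely if `g f = 0` then
`aeval β P = 0`; clearing the powers of `q (s-1)`: `P` is a polynomial in `X_(s-2)` over the other variables vanishing at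
`q (s-2) / q (s-1)`; hence `P(b) * q(s-1)(b)^M = 0`, so `P(b) = 0`, whenever `q s (b) = 0` (then
`b (s-2) = q (s-2)(b) / q (s-1)(b)`, `q (s-1)(b) ≠ 0`: specialise `X_i ↦ b i` (`i ≠ s-2, s-1`), `X ↦ b (s-1)`; e.g. there is a
polynomial `Q` and `M` with `aeval β P * q(s-1)^M = Q` and compare values).
Not constant: for `s ≤ l - 1` the function `cF (s-1) (s+1)` has the value `b (s-1) * b s` on `cfgB b`, with image `X * X_s`;
for `s = l`, `cF (l-2) l` has the value `b (l-2) * b (l-1)`, with image `(q (l-2) / q (l-1)) * X`, `q (l-2) ≠ 0`. -/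
theorem hgam0 [IsAlgClosed k] [CharZero k] (h4 : 4 ≤ m + n) (s : ℕ) (h2 : 2 ≤ s) (hs : s ≤ m + n) :
    ∃ g : Reg k m n →ₐ[k] Polynomial (FF k (m + n)),
      (∀ f, g f = 0 ↔ Van 0 ((s : ℕ) : ZMod (m + n + 2)) f) ∧ (∃ f, (g f).natDegree ≠ 0) ∧
      (s = 2 → ∀ f, Van 1 3 f → (g f).natDegree = 0 → g f = 0) := by
  obtain ⟨c, hc, hK⟩ := bet_K (k := k) (m + n) s h2 hs
  have hunit : IsUnit (Kv (bet k (m + n) s)) := by
    rw [hK]
    exact Polynomial.isUnit_C.2 (isUnit_iff_ne_zero.2 hc)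
  obtain ⟨g, hg⟩ := exists_ev (k := k) (m := m) (n := n) (bet k (m + n) s) hunit
  have hzero : ∀ (f : Reg k m n) (P : MvPolynomial (Fin (m + n)) k) (e : ℕ), EG_rp f P e →
      (g f = 0 ↔ MvPolynomial.aeval (bet k (m + n) s) P = 0) := by
    intro f P e h
    have h1 := hg f P e h
    constructor
    · intro h3
      rw [← h1, h3, zero_mul]
    · intro h3
      rw [h3] at h1
      exact (mul_eq_zero.1 h1).resolve_right (pow_ne_zero _ hunit.ne_zero)
  refine ⟨g, ?_, ?_, ?_⟩
  · intro f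
    obtain ⟨P, e, hP⟩ := reg_poly f.1 f.2
    rw [hzero f P e hP]
    constructor
    · intro h x hx
      obtain ⟨p, rfl⟩ := Quotient.exists_rep x
      obtain ⟨b, hb, hp⟩ := cfgB_surj p
      have hpe : (Quotient.mk _ p : Conf k m n) = Quotient.mk _ (cfgB b hb) := Quotient.sound hp
      rw [hpe] at hx ⊢
      have h3 := EG_special (m + n) s h2 hs P h b ((EG_ZS0 b hb s hs).1 hx)
      have h4 := hP b hb
      rw [h3] at h4
      exact (mul_eq_zero.1 h4).resolve_right (pow_ne_zero _ hb)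
    · intro h
      have hdvd : (Ws (vr k (m + n)) s).2 ∣ P := by
        refine dvd_of_vanish P _ (q_irred (m + n) s h2 (by omega)) ?_ ?_
        · rintro ⟨R, hR⟩
          have h3 := congrArg (MvPolynomial.aeval (bet k (m + n) s)) hR
          have h5 : MvPolynomial.aeval (bet k (m + n) s) (Ws (vr k (m + n)) s).2 = 0 := by
            have h6 := Ws_sq_aeval (k := k) (bet k (m + n) s) s
            rw [← EG_path2 (k := k) (m + n) s h2 hs, h6]
          rw [map_mul, h5, zero_mul, EG_eval] at h3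
          exact hunit.ne_zero h3
        · intro b hb hx
          have h3 := h _ ((EG_ZS0 b hb s hs).2 (by rw [← EG_eval']; exact hx))
          have h5 := hP b hb
          rw [h3, zero_mul] at h5
          exact h5.symm
      obtain ⟨R, rfl⟩ := hdvd
      have h5 : MvPolynomial.aeval (bet k (m + n) s) (Ws (vr k (m + n)) s).2 = 0 := by
        have h6 := Ws_sq_aeval (k := k) (bet k (m + n) s) s
        rw [← EG_path2 (k := k) (m + n) s h2 hs, h6]
      rw [map_mul, h5, zero_mul]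
  · by_cases hl : s + 1 ≤ m + n
    · obtain ⟨t, rfl⟩ : ∃ t, s = t + 1 := ⟨s - 1, by omega⟩
      refine ⟨cR ((t : ℕ) : ZMod (m + n + 2)) (((t : ℕ) : ZMod (m + n + 2)) + 2), ?_⟩
      have h1 := hg _ _ _ (EG_cF (k := k) (m := m) (n := n) t (by omega))
      have e1 : bet k (m + n) (t + 1) ⟨t, by omega⟩ = Polynomial.X := by
        unfold bet
        rw [if_neg (by show ¬ t + 2 = t + 1; omega), if_pos rfl]
      have e2 : bet k (m + n) (t + 1) ⟨t + 1, by omega⟩ =
          Polynomial.C (EG_i k (m + n) (MvPolynomial.X ⟨t + 1, by omega⟩)) := by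
        unfold bet
        rw [if_neg (by show ¬ t + 1 + 2 = t + 1; omega), if_neg (by show ¬ t + 1 + 1 = t + 1; omega)]
        rfl
      rw [pow_zero, mul_one, map_mul, MvPolynomial.aeval_X, MvPolynomial.aeval_X, e1, e2] at h1
      rw [h1, mul_comm, Polynomial.natDegree_C_mul_X]
      · exact one_ne_zero
      · intro h0
        exact MvPolynomial.X_ne_zero _ (EG_i_inj _ h0)
    · have hsl : s = m + n := by omega
      obtain ⟨t, ht⟩ : ∃ t, s = t + 2 := ⟨s - 2, by omega⟩
      refine ⟨cR ((t : ℕ) : ZMod (m + n + 2)) (((t : ℕ) : ZMod (m + n + 2)) + 2), ?_⟩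
      have h1 := hg _ _ _ (EG_cF (k := k) (m := m) (n := n) t (by omega))
      have e1 : bet k (m + n) s ⟨t, by omega⟩ =
          Polynomial.C (EG_i k (m + n) (Ws (vr k (m + n)) (s - 2)).2 /
            EG_i k (m + n) (Ws (vr k (m + n)) (s - 1)).2) := by
        unfold bet
        rw [if_pos ht.symm]
        rfl
      have e2 : bet k (m + n) s ⟨t + 1, by omega⟩ = Polynomial.X := by
        unfold bet
        rw [if_neg (by show ¬ t + 1 + 2 = s; omega), if_pos (by show t + 1 + 1 = s; omega)]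
      rw [pow_zero, mul_one, map_mul, MvPolynomial.aeval_X, MvPolynomial.aeval_X, e1, e2] at h1
      rw [h1, Polynomial.natDegree_C_mul_X]
      · exact one_ne_zero
      · exact div_ne_zero (EG_q_ne _ (s - 2) (by omega) (by omega))
          (EG_q_ne _ (s - 1) (by omega) (by omega))
  · rintro rfl f hf hdeg
    obtain ⟨P, e, hP⟩ := reg_poly f.1 f.2
    have hdvd : (MvPolynomial.X ⟨1, by omega⟩ : MvPolynomial (Fin (m + n)) k) ∣ P := by
      refine dvd_of_vanish P _ MvPolynomial.X_prime.irreducible (EG_X1 (m + n) h4) ?_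
      intro b hb hx
      rw [MvPolynomial.eval_X] at hx
      have h3 := hf _ ((EG_ZS13 h4 b hb).2 hx)
      have h5 := hP b hb
      rw [h3, zero_mul] at h5
      exact h5.symm
    obtain ⟨R, rfl⟩ := hdvd
    have h1 := hg f _ e hP
    have e1 : bet k (m + n) 2 ⟨1, by omega⟩ = Polynomial.X := by
      unfold bet
      rw [if_neg (by show ¬ 1 + 2 = 2; omega), if_pos rfl]
    rw [map_mul, MvPolynomial.aeval_X, e1, hK, Polynomial.eq_C_of_natDegree_eq_zero hdeg] at h1
    have h3 := congrArg (Polynomial.eval 0) h1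
    rw [← Polynomial.C_pow, ← Polynomial.C_mul, Polynomial.eval_C, Polynomial.eval_mul,
      Polynomial.eval_X, zero_mul] at h3
    have h5 := (mul_eq_zero.1 h3).resolve_right (pow_ne_zero _ hc)
    rw [Polynomial.eq_C_of_natDegree_eq_zero hdeg, h5, Polynomial.C_0]

/-- the endomorphism of `Reg` defined by a rotation -/
noncomputable def EG_rot (c : ZMod (m + n + 2)) : Reg k m n →ₐ[k] Reg k m n where
  toFun f := ⟨fun P => f.1 (rotC c P), rotC_reg c f.1 f.2⟩
  map_one' := rfl
  map_mul' _ _ := rfl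
  map_zero' := rfl
  map_add' _ _ := rfl
  commutes' _ := rfl

theorem EG_rotC (c : ZMod (m + n + 2)) (P : Conf k m n) : rotC c (rotC (-c) P) = P := by
  obtain ⟨p, rfl⟩ := Quotient.exists_rep P
  obtain ⟨q, hq1, hq2⟩ := rotC_mk (-c) p
  obtain ⟨r, hr1, hr2⟩ := rotC_mk c q
  rw [hq1, hr1]
  refine congrArg (Quotient.mk _) (pt_injective fun i => ?_)
  rw [hr2, hq2]
  exact congrArg (pt p) (by ring)

theorem EG_Van (c i j : ZMod (m + n + 2)) (f : Reg k m n) :
    Van i j f ↔ Van (i - c) (j - c) (EG_rot (-c) f) := by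
  constructor
  · intro h P hP
    refine h _ ((ZS_rotC (-c) i j P).2 ?_)
    rw [← sub_eq_add_neg, ← sub_eq_add_neg]
    exact hP
  · intro h P hP
    have h1 := h (rotC c P) ?_
    · have h3 : f.1 (rotC (-c) (rotC c P)) = 0 := h1
      have h5 := EG_rotC (-c) P
      rw [neg_neg] at h5
      rw [h5] at h3
      exact h3
    · rw [ZS_rotC, sub_add_cancel, sub_add_cancel]
      exact hP

theorem EG_rot_surj (c : ZMod (m + n + 2)) (f : Reg k m n) :
    EG_rot (-c) (EG_rot c f) = f := by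
  refine Subtype.ext (funext fun P => ?_)
  show f.1 (rotC c (rotC (-c) P)) = f.1 P
  rw [EG_rotC]

/-- General diagonal `(i, j)`: compose with the automorphism of `Reg` given by `rotC` (`rotC_reg`, `ZS_rotC`),
`s = (j - i).val`, `2 ≤ s ≤ m + n`. -/
theorem hgam [IsAlgClosed k] [CharZero k] (h4 : 4 ≤ m + n) (i j : ZMod (m + n + 2)) (h0 : j ≠ i)
    (h1 : j ≠ i + 1) (h2 : i ≠ j + 1) :
    ∃ g : Reg k m n →ₐ[k] Polynomial (FF k (m + n)),
      (∀ f, g f = 0 ↔ Van i j f) ∧ ∃ f, (g f).natDegree ≠ 0 := by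
  have hv := ZMod.val_lt (j - i)
  have hcast : (((j - i).val : ℕ) : ZMod (m + n + 2)) = j - i := ZMod.natCast_zmod_val _
  have hs2 : 2 ≤ (j - i).val := by
    by_contra hcon
    have h3 : (j - i).val = 0 ∨ (j - i).val = 1 := by omega
    rcases h3 with h3 | h3
    · rw [h3, Nat.cast_zero] at hcast
      exact h0 (sub_eq_zero.1 hcast.symm)
    · rw [h3, Nat.cast_one] at hcast
      exact h1 (by linear_combination -hcast)
  have hsl : (j - i).val ≤ m + n := by
    by_contra hcon
    have h3 : (j - i).val = m + n + 1 := by omega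
    rw [h3] at hcast
    have h5 := ZMod.natCast_self (m + n + 2)
    push_cast at h5 hcast
    exact h2 (by linear_combination hcast - h5)
  obtain ⟨g, hg1, ⟨f0, hf0⟩, _⟩ := hgam0 (k := k) h4 (j - i).val hs2 hsl
  refine ⟨g.comp (EG_rot (-i)), fun f => ?_, EG_rot i f0, ?_⟩
  · rw [AlgHom.comp_apply, hg1, hcast, EG_Van i i j f, sub_self]
  · rw [AlgHom.comp_apply, EG_rot_surj]
    exact hf0

theorem hgam_short [IsAlgClosed k] [CharZero k] (h4 : 4 ≤ m + n) (i : ZMod (m + n + 2)) :
    ∃ g : Reg k m n →ₐ[k] Polynomial (FF k (m + n)),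
      (∀ f, g f = 0 ↔ Van i (i + 2) f) ∧ ∀ f, Van (i + 1) (i + 3) f → (g f).natDegree = 0 → g f = 0 := by
  obtain ⟨g, hg1, _, hg3⟩ := hgam0 (k := k) h4 2 le_rfl (by omega)
  have e2 : i + 2 - i = ((2 : ℕ) : ZMod (m + n + 2)) := by push_cast; ring
  have e1 : i + 1 - i = 1 := by ring
  have e3 : i + 3 - i = 3 := by ring
  refine ⟨g.comp (EG_rot (-i)), fun f => ?_, fun f hf hdeg => ?_⟩
  · rw [AlgHom.comp_apply, hg1, EG_Van i i (i + 2) f, sub_self, e2]
  · rw [AlgHom.comp_apply] at hdeg ⊢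
    rw [EG_Van i (i + 1) (i + 3) f, e1, e3] at hf
    exact hg3 rfl _ hf hdeg

end Pool.Agent.Lib.MP_d4c67c_gt
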