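import Pool.Agent.Lib.MP_d4c67c_gt.E.F

/-!
# JOB EH: the degree lemma for homomorphisms `Reg → D[X]` (`m + n` even)

(You may use `E/A.lean`, …, `E/F.lean`, which are other jobs.)
-/

open scoped LinearAlgebra.Projectivization

namespace Pool.Agent.Lib.MP_d4c67c_gt

open Polynomial

variable {k : Type*} [Field k] {m n : ℕ}

/-- `(i, j)` is a diagonal: different and not adjacent -/
def Dg (i j : ZMod (m + n + 2)) : Prop := j ≠ i ∧ j ≠ i + 1 ∧ i ≠ j + 1

private theorem EH_cast_ne (c : ℕ) (h0 : 0 < c) (hc : c < m + n + 2) : ((c : ℕ) : ZMod (m + n + 2)) ≠ 0 := by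
  intro h
  have h1 := ZMod.val_natCast_of_lt hc
  rw [h, ZMod.val_zero] at h1
  omega

private theorem EH_van_mul_left {i j : ZMod (m + n + 2)} {f : Reg k m n} (h : Van i j f) (g : Reg k m n) :
    Van i j (f * g) := by
  intro P hP
  have h1 : (f * g).1 P = f.1 P * g.1 P := rfl
  rw [h1, h P hP, zero_mul]

private theorem EH_van_mul_right {i j : ZMod (m + n + 2)} {f : Reg k m n} (h : Van i j f) (g : Reg k m n) :
    Van i j (g * f) := by
  intro P hP
  have h1 : (g * f).1 P = g.1 P * f.1 P := rfl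
  rw [h1, h P hP, mul_zero]

private theorem EH_cR_eq (i j : ZMod (m + n + 2)) : (cR i j : Reg k m n) = 1 + gR i j := by
  refine Subtype.ext (funext fun P => ?_)
  exact cF_eq i j P

private theorem EH_prod_apply {ι : Type*} (s : Finset ι) (f : ι → Reg k m n) (P : Conf k m n) :
    (∏ i ∈ s, f i).1 P = ∏ i ∈ s, (f i).1 P := by
  classical
  induction s using Finset.induction_on with
  | empty => rfl
  | insert a s ha ih =>
    rw [Finset.prod_insert ha, Finset.prod_insert ha, ← ih]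
    rfl

private theorem EH_sum_apply {ι : Type*} (s : Finset ι) (f : ι → Reg k m n) (P : Conf k m n) :
    (∑ i ∈ s, f i).1 P = ∑ i ∈ s, (f i).1 P := by
  classical
  induction s using Finset.induction_on with
  | empty => rfl
  | insert a s ha ih =>
    rw [Finset.sum_insert ha, Finset.sum_insert ha, ← ih]
    rfl

/-- telescoping -/
private theorem EH_tel {K : Type*} [Field K] (a c d : ℕ → K) (e : K) (S : ℕ) :
    (∏ s ∈ Finset.range S, a s * c (s + 1) / (e * d s)) * (a S * c 0) =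
      (∏ s ∈ Finset.range S, a (s + 1) * c s / (e * d s)) * (a 0 * c S) := by
  induction S with
  | zero => simp
  | succ S ih =>
    rw [Finset.prod_range_succ, Finset.prod_range_succ]
    calc (∏ s ∈ Finset.range S, a s * c (s + 1) / (e * d s)) * (a S * c (S + 1) / (e * d S)) *
          (a (S + 1) * c 0) = ((∏ s ∈ Finset.range S, a s * c (s + 1) / (e * d s)) * (a S * c 0)) *
          (c (S + 1) / (e * d S)) * a (S + 1) := by ring
      _ = _ := by rw [ih]; ring

private theorem EH_row {K : Type*} [Field K] (v : ZMod (m + n + 2) → Fin 2 → K)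
    (hv : ∀ j, det2 (v j) (v (j + 1)) ≠ 0) (h2 : 2 ≤ m + n) (i : ZMod (m + n + 2)) :
    ∏ s ∈ Finset.range (m + n - 1), cFv v i (i + 2 + ((s : ℕ) : ZMod (m + n + 2))) =
      cFv v (i - 1) (i + 1) *
        ∏ s ∈ Finset.range (m + n - 1), cGv v i (i + 2 + ((s : ℕ) : ZMod (m + n + 2))) := by
  obtain ⟨a, ha⟩ : ∃ a : ℕ → K, ∀ s, a s = det2 (v i) (v (i + 2 + ((s : ℕ) : ZMod (m + n + 2)))) :=
    ⟨_, fun s => rfl⟩
  obtain ⟨c, hc⟩ : ∃ c : ℕ → K, ∀ s, c s = det2 (v (i + 1)) (v (i + 2 + ((s : ℕ) : ZMod (m + n + 2)))) :=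
    ⟨_, fun s => rfl⟩
  obtain ⟨d, hd⟩ : ∃ d : ℕ → K, ∀ s, d s = det2 (v (i + 2 + ((s : ℕ) : ZMod (m + n + 2))))
      (v (i + 2 + ((s : ℕ) : ZMod (m + n + 2)) + 1)) := ⟨_, fun s => rfl⟩
  have hs : ∀ s : ℕ, i + 2 + ((s : ℕ) : ZMod (m + n + 2)) + 1 =
      i + 2 + (((s + 1 : ℕ)) : ZMod (m + n + 2)) := by
    intro s
    push_cast
    ring
  have h1 : ∀ s : ℕ, cFv v i (i + 2 + ((s : ℕ) : ZMod (m + n + 2))) =
      a s * c (s + 1) / (det2 (v i) (v (i + 1)) * d s) := by
    intro s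
    unfold cFv
    rw [ha, hc, hd, hs]
  have h3 : ∀ s : ℕ, cGv v i (i + 2 + ((s : ℕ) : ZMod (m + n + 2))) =
      a (s + 1) * c s / (det2 (v i) (v (i + 1)) * d s) := by
    intro s
    unfold cGv
    rw [ha, hc, hd, hs]
  have hlast : i + 2 + (((m + n - 1 : ℕ)) : ZMod (m + n + 2)) = i - 1 := by
    have h4 := ZMod.natCast_self (m + n + 2)
    have h5 : m + n - 1 + 3 = m + n + 2 := by omega
    rw [← h5] at h4
    push_cast at h4
    have h6 : (((m + n - 1 + 3 : ℕ)) : ZMod (m + n + 2)) = 0 := by rw [h5]; exact ZMod.natCast_self _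
    push_cast at h6
    linear_combination h6
  have haS : a (m + n - 1) = - det2 (v (i - 1)) (v i) := by
    rw [ha, hlast, CfC_det2_swap]
  have hcS : c (m + n - 1) = - det2 (v (i - 1)) (v (i + 1)) := by
    rw [hc, hlast, CfC_det2_swap]
  have hc0 : c 0 = det2 (v (i + 1)) (v (i + 2)) := by
    rw [hc, Nat.cast_zero, add_zero]
  have ha0 : a 0 = det2 (v i) (v (i + 2)) := by
    rw [ha, Nat.cast_zero, add_zero]
  have hx : det2 (v (i - 1)) (v i) ≠ 0 := by
    have h4 := hv (i - 1)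
    rwa [sub_add_cancel] at h4
  have e12 : i + 1 + 1 = i + 2 := by ring
  have hy : det2 (v (i + 1)) (v (i + 2)) ≠ 0 := by
    have h4 := hv (i + 1)
    rwa [e12] at h4
  have h4 := EH_tel a c d (det2 (v i) (v (i + 1))) (m + n - 1)
  rw [haS, hcS, hc0, ha0] at h4
  rw [Finset.prod_congr rfl fun s _ => h1 s, Finset.prod_congr rfl fun s _ => h3 s]
  have h5 : cFv v (i - 1) (i + 1) = det2 (v (i - 1)) (v (i + 1)) * det2 (v i) (v (i + 2)) /
      (det2 (v (i - 1)) (v i) * det2 (v (i + 1)) (v (i + 2))) := by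
    unfold cFv
    rw [sub_add_cancel, e12]
  rw [h5, div_mul_eq_mul_div, eq_div_iff (mul_ne_zero hx hy)]
  linear_combination - h4

private theorem EH_sq {K : Type*} [Field K] {l : ℕ} (b : Fin l → K) (r : ℕ) (hr : r < l) :
    sq b r = b ⟨r, hr⟩ := by
  unfold sq
  rw [dif_pos hr]

private theorem EH_cF_val (b : Fin (m + n) → k) (hb : Kv b ≠ 0) (r : ℕ) (hr : r + 1 < m + n) :
    cF ((r : ℕ) : ZMod (m + n + 2)) (((r : ℕ) : ZMod (m + n + 2)) + 2)
      (Quotient.mk _ (cfgB b hb) : Conf k m n) = sq b r * sq b (r + 1) := by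
  rw [(cF_mk (cfgB b hb) (pv b) (fun i => ⟨wv_ne_zero b _, pt_cfgB b hb i⟩) _ _).1]
  have hval : ∀ i : ℕ, i < m + n + 2 → pv b ((i : ℕ) : ZMod (m + n + 2)) = wv b i := by
    intro i hi
    unfold pv
    rw [ZMod.val_natCast_of_lt hi]
  have c1 : ((r : ℕ) : ZMod (m + n + 2)) + 1 = (((r + 1 : ℕ)) : ZMod (m + n + 2)) := by push_cast; ring
  have c2 : ((r : ℕ) : ZMod (m + n + 2)) + 2 = (((r + 2 : ℕ)) : ZMod (m + n + 2)) := by push_cast; ring
  have c3 : (((r + 2 : ℕ)) : ZMod (m + n + 2)) + 1 = (((r + 3 : ℕ)) : ZMod (m + n + 2)) := by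
    push_cast; ring
  unfold cFv
  rw [c1, c2, c3, hval r (by omega), hval (r + 1) (by omega), hval (r + 2) (by omega),
    hval (r + 3) (by omega), det2_wv_succ b r, det2_wv_succ b (r + 2), EH_sq b r (by omega),
    EH_sq b (r + 1) hr, ← det2_wv_two b ⟨r, by omega⟩, ← det2_wv_two b ⟨r + 1, hr⟩]
  simp

private theorem EH_scl_mul {K : Type*} [Field K] {l : ℕ} (c : K) (hc : c ≠ 0) (b : Fin l → K) (s : ℕ)
    (hs : s + 1 < l) : sq (scl c b) s * sq (scl c b) (s + 1) = sq b s * sq b (s + 1) := by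
  rw [EH_sq _ s (by omega), EH_sq _ (s + 1) hs, EH_sq _ s (by omega), EH_sq _ (s + 1) hs]
  unfold scl
  have p2 : Even (s + 1) ↔ ¬ Even s := Nat.even_add_one
  simp only [p2]
  by_cases h : Even s
  · rw [if_pos h, if_neg (not_not.2 h)]
    field_simp
  · rw [if_neg h, if_pos h]
    field_simp

private theorem EH_scl_ne {K : Type*} [Field K] {l : ℕ} {c : K} (hc : c ≠ 0) (b : Fin l → K)
    (hb : ∀ i, b i ≠ 0) (s : ℕ) (hs : s < l) : sq (scl c b) s ≠ 0 := by
  rw [EH_sq _ s hs]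
  unfold scl
  split_ifs
  · exact mul_ne_zero hc (hb _)
  · exact mul_ne_zero (inv_ne_zero hc) (hb _)

private theorem EH_UU {R : Type*} [CommRing R] (w : ℕ → R) {S : ℕ} {U : ℕ → R} {W : R}
    (hU : ∀ s, U s = ∏ r ∈ Finset.range S, w r ^ (if r < s then (if Even (s - 1 - r) then 2 else 0) else 1))
    (hW : W = ∏ r ∈ Finset.range S, w r) {s : ℕ} (hs : s < S) : U s * U (s + 1) = W ^ 2 * w s := by
  have h1 : w s = ∏ r ∈ Finset.range S, w r ^ (if r = s then 1 else 0) := by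
    rw [Finset.prod_eq_single s]
    · rw [if_pos rfl, pow_one]
    · intro r _ hr
      rw [if_neg hr, pow_zero]
    · intro h
      exact absurd (Finset.mem_range.2 hs) h
  have h2 : W ^ 2 * w s = ∏ r ∈ Finset.range S, (w r ^ 2 * w r ^ (if r = s then 1 else 0)) := by
    rw [Finset.prod_mul_distrib, ← h1, Finset.prod_pow, hW]
  rw [h2, hU, hU, ← Finset.prod_mul_distrib]
  refine Finset.prod_congr rfl fun r _ => ?_
  rw [← pow_add, ← pow_add]
  congr 1
  rcases lt_trichotomy r s with h | h | h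
  · have a1 : r < s + 1 := by omega
    have a2 : r ≠ s := by omega
    have h3 : s + 1 - 1 - r = (s - 1 - r) + 1 := by omega
    have p2 : Even (s - 1 - r + 1) ↔ ¬ Even (s - 1 - r) := Nat.even_add_one
    rw [if_pos h, if_pos a1, if_neg a2, h3]
    simp only [p2]
    by_cases h4 : Even (s - 1 - r)
    · rw [if_pos h4, if_neg (not_not.2 h4)]
    · rw [if_neg h4, if_pos h4]
  · subst h
    have a1 : r < r + 1 := by omega
    have h3 : r + 1 - 1 - r = 0 := by omega
    rw [if_neg (lt_irrefl r), if_pos a1, if_pos rfl, h3, if_pos Even.zero]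
  · have a0 : ¬ r < s := by omega
    have a1 : ¬ r < s + 1 := by omega
    have a2 : r ≠ s := by omega
    rw [if_neg a0, if_neg a1, if_neg a2]

/-- elements of `Reg` agreeing at all `cfgB b` with nonzero entries are equal -/
private theorem EH_eq_of_torus [CharZero k] (_h : 1 ≤ m + n) {f g : Reg k m n}
    (h : ∀ (b : Fin (m + n) → k) (hb : Kv b ≠ 0), (∀ i, b i ≠ 0) →
      f.1 (Quotient.mk _ (cfgB b hb)) = g.1 (Quotient.mk _ (cfgB b hb))) : f = g := by
  obtain ⟨R, e, hR⟩ := reg_poly (f - g).1 (f - g).2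
  have h1 : R * ∏ i : Fin (m + n), MvPolynomial.X i = 0 := by
    refine poly_zero_of_U _ fun b hb => ?_
    rw [map_mul, map_prod, ← hR b hb]
    by_cases hb0 : ∀ i, b i ≠ 0
    · have h2 : (f - g).1 (Quotient.mk _ (cfgB b hb)) =
          f.1 (Quotient.mk _ (cfgB b hb)) - g.1 (Quotient.mk _ (cfgB b hb)) := rfl
      rw [h2, h b hb hb0, sub_self, zero_mul, zero_mul]
    · push Not at hb0
      obtain ⟨i, hi⟩ := hb0
      have h2 : ∏ i : Fin (m + n), MvPolynomial.eval b (MvPolynomial.X i) = 0 :=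
        Finset.prod_eq_zero (Finset.mem_univ i) (by rw [MvPolynomial.eval_X, hi])
      rw [h2, mul_zero]
  have h2 : R = 0 := by
    rcases mul_eq_zero.1 h1 with h3 | h3
    · exact h3
    · exfalso
      obtain ⟨i, _, hi⟩ := Finset.prod_eq_zero_iff.1 h3
      exact MvPolynomial.X_ne_zero i hi
  refine Reg_ext fun b hb => ?_
  have h3 := hR b hb
  rw [h2, map_zero] at h3
  have h4 : (f - g).1 (Quotient.mk _ (cfgB b hb)) = 0 := (mul_eq_zero.1 h3).resolve_right (pow_ne_zero _ hb)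
  exact sub_eq_zero.1 h4

/-- If `g (cR i j) = 0` then `g` kills all functions vanishing on one of the two loci.  Otherwise take `f1, f2` with
`g f1, g f2 ≠ 0`; `f1 * f2` vanishes on both, so it is `cR i j * q` (`vanish_dvd`), contradiction (domain). -/
theorem kill_c [IsAlgClosed k] [CharZero k] (he : Even (m + n)) {D : Type*} [CommRing D] [IsDomain D]
    [Algebra k D] (g : Reg k m n →ₐ[k] D[X]) (i j : ZMod (m + n + 2)) (hij : i ≠ j)
    (h : g (cR i j) = 0) :
    (∀ f, Van i j f → g f = 0) ∨ (∀ f, Van (i + 1) (j + 1) f → g f = 0) := by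
  by_contra hn
  push Not at hn
  obtain ⟨⟨f1, h1, h1'⟩, ⟨f2, h2, h2'⟩⟩ := hn
  obtain ⟨q, hq⟩ := vanish_dvd he i j hij (f1 * f2) (EH_van_mul_left h1 f2) (EH_van_mul_right h2 f1)
  have h3 : g f1 * g f2 = 0 := by
    rw [← map_mul, hq, map_mul, h, zero_mul]
  rcases mul_eq_zero.1 h3 with h4 | h4
  · exact h1' h4
  · exact h2' h4

theorem kill_g [IsAlgClosed k] [CharZero k] (he : Even (m + n)) {D : Type*} [CommRing D] [IsDomain D]
    [Algebra k D] (g : Reg k m n →ₐ[k] D[X]) (i j : ZMod (m + n + 2)) (h1 : i ≠ j + 1) (h2 : j ≠ i + 1)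
    (h : g (gR i j) = 0) :
    (∀ f, Van i (j + 1) f → g f = 0) ∨ (∀ f, Van (i + 1) j f → g f = 0) := by
  by_contra hn
  push Not at hn
  obtain ⟨⟨f1, h3, h3'⟩, ⟨f2, h4, h4'⟩⟩ := hn
  obtain ⟨q, hq⟩ := vanish_dvd' he i j h1 h2 (f1 * f2) (EH_van_mul_left h3 f2) (EH_van_mul_right h4 f1)
  have h5 : g f1 * g f2 = 0 := by
    rw [← map_mul, hq, map_mul, h, zero_mul]
  rcases mul_eq_zero.1 h5 with h6 | h6
  · exact h3' h6
  · exact h4' h6

/-- Row identity, `S = m + n - 1 = N - 3`: `∏_{s < S} c_(i, i+2+s) = c_(i-1, i+1) * ∏_{s < S} c'_(i, i+2+s)`.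
For a polygon `v`, with `a s = [i, i+2+s]`, `c s = [i+1, i+2+s]`, `d s = [i+2+s, i+3+s]`:
`c_(i,i+2+s) = a s * c (s+1) / (d_i * d s)`, `c'_(i,i+2+s) = a (s+1) * c s / (d_i * d s)`, so
`∏ c * (a S * c 0) = ∏ c' * (a 0 * c S)`; `a S = [i, i-1] = - d_(i-1)`, `c 0 = d_(i+1)`, `a 0 = [i, i+2]`, `c S = [i+1, i-1]`,
and `c_(i-1,i+1) = [i-1,i+1][i,i+2] / (d_(i-1) d_(i+1))`. -/
theorem row_prod (h2 : 2 ≤ m + n) (i : ZMod (m + n + 2)) :
    ∏ s ∈ Finset.range (m + n - 1), (cR i (i + 2 + (s : ZMod (m + n + 2))) : Reg k m n)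
      = cR (i - 1) (i + 1) * ∏ s ∈ Finset.range (m + n - 1), gR i (i + 2 + (s : ZMod (m + n + 2))) := by
  refine Subtype.ext (funext fun P => ?_)
  obtain ⟨p, rfl⟩ := Quotient.exists_rep P
  have hc : ∀ i j : ZMod (m + n + 2), (cR i j : Reg k m n).1 (Quotient.mk _ p) =
      cFv (fun s => (pt p s).rep) i j := fun i j => rfl
  have hg : ∀ i j : ZMod (m + n + 2), (gR i j : Reg k m n).1 (Quotient.mk _ p) =
      cGv (fun s => (pt p s).rep) i j := fun i j => rfl
  have h1 : ((∏ s ∈ Finset.range (m + n - 1), (cR i (i + 2 + (s : ZMod (m + n + 2))) : Reg k m n)) :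
      Reg k m n).1 (Quotient.mk _ p) = ∏ s ∈ Finset.range (m + n - 1),
        cFv (fun s => (pt p s).rep) i (i + 2 + (s : ZMod (m + n + 2))) := by
    rw [EH_prod_apply]
    exact Finset.prod_congr rfl fun s _ => hc _ _
  have h3 : (cR (i - 1) (i + 1) * ∏ s ∈ Finset.range (m + n - 1),
      (gR i (i + 2 + (s : ZMod (m + n + 2))) : Reg k m n) : Reg k m n).1 (Quotient.mk _ p) =
      cFv (fun s => (pt p s).rep) (i - 1) (i + 1) * ∏ s ∈ Finset.range (m + n - 1),
        cGv (fun s => (pt p s).rep) i (i + 2 + (s : ZMod (m + n + 2))) := by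
    have h4 : (cR (i - 1) (i + 1) * ∏ s ∈ Finset.range (m + n - 1),
      (gR i (i + 2 + (s : ZMod (m + n + 2))) : Reg k m n) : Reg k m n).1 (Quotient.mk _ p) =
      (cR (i - 1) (i + 1) : Reg k m n).1 (Quotient.mk _ p) * (∏ s ∈ Finset.range (m + n - 1),
      (gR i (i + 2 + (s : ZMod (m + n + 2))) : Reg k m n)).1 (Quotient.mk _ p) := rfl
    rw [h4, EH_prod_apply, hc]
    exact congrArg _ (Finset.prod_congr rfl fun s _ => hg _ _)
  refine h1.trans (Eq.trans ?_ h3.symm)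
  refine EH_row (fun s => (pt p s).rep) ?_ h2 i
  intro j h0
  refine pt_ne p j ?_
  rw [← (pt p j).mk_rep, ← (pt p (j + 1)).mk_rep, mk_eq_mk_iff_det2]
  exact h0

/-- Row lemma: `natDegree (g (cR i j)) = natDegree (1 + g (gR i j)) = natDegree (g (gR i j))` (`cF_eq`); take degrees in
`row_prod` (domain, all factors not killed). -/
theorem row_deg [IsAlgClosed k] [CharZero k] (h2 : 2 ≤ m + n) {D : Type*} [CommRing D] [IsDomain D]
    [Algebra k D] (g : Reg k m n →ₐ[k] D[X]) (i : ZMod (m + n + 2))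
    (h : ∀ j, Dg i j → g (cR i j) ≠ 0 ∧ g (gR i j) ≠ 0) :
    (g (cR (i - 1) (i + 1))).natDegree = 0 := by
  have hd : ∀ s ∈ Finset.range (m + n - 1), Dg i (i + 2 + ((s : ℕ) : ZMod (m + n + 2))) := by
    intro s hs
    have hs' := Finset.mem_range.1 hs
    refine ⟨fun h0 => ?_, fun h0 => ?_, fun h0 => ?_⟩
    · refine EH_cast_ne (m := m) (n := n) (s + 2) (by omega) (by omega) ?_
      push_cast
      linear_combination h0
    · refine EH_cast_ne (m := m) (n := n) (s + 1) (by omega) (by omega) ?_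
      push_cast
      linear_combination h0
    · refine EH_cast_ne (m := m) (n := n) (s + 3) (by omega) (by omega) ?_
      push_cast
      linear_combination - h0
  have h1 := congrArg g (row_prod (k := k) h2 i)
  rw [map_mul, map_prod, map_prod] at h1
  have hc0 : ∏ s ∈ Finset.range (m + n - 1), g (cR i (i + 2 + ((s : ℕ) : ZMod (m + n + 2)))) ≠ 0 :=
    Finset.prod_ne_zero_iff.2 fun s hs => (h _ (hd s hs)).1
  have hg0 : ∏ s ∈ Finset.range (m + n - 1), g (gR i (i + 2 + ((s : ℕ) : ZMod (m + n + 2)))) ≠ 0 :=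
    Finset.prod_ne_zero_iff.2 fun s hs => (h _ (hd s hs)).2
  have hx : g (cR (i - 1) (i + 1)) ≠ 0 := by
    intro h0
    rw [h0, zero_mul] at h1
    exact hc0 h1
  have h3 := congrArg natDegree h1
  rw [natDegree_mul hx hg0, natDegree_prod _ _ (fun s hs => (h _ (hd s hs)).1),
    natDegree_prod _ _ (fun s hs => (h _ (hd s hs)).2)] at h3
  have h4 : ∀ s ∈ Finset.range (m + n - 1), (g (cR i (i + 2 + ((s : ℕ) : ZMod (m + n + 2))))).natDegree =
      (g (gR i (i + 2 + ((s : ℕ) : ZMod (m + n + 2))))).natDegree := by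
    intro s _
    rw [EH_cR_eq, map_add, map_one, ← C_1, natDegree_C_add]
  rw [Finset.sum_congr rfl h4] at h3
  omega

/-- Generation.  `f = P / K^e`; `P` is invariant under `scl c` for all `c ≠ 0` (as in `descend`), so every monomial `b^a` of
`P` has `∑_{i even} a i = ∑_{i odd} a i`.  Such a monomial times `(∏_{s < l-1} b_s b_(s+1))^M`, `M ≥ ∑ a`, is
`∏_{s < l-1} (b_s b_(s+1))^(t s)` with `t s = M + ∑_{u ≤ s} (-1)^(s-u) a u ≥ 0` (compare the exponents of each `b_s`).  On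
`cfgB b`, `cF s (s+2) = b_s * b_(s+1)` for `s ≤ l - 2`. -/
theorem gen_r [IsAlgClosed k] [CharZero k] (he : Even (m + n)) (h4 : 4 ≤ m + n) (κ : Reg k m n)
    (hκ : ∀ (b : Fin (m + n) → k) (hb : Kv b ≠ 0), κ.1 (Quotient.mk _ (cfgB b hb)) = Kv b)
    (f : Reg k m n) :
    ∃ M e : ℕ, (∏ s ∈ Finset.range (m + n - 1), (cR (s : ZMod (m + n + 2)) ((s : ZMod (m + n + 2)) + 2)
        : Reg k m n)) ^ M * κ ^ e * f
      ∈ Algebra.adjoin k (Set.range (fun i : ZMod (m + n + 2) => (cR i (i + 2) : Reg k m n))) := by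
  obtain ⟨P, e, hP⟩ := reg_poly f.1 f.2
  -- the elements `w r`
  obtain ⟨w, hw⟩ : ∃ w : ℕ → Reg k m n,
      ∀ r, w r = cR ((r : ℕ) : ZMod (m + n + 2)) (((r : ℕ) : ZMod (m + n + 2)) + 2) := ⟨_, fun r => rfl⟩
  have hwa : ∀ r, w r ∈ Algebra.adjoin k
      (Set.range (fun i : ZMod (m + n + 2) => (cR i (i + 2) : Reg k m n))) := by
    intro r
    rw [hw]
    exact Algebra.subset_adjoin ⟨_, rfl⟩
  have hwv : ∀ r, r + 1 < m + n → ∀ (b : Fin (m + n) → k) (hb : Kv b ≠ 0),
      (w r).1 (Quotient.mk _ (cfgB b hb)) = sq b r * sq b (r + 1) := by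
    intro r hr b hb
    rw [hw]
    exact EH_cF_val b hb r hr
  obtain ⟨W, hW⟩ : ∃ W : Reg k m n, W = ∏ r ∈ Finset.range (m + n - 1), w r := ⟨_, rfl⟩
  obtain ⟨U, hU⟩ : ∃ U : ℕ → Reg k m n, ∀ s, U s = ∏ r ∈ Finset.range (m + n - 1),
      w r ^ (if r < s then (if Even (s - 1 - r) then 2 else 0) else 1) := ⟨_, fun s => rfl⟩
  have hUU : ∀ s, s < m + n - 1 → U s * U (s + 1) = W ^ 2 * w s := by
    intro s hs
    exact EH_UU w hU (by rw [hW]) hs
  have hU0 : U 0 = W := by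
    rw [hU, hW]
    refine Finset.prod_congr rfl fun r _ => ?_
    rw [if_neg (Nat.not_lt_zero r), pow_one]
  have hWv : ∀ (b : Fin (m + n) → k) (hb : Kv b ≠ 0), (∀ i, b i ≠ 0) →
      W.1 (Quotient.mk _ (cfgB b hb)) ≠ 0 := by
    intro b hb hb0
    rw [hW, EH_prod_apply, Finset.prod_ne_zero_iff]
    intro r hr
    have hr' := Finset.mem_range.1 hr
    rw [hwv r (by omega)]
    refine mul_ne_zero ?_ ?_
    · unfold sq
      rw [dif_pos (by omega)]
      exact hb0 _
    · unfold sq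
      rw [dif_pos (by omega)]
      exact hb0 _
  have hUv : ∀ (b : Fin (m + n) → k) (hb : Kv b ≠ 0), (∀ i, b i ≠ 0) → ∀ s, s < m + n →
      (U s).1 (Quotient.mk _ (cfgB b hb)) = W.1 (Quotient.mk _ (cfgB b hb)) *
        sq (scl (b ⟨0, by omega⟩)⁻¹ b) s := by
    intro b hb hb0 s
    induction s with
    | zero =>
      intro _
      rw [hU0]
      unfold sq scl
      rw [dif_pos (by omega)]
      simp only [Even.zero, if_true]
      rw [inv_mul_cancel₀ (hb0 _), mul_one]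
    | succ s ih =>
      intro hs
      have h1 := ih (by omega)
      have h2 : (U s * U (s + 1)).1 (Quotient.mk _ (cfgB b hb)) =
          (W ^ 2 * w s).1 (Quotient.mk _ (cfgB b hb)) := by rw [hUU s (by omega)]
      have h3 : (U s).1 (Quotient.mk _ (cfgB b hb)) * (U (s + 1)).1 (Quotient.mk _ (cfgB b hb)) =
          (W.1 (Quotient.mk _ (cfgB b hb))) ^ 2 * (w s).1 (Quotient.mk _ (cfgB b hb)) := h2
      rw [hwv s (by omega), h1, ← EH_scl_mul (b ⟨0, by omega⟩)⁻¹ (inv_ne_zero (hb0 _)) b s (by omega)] at h3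
      have h4 : W.1 (Quotient.mk _ (cfgB b hb)) * sq (scl (b ⟨0, by omega⟩)⁻¹ b) s ≠ 0 := by
        refine mul_ne_zero (hWv b hb hb0) ?_
        exact EH_scl_ne (inv_ne_zero (hb0 _)) b hb0 s (by omega)
      refine mul_left_cancel₀ h4 ?_
      rw [h3]
      ring
  -- invariance
  have hinv : ∀ (b : Fin (m + n) → k), Kv b ≠ 0 → ∀ c : k, c ≠ 0 →
      MvPolynomial.eval (scl c b) P = MvPolynomial.eval b P := by
    intro b hb c hc
    have hb' : Kv (scl c b) ≠ 0 := by
      rw [Kv_scl he hc]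
      exact hb
    have h2 : (Quotient.mk _ (cfgB b hb) : Conf k m n) = Quotient.mk _ (cfgB (scl c b) hb') :=
      Quotient.sound ((cfgB_equiv he b (scl c b) hb hb').2 ⟨c, hc, rfl⟩)
    rw [← hP b hb, ← hP (scl c b) hb', Kv_scl he hc, ← h2]
  obtain ⟨M, hM⟩ : ∃ M : ℕ, ∀ a ∈ P.support, ∑ i, a i ≤ M :=
    ⟨P.support.sup (fun a => ∑ i, a i), fun a ha => Finset.le_sup (f := fun a : Fin (m + n) →₀ ℕ => ∑ i, a i) ha⟩
  obtain ⟨Q, hQ⟩ : ∃ Q : Reg k m n, Q = ∑ a ∈ P.support, algebraMap k (Reg k m n) (P.coeff a) *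
      (W ^ (M - ∑ i, a i) * ∏ i : Fin (m + n), U i.val ^ a i) := ⟨_, rfl⟩
  have hWa : W ∈ Algebra.adjoin k
      (Set.range (fun i : ZMod (m + n + 2) => (cR i (i + 2) : Reg k m n))) := by
    rw [hW]
    exact Subalgebra.prod_mem _ fun r _ => hwa r
  have hQa : Q ∈ Algebra.adjoin k
      (Set.range (fun i : ZMod (m + n + 2) => (cR i (i + 2) : Reg k m n))) := by
    rw [hQ]
    refine Subalgebra.sum_mem _ fun a _ => Subalgebra.mul_mem _ (Subalgebra.algebraMap_mem _ _)
      (Subalgebra.mul_mem _ (Subalgebra.pow_mem _ hWa _) (Subalgebra.prod_mem _ fun i _ =>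
        Subalgebra.pow_mem _ ?_ _))
    rw [hU]
    exact Subalgebra.prod_mem _ fun r _ => Subalgebra.pow_mem _ (hwa r) _
  refine ⟨M, e, ?_⟩
  have hfin : W ^ M * κ ^ e * f = Q := by
    refine EH_eq_of_torus (by omega) fun b hb hb0 => ?_
    have h1 : (W ^ M * κ ^ e * f).1 (Quotient.mk _ (cfgB b hb)) =
        (W.1 (Quotient.mk _ (cfgB b hb))) ^ M * (κ.1 (Quotient.mk _ (cfgB b hb))) ^ e *
          f.1 (Quotient.mk _ (cfgB b hb)) := rfl
    have h2 : Q.1 (Quotient.mk _ (cfgB b hb)) = ∑ a ∈ P.support, P.coeff a *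
        ((W.1 (Quotient.mk _ (cfgB b hb))) ^ (M - ∑ i, a i) *
          ∏ i : Fin (m + n), (U i.val).1 (Quotient.mk _ (cfgB b hb)) ^ a i) := by
      rw [hQ, EH_sum_apply]
      refine Finset.sum_congr rfl fun a _ => ?_
      have h3 : (algebraMap k (Reg k m n) (P.coeff a) *
        (W ^ (M - ∑ i, a i) * ∏ i : Fin (m + n), U i.val ^ a i)).1 (Quotient.mk _ (cfgB b hb)) =
        P.coeff a * ((W.1 (Quotient.mk _ (cfgB b hb))) ^ (M - ∑ i, a i) *
          (∏ i : Fin (m + n), U i.val ^ a i).1 (Quotient.mk _ (cfgB b hb))) := rfl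
      rw [h3, EH_prod_apply]
      rfl
    have h3 : ∀ i : Fin (m + n), (U i.val).1 (Quotient.mk _ (cfgB b hb)) =
        W.1 (Quotient.mk _ (cfgB b hb)) * scl (b ⟨0, by omega⟩)⁻¹ b i := by
      intro i
      rw [hUv b hb hb0 i.val i.isLt]
      unfold sq
      rw [dif_pos i.isLt]
    rw [h1, h2, hκ b hb]
    have h4 : MvPolynomial.eval b P = ∑ a ∈ P.support, P.coeff a *
        ∏ i : Fin (m + n), (scl (b ⟨0, by omega⟩)⁻¹ b i) ^ a i := by
      rw [← hinv b hb _ (inv_ne_zero (hb0 ⟨0, by omega⟩)), MvPolynomial.eval_eq']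
    have h5 := hP b hb
    rw [mul_assoc, mul_comm (Kv b ^ e), h5, h4, Finset.mul_sum]
    refine Finset.sum_congr rfl fun a ha => ?_
    have h6 : ∏ i : Fin (m + n), (U i.val).1 (Quotient.mk _ (cfgB b hb)) ^ a i =
        (W.1 (Quotient.mk _ (cfgB b hb))) ^ (∑ i, a i) *
          ∏ i : Fin (m + n), (scl (b ⟨0, by omega⟩)⁻¹ b i) ^ a i := by
      rw [← Finset.prod_pow_eq_pow_sum, ← Finset.prod_mul_distrib]
      refine Finset.prod_congr rfl fun i _ => ?_
      rw [h3, mul_pow]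
    rw [h6, ← mul_assoc (W.1 (Quotient.mk _ (cfgB b hb)) ^ (M - ∑ i, a i)), ← pow_add,
      Nat.sub_add_cancel (hM a ha)]
    ring
  have hW' : (∏ s ∈ Finset.range (m + n - 1), (cR (s : ZMod (m + n + 2)) ((s : ZMod (m + n + 2)) + 2)
        : Reg k m n)) = W := by
    rw [hW]
    exact Finset.prod_congr rfl fun r _ => (hw r).symm
  rw [hW', hfin]
  exact hQa

/-- Key lemma.  If for every diagonal some function vanishing there is not killed, then all values are constant.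
All `cR i j`, `gR i j`, `(i,j)` a diagonal, are not killed (`kill_c`, `kill_g`; if one of the two loci belongs to a pair of
adjacent flags it is empty and `f = 1` is in the corresponding set, `g 1 ≠ 0`; the other is a diagonal).  So `row_deg` for
all rows; units have degree `0` (`κ` from `exists_kappa`); `gen_r`. -/
theorem keyB [IsAlgClosed k] [CharZero k] (he : Even (m + n)) (h4 : 4 ≤ m + n) {D : Type*} [CommRing D]
    [IsDomain D] [Algebra k D] (g : Reg k m n →ₐ[k] D[X])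
    (h : ∀ i j : ZMod (m + n + 2), Dg i j → ∃ f, Van i j f ∧ g f ≠ 0) (f : Reg k m n) :
    (g f).natDegree = 0 := by
  have e3 : (3 : ZMod (m + n + 2)) ≠ 0 := by
    exact_mod_cast EH_cast_ne (m := m) (n := n) 3 (by omega) (by omega)
  have e2 : (2 : ZMod (m + n + 2)) ≠ 0 := by
    exact_mod_cast EH_cast_ne (m := m) (n := n) 2 (by omega) (by omega)
  have e1 : (1 : ZMod (m + n + 2)) ≠ 0 := by
    exact_mod_cast EH_cast_ne (m := m) (n := n) 1 (by omega) (by omega)
  have hadj : ∀ i : ZMod (m + n + 2), Van i (i + 1) (1 : Reg k m n) := by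
    intro i P hP
    exfalso
    obtain ⟨p, rfl⟩ := Quotient.exists_rep P
    exact pt_ne p i ((ZS_mk p i (i + 1)).1 hP)
  have hadj' : ∀ i : ZMod (m + n + 2), Van (i + 1) i (1 : Reg k m n) :=
    fun i P hP => hadj i P ((ZS_symm _ _ P).1 hP)
  have hcR : ∀ i j : ZMod (m + n + 2), Dg i j → g (cR i j) ≠ 0 := by
    rintro i j ⟨d1, d2, d3⟩ h0
    rcases kill_c he g i j d1.symm h0 with h1 | h1
    · obtain ⟨f, hf, hf'⟩ := h i j ⟨d1, d2, d3⟩
      exact hf' (h1 f hf)
    · obtain ⟨f, hf, hf'⟩ := h (i + 1) (j + 1)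
        ⟨fun h2 => d1 (add_right_cancel h2), fun h2 => d2 (add_right_cancel h2),
          fun h2 => d3 (add_right_cancel h2)⟩
      exact hf' (h1 f hf)
  have hgR : ∀ i j : ZMod (m + n + 2), Dg i j → g (gR i j) ≠ 0 := by
    rintro i j ⟨d1, d2, d3⟩ h0
    rcases kill_g he g i j d3 d2 h0 with h1 | h1
    · by_cases h2 : i = j + 1 + 1
      · have h3 := h1 1 (by rw [h2]; exact hadj' (j + 1))
        rw [map_one] at h3
        exact one_ne_zero h3
      · obtain ⟨f, hf, hf'⟩ := h i (j + 1)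
          ⟨fun h3 => d3 h3.symm, fun h3 => d1 (add_right_cancel h3), h2⟩
        exact hf' (h1 f hf)
    · by_cases h2 : j = i + 1 + 1
      · have h3 := h1 1 (by rw [h2]; exact hadj (i + 1))
        rw [map_one] at h3
        exact one_ne_zero h3
      · obtain ⟨f, hf, hf'⟩ := h (i + 1) j
          ⟨fun h3 => d2 h3, h2, fun h3 => d1 (add_right_cancel h3).symm⟩
        exact hf' (h1 f hf)
  have hrow : ∀ i : ZMod (m + n + 2), (g (cR i (i + 2))).natDegree = 0 := by
    intro i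
    have h1 := row_deg (by omega) g (i + 1) (fun j hj => ⟨hcR _ _ hj, hgR _ _ hj⟩)
    rw [add_sub_cancel_right, add_assoc, one_add_one_eq_two] at h1
    exact h1
  have hshort : ∀ i : ZMod (m + n + 2), g (cR i (i + 2)) ≠ 0 := by
    intro i
    refine hcR i (i + 2) ⟨fun h1 => e2 ?_, fun h1 => e1 ?_, fun h1 => e3 ?_⟩
    · linear_combination h1
    · linear_combination h1
    · linear_combination - h1
  obtain ⟨κ, hκu, hκ⟩ := exists_kappa (k := k) (m := m) (n := n) he
  obtain ⟨M, e, hMe⟩ := gen_r he h4 κ hκ f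
  have hadj0 : ∀ x ∈ Algebra.adjoin k
      (Set.range (fun i : ZMod (m + n + 2) => (cR i (i + 2) : Reg k m n))), (g x).natDegree = 0 := by
    intro x hx
    induction hx using Algebra.adjoin_induction with
    | mem x hx =>
      obtain ⟨i, rfl⟩ := hx
      exact hrow i
    | algebraMap r =>
      rw [AlgHom.commutes, Polynomial.algebraMap_apply, natDegree_C]
    | add x y _ _ hx hy =>
      rw [map_add]
      have h1 := natDegree_add_le (g x) (g y)
      rw [hx, hy] at h1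
      simpa using h1
    | mul x y _ _ hx hy =>
      rw [map_mul]
      have h1 := natDegree_mul_le (p := g x) (q := g y)
      rw [hx, hy] at h1
      simpa using h1
  have h5 := hadj0 _ hMe
  by_cases hf : g f = 0
  · rw [hf, natDegree_zero]
  · have hκ0 : g κ ≠ 0 := (hκu.map g).ne_zero
    have hW0 : g (∏ s ∈ Finset.range (m + n - 1), (cR (s : ZMod (m + n + 2)) ((s : ZMod (m + n + 2)) + 2)
        : Reg k m n)) ≠ 0 := by
      rw [map_prod, Finset.prod_ne_zero_iff]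
      exact fun s _ => hshort _
    rw [map_mul, map_mul, map_pow, map_pow,
      natDegree_mul (mul_ne_zero (pow_ne_zero _ hW0) (pow_ne_zero _ hκ0)) hf] at h5
    omega

end Pool.Agent.Lib.MP_d4c67c_gt
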