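import Pool.Agent.Lib.MP_d4c67c_gt.E.G
import Pool.Agent.Lib.MP_d4c67c_gt.E.I

/-!
# JOB EJ: an isomorphism of algebras of regular functions permutes the coincidence loci

(You may use all files `E/A.lean`, …, `E/I.lean`, which are other jobs.)
-/

open scoped LinearAlgebra.Projectivization

namespace Pool.Agent.Lib.MP_d4c67c_gt

variable {k : Type*} [Field k] {m n m' n' : ℕ}

/-- the diagonal `(i',j')` corresponds to the diagonal `(i,j)` under `φ` -/
def Cor (φ : Reg k m' n' ≃ₐ[k] Reg k m n) (i' j' : ZMod (m' + n' + 2)) (i j : ZMod (m + n + 2)) : Prop :=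
  ∀ f, Van i' j' f ↔ Van i j (φ f)

theorem Cor.symm {φ : Reg k m' n' ≃ₐ[k] Reg k m n} {i' j' : ZMod (m' + n' + 2)}
    {i j : ZMod (m + n + 2)} (h : Cor φ i' j' i j) : Cor φ.symm i j i' j' := by
  intro f
  rw [h (φ.symm f), AlgEquiv.apply_symm_apply]

theorem EJ_van_symm (i j : ZMod (m + n + 2)) (f : Reg k m n) : Van i j f ↔ Van j i f := by
  unfold Van
  constructor
  · intro h P hP
    exact h P ((ZS_symm i j P).mpr hP)
  · intro h P hP
    exact h P ((ZS_symm j i P).mpr hP)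

theorem EJ_van_sm {i j a b : ZMod (m + n + 2)} (h : Sm i j a b) (f : Reg k m n) :
    Van i j f ↔ Van a b f := by
  rcases h with ⟨rfl, rfl⟩ | ⟨rfl, rfl⟩
  · exact Iff.rfl
  · exact EJ_van_symm _ _ f

theorem EJ_cor_sm {φ : Reg k m' n' ≃ₐ[k] Reg k m n} {i' j' : ZMod (m' + n' + 2)}
    {i j a b : ZMod (m + n + 2)} (h : Cor φ i' j' i j) (hs : Sm i j a b) : Cor φ i' j' a b := by
  intro f
  rw [h f]
  exact EJ_van_sm hs _

theorem EJ_ne {N : ℕ} (hN : 6 ≤ N) (c : ℕ) (h0 : 0 < c) (h5 : c < 6) : ((c : ℕ) : ZMod N) ≠ 0 := by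
  rw [Ne, ZMod.natCast_eq_zero_iff]
  intro h
  have := Nat.le_of_dvd h0 h
  omega

theorem EJ_sm_symm {N : ℕ} {i j a b : ZMod N} (h : Sm i j a b) : Sm a b i j := by
  rcases h with ⟨rfl, rfl⟩ | ⟨rfl, rfl⟩
  · exact Or.inl ⟨rfl, rfl⟩
  · exact Or.inr ⟨rfl, rfl⟩

theorem EJ_sm_trans {N : ℕ} {i j a b c d : ZMod N} (h : Sm i j a b) (h' : Sm a b c d) :
    Sm i j c d := by
  rcases h with ⟨rfl, rfl⟩ | ⟨rfl, rfl⟩
  · exact h'
  · rcases h' with ⟨rfl, rfl⟩ | ⟨rfl, rfl⟩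
    · exact Or.inr ⟨rfl, rfl⟩
    · exact Or.inl ⟨rfl, rfl⟩

/-- Half of the correspondence: `h` from `hgam i' j'`, `g = h ∘ φ.symm : Reg k m n → F[X]` is not constant, so by `keyB`
there is a diagonal `(i,j)` with `g f = 0` for all `f` with `Van i j f`; i.e. `Van i' j' (φ.symm f)`. -/
theorem cor_half [IsAlgClosed k] [CharZero k] (he : Even (m + n)) (h4 : 4 ≤ m + n) (h4' : 4 ≤ m' + n')
    (φ : Reg k m' n' ≃ₐ[k] Reg k m n) (i' j' : ZMod (m' + n' + 2)) (h : Dg i' j') :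
    ∃ i j : ZMod (m + n + 2), Dg i j ∧ ∀ f, Van i j f → Van i' j' (φ.symm f) := by
  obtain ⟨g', hg', f0, hf0⟩ := hgam (k := k) h4' i' j' h.1 h.2.1 h.2.2
  by_contra hcon
  push Not at hcon
  apply hf0
  have h1 := keyB he h4 (g'.comp (φ.symm : Reg k m n →ₐ[k] Reg k m' n')) (fun i j hd => by
    obtain ⟨f, hf1, hf2⟩ := hcon i j hd
    refine ⟨f, hf1, ?_⟩
    intro h0
    apply hf2
    rw [← hg']
    exact h0) (φ f0)
  have h2 : (g'.comp (φ.symm : Reg k m n →ₐ[k] Reg k m' n')) (φ f0) = g' f0 := by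
    show g' (φ.symm (φ f0)) = g' f0
    rw [AlgEquiv.symm_apply_apply]
  rw [h2] at h1
  exact h1

/-- `cor_half` for `φ` at `(i',j')` gives `(i,j)`, and for `φ.symm` at `(i,j)` gives `(a',b')` with
`Van a' b' f → Van i j (φ f)`; so `Van a' b' f → Van i' j' f`, so the pairs `(a',b')`, `(i',j')` are the same (`van_sub`)
and both implications are equivalences. -/
theorem cor_ex [IsAlgClosed k] [CharZero k] (he : Even (m + n)) (he' : Even (m' + n')) (h4 : 4 ≤ m + n)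
    (h4' : 4 ≤ m' + n') (φ : Reg k m' n' ≃ₐ[k] Reg k m n) (i' j' : ZMod (m' + n' + 2)) (h : Dg i' j') :
    ∃ i j : ZMod (m + n + 2), Dg i j ∧ Cor φ i' j' i j := by
  obtain ⟨i, j, hd, hi⟩ := cor_half he h4 h4' φ i' j' h
  obtain ⟨a', b', hd', ha⟩ := cor_half he' h4' h4 φ.symm i j hd
  have hback : ∀ f, Van i j (φ f) → Van i' j' f := by
    intro f hf
    have h1 := hi _ hf
    rwa [AlgEquiv.symm_apply_apply] at h1
  have hsm : Sm i' j' a' b' := by
    refine van_sub (k := k) h4' i' j' a' b' h (Ne.symm hd'.1) (fun f hf => ?_)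
    have h1 := ha f hf
    exact hback f h1
  refine ⟨i, j, hd, fun f => ⟨fun hf => ?_, hback f⟩⟩
  exact ha f ((EJ_van_sm hsm f).mp hf)

theorem cor_unique [CharZero k] (h4 : 4 ≤ m + n) {φ : Reg k m' n' ≃ₐ[k] Reg k m n}
    {i' j' : ZMod (m' + n' + 2)} {i j a b : ZMod (m + n + 2)} (h1 : Dg i j) (h2 : Dg a b)
    (h : Cor φ i' j' i j) (h' : Cor φ i' j' a b) : Sm i j a b := by
  refine van_sub (k := k) h4 i j a b h1 (Ne.symm h2.1) (fun f hf => ?_)
  have e1 := h (φ.symm f)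
  have e2 := h' (φ.symm f)
  rw [AlgEquiv.apply_symm_apply] at e1 e2
  exact e1.mp (e2.mpr hf)

/-- neighbours correspond to neighbours (`comax_nb`, `nb_of_comax`) -/
theorem cor_nb [CharZero k] {φ : Reg k m' n' ≃ₐ[k] Reg k m n} {i' j' a' b' : ZMod (m' + n' + 2)}
    {i j a b : ZMod (m + n + 2)} (h1 : Dg i j) (h2 : Dg a b)
    (h : Cor φ i' j' i j) (h' : Cor φ a' b' a b) (hn : Nb i' j' a' b') : Nb i j a b := by
  obtain ⟨f, g, hf, hg, hfg⟩ := comax_nb (k := k) i' j' a' b' hn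
  refine nb_of_comax i j a b h1 h2 ⟨φ f, φ g, (h f).mp hf, (h' g).mp hg, ?_⟩
  rw [← map_add, hfg, map_one]

theorem EJ_dg_two {N : ℕ} (hN : 4 ≤ N) (i : ZMod (N + 2)) : i + 2 ≠ i ∧ i + 2 ≠ i + 1 ∧ i ≠ i + 2 + 1 := by
  have e1 := EJ_ne (N := N + 2) (by omega) 1 (by omega) (by omega)
  have e2 := EJ_ne (N := N + 2) (by omega) 2 (by omega) (by omega)
  have e3 := EJ_ne (N := N + 2) (by omega) 3 (by omega) (by omega)
  push_cast at e1 e2 e3
  refine ⟨fun h => e2 ?_, fun h => e1 ?_, fun h => e3 ?_⟩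
  · linear_combination h
  · linear_combination h
  · linear_combination -h

/-- a diagonal which is a neighbour of `(i', i'+2)` is `(i', i'+3)` or `(i'-1, i'+2)` -/
theorem EJ_nb_short {N : ℕ} {i a b : ZMod (N + 2)} (hd : b ≠ a ∧ b ≠ a + 1 ∧ a ≠ b + 1)
    (h : Nb i (i + 2) a b) : Sm a b i (i + 3) ∨ Sm a b (i - 1) (i + 2) := by
  obtain ⟨_, hd2, hd3⟩ := hd
  rcases h with ⟨h1, h2 | h2⟩ | ⟨h1, h2 | h2⟩ | ⟨h1, h2 | h2⟩ | ⟨h1, h2 | h2⟩
  · left; left
    exact ⟨h1.symm, by linear_combination h2⟩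
  · exfalso
    apply hd2
    linear_combination h1 - h2
  · left; right
    exact ⟨by linear_combination h2, h1.symm⟩
  · exfalso
    apply hd3
    linear_combination h1 - h2
  · exfalso
    apply hd3
    linear_combination -h1 - h2
  · right; right
    exact ⟨h1.symm, by linear_combination -h2⟩
  · exfalso
    apply hd2
    linear_combination -h1 - h2
  · right; left
    exact ⟨by linear_combination -h2, h1.symm⟩

/-- Short diagonals go to short diagonals.  If `j - i` is not `0, ±1, ±2`, the four pairs `(i+1,j)`, `(i-1,j)`,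
`(i,j+1)`, `(i,j-1)` are diagonals, neighbours of `(i,j)`, pairwise different (`Sm`); the corresponding pairs of `φ.symm`
(`cor_ex`) are pairwise different (`cor_unique`) and neighbours of `(i', i'+2)` (`cor_nb`), but a diagonal which is a
neighbour of `(i', i'+2)` is the same as `(i', i'+3)` or `(i'-1, i'+2)`. -/
theorem cor_short0 [IsAlgClosed k] [CharZero k] (he : Even (m + n)) (he' : Even (m' + n')) (h4 : 4 ≤ m + n)
    (h4' : 4 ≤ m' + n') (φ : Reg k m' n' ≃ₐ[k] Reg k m n) (i' : ZMod (m' + n' + 2))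
    (i j : ZMod (m + n + 2)) (hd : Dg i j) (h : Cor φ i' (i' + 2) i j) : j = i + 2 ∨ i = j + 2 := by
  by_contra hcon
  push Not at hcon
  obtain ⟨hc1, hc2⟩ := hcon
  have hd0 := hd
  obtain ⟨hd1, hd2, hd3⟩ := hd
  have e1 := EJ_ne (N := m + n + 2) (by omega) 1 (by omega) (by omega)
  have e2 := EJ_ne (N := m + n + 2) (by omega) 2 (by omega) (by omega)
  push_cast at e1 e2
  have D1 : Dg (i + 1) j := ⟨hd2, fun hh => hc1 (by linear_combination hh),
    fun hh => hd1 (by linear_combination -hh)⟩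
  have D2 : Dg (i - 1) j := ⟨fun hh => hd3 (by linear_combination -hh),
    fun hh => hd1 (by linear_combination hh), fun hh => hc2 (by linear_combination hh)⟩
  have D3 : Dg i (j + 1) := ⟨fun hh => hd3 (by linear_combination -hh),
    fun hh => hd1 (by linear_combination hh), fun hh => hc2 (by linear_combination hh)⟩
  have key : ∀ a b : ZMod (m + n + 2), Dg a b → Nb i j a b →
      ∃ a' b' : ZMod (m' + n' + 2), Cor φ.symm a b a' b' ∧
        (Sm a' b' i' (i' + 3) ∨ Sm a' b' (i' - 1) (i' + 2)) := by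
    intro a b hab hnb
    obtain ⟨a', b', hd', hc'⟩ := cor_ex he' he h4' h4 φ.symm a b hab
    refine ⟨a', b', hc', EJ_nb_short hd' ?_⟩
    exact cor_nb (EJ_dg_two h4' i') hd' h.symm hc' hnb
  obtain ⟨a1, b1, c1, s1⟩ := key (i + 1) j D1 (Or.inr (Or.inr (Or.inr ⟨rfl, Or.inl rfl⟩)))
  obtain ⟨a2, b2, c2, s2⟩ := key (i - 1) j D2
    (Or.inr (Or.inr (Or.inr ⟨rfl, Or.inr (by ring)⟩)))
  obtain ⟨a3, b3, c3, s3⟩ := key i (j + 1) D3 (Or.inl ⟨rfl, Or.inl rfl⟩)
  have uniq : ∀ {a b c d : ZMod (m + n + 2)} {x y z w : ZMod (m' + n' + 2)}, Dg a b → Dg c d →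
      Cor φ.symm a b x y → Cor φ.symm c d z w → Sm x y z w → Sm a b c d := by
    intro a b c d x y z w hab hcd h1 h2 h3
    have h4c : Cor φ.symm a b z w := EJ_cor_sm h1 h3
    have h5 := h4c.symm
    have h6 := h2.symm
    rw [AlgEquiv.symm_symm] at h5 h6
    exact cor_unique h4 hab hcd h5 h6
  have n12 : ¬ Sm (i + 1) j (i - 1) j := by
    rintro (⟨h1, _⟩ | ⟨h1, _⟩)
    · exact e2 (by linear_combination h1)
    · exact hd2 h1.symm
  have n13 : ¬ Sm (i + 1) j i (j + 1) := by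
    rintro (⟨h1, _⟩ | ⟨_, h2⟩)
    · exact e1 (by linear_combination h1)
    · exact hd1 h2
  have n23 : ¬ Sm (i - 1) j i (j + 1) := by
    rintro (⟨h1, _⟩ | ⟨_, h2⟩)
    · exact e1 (by linear_combination -h1)
    · exact hd1 h2
  rcases s1 with s1 | s1 <;> rcases s2 with s2 | s2 <;> rcases s3 with s3 | s3
  · exact n12 (uniq D1 D2 c1 c2 (EJ_sm_trans s1 (EJ_sm_symm s2)))
  · exact n12 (uniq D1 D2 c1 c2 (EJ_sm_trans s1 (EJ_sm_symm s2)))
  · exact n13 (uniq D1 D3 c1 c3 (EJ_sm_trans s1 (EJ_sm_symm s3)))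
  · exact n23 (uniq D2 D3 c2 c3 (EJ_sm_trans s2 (EJ_sm_symm s3)))
  · exact n23 (uniq D2 D3 c2 c3 (EJ_sm_trans s2 (EJ_sm_symm s3)))
  · exact n13 (uniq D1 D3 c1 c3 (EJ_sm_trans s1 (EJ_sm_symm s3)))
  · exact n12 (uniq D1 D2 c1 c2 (EJ_sm_trans s1 (EJ_sm_symm s2)))
  · exact n12 (uniq D1 D2 c1 c2 (EJ_sm_trans s1 (EJ_sm_symm s2)))

theorem cor_short [IsAlgClosed k] [CharZero k] (he : Even (m + n)) (he' : Even (m' + n')) (h4 : 4 ≤ m + n)
    (h4' : 4 ≤ m' + n') (φ : Reg k m' n' ≃ₐ[k] Reg k m n) (i' : ZMod (m' + n' + 2)) :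
    ∃ i : ZMod (m + n + 2), Cor φ i' (i' + 2) i (i + 2) := by
  obtain ⟨i, j, hd, hc⟩ := cor_ex he he' h4 h4' φ i' (i' + 2) (EJ_dg_two h4' i')
  rcases cor_short0 he he' h4 h4' φ i' i j hd hc with h | h
  · subst h
    exact ⟨i, hc⟩
  · subst h
    exact ⟨j, EJ_cor_sm hc (Or.inr ⟨rfl, rfl⟩)⟩

theorem EJ_card_le [IsAlgClosed k] [CharZero k] (he : Even (m + n)) (he' : Even (m' + n')) (h4 : 4 ≤ m + n)
    (h4' : 4 ≤ m' + n') (φ : Reg k m' n' ≃ₐ[k] Reg k m n) : m' + n' ≤ m + n := by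
  choose F hF using cor_short he he' h4 h4' φ
  have hinj : Function.Injective F := by
    intro a b hab
    have h1 := (hF a).symm
    have h2 := (hF b).symm
    rw [hab] at h1
    have h3 := cor_unique h4' (EJ_dg_two h4' a) (EJ_dg_two h4' b) h1 h2
    rcases h3 with ⟨h, _⟩ | ⟨h, h'⟩
    · exact h
    · exfalso
      have e4 := EJ_ne (N := m' + n' + 2) (by omega) 4 (by omega) (by omega)
      push_cast at e4
      apply e4
      linear_combination h' - h
  have h1 := Fintype.card_le_of_injective F hinj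
  rw [ZMod.card, ZMod.card] at h1
  omega

/-- `cor_short` gives maps `ZMod (m'+n'+2) → ZMod (m+n+2)` and back, injective by `cor_unique` (short pairs `(i,i+2)`,
`(a,a+2)` which are the same have `i = a`, since `4 ≠ 0`) -/
theorem card_eqE [IsAlgClosed k] [CharZero k] (he : Even (m + n)) (he' : Even (m' + n')) (h4 : 4 ≤ m + n)
    (h4' : 4 ≤ m' + n') (φ : Reg k m' n' ≃ₐ[k] Reg k m n) : m' + n' = m + n :=
  le_antisymm (EJ_card_le he he' h4 h4' φ) (EJ_card_le he' he h4' h4 φ.symm)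

end Pool.Agent.Lib.MP_d4c67c_gt
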