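import Pool.Agent.Lib.MP_d4c67c_gt.E.J
import Pool.Agent.Lib.MP_d4c67c_gt.Dihed

/-!
# JOB EK: the permutation of the short diagonals is dihedral (`m + n` even)

(You may use all files `E/A.lean`, …, `E/J.lean` and `dihedral_of_adj` from `Dihed.lean`, which are other jobs.)
-/

open scoped LinearAlgebra.Projectivization

namespace Pool.Agent.Lib.MP_d4c67c_gt

variable {k : Type*} [Field k] {m n : ℕ}

private theorem EK_four {N : ℕ} (hN : 6 ≤ N) :
    (1 : ZMod N) ≠ 0 ∧ (2 : ZMod N) ≠ 0 ∧ (3 : ZMod N) ≠ 0 ∧ (4 : ZMod N) ≠ 0 := by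
  have e1 := EJ_ne hN 1 (by omega) (by omega)
  have e2 := EJ_ne hN 2 (by omega) (by omega)
  have e3 := EJ_ne hN 3 (by omega) (by omega)
  have e4 := EJ_ne hN 4 (by omega) (by omega)
  push_cast at e1 e2 e3 e4
  exact ⟨e1, e2, e3, e4⟩

private theorem EK_van_c {i j : ZMod (m + n + 2)} : Van i j (cR i j : Reg k m n) := by
  intro P hP
  exact (cF_zero i j P).mpr (Or.inl hP)

private theorem EK_van_c' {i j a b : ZMod (m + n + 2)} (h1 : i + 1 = a) (h2 : j + 1 = b) :
    Van a b (cR i j : Reg k m n) := by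
  intro P hP
  subst h1 h2
  exact (cF_zero i j P).mpr (Or.inr hP)

/-- if `cR r j` vanishes on the locus of the diagonal `(i, j')`, one of its two pairs is the same -/
private theorem EK_c [CharZero k] {i j r s : ZMod (m + n + 2)} (hd : Dg i j) (hrs : r ≠ s)
    (h : Van i j (cR r s : Reg k m n)) : Sm i j r s ∨ Sm i j (r + 1) (s + 1) := by
  obtain ⟨P, hP, hP'⟩ := pts_one (k := k) i j hd
  rcases (cF_zero r s P).mp (h P hP) with h1 | h1
  · exact Or.inl (hP' r s hrs h1)
  · exact Or.inr (hP' (r + 1) (s + 1) (fun hh => hrs (add_right_cancel hh)) h1)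

private theorem EK_g [CharZero k] {i j r s : ZMod (m + n + 2)} (hd : Dg i j) (h1 : r ≠ s + 1)
    (h2 : s ≠ r + 1) (h : Van i j (gR r s : Reg k m n)) :
    Sm i j r (s + 1) ∨ Sm i j (r + 1) s := by
  obtain ⟨P, hP, hP'⟩ := pts_one (k := k) i j hd
  rcases (cG_zero r s P).mp (h P hP) with h3 | h3
  · exact Or.inl (hP' r (s + 1) h1 h3)
  · exact Or.inr (hP' (r + 1) s (fun hh => h2 hh.symm) h3)

private theorem EK_row [IsAlgClosed k] [CharZero k] (h4 : 4 ≤ m + n)
    (g : Reg k m n →ₐ[k] Polynomial (FF k (m + n))) (i' r : ZMod (m + n + 2))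
    (hg : ∀ f, g f = 0 ↔ Van i' (i' + 2) f) (h0 : r ≠ i') (h1 : r ≠ i' + 1) (h2 : r ≠ i' + 2)
    (h3 : r ≠ i' - 1) : (g (cR (r - 1) (r + 1))).natDegree = 0 := by
  refine row_deg (by omega) g r (fun j hj => ⟨fun hc => ?_, fun hc => ?_⟩)
  · rcases EK_c (EJ_dg_two h4 i') (Ne.symm hj.1) ((hg _).mp hc) with (⟨a, _⟩ | ⟨_, b⟩) | (⟨a, _⟩ | ⟨_, b⟩)
    · exact h0 a.symm
    · exact h2 b.symm
    · exact h3 (by linear_combination -a)
    · exact h1 (by linear_combination -b)
  · rcases EK_g (EJ_dg_two h4 i') hj.2.2 hj.2.1 ((hg _).mp hc) with (⟨a, _⟩ | ⟨_, b⟩) | (⟨a, _⟩ | ⟨_, b⟩)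
    · exact h0 a.symm
    · exact h2 b.symm
    · exact h3 (by linear_combination -a)
    · exact h1 (by linear_combination -b)

/-- Adjacency.  `g0` from `hgam_short i`, `g = g0 ∘ φ`; `g f = 0 ↔ Van i' (i'+2) f`.
(1) If `g (cR r j) = 0` (`Dg r j`), then at the point of `pts_one i' (i'+2)` `cF r j = 0`, so (`cF_zero`) `{r,j}` or
`{r+1,j+1}` is `{i',i'+2}`, so `r` or `r+1` is in `{i',i'+2}`; the same for `gR`.  So for
`r ∉ {i'-1, i', i'+1, i'+2}` `row_deg` gives `natDegree (g (cR (r-1) (r+1))) = 0`.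
(2) Suppose `j' ≠ i' ± 1`.  `j' ≠ i'` because `(i,i+2)`, `(i+1,i+3)` are different (`cor_unique`).  If `j' ≠ i' - 2` let
`r = j' + 1`, `f = cR (r-1) (r+1) = cR j' (j'+2)`; if `j' = i' - 2` let `r = j'`, `f = cR (j'-1) (j'+1)`.  In both cases
`Van j' (j'+2) f` (`cF_zero`) and `r ∉ {i'-1,i',i'+1,i'+2}` (`m + n + 2 ≥ 6`), so `natDegree (g0 (φ f)) = 0`, and
`Van (i+1) (i+3) (φ f)` by `h'`; so `g0 (φ f) = 0` by `hgam_short`, so `Van i' (i'+2) f`, and by `pts_one` and `cF_zero`
one of the two pairs of `f` is `{i', i'+2}`: contradiction. -/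
theorem adjE [IsAlgClosed k] [CharZero k] (he : Even (m + n)) (h4 : 4 ≤ m + n)
    (φ : Reg k m n ≃ₐ[k] Reg k m n) (i' j' i : ZMod (m + n + 2))
    (h : Cor φ i' (i' + 2) i (i + 2)) (h' : Cor φ j' (j' + 2) (i + 1) (i + 3)) :
    j' = i' + 1 ∨ j' = i' - 1 := by
  obtain ⟨e1, e2, e3, e4⟩ := EK_four (N := m + n + 2) (by omega)
  obtain ⟨g0, hg0, hg1⟩ := hgam_short (k := k) h4 i
  have hg : ∀ f, (g0.comp (φ : Reg k m n →ₐ[k] Reg k m n)) f = 0 ↔ Van i' (i' + 2) f := by
    intro f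
    rw [h f, ← hg0 (φ f)]
    exact Iff.rfl
  have hkill : ∀ f : Reg k m n, Van j' (j' + 2) f →
      ((g0.comp (φ : Reg k m n →ₐ[k] Reg k m n)) f).natDegree = 0 → Van i' (i' + 2) f := by
    intro f hf hdeg
    rw [← hg f]
    exact hg1 (φ f) ((h' f).mp hf) hdeg
  by_contra hcon
  push Not at hcon
  obtain ⟨hc1, hc2⟩ := hcon
  have hne : j' ≠ i' := by
    intro hji
    subst hji
    have hi1 : Dg i (i + 2) := EJ_dg_two h4 i
    have hi2 : Dg (i + 1) (i + 3) := by
      have := EJ_dg_two h4 (i + 1)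
      have e : i + 1 + 2 = i + 3 := by ring
      rwa [e] at this
    rcases cor_unique h4 hi1 hi2 h h' with ⟨a, _⟩ | ⟨_, b⟩
    · exact e1 (by linear_combination -a)
    · exact e1 (by linear_combination b)
  by_cases hj : j' = i' - 2
  · have hrow := EK_row h4 _ i' j' hg hne hc1
      (fun hh => e4 (by linear_combination hj - hh)) hc2
    have hv : Van j' (j' + 2) (cR (j' - 1) (j' + 1) : Reg k m n) := EK_van_c' (by ring) (by ring)
    have hv' := hkill _ hv hrow
    rcases EK_c (EJ_dg_two h4 i') (fun hh => e2 (by linear_combination -hh)) hv' with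
      (⟨a, _⟩ | ⟨a, _⟩) | (⟨a, _⟩ | ⟨_, b⟩)
    · exact e3 (by linear_combination a + hj)
    · exact e1 (by linear_combination a + hj)
    · exact hne (by linear_combination -a)
    · exact e4 (by linear_combination b + hj)
  · have hrow := EK_row h4 _ i' (j' + 1) hg (fun hh => hc2 (by linear_combination hh))
      (fun hh => hne (by linear_combination hh)) (fun hh => hc1 (by linear_combination hh))
      (fun hh => hj (by linear_combination hh))
    have e5 : j' + 1 - 1 = j' := by ring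
    have e6 : j' + 1 + 1 = j' + 2 := by ring
    rw [e5, e6] at hrow
    have hv' := hkill _ EK_van_c hrow
    rcases EK_c (EJ_dg_two h4 i') (fun hh => e2 (by linear_combination -hh)) hv' with
      (⟨a, _⟩ | ⟨a, b⟩) | (⟨a, _⟩ | ⟨a, b⟩)
    · exact hne a.symm
    · exact hj (by linear_combination -a)
    · exact hc2 (by linear_combination -a)
    · exact hc1 (by linear_combination -b)

/-- Choose `σ` with `Cor φ i (i+2) (σ i) (σ i + 2)` (`cor_short`); injective (as in `card_eqE`), so bijective; its inverse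
`τ` satisfies `τ (p+1) = τ p ± 1` by `adjE` with `i' = τ p`, `j' = τ (p+1)`, `i = p`; `dihedral_of_adj`.  In the second
case `σ i = c0 - i`, put `c = c0 + 2`. -/
theorem dihE [IsAlgClosed k] [CharZero k] (he : Even (m + n)) (h4 : 4 ≤ m + n)
    (φ : Reg k m n ≃ₐ[k] Reg k m n) :
    ∃ c : ZMod (m + n + 2), (∀ i, Cor φ i (i + 2) (i + c) (i + c + 2)) ∨
      (∀ i, Cor φ i (i + 2) (c - i - 2) (c - i)) := by
  obtain ⟨e1, e2, e3, e4⟩ := EK_four (N := m + n + 2) (by omega)
  choose σ hσ using cor_short he he h4 h4 φ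
  have hinj : Function.Injective σ := by
    intro a b hab
    have h1 := (hσ a).symm
    have h2 := (hσ b).symm
    rw [hab] at h1
    have h3 := cor_unique h4 (EJ_dg_two h4 a) (EJ_dg_two h4 b) h1 h2
    rcases h3 with ⟨h, _⟩ | ⟨h, h'⟩
    · exact h
    · exfalso
      apply e4
      linear_combination h' - h
  have hbij : Function.Bijective σ := Finite.injective_iff_bijective.1 hinj
  obtain ⟨τ, hτ1, hτ2⟩ := Function.bijective_iff_has_inverse.1 hbij
  have hτinj : Function.Injective τ := hτ2.injective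
  have hadj : ∀ p, τ (p + 1) = τ p + 1 ∨ τ (p + 1) = τ p - 1 := by
    intro p
    refine adjE he h4 φ (τ p) (τ (p + 1)) p ?_ ?_
    · have h1 := hσ (τ p)
      rw [hτ2 p] at h1
      exact h1
    · have h1 := hσ (τ (p + 1))
      rw [hτ2 (p + 1)] at h1
      have e : p + 1 + 2 = p + 3 := by ring
      rw [e] at h1
      exact h1
  rcases dihedral_of_adj (by omega) τ hτinj hadj with hd | hd
  · refine ⟨-τ 0, Or.inl (fun i => ?_)⟩
    have h1 := hσ i
    have h2 := hd (σ i)
    rw [hτ1 i] at h2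
    have h3 : σ i = i + -τ 0 := by linear_combination -h2
    rw [h3] at h1
    exact h1
  · refine ⟨τ 0 + 2, Or.inr (fun i => ?_)⟩
    have h1 := hσ i
    have h2 := hd (σ i)
    rw [hτ1 i] at h2
    have h3 : σ i = τ 0 + 2 - i - 2 := by linear_combination h2
    have h4' : σ i + 2 = τ 0 + 2 - i := by linear_combination h2
    rw [h4', h3] at h1
    exact h1

end Pool.Agent.Lib.MP_d4c67c_gt
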