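import Pool.Agent.Lib.MP_d4c67c_gt.E.TC
import Pool.Agent.Lib.MP_d4c67c_gt.Neg

/-!
# JOB EV: a seed is not mutation equivalent to its dual, on polygons, any parity

(You may use `E/A.lean`, `E/TD.lean`, `Rep.lean`, `Jac.lean`, which are other jobs; the proofs are those of
`Dens.lean` and `Neg.lean`, with the frieze variety replaced by the space of sequences `b`.)
-/

namespace Pool.Agent.Lib.MP_d4c67c_gt

open MvPolynomial

variable {k : Type*} [Field k]

private theorem EV_nU (t : ℕ) : nU wD t = 0 := by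
  induction t with
  | zero => rfl
  | succ t ih => simp [nU, ih]

private theorem EV_nD (t : ℕ) : nD wD t = t := by
  induction t with
  | zero => rfl
  | succ t ih => simp [nD, ih]

private theorem EV_neg_val (l j : ℕ) (h1 : 1 ≤ j) (h2 : j ≤ l + 1) :
    (-((j : ℕ) : ZMod (l + 2))).val = l + 2 - j := by
  have e : -((j : ℕ) : ZMod (l + 2)) = ((l + 2 - j : ℕ) : ZMod (l + 2)) := by
    have h3 : ((l + 2 - j : ℕ) : ZMod (l + 2)) + ((j : ℕ) : ZMod (l + 2)) = 0 := by
      rw [← Nat.cast_add, show l + 2 - j + j = l + 2 by omega]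
      exact ZMod.natCast_self (l + 2)
    exact (eq_neg_of_add_eq_zero_left h3).symm
  rw [e]
  exact ZMod.val_natCast_of_lt (by omega)

private theorem EV_det_zero (l : ℕ) (b : Fin l → k) (i : ZMod (l + 2)) :
    det2 (pv b 0) (pv b i) = (Ws (sq b) i.val).2 := by
  have h : pv b 0 = wv b 0 := by
    unfold pv
    rw [ZMod.val_zero]
  rw [h]
  exact det2_wv_zero b i.val

/-- `t = 0`, `b = -(a+2)`, `P = b + 1`, `Q = b - 1`; the label `-j` is `l + 2 - j`; all the edges used have determinant `1`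
(`edge_eq`), and `det2 (pv b 0) (pv b i) = (Ws (sq b) i.val).2` -/
theorem Tv_fan (l : ℕ) (b : Fin l → k) (a : Fin (l - 1)) :
    (Tv l (-1) wD (pv b)).y a = (Ws (sq b) (l - 1 - a.val)).2 / (Ws (sq b) (l + 1 - a.val)).2 := by
  have ha := a.isLt
  have h1 : (Tv l (-1) wD (pv b)).y a =
      det2 (pv b (-1 + 1 + (nU wD (a + 1) : ZMod (l + 2))))
        (pv b (-1 - (nD wD (a + 1) : ZMod (l + 2)) - 1)) *
      det2 (pv b (-1 - (nD wD (a + 1) : ZMod (l + 2))))
        (pv b (-1 - (nD wD (a + 1) : ZMod (l + 2)) + 1)) /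
      (det2 (pv b (-1 - (nD wD (a + 1) : ZMod (l + 2)) - 1))
          (pv b (-1 - (nD wD (a + 1) : ZMod (l + 2)))) *
       det2 (pv b (-1 + 1 + (nU wD (a + 1) : ZMod (l + 2))))
        (pv b (-1 - (nD wD (a + 1) : ZMod (l + 2)) + 1))) := rfl
  rw [h1, EV_nU, EV_nD]
  have e1 : (-1 + 1 + ((0 : ℕ) : ZMod (l + 2))) = 0 := by push_cast; ring
  have e2 : (-1 - ((a.val + 1 : ℕ) : ZMod (l + 2)) - 1) = -((a.val + 3 : ℕ) : ZMod (l + 2)) := by
    push_cast; ring
  have e3 : (-1 - ((a.val + 1 : ℕ) : ZMod (l + 2)) + 1) = -((a.val + 1 : ℕ) : ZMod (l + 2)) := by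
    push_cast; ring
  have e4 : (-1 - ((a.val + 1 : ℕ) : ZMod (l + 2))) = -((a.val + 2 : ℕ) : ZMod (l + 2)) := by
    push_cast; ring
  have o1 := edge_eq b (-1 - ((a.val + 1 : ℕ) : ZMod (l + 2)))
  have o2 := edge_eq b (-1 - ((a.val + 1 : ℕ) : ZMod (l + 2)) - 1)
  rw [sub_add_cancel] at o2
  rw [if_neg (by rw [e4, EV_neg_val l _ (by omega) (by omega)]; omega)] at o1
  rw [if_neg (by rw [e2, EV_neg_val l _ (by omega) (by omega)]; omega)] at o2
  rw [o1, o2, e1, e2, e3, mul_one, one_mul, EV_det_zero, EV_det_zero,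
    EV_neg_val l _ (by omega) (by omega), EV_neg_val l _ (by omega) (by omega)]
  have e5 : l + 2 - (a.val + 3) = l - 1 - a.val := by omega
  have e6 : l + 2 - (a.val + 1) = l + 1 - a.val := by omega
  rw [e5, e6]

/-- any nonzero values `g 2, …, g (l+1)` (with `g 0 = 0`, `g 1 = 1`) are the second coordinates of a path:
`b i = (g (i+2) + g i) / g (i+1)` -/
theorem path_surj (l : ℕ) (g : ℕ → k) (h0 : g 0 = 0) (h1 : g 1 = 1) (hg : ∀ i, 1 ≤ i → i ≤ l + 1 → g i ≠ 0) :
    ∃ b : Fin l → k, ∀ i, i ≤ l + 1 → (Ws (sq b) i).2 = g i := by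
  refine ⟨fun i => (g (i.val + 2) + g i.val) / g (i.val + 1), fun i => ?_⟩
  induction i using Nat.strong_induction_on with
  | _ i ih =>
    match i, ih with
    | 0, _ => intro _; rw [h0]; rfl
    | 1, _ => intro _; rw [h1]; rfl
    | (n + 2), ih =>
      intro hn
      have ih1 := ih (n + 1) (by omega) (by omega)
      have ih2 := ih n (by omega) (by omega)
      have hs : sq (fun i : Fin l => (g (i.val + 2) + g i.val) / g (i.val + 1)) n =
          (g (n + 2) + g n) / g (n + 1) := by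
        unfold sq
        rw [dif_pos (by omega)]
      simp only [Ws]
      rw [ih1, ih2, hs, div_mul_cancel₀ _ (hg (n + 1) (by omega) (by omega))]
      ring

private noncomputable def EV_G (Y : ℕ → k) : ℕ → k
  | 0 => 0
  | 1 => 1
  | 2 => 1
  | (j + 3) => EV_G Y (j + 1) / Y (j + 1)

private theorem EV_G_ne (Y : ℕ → k) (hY : ∀ a, Y a ≠ 0) (n : ℕ) : EV_G Y (n + 1) ≠ 0 := by
  induction n using Nat.strong_induction_on with
  | _ n ih =>
    match n, ih with
    | 0, _ => simp [EV_G]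
    | 1, _ => simp [EV_G]
    | (n + 2), ih =>
      have h := ih n (by omega)
      have e : EV_G Y (n + 2 + 1) = EV_G Y (n + 1) / Y (n + 1) := rfl
      rw [e]
      exact div_ne_zero h (hY _)

/-- `g 1 = g 2 = 1`, `g (j+2) = g j / y (l-1-j)` for `1 ≤ j ≤ l - 1` -/
theorem fanV_surj (l : ℕ) (y : Fin (l - 1) → k) (hy : ∀ a, y a ≠ 0) :
    ∃ b : Fin l → k, (∀ i, 1 ≤ i → i ≤ l + 1 → (Ws (sq b) i).2 ≠ 0) ∧ (Tv l (-1) wD (pv b)).y = y := by
  obtain ⟨Y, hYd⟩ : ∃ Y : ℕ → k, ∀ j, Y j = if h : l - 1 - j < l - 1 then y ⟨l - 1 - j, h⟩ else 1 :=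
    ⟨_, fun _ => rfl⟩
  have hY : ∀ a, Y a ≠ 0 := by
    intro a
    rw [hYd]
    split_ifs with h
    · exact hy _
    · exact one_ne_zero
  have hG : ∀ i, 1 ≤ i → EV_G Y i ≠ 0 := by
    intro i hi
    obtain ⟨j, rfl⟩ : ∃ j, i = j + 1 := ⟨i - 1, by omega⟩
    exact EV_G_ne Y hY j
  obtain ⟨b, hb⟩ := path_surj l (EV_G Y) rfl rfl (fun i h1 _ => hG i h1)
  refine ⟨b, ?_, ?_⟩
  · intro i h1 h2
    rw [hb i h2]
    exact hG i h1
  · funext a
    have ha := a.isLt
    rw [Tv_fan, hb _ (by omega), hb _ (by omega)]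
    obtain ⟨j, hj⟩ : ∃ j, l - 1 - a.val = j + 1 := ⟨l - 1 - a.val - 1, by omega⟩
    have e : l + 1 - a.val = j + 3 := by omega
    rw [hj, e]
    have e1 : EV_G Y (j + 3) = EV_G Y (j + 1) / Y (j + 1) := rfl
    have e2 : Y (j + 1) = y a := by
      rw [hYd, dif_pos (by omega)]
      congr 1
      apply Fin.ext
      show l - 1 - (j + 1) = a.val
      omega
    rw [e1, e2, div_div_cancel₀ (hG (j + 1) (by omega))]

/-- the minor of the polynomial path -/
private noncomputable def EV_P (k : Type*) [Field k] (l i j : ℕ) : MvPolynomial (Fin l) k :=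
  (Ws (vr k l) i).1 * (Ws (vr k l) j).2 - (Ws (vr k l) i).2 * (Ws (vr k l) j).1

private theorem EV_P_eval (l i j : ℕ) (b : Fin l → k) :
    eval b (EV_P k l i j) = (Ws (sq b) i).1 * (Ws (sq b) j).2 - (Ws (sq b) i).2 * (Ws (sq b) j).1 := by
  have h1 := Ws_sq_aeval (k := k) (S := k) b i
  have h2 := Ws_sq_aeval (k := k) (S := k) b j
  rw [h1, h2]
  unfold EV_P
  rw [map_sub, map_mul, map_mul]
  rfl

private theorem EV_two (l i : ℕ) (hi : i ≤ l + 1) :
    Ws (sq (fun _ : Fin l => (2 : k))) i = (1 - (i : k), (i : k)) := by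
  induction i using Nat.strong_induction_on with
  | _ i ih =>
    match i, ih, hi with
    | 0, _, _ => simp [Ws]
    | 1, _, _ => simp [Ws]
    | (n + 2), ih, hi =>
      have h1 := ih (n + 1) (by omega) (by omega)
      have h2 := ih n (by omega) (by omega)
      have hs : sq (fun _ : Fin l => (2 : k)) n = 2 := by
        unfold sq
        rw [dif_pos (by omega)]
      simp only [Ws, h1, h2, hs, Prod.mk.injEq]
      push_cast
      constructor <;> ring

private theorem EV_P_ne [CharZero k] (l i j : ℕ) (hi : i ≤ l + 1) (hj : j ≤ l + 1) (hij : i ≠ j) :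
    EV_P k l i j ≠ 0 := by
  intro h0
  have h1 := EV_P_eval l i j (fun _ : Fin l => (2 : k))
  rw [h0, map_zero, EV_two l i hi, EV_two l j hj] at h1
  apply hij
  have h2 : (i : k) = (j : k) := by
    linear_combination h1
  exact_mod_cast h2

/-- Polynomials in the coordinates of the fan seed, times a power of a product of entries, are polynomials. -/
private theorem EV_poly (l : ℕ) (H : MvPolynomial (Fin (l - 1)) k) :
    ∃ (M : ℕ) (h : MvPolynomial (Fin l) k), ∀ b : Fin l → k,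
      (∀ i, 1 ≤ i → i ≤ l + 1 → (Ws (sq b) i).2 ≠ 0) →
      eval b h = eval (Tv l (-1) wD (pv b)).y H *
        (∏ a : Fin (l - 1), (Ws (sq b) (l + 1 - a.val)).2) ^ M := by
  classical
  have hW : ∀ (b : Fin l → k) (i : ℕ), eval b (Ws (vr k l) i).2 = (Ws (sq b) i).2 := by
    intro b i
    rw [Ws_sq_aeval (k := k) (S := k) b i]
    rfl
  obtain ⟨D, hD⟩ : ∃ D : MvPolynomial (Fin l) k,
      D = ∏ a : Fin (l - 1), (Ws (vr k l) (l + 1 - a.val)).2 := ⟨_, rfl⟩
  have hDF : ∀ b : Fin l → k, eval b D = ∏ a : Fin (l - 1), (Ws (sq b) (l + 1 - a.val)).2 := by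
    intro b
    rw [hD, map_prod]
    exact Finset.prod_congr rfl fun a _ => hW b _
  induction H using MvPolynomial.induction_on with
  | C c =>
    refine ⟨0, C c, fun b _ => ?_⟩
    rw [pow_zero, mul_one, eval_C, eval_C]
  | add p q hp hq =>
    obtain ⟨M₁, h₁, hh₁⟩ := hp
    obtain ⟨M₂, h₂, hh₂⟩ := hq
    refine ⟨M₁ + M₂, h₁ * D ^ M₂ + h₂ * D ^ M₁, fun b hb => ?_⟩
    rw [map_add, map_mul, map_mul, map_pow, map_pow, hDF, hh₁ b hb, hh₂ b hb, map_add, pow_add]
    ring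
  | mul_X p a hp =>
    obtain ⟨M, h, hh⟩ := hp
    refine ⟨M + 1, h * (Ws (vr k l) (l - 1 - a.val)).2 *
      ∏ a' ∈ Finset.univ.erase a, (Ws (vr k l) (l + 1 - a'.val)).2,
      fun b hb => ?_⟩
    have ha := a.isLt
    have hne : (Ws (sq b) (l + 1 - a.val)).2 ≠ 0 := hb _ (by omega) (by omega)
    have hy : (Tv l (-1) wD (pv b)).y a * (Ws (sq b) (l + 1 - a.val)).2 =
        (Ws (sq b) (l - 1 - a.val)).2 := by
      rw [Tv_fan, div_mul_cancel₀ _ hne]
    have hp1 : ∏ a' ∈ Finset.univ.erase a, eval b (Ws (vr k l) (l + 1 - a'.val)).2 =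
        ∏ a' ∈ Finset.univ.erase a, (Ws (sq b) (l + 1 - a'.val)).2 :=
      Finset.prod_congr rfl fun a' _ => hW b _
    have hp2 : (Ws (sq b) (l + 1 - a.val)).2 *
        ∏ a' ∈ Finset.univ.erase a, (Ws (sq b) (l + 1 - a'.val)).2 =
        ∏ a' : Fin (l - 1), (Ws (sq b) (l + 1 - a'.val)).2 :=
      Finset.mul_prod_erase Finset.univ
        (fun a' : Fin (l - 1) => (Ws (sq b) (l + 1 - a'.val)).2) (Finset.mem_univ a)
    rw [map_mul, map_mul, map_prod, hp1, hW, hh b hb, map_mul, eval_X, ← hy, pow_succ, ← hp2]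
    ring

/-- Density.  There is a polynomial `G0 ≠ 0` with `eval b G0 ≠ 0 → Kv b ≠ 0 ∧ GenV (pv b)`: the product of all
`(Ws i).1 * (Ws j).2 - (Ws i).2 * (Ws j).1`, `0 ≤ i < j ≤ l + 1`, each not zero, since at `b = (2, …, 2)` the path is
`(1 - i, i)` and the value is `j - i`; `K` is the factor `(0, l+1)`.  There are a polynomial `h` and `M` with
`eval b h = eval (y b) H * (∏_{1 ≤ i ≤ l+1} q i)^M` whenever all `q i (b) ≠ 0` (induction on `H`, `Tv_fan`), and `h ≠ 0` by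
`fanV_surj` (`H * ∏ X ≠ 0`).  Then `H0 * G0 * h ≠ 0` has a nonzero value (`MvPolynomial.funext`). -/
theorem densV [CharZero k] (l : ℕ) (H0 : MvPolynomial (Fin l) k) (hH0 : H0 ≠ 0)
    (H : MvPolynomial (Fin (l - 1)) k) (hH : H ≠ 0) :
    ∃ b : Fin l → k, Kv b ≠ 0 ∧ eval b H0 ≠ 0 ∧ GenV (pv b) ∧ eval (Tv l (-1) wD (pv b)).y H ≠ 0 := by
  classical
  have hinf : Infinite k := CharZero.infinite k
  have h1 : H * ∏ i : Fin (l - 1), X i ≠ 0 :=
    mul_ne_zero hH (Finset.prod_ne_zero_iff.2 fun i _ => X_ne_zero i)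
  obtain ⟨y, hy⟩ : ∃ y : Fin (l - 1) → k, eval y (H * ∏ i : Fin (l - 1), X i) ≠ 0 := by
    by_contra hcon
    push Not at hcon
    apply h1
    refine MvPolynomial.funext fun y => ?_
    rw [hcon y, map_zero]
  rw [map_mul, map_prod] at hy
  have hy1 : eval y H ≠ 0 := left_ne_zero_of_mul hy
  have hy2 : ∀ i, y i ≠ 0 := by
    intro i
    have h2 := Finset.prod_ne_zero_iff.1 (right_ne_zero_of_mul hy) i (Finset.mem_univ i)
    rwa [eval_X] at h2
  obtain ⟨b0, hb0, hb0y⟩ := fanV_surj l y hy2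
  obtain ⟨M, h, hh⟩ := EV_poly l H
  have hh0 : h ≠ 0 := by
    rintro rfl
    have h2 := hh b0 hb0
    rw [map_zero, hb0y] at h2
    exact (mul_ne_zero hy1 (pow_ne_zero M (Finset.prod_ne_zero_iff.2
      fun a _ => hb0 _ (by have := a.isLt; omega) (by omega)))) h2.symm
  have hP : h * H0 * ∏ p ∈ Finset.univ.filter (fun p : Fin (l + 2) × Fin (l + 2) => p.1 ≠ p.2),
      EV_P k l p.1.val p.2.val ≠ 0 := by
    refine mul_ne_zero (mul_ne_zero hh0 hH0) (Finset.prod_ne_zero_iff.2 fun p hp => ?_)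
    have hp1 := p.1.isLt
    have hp2 := p.2.isLt
    exact EV_P_ne l p.1.val p.2.val (by omega) (by omega)
      (fun e => (Finset.mem_filter.1 hp).2 (Fin.ext e))
  obtain ⟨b, hb⟩ : ∃ b : Fin l → k, eval b (h * H0 *
      ∏ p ∈ Finset.univ.filter (fun p : Fin (l + 2) × Fin (l + 2) => p.1 ≠ p.2),
        EV_P k l p.1.val p.2.val) ≠ 0 := by
    by_contra hcon
    push Not at hcon
    apply hP
    refine MvPolynomial.funext fun b => ?_
    rw [hcon b, map_zero]
  rw [map_mul, map_mul, map_prod] at hb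
  have hgen : ∀ i j : ℕ, i ≤ l + 1 → j ≤ l + 1 → i ≠ j →
      (Ws (sq b) i).1 * (Ws (sq b) j).2 - (Ws (sq b) i).2 * (Ws (sq b) j).1 ≠ 0 := by
    intro i j hi hj hij
    have h2 := Finset.prod_ne_zero_iff.1 (right_ne_zero_of_mul hb)
      ((⟨i, by omega⟩, ⟨j, by omega⟩) : Fin (l + 2) × Fin (l + 2))
      (Finset.mem_filter.2 ⟨Finset.mem_univ _, fun e => hij (congrArg Fin.val e)⟩)
    rwa [EV_P_eval] at h2
  have hb1 := left_ne_zero_of_mul hb
  have hq : ∀ i, 1 ≤ i → i ≤ l + 1 → (Ws (sq b) i).2 ≠ 0 := by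
    intro i h1 h2 h3
    apply hgen 0 i (by omega) h2 (by omega)
    rw [h3]
    simp [Ws]
  refine ⟨b, hq (l + 1) (by omega) le_rfl, right_ne_zero_of_mul hb1, ?_, fun h0 => ?_⟩
  · intro i j hij
    have hi := ZMod.val_lt i
    have hj := ZMod.val_lt j
    exact hgen i.val j.val (by omega) (by omega) (fun e => hij (ZMod.val_injective _ e))
  · have h2 := hh b hq
    rw [h0, zero_mul] at h2
    exact left_ne_zero_of_mul hb1 h2

private theorem EV_epsW_anti (r : ℕ) (i j : Fin r) : epsW r wD j i = - epsW r wD i j := by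
  unfold epsW
  by_cases h1 : j.val = i.val + 1
  · have h2 : ¬ (i.val = j.val + 1) := by omega
    rw [if_neg h2, if_pos h1, if_pos h1]
    simp
  · by_cases h2 : i.val = j.val + 1
    · rw [if_pos h2, if_neg h1, if_pos h2]
      simp
    · rw [if_neg h2, if_neg h1, if_neg h1, if_neg h2]
      simp

private theorem EV_T (l : ℕ) (v : ZMod (l + 2) → Fin 2 → k) :
    Tv l (-1) wD v = ⟨epsW (l - 1) wD, (Tv l (-1) wD v).y⟩ := rfl

/-- two seed sequences which are inverse to each other at all generic points are inverse to each other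
at all positive real points -/
private theorem EV_log [CharZero k] (l : ℕ) (H0 : MvPolynomial (Fin l) k) (hH0 : H0 ≠ 0)
    (L L' : List (Fin (l - 1))) (e : Fin (l - 1) ≃ Fin (l - 1))
    (hyp : ∀ b : Fin l → k, Kv b ≠ 0 → eval b H0 ≠ 0 → GenV (pv b) →
      ((Tv l (-1) wD (pv b)).muts L).relabel e = ((Tv l (-1) wD (pv b)).muts L').anti)
    (i : Fin (l - 1)) (y : Fin (l - 1) → ℝ) (hy : ∀ b, 0 < y b) :
    Real.log (((⟨epsW (l - 1) wD, y⟩ : Seed ℝ (l - 1)).muts L).y (e.symm i))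
      = - Real.log (((⟨epsW (l - 1) wD, y⟩ : Seed ℝ (l - 1)).muts L').y i) := by
  obtain ⟨a, b, D, hD, hk, hr⟩ := rep k (epsW (l - 1) wD) L
  obtain ⟨a', b', D', hD', hk', hr'⟩ := rep k (epsW (l - 1) wD) L'
  have key : a (e.symm i) * a' i - b (e.symm i) * b' i = 0 := by
    by_contra hne
    have hP : (a (e.symm i) * a' i - b (e.symm i) * b' i) * D * D' ≠ 0 :=
      mul_ne_zero (mul_ne_zero hne hD) hD'
    have hH : MvPolynomial.map (Int.castRingHom k)
        ((a (e.symm i) * a' i - b (e.symm i) * b' i) * D * D') ≠ 0 := by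
      intro h0
      apply hP
      apply MvPolynomial.map_injective (Int.castRingHom k) (RingHom.injective_int _)
      rw [h0, map_zero]
    obtain ⟨F, hF1, hF2, hF3, hev⟩ := densV l H0 hH0 _ hH
    obtain ⟨z, hz⟩ : ∃ z, z = (Tv l (-1) wD (pv F)).y := ⟨_, rfl⟩
    have hconv : ∀ p : MvPolynomial (Fin (l - 1)) ℤ,
        eval z (MvPolynomial.map (Int.castRingHom k) p) = aeval z p := by
      intro p
      rw [eval_map]
      rfl
    rw [← hz, hconv, map_mul, map_mul, map_sub, map_mul, map_mul] at hev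
    have hev1 : aeval z D ≠ 0 := by
      intro h0
      apply hev
      rw [h0]
      ring
    have hev2 : aeval z D' ≠ 0 := by
      intro h0
      apply hev
      rw [h0]
      ring
    obtain ⟨p1, p2, p3⟩ := hk z hev1 (e.symm i)
    obtain ⟨p1', p2', p3'⟩ := hk' z hev2 i
    have hs := congrFun (congrArg Seed.y (hyp F hF1 hF2 hF3)) i
    rw [EV_T] at hs
    rw [← hz] at hs
    change ((⟨epsW (l - 1) wD, z⟩ : Seed k (l - 1)).muts L).y (e.symm i) =
      (((⟨epsW (l - 1) wD, z⟩ : Seed k (l - 1)).muts L').y i)⁻¹ at hs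
    rw [p3, p3', inv_div, div_eq_div_iff p2 p1'] at hs
    apply hev
    rw [hs]
    ring
  obtain ⟨-, q⟩ := hr y hy
  obtain ⟨q1, q2, q3⟩ := q (e.symm i)
  obtain ⟨-, q'⟩ := hr' y hy
  obtain ⟨q1', q2', q3'⟩ := q' i
  have h1 := congrArg (aeval y : MvPolynomial (Fin (l - 1)) ℤ → ℝ) key
  rw [map_sub, map_mul, map_mul, map_zero, sub_eq_zero] at h1
  rw [q3, q3', ← Real.log_inv, inv_div]
  congr 1
  rw [div_eq_div_iff q2.ne' q1'.ne', h1]
  ring

/-- as `no_anti` -/
theorem no_antiV [CharZero k] (l : ℕ) (h3 : 3 ≤ l) (H0 : MvPolynomial (Fin l) k) (hH0 : H0 ≠ 0)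
    (L L' : List (Fin (l - 1))) (e : Fin (l - 1) ≃ Fin (l - 1)) (w'' : ℕ → Bool)
    (hyp : ∀ b : Fin l → k, Kv b ≠ 0 → eval b H0 ≠ 0 → GenV (pv b) →
      ((Tv l (-1) wD (pv b)).muts L).relabel e = ((Tv l (-1) wD (pv b)).muts L').anti ∧
      ((Tv l (-1) wD (pv b)).muts L').ε = epsW (l - 1) w'') : False := by
  have hlog := EV_log l H0 hH0 L L' e (fun F h1 h2 h3 => (hyp F h1 h2 h3).1)
  obtain ⟨J, hJ1, hJ2⟩ := jac (epsW (l - 1) wD) (EV_epsW_anti (l - 1)) L
  obtain ⟨J', hJ1', hJ2'⟩ := jac (epsW (l - 1) wD) (EV_epsW_anti (l - 1)) L'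
  have hJJ : ∀ i a, J (e.symm i) a = - J' i a := by
    intro i a
    have h1 := hJ1 (e.symm i) a
    have h2 := (hJ1' i a).neg
    have hfun : (fun s : ℝ => Real.log (((⟨epsW (l - 1) wD, fun b => if b = a then Real.exp s else 1⟩ :
          Seed ℝ (l - 1)).muts L).y (e.symm i))) =
        -(fun s : ℝ => Real.log (((⟨epsW (l - 1) wD, fun b => if b = a then Real.exp s else 1⟩ :
          Seed ℝ (l - 1)).muts L').y i)) := by
      funext s
      rw [Pi.neg_apply]
      refine hlog i _ (fun b => ?_)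
      by_cases hb : b = a
      · rw [if_pos hb]
        exact Real.exp_pos s
      · rw [if_neg hb]
        exact one_pos
    rw [hfun] at h1
    exact h1.unique h2
  obtain ⟨i, hi⟩ : ∃ i : Fin (l - 1), i.val = 0 := ⟨⟨0, by omega⟩, rfl⟩
  obtain ⟨j, hj⟩ : ∃ j : Fin (l - 1), j.val = 1 := ⟨⟨1, by omega⟩, rfl⟩
  obtain ⟨F, hF1, hF2, hF3, -⟩ := densV l H0 hH0 1 one_ne_zero
  obtain ⟨hs, hw⟩ := hyp F hF1 hF2 hF3
  have e1 : ((⟨epsW (l - 1) wD, fun _ => (1 : ℝ)⟩ : Seed ℝ (l - 1)).muts L).ε =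
      ((Tv l (-1) wD (pv F)).muts L).ε := by
    rw [EV_T]
    exact muts_eps _ _ _ L
  have e2 : ((⟨epsW (l - 1) wD, fun _ => (1 : ℝ)⟩ : Seed ℝ (l - 1)).muts L').ε =
      ((Tv l (-1) wD (pv F)).muts L').ε := by
    rw [EV_T]
    exact muts_eps _ _ _ L'
  have h1 := hJ2 (e.symm i) (e.symm j)
  have h2 := hJ2' i j
  have h3' : ∑ a, ∑ b, J (e.symm i) a * (epsW (l - 1) wD a b : ℝ) * J (e.symm j) b =
      ∑ a, ∑ b, J' i a * (epsW (l - 1) wD a b : ℝ) * J' j b := by
    refine Finset.sum_congr rfl fun a _ => Finset.sum_congr rfl fun b _ => ?_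
    rw [hJJ, hJJ]
    ring
  rw [h1, h2, e1, e2] at h3'
  have h4 : ((Tv l (-1) wD (pv F)).muts L).ε (e.symm i) (e.symm j) =
      - ((Tv l (-1) wD (pv F)).muts L').ε i j :=
    congrFun (congrFun (congrArg Seed.ε hs) i) j
  have h5 : ((Tv l (-1) wD (pv F)).muts L).ε (e.symm i) (e.symm j) =
      ((Tv l (-1) wD (pv F)).muts L').ε i j := by
    exact_mod_cast h3'
  have h6 : ((Tv l (-1) wD (pv F)).muts L').ε i j = epsW (l - 1) w'' i j := by
    rw [hw]
  have h7 : epsW (l - 1) w'' i j ≠ 0 := by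
    unfold epsW
    rw [if_pos (by omega)]
    split_ifs <;> norm_num
  omega

end Pool.Agent.Lib.MP_d4c67c_gt
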