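import Pool.Agent.Lib.MP_d4c67c_gt.E.S
import Pool.Agent.Lib.MP_d4c67c_gt.E.V
import Pool.Agent.Lib.MP_d4c67c_gt.E.I

/-!
# JOB EP: affine relations between polygons, generic function, abstract positive and negative parts

(You may use all files `E/*.lean`, which are other jobs.)
-/

open scoped LinearAlgebra.Projectivization

namespace Pool.Agent.Lib.MP_d4c67c_gt

open MvPolynomial

universe u

variable {k : Type u} [Field k] {m n m' n' m'' n'' : ℕ}

/-- `q` is obtained from `p` by the substitution `i ↦ s i + c` of labels -/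
def AffV (s c : ℤ) (p : Cfg k m n) (q : Cfg k m' n') : Prop :=
  ∃ v v', Lft p v ∧ Lft q v' ∧
    ∀ i : ℤ, v' (i : ZMod (m' + n' + 2)) = v ((s * i + c : ℤ) : ZMod (m + n + 2))

private theorem EP_smul (p : Cfg k m n) (v w : ZMod (m + n + 2) → Fin 2 → k) (hv : Lft p v) (hw : Lft p w) :
    ∃ (g : LinearMap.GeneralLinearGroup k (Fin 2 → k)) (μ : ZMod (m + n + 2) → k),
      (∀ i, μ i ≠ 0) ∧ ∀ i, w i = μ i • (g • v i) := by
  obtain ⟨g1, hg1⟩ := hv
  obtain ⟨g2, hg2⟩ := hw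
  have hex : ∀ s, ∃ a : k, a ≠ 0 ∧ a • ((g2 * g1⁻¹) • v s) = w s := by
    intro s
    obtain ⟨h1, h2⟩ := hg1 s
    obtain ⟨h3, h4⟩ := hg2 s
    have h5 : (g2 * g1⁻¹) • Projectivization.mk k (v s) h1 = Projectivization.mk k (w s) h3 := by
      rw [← h2, ← h4, mul_smul, inv_smul_smul]
    rw [Projectivization.smul_mk] at h5
    have h6 := h5.symm
    rw [Projectivization.mk_eq_mk_iff'] at h6
    obtain ⟨a, ha⟩ := h6
    refine ⟨a, ?_, ha⟩
    rintro rfl
    rw [zero_smul] at ha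
    exact h3 ha.symm
  choose μ hμ hμw using hex
  exact ⟨g2 * g1⁻¹, μ, hμ, fun i => (hμw i).symm⟩

private theorem EP_smul_Lft (p : Cfg k m n) (v : ZMod (m + n + 2) → Fin 2 → k) (hv : Lft p v)
    (g : LinearMap.GeneralLinearGroup k (Fin 2 → k))
    (μ : ZMod (m + n + 2) → k) (hμ : ∀ i, μ i ≠ 0) : Lft p (fun i => μ i • (g • v i)) := by
  obtain ⟨g1, hg1⟩ := hv
  refine ⟨g * g1, fun i => ?_⟩
  obtain ⟨h1, e1⟩ := hg1 i
  have h2 : g • v i ≠ 0 := by
    intro h
    apply h1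
    have := congrArg (fun x => g⁻¹ • x) h
    simpa using this
  refine ⟨smul_ne_zero (hμ i) h2, ?_⟩
  rw [mul_smul, e1, Projectivization.smul_mk]
  exact ((Projectivization.mk_eq_mk_iff' k _ _ (smul_ne_zero (hμ i) h2) h2).2 ⟨μ i, rfl⟩).symm

/-- Composition.  `v1` and `v2` are both families of vectors on the lines of `r`, so `v2 i = μ i • v1 i`.  Then
`v' i = v2 (s' i + c') = μ (s' i + c') • v (s (s' i + c') + c)`; replace `v` by `j ↦ μ (s (j - c)) • v j`
(`s * s = 1`, so `j = s x + c` iff `x = s (j - c)`; labels in `ZMod (m+n+2)` and `ZMod (m'+n'+2)`, `m' + n' = m + n`). -/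
theorem AffV.comp {s c s' c' : ℤ} (hs : s * s = 1) (hl : m' + n' = m + n) {p : Cfg k m n}
    {r : Cfg k m' n'} {q : Cfg k m'' n''} (h : AffV s c p r) (h' : AffV s' c' r q) :
    AffV (s * s') (s * c' + c) p q := by
  obtain ⟨v, v', hv, hv', hvv⟩ := h
  obtain ⟨u, u', hu, hu', huu⟩ := h'
  obtain ⟨g, μ, hμ, hμu⟩ := EP_smul r v' u hv' hu
  refine ⟨fun j => μ ((s * ((j.val : ℤ) - c) : ℤ) : ZMod (m' + n' + 2)) • (g • v j), u',
    EP_smul_Lft p v hv g _ (fun j => hμ _), hu', fun i => ?_⟩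
  have e1 : (((s * s' * i + (s * c' + c) : ℤ) : ZMod (m + n + 2)).val : ℤ) =
      (s * s' * i + (s * c' + c)) % ((m + n + 2 : ℕ) : ℤ) := ZMod.val_intCast _
  have e2 : ((s * ((((s * s' * i + (s * c' + c) : ℤ) : ZMod (m + n + 2)).val : ℤ) - c) : ℤ) : ZMod (m' + n' + 2)) =
      ((s' * i + c' : ℤ) : ZMod (m' + n' + 2)) := by
    rw [e1]
    rw [ZMod.intCast_eq_intCast_iff_dvd_sub]
    have e3 := Int.emod_add_mul_ediv (s * s' * i + (s * c' + c)) ((m + n + 2 : ℕ) : ℤ)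
    refine ⟨s * ((s * s' * i + (s * c' + c)) / ((m + n + 2 : ℕ) : ℤ)), ?_⟩
    have e4 : ((m' + n' + 2 : ℕ) : ℤ) = ((m + n + 2 : ℕ) : ℤ) := by rw [hl]
    rw [e4]
    linear_combination (-s) * e3 - (s' * i + c') * hs
  change u' (i : ZMod (m'' + n'' + 2)) = _
  rw [huu i, hμu, hvv (s' * i + c')]
  change _ = μ ((s * ((((s * s' * i + (s * c' + c) : ℤ) : ZMod (m + n + 2)).val : ℤ) - c) : ℤ) : ZMod (m' + n' + 2)) •
    (g • v ((s * s' * i + (s * c' + c) : ℤ) : ZMod (m + n + 2)))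
  rw [e2]
  have e5 : s * (s' * i + c') + c = s * s' * i + (s * c' + c) := by ring
  rw [e5]

/-- product of all `c_ij`, `i ≠ j` -/
noncomputable def allc (k : Type u) [Field k] (m n : ℕ) : Reg k m n :=
  ∏ i : ZMod (m + n + 2), ∏ j : ZMod (m + n + 2), if i = j then 1 else cR i j

/-- `Reg_isDomain`, and a point with all flags different (`point_of_label` with `t i = i.val`), `cF_zero` -/
theorem allc_ne_zero [CharZero k] (h1 : 1 ≤ m + n) : allc k m n ≠ 0 := by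
  have hdom := Reg_isDomain (k := k) (m := m) (n := n)
  have hne : Nontrivial (ZMod (m + n + 2)) := ZMod.nontrivial_iff.2 (by omega)
  unfold allc
  rw [Finset.prod_ne_zero_iff]
  intro i _
  rw [Finset.prod_ne_zero_iff]
  intro j _
  by_cases h : i = j
  · rw [if_pos h]
    exact one_ne_zero
  · rw [if_neg h]
    obtain ⟨P, hP⟩ := point_of_label (k := k) (m := m) (n := n) (fun i => i.val) (by
      intro i h2
      have h3 := ZMod.val_injective (m + n + 2) h2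
      exact one_ne_zero (left_eq_add.1 h3))
    intro h0
    have h2 : cF i j P = 0 := by
      have h3 : (cR i j : Reg k m n).1 P = (0 : Reg k m n).1 P := by rw [h0]
      exact h3
    rcases (cF_zero i j P).1 h2 with h3 | h3
    · exact h (ZMod.val_injective (m + n + 2) ((hP i j).1 h3))
    · exact h (add_right_cancel (ZMod.val_injective (m + n + 2) ((hP (i + 1) (j + 1)).1 h3)))

/-- evaluation at a point -/
private def EP_ev (P : Conf k m n) : Reg k m n →ₐ[k] k :=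
  (Pi.evalAlgHom k (fun _ => k) P).comp (Reg k m n).val

theorem cF_of_allc (P : Conf k m n) (h : (allc k m n).1 P ≠ 0) (i j : ZMod (m + n + 2)) (hij : i ≠ j) :
    cF i j P ≠ 0 := by
  intro h0
  apply h
  have h1 : EP_ev P (allc k m n) = 0 := by
    unfold allc
    rw [map_prod]
    apply Finset.prod_eq_zero (Finset.mem_univ i)
    rw [map_prod]
    apply Finset.prod_eq_zero (Finset.mem_univ j)
    rw [if_neg hij]
    exact h0
  exact h1

/-- `cF_mk` -/
theorem GenV_of_allc (p : Cfg k m n) (v : ZMod (m + n + 2) → Fin 2 → k) (hv : Lft p v)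
    (h : (allc k m n).1 (Quotient.mk _ p) ≠ 0) : GenV v := by
  intro i j hij h0
  apply cF_of_allc (Quotient.mk _ p) h i j hij
  obtain ⟨δ, μ, hδ, hμ, hd⟩ := Lft_equiv (Setoid.refl p) hv (Lft_of p _ (ED_rep p))
  rw [(cF_mk p _ (ED_rep p) i j).1]
  unfold cFv
  rw [hd i j, h0, mul_zero, zero_mul, zero_div]

/-- after `subst`, `v' = fun i => v (i + c)` (`ZMod.intCast_surjective`), `Tv_rot` and `connV` -/
theorem rot_seedV {l l' : ℕ} (hl : l' = l) (hl2 : 2 ≤ l) (c : ℤ) (w w' : ℕ → Bool) :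
    ∃ (L : List (Fin (l - 1))) (e : Fin (l - 1) ≃ Fin (l' - 1)),
      ∀ (v : ZMod (l + 2) → Fin 2 → k) (v' : ZMod (l' + 2) → Fin 2 → k), GenV v →
        (∀ i : ℤ, v' (i : ZMod (l' + 2)) = v ((1 * i + c : ℤ) : ZMod (l + 2))) →
        ((Tv l (-1) w v).muts L).relabel e = Tv l' (-1) w' v' := by
  subst hl
  obtain ⟨L, hL⟩ := connV k l' hl2 (-1) (-1 + (c : ZMod (l' + 2))) w w'
  refine ⟨L, Equiv.refl _, ?_⟩
  intro v v' hv h
  have h1 : v' = fun i => v (i + (c : ZMod (l' + 2))) := by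
    funext i
    obtain ⟨i, rfl⟩ := ZMod.intCast_surjective i
    rw [h i]
    push_cast
    rw [one_mul]
  rw [h1, Tv_rot, hL v hv]
  rfl

private theorem EP_muts {r : ℕ} (s : Seed k r) (L L' : List (Fin r)) :
    s.muts (L ++ L') = (s.muts L).muts L' := by
  unfold Seed.muts
  rw [List.foldl_append]

private theorem EP_nU (m t : ℕ) : nU (fun i => decide (i < m)) t = min t m := by
  induction t with
  | zero => simp [nU]
  | succ t ih =>
    simp only [nU, ih]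
    by_cases h : t < m
    · simp only [h, decide_true, if_true]; omega
    · simp only [h, decide_false]
      simp only [Bool.false_eq_true, if_false]; omega

/-- Abstract negative part.  After `subst`, `v' = fun i => u (-i)` with `u j = v (j + c)`, so `Tv_refl`, `Tv_rot` give
`Tv _ (-1) w' v' = (Tv _ (-(-1) - 1 + c) (!w') v).anti`, and `Tv_scale` replaces `v` by `pv b`.  By `connV`
`Tv (-1) w (pv b) = (Tv (-1) wD (pv b)).muts L1` and `Tv (-(-1)-1+c) (!w') (pv b) = (Tv (-1) wD (pv b)).muts L2`; then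
`no_antiV` with `L1 ++ L`, `L2` (`muts` of an append). -/
theorem neg_absV [CharZero k] {l l' : ℕ} (hl : l' = l) (h3 : 3 ≤ l) (c : ℤ)
    (H0 : MvPolynomial (Fin l) k) (hH0 : H0 ≠ 0) (L : List (Fin (l - 1)))
    (e : Fin (l - 1) ≃ Fin (l' - 1)) (w w' : ℕ → Bool)
    (hyp : ∀ b : Fin l → k, Kv b ≠ 0 → eval b H0 ≠ 0 → GenV (pv b) →
      ∃ (v : ZMod (l + 2) → Fin 2 → k) (v' : ZMod (l' + 2) → Fin 2 → k) (δ : k) (μ : ZMod (l + 2) → k),
        δ ≠ 0 ∧ (∀ i, μ i ≠ 0) ∧ (∀ i j, det2 (v i) (v j) = δ * (μ i * μ j) * det2 (pv b i) (pv b j)) ∧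
        (∀ i : ℤ, v' (i : ZMod (l' + 2)) = v ((-1 * i + c : ℤ) : ZMod (l + 2))) ∧
        ((Tv l (-1) w (pv b)).muts L).relabel e = Tv l' (-1) w' v') : False := by
  subst hl
  obtain ⟨L1, hL1⟩ := connV k l' (by omega) (-1) (-1) wD w
  obtain ⟨L2, hL2⟩ := connV k l' (by omega) (-1) (-(-1) - 1 + (c : ZMod (l' + 2))) wD (fun i => !(w' i))
  refine no_antiV (k := k) l' h3 H0 hH0 (L1 ++ L) L2 e (fun i => !(w' i)) ?_
  intro b hb hH hG
  obtain ⟨v, v', δ, μ, hδ, hμ, hd, hvv, heq⟩ := hyp b hb hH hG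
  have h1 : v' = fun i => (fun j => v (j + (c : ZMod (l' + 2)))) (-i) := by
    funext i
    obtain ⟨i, rfl⟩ := ZMod.intCast_surjective i
    rw [hvv i]
    push_cast
    rw [neg_one_mul]
  have h2 : Tv l' (-1) w' v' = (Tv l' (-(-1) - 1 + (c : ZMod (l' + 2))) (fun i => !(w' i)) (pv b)).anti := by
    rw [h1]
    refine (Tv_refl l' (-1) w' (fun j => v (j + (c : ZMod (l' + 2))))).trans ?_
    rw [Tv_rot, Tv_scale _ _ _ (pv b) v δ μ hδ hμ hd]
  rw [EP_muts, hL1 _ hG, heq, hL2 _ hG, h2]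
  exact ⟨rfl, rfl⟩

/-- Positive part: words `U^m D^n`, `U^m' D^n'` (`nU (fun i => decide (i < m)) t = min t m`), function `g * allc`
(`Reg_isDomain`), `rot_seedV`, `seedOf_eqV`, `GenV_of_allc`. -/
theorem posE [CharZero k] (h3 : 3 ≤ m + n) (hl : m' + n' = m + n) (Φ : Conf k m n → Conf k m' n') (c : ℤ)
    (g : Reg k m n) (hg : g ≠ 0)
    (h : ∀ (p : Cfg k m n) (q : Cfg k m' n'), Φ (Quotient.mk _ p) = Quotient.mk _ q →
      g.1 (Quotient.mk _ p) ≠ 0 → AffV 1 c p q) : IsClusterPoisson Φ := by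
  have hdom := Reg_isDomain (k := k) (m := m) (n := n)
  obtain ⟨L, e, hL⟩ := rot_seedV (k := k) hl (by omega) c (fun i => decide (i < m))
    (fun i => decide (i < m'))
  have hw : nU (fun i => decide (i < m)) (m + n) = m := by rw [EP_nU]; omega
  have hw' : nU (fun i => decide (i < m')) (m' + n') = m' := by rw [EP_nU]; omega
  have hne : g * allc k m n ≠ 0 := mul_ne_zero hg (allc_ne_zero (by omega))
  refine ⟨fun i => decide (i < m), fun i => decide (i < m'), L, e, (g * allc k m n).1, hw, hw',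
    (g * allc k m n).2, ?_, ?_⟩
  · by_contra hcon
    push Not at hcon
    exact hne (Subtype.ext (funext hcon))
  · intro p q hpq hf
    have hf1 : g.1 (Quotient.mk _ p) ≠ 0 := fun h0 => hf (by
      have h1 : (g * allc k m n).1 (Quotient.mk _ p) =
        g.1 (Quotient.mk _ p) * (allc k m n).1 (Quotient.mk _ p) := rfl
      rw [h1, h0, zero_mul])
    have hf2 : (allc k m n).1 (Quotient.mk _ p) ≠ 0 := fun h0 => hf (by
      have h1 : (g * allc k m n).1 (Quotient.mk _ p) =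
        g.1 (Quotient.mk _ p) * (allc k m n).1 (Quotient.mk _ p) := rfl
      rw [h1, h0, mul_zero])
    obtain ⟨v, v', hv, hv', hvv⟩ := h p q hpq hf1
    rw [seedOf_eqV _ hw p v hv, seedOf_eqV _ hw' q v' hv']
    exact hL v v' (GenV_of_allc p v hv hf2) hvv

/-- Negative part: if `Φ` is cluster Poisson with data `w, w', L, e, f`, let `F = f * g * allc` in `Reg`, `F ≠ 0`,
`F [cfgB b] * K^e0 = H0(b)` (`reg_poly`), `H0 ≠ 0`; then `neg_absV` with `p = cfgB b`, `q` a representative of `Φ [p]`,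
`v, v'` from `AffV (-1) c p q`, `δ, μ` from `Lft_equiv` (`pt_cfgB`), `seedOf_eqV` for `pv b` and `v'`. -/
theorem negE [CharZero k] (h3 : 3 ≤ m + n) (hl : m' + n' = m + n) (Φ : Conf k m n → Conf k m' n') (c : ℤ)
    (g : Reg k m n) (hg : g ≠ 0)
    (h : ∀ (p : Cfg k m n) (q : Cfg k m' n'), Φ (Quotient.mk _ p) = Quotient.mk _ q →
      g.1 (Quotient.mk _ p) ≠ 0 → AffV (-1) c p q) : ¬ IsClusterPoisson Φ := by
  rintro ⟨w, w', L, e, f, hw, hw', hreg, ⟨P0, hP0⟩, hall⟩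
  have hdom := Reg_isDomain (k := k) (m := m) (n := n)
  have hf0 : (⟨f, hreg⟩ : Reg k m n) ≠ 0 := by
    intro h0
    apply hP0
    have h1 : (⟨f, hreg⟩ : Reg k m n).1 P0 = (0 : Reg k m n).1 P0 := by rw [h0]
    exact h1
  have hF0 : (⟨f, hreg⟩ : Reg k m n) * g ≠ 0 := mul_ne_zero hf0 hg
  obtain ⟨H0, e0, hH0⟩ := reg_poly ((⟨f, hreg⟩ : Reg k m n) * g).1 ((⟨f, hreg⟩ : Reg k m n) * g).2
  have hH : H0 ≠ 0 := by
    intro h0
    apply hF0
    refine Reg_ext fun b hb => ?_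
    have h1 := hH0 b hb
    rw [h0, map_zero] at h1
    exact (mul_eq_zero.1 h1).resolve_right (pow_ne_zero _ hb)
  refine neg_absV (k := k) hl h3 c H0 hH L e w w' ?_
  intro b hb hHb hG
  have hFb : f (Quotient.mk _ (cfgB b hb)) * g.1 (Quotient.mk _ (cfgB b hb)) ≠ 0 := by
    intro h0
    apply hHb
    rw [← hH0 b hb]
    have h1 : ((⟨f, hreg⟩ : Reg k m n) * g).1 (Quotient.mk _ (cfgB b hb)) =
      f (Quotient.mk _ (cfgB b hb)) * g.1 (Quotient.mk _ (cfgB b hb)) := rfl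
    rw [h1, h0, zero_mul]
  obtain ⟨q, hq⟩ := Quotient.exists_rep (Φ (Quotient.mk _ (cfgB b hb)))
  obtain ⟨v, v', hv, hv', hvv⟩ := h (cfgB b hb) q hq.symm (right_ne_zero_of_mul hFb)
  have hL0 : Lft (cfgB b hb : Cfg k m n) (pv b) :=
    Lft_of _ _ (fun i => ⟨wv_ne_zero b _, pt_cfgB b hb i⟩)
  obtain ⟨δ, μ, hδ, hμ, hd⟩ := Lft_equiv (Setoid.refl (cfgB b hb : Cfg k m n)) hL0 hv
  refine ⟨v, v', δ, μ, hδ, hμ, hd, hvv, ?_⟩
  have h2 := hall (cfgB b hb) q hq.symm (left_ne_zero_of_mul hFb)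
  rw [seedOf_eqV w hw _ (pv b) hL0, seedOf_eqV w' hw' q v' hv'] at h2
  exact h2

end Pool.Agent.Lib.MP_d4c67c_gt
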