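import Pool.Agent.Lib.MP_d4c67c_gt.TriD
import Pool.Agent.Lib.MP_d4c67c_gt.E.A

/-!
# Seeds of strip triangulations on polygons (no normalisation): definitions
-/

namespace Pool.Agent.Lib.MP_d4c67c_gt

/-- generic polygon: all determinants `[i,j]`, `i ≠ j`, are not zero -/
def GenV {N : ℕ} {K : Type*} [Field K] (v : ZMod N → Fin 2 → K) : Prop :=
  ∀ i j, i ≠ j → det2 (v i) (v j) ≠ 0

/-- the seed of the strip triangulation with left edge `{c+1, c}` and word `w` on a polygon with `l + 2` vertices, as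
`T` but with the determinants of arbitrary vectors -/
noncomputable def Tv {K : Type*} [Field K] (l : ℕ) (c : ZMod (l + 2)) (w : ℕ → Bool)
    (v : ZMod (l + 2) → Fin 2 → K) : Seed K (l - 1) where
  ε := epsW (l - 1) w
  y a :=
    det2 (v (c + 1 + (nU w (a + 1) : ZMod (l + 2))))
        (v (if w (a + 1) then c + 1 + (nU w (a + 1) : ZMod (l + 2)) + 1
          else c - (nD w (a + 1) : ZMod (l + 2)) - 1)) *
      det2 (v (c - (nD w (a + 1) : ZMod (l + 2))))
        (v (if w a then c + 1 + (nU w (a + 1) : ZMod (l + 2)) - 1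
          else c - (nD w (a + 1) : ZMod (l + 2)) + 1)) /
      (det2 (v (if w (a + 1) then c + 1 + (nU w (a + 1) : ZMod (l + 2)) + 1
          else c - (nD w (a + 1) : ZMod (l + 2)) - 1)) (v (c - (nD w (a + 1) : ZMod (l + 2)))) *
       det2 (v (c + 1 + (nU w (a + 1) : ZMod (l + 2))))
        (v (if w a then c + 1 + (nU w (a + 1) : ZMod (l + 2)) - 1
          else c - (nD w (a + 1) : ZMod (l + 2)) + 1)))

end Pool.Agent.Lib.MP_d4c67c_gt
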