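import Pool.Agent.Lib.MP_d4c67c_gt.TriA
import Pool.Agent.Lib.MP_d4c67c_gt.E.TD

/-!
# JOB ETA: easy identities between the seeds `Tv l c w v` (copy of `TriA.lean` for polygons)
-/

namespace Pool.Agent.Lib.MP_d4c67c_gt

variable {K : Type*} [Field K]

private theorem ETA_nU_first {w w' : ℕ → Bool} (h0 : w 0 = true)
    (h0' : w' 0 = false) (h : ∀ i, 1 ≤ i → w i = w' i) (a : ℕ) :
    nU w (a + 1) = nU w' (a + 1) + 1 ∧ nD w' (a + 1) = nD w (a + 1) + 1 := by
  induction a with
  | zero => simp [nU, nD, h0, h0']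
  | succ a ih =>
    rw [show nU w (a + 1 + 1) = nU w (a + 1) + (if w (a + 1) then 1 else 0) from rfl,
      show nU w' (a + 1 + 1) = nU w' (a + 1) + (if w' (a + 1) then 1 else 0) from rfl,
      show nD w (a + 1 + 1) = nD w (a + 1) + (if w (a + 1) then 0 else 1) from rfl,
      show nD w' (a + 1 + 1) = nD w' (a + 1) + (if w' (a + 1) then 0 else 1) from rfl,
      h (a + 1) (by omega)]
    omega

private theorem ETA_neg {w : ℕ → Bool} (t : ℕ) :
    nU (fun i => !(w i)) t = nD w t ∧ nD (fun i => !(w i)) t = nU w t := by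
  induction t with
  | zero => exact ⟨rfl, rfl⟩
  | succ t ih =>
    simp only [nU, nD, ih.1, ih.2]
    by_cases h : w t = true
    · simp [h]
    · rw [Bool.not_eq_true] at h
      simp [h]

/-- the coordinate, as a function of the ends and of the third vertices -/
private theorem ETA_y (l : ℕ) (c : ZMod (l + 2)) (w : ℕ → Bool) (v : ZMod (l + 2) → Fin 2 → K)
    (a : Fin (l - 1))
    (t b P Q : ZMod (l + 2)) (ht : c + 1 + (nU w (a + 1) : ZMod (l + 2)) = t)
    (hb : c - (nD w (a + 1) : ZMod (l + 2)) = b)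
    (hQ : (if w (a + 1) then t + 1 else b - 1) = Q) (hP : (if w a then t - 1 else b + 1) = P) :
    (Tv l c w v).y a =
      det2 (v t) (v Q) * det2 (v b) (v P) / (det2 (v Q) (v b) * det2 (v t) (v P)) := by
  subst ht hb hQ hP
  rfl

private theorem ETA_anti (x y : Fin 2 → K) : det2 x y = - det2 y x := by
  simp only [det2]
  ring

theorem Tv_first (l : ℕ) (c : ZMod (l + 2)) (w w' : ℕ → Bool) (v : ZMod (l + 2) → Fin 2 → K) (h0 : w 0 = true)
    (h0' : w' 0 = false) (h : ∀ i, 1 ≤ i → w i = w' i) : Tv l c w v = Tv l (c + 1) w' v := by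
  apply Seed.ext
  · show epsW (l - 1) w = epsW (l - 1) w'
    funext i j
    unfold epsW
    by_cases h1 : j.val = i.val + 1
    · rw [if_pos h1, if_pos h1, h j.val (by omega)]
    · rw [if_neg h1, if_neg h1]
      by_cases h2 : i.val = j.val + 1
      · rw [if_pos h2, if_pos h2, h i.val (by omega)]
      · rw [if_neg h2, if_neg h2]
  · funext a
    obtain ⟨hU, hD⟩ := ETA_nU_first h0 h0' h (a : ℕ)
    have ht : c + 1 + 1 + (nU w' (a + 1) : ZMod (l + 2)) = c + 1 + (nU w (a + 1) : ZMod (l + 2)) := by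
      rw [hU]
      push_cast
      ring
    have hb : c + 1 - (nD w' (a + 1) : ZMod (l + 2)) = c - (nD w (a + 1) : ZMod (l + 2)) := by
      rw [hD]
      push_cast
      ring
    rw [ETA_y l c w v a _ _ _ _ rfl rfl rfl rfl, ETA_y l (c + 1) w' v a _ _ _ _ ht hb rfl rfl]
    rw [h (a + 1) (by omega)]
    have hP : (if w a then c + 1 + (nU w (a + 1) : ZMod (l + 2)) - 1
        else c - (nD w (a + 1) : ZMod (l + 2)) + 1) =
        (if w' a then c + 1 + (nU w (a + 1) : ZMod (l + 2)) - 1
        else c - (nD w (a + 1) : ZMod (l + 2)) + 1) := by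
      rcases Nat.eq_zero_or_pos (a : ℕ) with ha | ha
      · rw [ha, h0, h0']
        simp [nU, nD, h0]
      · rw [h a ha]
    rw [hP]

theorem Tv_last (l : ℕ) (c : ZMod (l + 2)) (w w' : ℕ → Bool) (v : ZMod (l + 2) → Fin 2 → K)
    (h : ∀ i, i + 1 < l → w i = w' i) : Tv l c w v = Tv l c w' v := by
  apply Seed.ext
  · show epsW (l - 1) w = epsW (l - 1) w'
    funext i j
    unfold epsW
    rw [h i.val (by have := i.isLt; omega), h j.val (by have := j.isLt; omega)]
  · funext a
    have ha := a.isLt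
    have hU : nU w' (a + 1) = nU w (a + 1) := nU_congr (fun i hi => (h i (by omega)).symm)
    have hD : nD w' (a + 1) = nD w (a + 1) := nD_congr (fun i hi => (h i (by omega)).symm)
    have ht : c + 1 + (nU w' (a + 1) : ZMod (l + 2)) = c + 1 + (nU w (a + 1) : ZMod (l + 2)) := by
      rw [hU]
    have hb : c - (nD w' (a + 1) : ZMod (l + 2)) = c - (nD w (a + 1) : ZMod (l + 2)) := by
      rw [hD]
    rw [ETA_y l c w v a _ _ _ _ rfl rfl rfl rfl, ETA_y l c w' v a _ _ _ _ ht hb rfl rfl]
    rw [h a (by omega)]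
    have hQ : (if w (a + 1) then c + 1 + (nU w (a + 1) : ZMod (l + 2)) + 1
        else c - (nD w (a + 1) : ZMod (l + 2)) - 1) =
        (if w' (a + 1) then c + 1 + (nU w (a + 1) : ZMod (l + 2)) + 1
        else c - (nD w (a + 1) : ZMod (l + 2)) - 1) := by
      by_cases hl : (a : ℕ) + 1 + 1 < l
      · rw [h _ hl]
      · have h1 := nU_add_nD w (a + 1)
        have h2 : c + 1 + (nU w (a + 1) : ZMod (l + 2)) + 1 =
            c - (nD w (a + 1) : ZMod (l + 2)) - 1 := by
          have h3 : ((nU w (a + 1) + nD w (a + 1) + 3 : ℕ) : ZMod (l + 2)) = 0 := by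
            have h4 : nU w (a + 1) + nD w (a + 1) + 3 = l + 2 := by omega
            rw [h4]
            exact ZMod.natCast_self (l + 2)
          push_cast at h3
          linear_combination h3
        rw [h2]
        simp
    rw [hQ]

theorem Tv_rot (l : ℕ) (c d : ZMod (l + 2)) (w : ℕ → Bool) (v : ZMod (l + 2) → Fin 2 → K) :
    Tv l c w (fun i => v (i + d)) = Tv l (c + d) w v := by
  apply Seed.ext
  · rfl
  · funext a
    have ht : c + d + 1 + (nU w (a + 1) : ZMod (l + 2)) =
        c + 1 + (nU w (a + 1) : ZMod (l + 2)) + d := by ring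
    have hb : c + d - (nD w (a + 1) : ZMod (l + 2)) = c - (nD w (a + 1) : ZMod (l + 2)) + d := by
      ring
    rw [ETA_y l c w (fun i => v (i + d)) a _ _ _ _ rfl rfl rfl rfl,
      ETA_y l (c + d) w v a _ _ _ _ ht hb rfl rfl]
    have hQ : (if w (a + 1) then c + 1 + (nU w (a + 1) : ZMod (l + 2)) + d + 1
        else c - (nD w (a + 1) : ZMod (l + 2)) + d - 1) =
        (if w (a + 1) then c + 1 + (nU w (a + 1) : ZMod (l + 2)) + 1
        else c - (nD w (a + 1) : ZMod (l + 2)) - 1) + d := by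
      split_ifs <;> ring
    have hP : (if w a then c + 1 + (nU w (a + 1) : ZMod (l + 2)) + d - 1
        else c - (nD w (a + 1) : ZMod (l + 2)) + d + 1) =
        (if w a then c + 1 + (nU w (a + 1) : ZMod (l + 2)) - 1
        else c - (nD w (a + 1) : ZMod (l + 2)) + 1) + d := by
      split_ifs <;> ring
    rw [hQ, hP]

/-- as `T_refl`; the two signs in the numerator and the two in the denominator cancel; `inv_div` -/
theorem Tv_refl (l : ℕ) (c : ZMod (l + 2)) (w : ℕ → Bool) (v : ZMod (l + 2) → Fin 2 → K) :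
    Tv l c w (fun i => v (-i)) = (Tv l (-c - 1) (fun i => !(w i)) v).anti := by
  apply Seed.ext
  · funext i j
    show epsW (l - 1) w i j = - epsW (l - 1) (fun i => !(w i)) i j
    unfold epsW
    by_cases h1 : j.val = i.val + 1
    · rw [if_pos h1, if_pos h1]
      by_cases h : w j.val = true
      · simp [h]
      · rw [Bool.not_eq_true] at h
        simp [h]
    · rw [if_neg h1, if_neg h1]
      by_cases h2 : i.val = j.val + 1
      · rw [if_pos h2, if_pos h2]
        by_cases h : w i.val = true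
        · simp [h]
        · rw [Bool.not_eq_true] at h
          simp [h]
      · rw [if_neg h2, if_neg h2, neg_zero]
  · funext a
    show _ = ((Tv l (-c - 1) (fun i => !(w i)) v).y a)⁻¹
    obtain ⟨hU, hD⟩ := ETA_neg (w := w) ((a : ℕ) + 1)
    have ht : -c - 1 + 1 + (nU (fun i => !(w i)) (a + 1) : ZMod (l + 2)) =
        -(c - (nD w (a + 1) : ZMod (l + 2))) := by
      rw [hU]
      ring
    have hb : -c - 1 - (nD (fun i => !(w i)) (a + 1) : ZMod (l + 2)) =
        -(c + 1 + (nU w (a + 1) : ZMod (l + 2))) := by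
      rw [hD]
      ring
    rw [ETA_y l c w (fun i => v (-i)) a _ _ _ _ rfl rfl rfl rfl,
      ETA_y l (-c - 1) (fun i => !(w i)) v a _ _
        (-(if w a then c + 1 + (nU w (a + 1) : ZMod (l + 2)) - 1
          else c - (nD w (a + 1) : ZMod (l + 2)) + 1))
        (-(if w (a + 1) then c + 1 + (nU w (a + 1) : ZMod (l + 2)) + 1
          else c - (nD w (a + 1) : ZMod (l + 2)) - 1)) ht hb
        (by cases w (a + 1) <;> simp <;> ring) (by cases w a <;> simp <;> ring)]
    generalize (if w a then c + 1 + (nU w (a + 1) : ZMod (l + 2)) - 1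
          else c - (nD w (a + 1) : ZMod (l + 2)) + 1) = P
    generalize (if w (a + 1) then c + 1 + (nU w (a + 1) : ZMod (l + 2)) + 1
          else c - (nD w (a + 1) : ZMod (l + 2)) - 1) = Q
    generalize c + 1 + (nU w (a + 1) : ZMod (l + 2)) = t
    generalize c - (nD w (a + 1) : ZMod (l + 2)) = b
    rw [inv_div, ETA_anti (v (-t)) (v (-Q)), ETA_anti (v (-Q)) (v (-b)), neg_mul, neg_mul,
      neg_div_neg_eq, mul_comm (det2 (v (-b)) (v (-Q))) (det2 (v (-t)) (v (-P)))]

/-- invariance: vectors on the same lines and a linear map (`det2 (v' i) (v' j) = δ * μ i * μ j * det2 (v i) (v j)`) -/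
theorem Tv_scale (l : ℕ) (c : ZMod (l + 2)) (w : ℕ → Bool) (v v' : ZMod (l + 2) → Fin 2 → K) (δ : K)
    (μ : ZMod (l + 2) → K) (hδ : δ ≠ 0) (hμ : ∀ i, μ i ≠ 0)
    (h : ∀ i j, det2 (v' i) (v' j) = δ * (μ i * μ j) * det2 (v i) (v j)) : Tv l c w v' = Tv l c w v := by
  apply Seed.ext
  · rfl
  · funext a
    rw [ETA_y l c w v' a _ _ _ _ rfl rfl rfl rfl, ETA_y l c w v a _ _ _ _ rfl rfl rfl rfl]
    generalize (if w a then c + 1 + (nU w (a + 1) : ZMod (l + 2)) - 1
          else c - (nD w (a + 1) : ZMod (l + 2)) + 1) = P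
    generalize (if w (a + 1) then c + 1 + (nU w (a + 1) : ZMod (l + 2)) + 1
          else c - (nD w (a + 1) : ZMod (l + 2)) - 1) = Q
    generalize c + 1 + (nU w (a + 1) : ZMod (l + 2)) = t
    generalize c - (nD w (a + 1) : ZMod (l + 2)) = b
    have hne : δ * δ * (μ t * μ Q * μ b * μ P) ≠ 0 :=
      mul_ne_zero (mul_ne_zero hδ hδ)
        (mul_ne_zero (mul_ne_zero (mul_ne_zero (hμ t) (hμ Q)) (hμ b)) (hμ P))
    rw [h t Q, h b P, h Q b, h t P]
    rw [show δ * (μ t * μ Q) * det2 (v t) (v Q) * (δ * (μ b * μ P) * det2 (v b) (v P)) =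
        (δ * δ * (μ t * μ Q * μ b * μ P)) * (det2 (v t) (v Q) * det2 (v b) (v P)) by ring,
      show δ * (μ Q * μ b) * det2 (v Q) (v b) * (δ * (μ t * μ P) * det2 (v t) (v P)) =
        (δ * δ * (μ t * μ Q * μ b * μ P)) * (det2 (v Q) (v b) * det2 (v t) (v P)) by ring,
      mul_div_mul_left _ _ hne]

end Pool.Agent.Lib.MP_d4c67c_gt
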