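import Pool.Agent.Lib.MP_d4c67c_gt.Lnk
import Pool.Agent.Lib.MP_d4c67c_gt.E.TA
import Pool.Agent.Lib.MP_d4c67c_gt.E.D

/-!
# JOB ES: seeds of configurations in terms of arbitrary vectors; relabelling; reversal (any `m + n`)
-/

open scoped LinearAlgebra.Projectivization

namespace Pool.Agent.Lib.MP_d4c67c_gt

variable {k : Type*} [Field k] {m n m' n' : ℕ}

/-- `v` is a family of vectors on the lines of `p` (cyclic labels), up to a linear map -/
def Lft (p : Cfg k m n) (v : ZMod (m + n + 2) → Fin 2 → k) : Prop :=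
  ∃ g : LinearMap.GeneralLinearGroup k (Fin 2 → k),
    ∀ i, ∃ h : v i ≠ 0, g • pt p i = Projectivization.mk k (v i) h

theorem Lft_of (p : Cfg k m n) (v : ZMod (m + n + 2) → Fin 2 → k)
    (hv : ∀ i, ∃ h : v i ≠ 0, pt p i = Projectivization.mk k (v i) h) : Lft p v := by
  refine ⟨1, fun i => ?_⟩
  rw [one_smul]
  exact hv i

theorem exists_Lft (p : Cfg k m n) : ∃ v, Lft p v :=
  ⟨fun s => (pt p s).rep, Lft_of p _ (ED_rep p)⟩

/-- equivalent configurations: `v' i = μ i • g • v i` -/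
theorem Lft_equiv {p q : Cfg k m n} (h : p ≈ q) {v v' : ZMod (m + n + 2) → Fin 2 → k} (hv : Lft p v)
    (hv' : Lft q v') : ∃ (δ : k) (μ : ZMod (m + n + 2) → k), δ ≠ 0 ∧ (∀ i, μ i ≠ 0) ∧
      ∀ i j, det2 (v' i) (v' j) = δ * (μ i * μ j) * det2 (v i) (v j) := by
  rw [equiv_iff] at h
  obtain ⟨g0, hg0⟩ := h
  obtain ⟨g1, hg1⟩ := hv
  obtain ⟨g2, hg2⟩ := hv'
  obtain ⟨δ, hδ, hdet⟩ := det2_gl (g2 * g0 * g1⁻¹)
  have hex : ∀ s, ∃ a : k, a ≠ 0 ∧ a • ((g2 * g0 * g1⁻¹) • v s) = v' s := by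
    intro s
    obtain ⟨h1, h2⟩ := hg1 s
    obtain ⟨h3, h4⟩ := hg2 s
    have h5 : (g2 * g0 * g1⁻¹) • Projectivization.mk k (v s) h1 = Projectivization.mk k (v' s) h3 := by
      rw [← h2, ← h4, mul_smul, inv_smul_smul, mul_smul, hg0]
    rw [Projectivization.smul_mk] at h5
    have h6 := h5.symm
    rw [Projectivization.mk_eq_mk_iff'] at h6
    obtain ⟨a, ha⟩ := h6
    refine ⟨a, ?_, ha⟩
    rintro rfl
    rw [zero_smul] at ha
    exact h3 ha.symm
  choose μ hμ hμw using hex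
  refine ⟨δ, μ, hδ, hμ, fun s t => ?_⟩
  rw [← hμw s, ← hμw t]
  have h1 := hdet (v s) (v t)
  simp only [det2, Pi.smul_apply, smul_eq_mul] at h1 ⊢
  linear_combination μ s * μ t * h1

private theorem ES_mono (w : ℕ → Bool) {s t : ℕ} (h : s ≤ t) : nU w s ≤ nU w t := by
  induction t with
  | zero => rw [Nat.le_zero.1 h]
  | succ t ih =>
    rcases Nat.lt_or_ge s (t + 1) with h1 | h1
    · have h2 := ih (by omega)
      have h3 : nU w (t + 1) = nU w t + (if w t then 1 else 0) := rfl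
      omega
    · have : s = t + 1 := by omega
      rw [this]

private theorem ES_monoD (w : ℕ → Bool) {s t : ℕ} (h : s ≤ t) : nD w s ≤ nD w t := by
  induction t with
  | zero => rw [Nat.le_zero.1 h]
  | succ t ih =>
    rcases Nat.lt_or_ge s (t + 1) with h1 | h1
    · have h2 := ih (by omega)
      have h3 : nD w (t + 1) = nD w t + (if w t then 0 else 1) := rfl
      omega
    · have : s = t + 1 := by omega
      rw [this]

/-- the cross ratio of flags of `p` in terms of `v` -/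
private theorem ES_cr (p : Cfg k m n) (v : ZMod (m + n + 2) → Fin 2 → k) (hv : Lft p v)
    (i1 i2 i3 i4 : ZMod (m + n + 2)) : cr (pt p i1) (pt p i2) (pt p i3) (pt p i4) =
      det2 (v i1) (v i2) * det2 (v i3) (v i4) / (det2 (v i2) (v i3) * det2 (v i1) (v i4)) := by
  obtain ⟨g, hg⟩ := hv
  obtain ⟨δ, hδ, hdet⟩ := det2_gl (g⁻¹)
  have hp : ∀ i, ∃ h : g⁻¹ • v i ≠ 0, pt p i = Projectivization.mk k (g⁻¹ • v i) h := by
    intro i
    obtain ⟨h1, h2⟩ := hg i
    refine ⟨(smul_ne_zero_iff_ne g⁻¹).mpr h1, ?_⟩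
    have h3 := congrArg (fun z => g⁻¹ • z) h2
    beta_reduce at h3
    rw [inv_smul_smul, Projectivization.smul_mk] at h3
    exact h3
  obtain ⟨h1, e1⟩ := hp i1
  obtain ⟨h2, e2⟩ := hp i2
  obtain ⟨h3, e3⟩ := hp i3
  obtain ⟨h4, e4⟩ := hp i4
  rw [e1, e2, e3, e4, cr_mk h1 h2 h3 h4, hdet, hdet, hdet, hdet]
  rw [← mul_div_mul_left (det2 (v i1) (v i2) * det2 (v i3) (v i4))
    (det2 (v i2) (v i3) * det2 (v i1) (v i4)) (mul_ne_zero hδ hδ)]
  congr 1 <;> ring

/-- as `seedOf_eq` in `Lnk.lean` (use `U_eq`, `D_eq`, `cr_mk` from there) -/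
theorem seedOf_eqV (w : ℕ → Bool) (hw : nU w (m + n) = m) (p : Cfg k m n)
    (v : ZMod (m + n + 2) → Fin 2 → k) (hv : Lft p v) : seedOf w p = Tv (m + n) (-1) w v := by
  have hU : ∀ s, s ≤ m + n → nU w s ≤ m := by
    intro s hs
    rw [← hw]
    exact ES_mono w hs
  have hnD : nD w (m + n) = n := by
    have := nU_add_nD w (m + n)
    omega
  have hD : ∀ s, s ≤ m + n → nD w s ≤ n := by
    intro s hs
    conv_rhs => rw [← hnD]
    exact ES_monoD w hs
  apply Seed.ext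
  · rfl
  · funext a
    have ha := a.isLt
    have hcr := ES_cr p v hv
    have hQ : (if w (a.val + 1) then p.U (nU w (a.val + 1) + 1) else p.D (nD w (a.val + 1) + 1)) =
        pt p (if w (a.val + 1) then -1 + 1 + (nU w (a.val + 1) : ZMod (m + n + 2)) + 1
          else -1 - (nD w (a.val + 1) : ZMod (m + n + 2)) - 1) := by
      by_cases h : w (a.val + 1) = true
      · rw [if_pos h, if_pos h]
        have h1 : nU w (a.val + 1) + 1 ≤ m := by
          have h2 := hU (a.val + 1 + 1) (by omega)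
          have h3 : nU w (a.val + 1 + 1) = nU w (a.val + 1) + (if w (a.val + 1) then 1 else 0) := rfl
          rw [if_pos h] at h3
          omega
        rw [U_eq p _ h1]
        congr 1
        push_cast
        ring
      · rw [if_neg h, if_neg h]
        have h1 : nD w (a.val + 1) + 1 ≤ n := by
          have h2 := hD (a.val + 1 + 1) (by omega)
          have h3 : nD w (a.val + 1 + 1) = nD w (a.val + 1) + (if w (a.val + 1) then 0 else 1) := rfl
          rw [if_neg h] at h3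
          omega
        rw [D_eq p _ h1]
        congr 1
        push_cast
        ring
    have hP : (if w a.val then p.U (nU w (a.val + 1) - 1) else p.D (nD w (a.val + 1) - 1)) =
        pt p (if w a.val then -1 + 1 + (nU w (a.val + 1) : ZMod (m + n + 2)) - 1
          else -1 - (nD w (a.val + 1) : ZMod (m + n + 2)) + 1) := by
      by_cases h : w a.val = true
      · rw [if_pos h, if_pos h]
        have h3 : nU w (a.val + 1) = nU w a.val + (if w a.val then 1 else 0) := rfl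
        rw [if_pos h] at h3
        have h4 := hU a.val (by omega)
        rw [h3, Nat.add_sub_cancel, U_eq p _ h4]
        congr 1
        push_cast
        ring
      · rw [if_neg h, if_neg h]
        have h3 : nD w (a.val + 1) = nD w a.val + (if w a.val then 0 else 1) := rfl
        rw [if_neg h] at h3
        have h4 := hD a.val (by omega)
        rw [h3, Nat.add_sub_cancel, D_eq p _ h4]
        congr 1
        push_cast
        ring
    have hT : p.U (nU w (a.val + 1)) = pt p (-1 + 1 + (nU w (a.val + 1) : ZMod (m + n + 2))) := by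
      rw [U_eq p _ (hU (a.val + 1) (by omega))]
      congr 1
      ring
    have hB : p.D (nD w (a.val + 1)) = pt p (-1 - (nD w (a.val + 1) : ZMod (m + n + 2))) :=
      D_eq p _ (hD (a.val + 1) (by omega))
    show cr (p.U (nU w (a.val + 1)))
      (if w (a.val + 1) then p.U (nU w (a.val + 1) + 1) else p.D (nD w (a.val + 1) + 1))
      (p.D (nD w (a.val + 1)))
      (if w a.val then p.U (nU w (a.val + 1) - 1) else p.D (nD w (a.val + 1) - 1)) = _
    rw [hQ, hP, hT, hB, hcr]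
    rfl

/-- vectors for a permutation of the labels -/
theorem ES_gen {p : Cfg k m n} {q q0 : Cfg k m' n'} (π : ZMod (m' + n' + 2) → ZMod (m + n + 2))
    (h : q0 ≈ q) (hq : ∀ i, pt q0 i = pt p (π i)) :
    ∃ v v', Lft p v ∧ Lft q v' ∧ ∀ i, v' i = v (π i) := by
  rw [equiv_iff] at h
  obtain ⟨g, hg⟩ := h
  refine ⟨fun s => (pt p s).rep, fun s => (pt p (π s)).rep, Lft_of p _ (ED_rep p),
    ⟨g⁻¹, fun i => ?_⟩, fun i => rfl⟩
  obtain ⟨h1, h2⟩ := ED_rep p (π i)
  refine ⟨h1, ?_⟩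
  rw [← hg i, inv_smul_smul, hq, ← h2]

/-- framings for a map of labels between different cells -/
theorem ES_framing {p : Cfg k m n} {q : Cfg k m' n'} {π : ZMod (m' + n' + 2) → ZMod (m + n + 2)}
    (hq : ∀ i, pt q i = pt p (π i)) {v : Fin (m + 1) ⊕ Fin (n + 1) → Fin 2 → k}
    (hv : IsFraming p v) : IsFraming q (fun a => vz v (π (ED_lab m' n' a))) := by
  constructor
  · intro i
    have h1 := framing_vz hv (π (ED_lab m' n' (Sum.inl i)))
    rw [← hq] at h1
    have h2 : pt q (ED_lab m' n' (Sum.inl i)) = q.up i := pt_up q i.val (by omega)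
    rw [h2] at h1
    exact h1
  · intro j
    have h1 := framing_vz hv (π (ED_lab m' n' (Sum.inr j)))
    rw [← hq] at h1
    have h2 : pt q (ED_lab m' n' (Sum.inr j)) = q.dn j := pt_dn q j.val (by omega)
    rw [h2] at h1
    exact h1

theorem ES_reg (σ : ZMod (m' + n' + 2) ≃+* ZMod (m + n + 2)) (Φ : Conf k m n → Conf k m' n')
    (hΦ : ∀ p : Cfg k m n, ∃ q : Cfg k m' n', Φ (Quotient.mk _ p) = Quotient.mk _ q ∧
      ∀ i, pt q i = pt p (σ i)) : IsRegularMap Φ := by
  have hb : ∀ v : Fin (m + 1) ⊕ Fin (n + 1) → Fin 2 → k,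
      bdry (fun a => vz v (σ (ED_lab m' n' a))) = ((-1) ^ (n' + 1) * (-1) ^ (n + 1)) * bdry v := by
    intro v
    rw [bdry_eq, bdry_eq]
    have h1 : ∏ i : ZMod (m' + n' + 2), det2 (vz (fun a => vz v (σ (ED_lab m' n' a))) i)
        (vz (fun a => vz v (σ (ED_lab m' n' a))) (i + 1)) =
        ∏ i : ZMod (m + n + 2), det2 (vz v i) (vz v (i + 1)) := by
      refine Fintype.prod_equiv σ.toEquiv _ _ (fun i => ?_)
      have h2 : ∀ i : ZMod (m' + n' + 2), vz (fun a => vz v (σ (ED_lab m' n' a))) i = vz v (σ i) := by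
        intro i
        rw [CfC_vz (fun a => vz v (σ (ED_lab m' n' a))), ED_lab_idx]
      rw [h2, h2, map_add, map_one]
      rfl
    have h3 : ((-1 : k)) ^ (n + 1) * (-1) ^ (n + 1) = 1 := by
      rw [← mul_pow]
      simp
    rw [h1]
    linear_combination (-((-1 : k) ^ (n' + 1) *
      ∏ i : ZMod (m + n + 2), det2 (vz v i) (vz v (i + 1)))) * h3
  obtain ⟨ε, hε⟩ : ∃ ε : k, ε = (-1) ^ (n' + 1) * (-1) ^ (n + 1) := ⟨_, rfl⟩
  have hε2 : ε * ε = 1 := by
    rw [hε]
    have h1 : ((-1 : k)) ^ (n' + 1) * (-1) ^ (n' + 1) = 1 := by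
      rw [← mul_pow]
      simp
    have h2 : ((-1 : k)) ^ (n + 1) * (-1) ^ (n + 1) = 1 := by
      rw [← mul_pow]
      simp
    linear_combination ((-1 : k) ^ (n + 1) * (-1) ^ (n + 1)) * h1 + h2
  rintro f ⟨P, e, hP⟩
  refine ⟨MvPolynomial.C (ε ^ e) *
    MvPolynomial.rename (fun a => (CfC_idx m n (σ (ED_lab m' n' a.1)), a.2)) P, e, ?_⟩
  intro p v hv
  obtain ⟨q, hq1, hq2⟩ := hΦ p
  have h1 := hP q _ (ES_framing hq2 hv)
  rw [hb v, ← hε] at h1
  have h2 : MvPolynomial.eval (fun a : (Fin (m' + 1) ⊕ Fin (n' + 1)) × Fin 2 =>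
      vz v (σ (ED_lab m' n' a.1)) a.2) P =
      MvPolynomial.eval (fun a => v a.1 a.2)
        (MvPolynomial.rename (fun a => (CfC_idx m n (σ (ED_lab m' n' a.1)), a.2)) P) := by
    rw [MvPolynomial.eval_rename]
    refine congrArg (fun z => MvPolynomial.eval z P) ?_
    funext a
    rw [CfC_vz]
    rfl
  rw [Function.comp_apply, hq1, map_mul, MvPolynomial.eval_C, ← h2, ← h1, mul_pow]
  have h3 : ε ^ e * ε ^ e = 1 := by rw [← mul_pow, hε2, one_pow]
  linear_combination (-(f (Quotient.mk _ q) * bdry v ^ e)) * h3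

/-- Relabelling for `m' + n' = m + n`: the configuration with the same cyclic polygon. -/
theorem exists_relC (h : m' + n' = m + n) :
    ∃ R : Conf k m n ≃ Conf k m' n', IsRegularMap R ∧ IsRegularMap R.symm ∧
      ∀ (p : Cfg k m n) (q : Cfg k m' n'), R (Quotient.mk _ p) = Quotient.mk _ q →
        ∃ v v', Lft p v ∧ Lft q v' ∧
          ∀ i : ℤ, v' (i : ZMod (m' + n' + 2)) = v (i : ZMod (m + n + 2)) := by
  obtain ⟨σ, hσ⟩ : ∃ σ : ZMod (m' + n' + 2) ≃+* ZMod (m + n + 2), σ =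
      ZMod.ringEquivCongr (by omega) := ⟨_, rfl⟩
  have mk : ∀ {a b c d : ℕ} (τ : ZMod (c + d + 2) ≃+* ZMod (a + b + 2)),
      ∃ F : Conf k a b → Conf k c d, ∀ p : Cfg k a b, ∃ q : Cfg k c d,
        F (Quotient.mk _ p) = Quotient.mk _ q ∧ ∀ i, pt q i = pt p (τ i) := by
    intro a b c d τ
    refine ⟨Quotient.map (fun p => ofPt (fun i => pt p (τ i)) (by
      intro i
      have h := pt_ne p (τ i)
      rw [map_add, map_one]
      exact h)) (by
      intro p q hpq
      rw [equiv_iff] at hpq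
      obtain ⟨g, hg⟩ := hpq
      exact (equiv_iff _ _).2 ⟨g, fun i => by rw [pt_ofPt, pt_ofPt]; exact hg _⟩),
      fun p => ⟨_, rfl, fun i => pt_ofPt _ _ i⟩⟩
  obtain ⟨F, hF⟩ := mk (a := m) (b := n) (c := m') (d := n') σ
  obtain ⟨G, hG⟩ := mk (a := m') (b := n') (c := m) (d := n) σ.symm
  have key : ∀ {a b c d : ℕ} (τ : ZMod (c + d + 2) ≃+* ZMod (a + b + 2))
      (F : Conf k a b → Conf k c d) (G : Conf k c d → Conf k a b)
      (_ : ∀ p : Cfg k a b, ∃ q : Cfg k c d, F (Quotient.mk _ p) = Quotient.mk _ q ∧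
        ∀ i, pt q i = pt p (τ i))
      (_ : ∀ p : Cfg k c d, ∃ q : Cfg k a b, G (Quotient.mk _ p) = Quotient.mk _ q ∧
        ∀ i, pt q i = pt p (τ.symm i)), ∀ P, G (F P) = P := by
    intro a b c d τ F G hF hG P
    obtain ⟨p, rfl⟩ := Quotient.exists_rep P
    obtain ⟨q, hq1, hq2⟩ := hF p
    obtain ⟨r, hr1, hr2⟩ := hG q
    rw [hq1, hr1]
    refine congrArg (Quotient.mk _) (pt_injective fun i => ?_)
    rw [hr2, hq2, RingEquiv.apply_symm_apply]
  refine ⟨⟨F, G, key σ F G hF hG, key σ.symm G F hG (by simpa using hF)⟩, ES_reg σ F hF,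
    ES_reg σ.symm G hG, ?_⟩
  intro p q hpq
  obtain ⟨q0, h1, h2⟩ := hF p
  have h3 : (Quotient.mk _ q0 : Conf k m' n') = Quotient.mk _ q := by
    rw [← h1]
    exact hpq
  obtain ⟨v, v', hv, hv', hvv⟩ := ES_gen (fun i => σ i) (Quotient.exact h3) h2
  refine ⟨v, v', hv, hv', fun i => ?_⟩
  rw [hvv, map_intCast]

/-- if `Q = rotC c P` (resp. `refC c P`) there are vectors with `v' i = v (i + c)` (resp. `v (c - i)`) (`rotC_mk`, `refC_mk`) -/
theorem rotC_Lft (c : ℤ) (p q : Cfg k m n)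
    (h : rotC (c : ZMod (m + n + 2)) (Quotient.mk _ p : Conf k m n) = Quotient.mk _ q) :
    ∃ v v', Lft p v ∧ Lft q v' ∧
      ∀ i : ℤ, v' (i : ZMod (m + n + 2)) = v ((i + c : ℤ) : ZMod (m + n + 2)) := by
  obtain ⟨q0, h1, h2⟩ := rotC_mk (c : ZMod (m + n + 2)) p
  have h3 : (Quotient.mk _ q0 : Conf k m n) = Quotient.mk _ q := by
    rw [← h1]
    exact h
  obtain ⟨v, v', hv, hv', hvv⟩ := ES_gen (fun i => i + (c : ZMod (m + n + 2))) (Quotient.exact h3) h2
  refine ⟨v, v', hv, hv', fun i => ?_⟩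
  rw [hvv, Int.cast_add]

theorem refC_Lft (c : ℤ) (p q : Cfg k m n)
    (h : refC (c : ZMod (m + n + 2)) (Quotient.mk _ p : Conf k m n) = Quotient.mk _ q) :
    ∃ v v', Lft p v ∧ Lft q v' ∧
      ∀ i : ℤ, v' (i : ZMod (m + n + 2)) = v ((c - i : ℤ) : ZMod (m + n + 2)) := by
  obtain ⟨q0, h1, h2⟩ := refC_mk (c : ZMod (m + n + 2)) p
  have h3 : (Quotient.mk _ q0 : Conf k m n) = Quotient.mk _ q := by
    rw [← h1]
    exact h
  obtain ⟨v, v', hv, hv', hvv⟩ := ES_gen (fun i => (c : ZMod (m + n + 2)) - i) (Quotient.exact h3) h2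
  refine ⟨v, v', hv, hv', fun i => ?_⟩
  rw [hvv, Int.cast_sub]

/-- the reversal is the reflection `i ↦ m - i` (`pt_revC`) -/
theorem rev_Lft (p q : Cfg k m n) (h : rev (Quotient.mk _ p : Conf k m n) = Quotient.mk _ q) :
    ∃ v v', Lft p v ∧ Lft q v' ∧
      ∀ i : ℤ, v' (i : ZMod (m + n + 2)) = v (((m : ℤ) - i : ℤ) : ZMod (m + n + 2)) := by
  have h3 : (Quotient.mk _ p.revC : Conf k m n) = Quotient.mk _ q := h
  obtain ⟨v, v', hv, hv', hvv⟩ := ES_gen (fun i => (m : ZMod (m + n + 2)) - i) (Quotient.exact h3)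
    (pt_revC p)
  refine ⟨v, v', hv, hv', fun i => ?_⟩
  rw [hvv, Int.cast_sub, Int.cast_natCast]

end Pool.Agent.Lib.MP_d4c67c_gt
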