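import Pool.Agent.Lib.MP_d4c67c_gt.TriB
import Pool.Agent.Lib.MP_d4c67c_gt.E.TA

/-!
# JOB ETB: exchanging two adjacent letters of the word is a mutation

(You may use `TriA.lean`, which is another job.)
-/

namespace Pool.Agent.Lib.MP_d4c67c_gt

variable {K : Type*} [Field K]

private theorem ETB_ne {l k : ℕ} (h0 : 0 < k) (h1 : k < l + 2) :
    ((k : ℕ) : ZMod (l + 2)) ≠ 0 := by
  intro h
  rw [ZMod.natCast_eq_zero_iff] at h
  have := Nat.le_of_dvd h0 h
  omega

private theorem ETB_nU {w w' : ℕ → Bool} {a : ℕ} (h0 : w a = !(w (a + 1)))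
    (h0' : w' a = !(w' (a + 1))) (h : ∀ i, i ≠ a → i ≠ a + 1 → w i = w' i) (s : ℕ)
    (hs : s ≠ a + 1) : nU w s = nU w' s ∧ nD w s = nD w' s := by
  rcases Nat.lt_or_ge s (a + 1) with h1 | h1
  · exact ⟨nU_congr (fun i hi => h i (by omega) (by omega)),
      nD_congr (fun i hi => h i (by omega) (by omega))⟩
  · obtain ⟨r, rfl⟩ : ∃ r, s = a + 2 + r := ⟨s - (a + 2), by omega⟩
    induction r with
    | zero =>
      have e1 : nU w a = nU w' a := nU_congr (fun i hi => h i (by omega) (by omega))
      have e2 : nD w a = nD w' a := nD_congr (fun i hi => h i (by omega) (by omega))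
      constructor
      · show nU w a + (if w a then 1 else 0) + (if w (a + 1) then 1 else 0) =
          nU w' a + (if w' a then 1 else 0) + (if w' (a + 1) then 1 else 0)
        rw [e1, h0, h0']
        cases w (a + 1) <;> cases w' (a + 1) <;> simp
      · show nD w a + (if w a then 0 else 1) + (if w (a + 1) then 0 else 1) =
          nD w' a + (if w' a then 0 else 1) + (if w' (a + 1) then 0 else 1)
        rw [e2, h0, h0']
        cases w (a + 1) <;> cases w' (a + 1) <;> simp
    | succ r ih =>
      obtain ⟨i1, i2⟩ := ih (by omega) (by omega)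
      have e : w (a + 2 + r) = w' (a + 2 + r) := h _ (by omega) (by omega)
      constructor
      · show nU w (a + 2 + r) + (if w (a + 2 + r) then 1 else 0) =
          nU w' (a + 2 + r) + (if w' (a + 2 + r) then 1 else 0)
        rw [i1, e]
      · show nD w (a + 2 + r) + (if w (a + 2 + r) then 0 else 1) =
          nD w' (a + 2 + r) + (if w' (a + 2 + r) then 0 else 1)
        rw [i2, e]

/-- the cross ratio of the seed `Tv` -/
private def ETB_cr {N : ℕ} (v : ZMod N → Fin 2 → K) (t b q p : ZMod N) : K :=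
  det2 (v t) (v q) * det2 (v b) (v p) / (det2 (v q) (v b) * det2 (v t) (v p))

private theorem ETB_y (l : ℕ) (c : ZMod (l + 2)) (w : ℕ → Bool) (v : ZMod (l + 2) → Fin 2 → K)
    (i : Fin (l - 1)) (t b : ZMod (l + 2)) (ht : c + 1 + (nU w (i + 1) : ZMod (l + 2)) = t)
    (hb : c - (nD w (i + 1) : ZMod (l + 2)) = b) :
    (Tv l c w v).y i = ETB_cr v t b (if w (i + 1) then t + 1 else b - 1)
      (if w i then t - 1 else b + 1) := by
  subst ht
  subst hb
  rfl

private theorem ETB_anti (u v : Fin 2 → K) : det2 u v = - det2 v u := by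
  unfold det2; ring

private theorem ETB_one_add {N : ℕ} (v : ZMod N → Fin 2 → K) (t b : ZMod N)
    (h1 : det2 (v (b - 1)) (v b) ≠ 0) (h2 : det2 (v t) (v (t - 1)) ≠ 0) :
    1 + ETB_cr v t b (b - 1) (t - 1) = det2 (v t) (v b) * det2 (v (b - 1)) (v (t - 1)) /
      (det2 (v (b - 1)) (v b) * det2 (v t) (v (t - 1))) := by
  unfold ETB_cr
  rw [eq_div_iff (mul_ne_zero h1 h2), add_mul, div_mul_cancel₀ _ (mul_ne_zero h1 h2)]
  unfold det2
  ring

private theorem ETB_ya' {N : ℕ} (v : ZMod N → Fin 2 → K) (t b : ZMod N) :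
    ETB_cr v (t - 1) (b - 1) t b = (ETB_cr v t b (b - 1) (t - 1))⁻¹ := by
  unfold ETB_cr
  rw [inv_div, ETB_anti (v (t - 1)) (v t), ETB_anti (v (t - 1)) (v b)]
  rw [show -det2 (v t) (v (t - 1)) * det2 (v (b - 1)) (v b) =
    -(det2 (v (b - 1)) (v b) * det2 (v t) (v (t - 1))) by ring,
    show det2 (v t) (v (b - 1)) * -det2 (v b) (v (t - 1)) =
    -(det2 (v t) (v (b - 1)) * det2 (v b) (v (t - 1))) by ring, neg_div_neg_eq]

private theorem ETB_next {N : ℕ} (v : ZMod N → Fin 2 → K) (t b q : ZMod N) (hu : det2 (v t) (v b) ≠ 0)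
    (h1 : det2 (v (b - 1)) (v b) ≠ 0) (h2 : det2 (v t) (v (t - 1)) ≠ 0) :
    ETB_cr v t (b - 1) q b * (1 + ETB_cr v t b (b - 1) (t - 1)) =
      ETB_cr v t (b - 1) q (t - 1) := by
  rw [ETB_one_add v t b h1 h2]
  unfold ETB_cr
  by_cases h3 : det2 (v q) (v (b - 1)) = 0
  · rw [h3, zero_mul, zero_mul, div_zero, div_zero, zero_mul]
  · field_simp

private theorem ETB_prev {N : ℕ} (v : ZMod N → Fin 2 → K) (t b p : ZMod N) (hu : det2 (v t) (v b) ≠ 0)
    (h1 : det2 (v (b - 1)) (v b) ≠ 0) (h2 : det2 (v t) (v (t - 1)) ≠ 0) :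
    ETB_cr v (t - 1) b t p * (1 + ETB_cr v t b (b - 1) (t - 1)) =
      ETB_cr v (t - 1) b (b - 1) p := by
  rw [ETB_one_add v t b h1 h2]
  unfold ETB_cr
  rw [ETB_anti (v (t - 1)) (v t), ETB_anti (v (t - 1)) (v (b - 1))]
  by_cases h3 : det2 (v (t - 1)) (v p) = 0
  · rw [h3, mul_zero, mul_zero, div_zero, div_zero, zero_mul]
  · field_simp

private theorem ETB_tb {l : ℕ} (c : ZMod (l + 2)) (w : ℕ → Bool) (a : ℕ) :
    (c + 1 + (nU w (a + 1) : ZMod (l + 2))) - (c - (nD w (a + 1) : ZMod (l + 2))) =
      ((a + 2 : ℕ) : ZMod (l + 2)) := by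
  have h := nU_add_nD w (a + 1)
  have h1 : ((nU w (a + 1) + nD w (a + 1) : ℕ) : ZMod (l + 2)) = ((a + 1 : ℕ) : ZMod (l + 2)) := by
    rw [h]
  push_cast at h1 ⊢
  linear_combination h1

private theorem ETB_mut_neg {r : ℕ} (s : Seed K r) (c i : Fin r) (hi : i ≠ c)
    (h : s.ε i c = -1) : (s.mutate c).y i = s.y i * (1 + s.y c) := by
  unfold Seed.mutate
  simp only [if_neg hi, h]
  norm_num

private theorem ETB_mut_zero {r : ℕ} (s : Seed K r) (c i : Fin r) (hi : i ≠ c)
    (h : s.ε i c = 0) : (s.mutate c).y i = s.y i := by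
  unfold Seed.mutate
  simp only [if_neg hi, h]
  norm_num

private theorem ETB_eps_anti (r : ℕ) (w : ℕ → Bool) (i j : Fin r) :
    epsW r w j i = - epsW r w i j := by
  unfold epsW
  by_cases h1 : j.val = i.val + 1
  · rw [if_neg (by omega), if_pos h1, if_pos h1]
    cases w j.val <;> simp
  · by_cases h2 : i.val = j.val + 1
    · rw [if_pos h2, if_neg h1, if_pos h2]
      cases w i.val <;> simp
    · rw [if_neg h2, if_neg h1, if_neg h1, if_neg h2, neg_zero]

/-- Mutation at `a` when `w a = true` (`U`), `w (a+1) = false` (`D`), `w'` = the word with the two letters exchanged.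
Write `t = c + 1 + nU w (a+1)`, `b = c - nD w (a+1)`, `x = F.x`.  Here `P = t - 1`, `Q = b - 1`,
`y_a = x t (b-1) * x b (t-1) / (x (b-1) b * x t (t-1))`.
For `w'`: the diagonal number `a+1` is `t' = t - 1`, `b' = b - 1`, `P' = b`, `Q' = t`:
`y'_a = x (t-1) t * x (b-1) b / (x t (b-1) * x (t-1) b) = y_a⁻¹` (`anti`).
Neighbour `a + 1` (if `a + 1 < l - 1`): `t`, `b - 1`, same `Q`; `P = b` for `w`, `P = t - 1` for `w'`;
`epsW (a+1) a = -1`, so the mutation rule is `y_(a+1) * (1 + y_a)`; the ratio of the two values is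
`x (b-1) (t-1) * x t b / (x (b-1) b * x t (t-1))`, which is `1 + y_a` by `pl` at `t, b, b-1, t-1`.
Neighbour `a - 1` (if `1 ≤ a`): `t - 1`, `b`, same `P`; `Q = t` for `w`, `Q = b - 1` for `w'`; `epsW (a-1) a = -1`, rule
`y_(a-1) * (1 + y_a)`; the ratio is `x (t-1) (b-1) * x t b / (x (b-1) b * x (t-1) t) = 1 + y_a`.
Other indices `i`: `epsW i a = 0`, rule `y_i * (1 + y_a ^ 0) ^ 0 = y_i`, and `T` has the same value for `w` and `w'`
(`nU w' s = nU w s` for `s ≠ a + 1`).
Exchange matrix: entries with `i = a` or `j = a` change sign; the others do not change: the correction term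
vanishes because `epsW (a-1) a = -1` and `epsW a (a+1) = 1` (sink/source), so also
`|ε i a| * ε a j + ε i a * |ε a j| = 0` in all cases.
Genericity: the indices used are different: `t - b = l_a + ...`: in `ZMod (l+2)`, `t = b + 1 + (a + 1)` with
`1 ≤ a + 1 ≤ l - 1`, so `t ≠ b`, `t - 1 ≠ b`, `t ≠ b - 1` etc. -/
theorem Tv_swap1 (l : ℕ) (c : ZMod (l + 2)) (w w' : ℕ → Bool) (v : ZMod (l + 2) → Fin 2 → K) (hF : GenV v)
    (a : Fin (l - 1)) (h0 : w a = true) (h1 : w (a + 1) = false) (h0' : w' a = false)
    (h1' : w' (a + 1) = true) (h : ∀ i, i ≠ a.val → i ≠ a.val + 1 → w i = w' i) :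
    (Tv l c w v).mutate a = Tv l c w' v := by
  have hal : a.val < l - 1 := a.isLt
  have hn := ETB_nU (a := a.val) (w := w) (w' := w') (by rw [h0, h1]; rfl)
    (by rw [h0', h1']; rfl) h
  have eU : nU w (a.val + 1) = nU w a.val + 1 := by
    show nU w a.val + (if w a.val then 1 else 0) = _
    rw [h0]; rfl
  have eD : nD w (a.val + 1) = nD w a.val := by
    show nD w a.val + (if w a.val then 0 else 1) = _
    rw [h0]; rfl
  have eU' : nU w' (a.val + 1) = nU w a.val := by
    show nU w' a.val + (if w' a.val then 1 else 0) = _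
    rw [h0', (hn a.val (by omega)).1]; rfl
  have eD' : nD w' (a.val + 1) = nD w a.val + 1 := by
    show nD w' a.val + (if w' a.val then 0 else 1) = _
    rw [h0', (hn a.val (by omega)).2]; rfl
  have eU2 : nU w (a.val + 2) = nU w a.val + 1 := by
    show nU w (a.val + 1) + (if w (a.val + 1) then 1 else 0) = _
    rw [h1, eU]; rfl
  have eD2 : nD w (a.val + 2) = nD w a.val + 1 := by
    show nD w (a.val + 1) + (if w (a.val + 1) then 0 else 1) = _
    rw [h1, eD]; rfl
  set t : ZMod (l + 2) := c + 1 + (nU w (a.val + 1) : ZMod (l + 2)) with ht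
  set b : ZMod (l + 2) := c - (nD w (a.val + 1) : ZMod (l + 2)) with hb
  have htb : t ≠ b := by
    intro hc
    have h2 := ETB_tb (l := l) c w a.val
    rw [← ht, ← hb, hc, sub_self] at h2
    exact ETB_ne (by omega) (by omega) h2.symm
  have hu : det2 (v t) (v b) ≠ 0 := hF t b htb
  have hone : ∀ i : ZMod (l + 2), i ≠ i - 1 := by
    intro i hc
    have h2 : ((1 : ℕ) : ZMod (l + 2)) = 0 := by
      push_cast
      linear_combination hc
    exact ETB_ne (by omega) (by omega) h2
  have hbb : det2 (v (b - 1)) (v b) ≠ 0 := hF _ _ (hone b).symm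
  have htt : det2 (v t) (v (t - 1)) ≠ 0 := hF _ _ (hone t)
  have hya : (Tv l c w v).y a = ETB_cr v t b (b - 1) (t - 1) := by
    rw [ETB_y l c w v a t b rfl rfl, h0, h1]
    rfl
  have tA : c + 1 + (nU w a.val : ZMod (l + 2)) = t - 1 := by
    rw [ht, eU]
    push_cast
    ring
  have bA : c - (nD w a.val : ZMod (l + 2)) = b := by
    rw [hb, eD]
  have tB : c + 1 + ((nU w a.val + 1 : ℕ) : ZMod (l + 2)) = t := by
    rw [ht, eU]
  have bB : c - ((nD w a.val + 1 : ℕ) : ZMod (l + 2)) = b - 1 := by
    rw [hb, eD]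
    push_cast
    ring
  have epsdef : ∀ (u : ℕ → Bool) (i j : Fin (l - 1)), (Tv l c u v).ε i j = epsW (l - 1) u i j :=
    fun _ _ _ => rfl
  have hy : ∀ i, ((Tv l c w v).mutate a).y i = (Tv l c w' v).y i := by
    intro i
    by_cases hi : i = a
    · subst hi
      have e1 : ((Tv l c w v).mutate i).y i = ((Tv l c w v).y i)⁻¹ := by
        unfold Seed.mutate
        simp only [if_true]
      rw [e1, hya, ETB_y l c w' v i (t - 1) (b - 1) (by rw [eU']; exact tA)
        (by rw [eD']; exact bB), h0', h1', ← ETB_ya']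
      simp only [if_true, sub_add_cancel]
      rfl
    · have hiv : i.val ≠ a.val := fun hc => hi (Fin.ext hc)
      by_cases hi1 : i.val = a.val + 1
      · have he : (Tv l c w v).ε i a = -1 := by
          rw [epsdef]
          unfold epsW
          rw [if_neg (by omega), if_pos hi1, hi1, h1]
          rfl
        rw [ETB_mut_neg _ _ _ hi he, hya]
        have e2 : nU w (i.val + 1) = nU w a.val + 1 := by rw [hi1]; exact eU2
        have e3 : nD w (i.val + 1) = nD w a.val + 1 := by rw [hi1]; exact eD2
        have e2' : nU w' (i.val + 1) = nU w a.val + 1 := by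
          rw [← (hn (i.val + 1) (by omega)).1]; exact e2
        have e3' : nD w' (i.val + 1) = nD w a.val + 1 := by
          rw [← (hn (i.val + 1) (by omega)).2]; exact e3
        rw [ETB_y l c w v i t (b - 1) (by rw [e2]; exact tB) (by rw [e3]; exact bB),
          ETB_y l c w' v i t (b - 1) (by rw [e2']; exact tB) (by rw [e3']; exact bB)]
        have e4 : w i.val = false := by rw [hi1]; exact h1
        have e4' : w' i.val = true := by rw [hi1]; exact h1'
        have e5 : w (i.val + 1) = w' (i.val + 1) := h _ (by omega) (by omega)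
        rw [e4, e4', e5]
        simp only [if_true, sub_add_cancel]
        exact ETB_next v t b _ hu hbb htt
      · by_cases hi2 : i.val + 1 = a.val
        · have he : (Tv l c w v).ε i a = -1 := by
            rw [epsdef]
            unfold epsW
            rw [if_pos hi2.symm, h0]
            rfl
          rw [ETB_mut_neg _ _ _ hi he, hya]
          have e2 : nU w (i.val + 1) = nU w a.val := by rw [hi2]
          have e3 : nD w (i.val + 1) = nD w a.val := by rw [hi2]
          have e2' : nU w' (i.val + 1) = nU w a.val := by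
            rw [← (hn (i.val + 1) (by omega)).1]; exact e2
          have e3' : nD w' (i.val + 1) = nD w a.val := by
            rw [← (hn (i.val + 1) (by omega)).2]; exact e3
          rw [ETB_y l c w v i (t - 1) b (by rw [e2]; exact tA) (by rw [e3]; exact bA),
            ETB_y l c w' v i (t - 1) b (by rw [e2']; exact tA) (by rw [e3']; exact bA)]
          have e4 : w (i.val + 1) = true := by rw [hi2]; exact h0
          have e4' : w' (i.val + 1) = false := by rw [hi2]; exact h0'
          have e5 : w i.val = w' i.val := h _ (by omega) (by omega)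
          rw [e4, e4', e5]
          simp only [if_true, sub_add_cancel]
          exact ETB_prev v t b _ hu hbb htt
        · have he : (Tv l c w v).ε i a = 0 := by
            rw [epsdef]
            unfold epsW
            rw [if_neg (by omega), if_neg hi1]
          rw [ETB_mut_zero _ _ _ hi he]
          have e2 := hn (i.val + 1) (by omega)
          have e4 : w i.val = w' i.val := h _ hiv hi1
          have e5 : w (i.val + 1) = w' (i.val + 1) := h _ (by omega) (by omega)
          rw [ETB_y l c w v i _ _ rfl rfl, ETB_y l c w' v i _ _ rfl rfl, e4, e5, e2.1, e2.2]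
  have hε : ∀ i j, ((Tv l c w v).mutate a).ε i j = (Tv l c w' v).ε i j := by
    intro i j
    rw [epsdef]
    by_cases hij : i = a ∨ j = a
    · have e1 : ((Tv l c w v).mutate a).ε i j = - epsW (l - 1) w i j := by
        unfold Seed.mutate
        simp only [if_pos hij]
        rfl
      rw [e1]
      unfold epsW
      rcases hij with hi | hj
      · subst hi
        by_cases h2 : j.val = i.val + 1
        · rw [if_pos h2, if_pos h2, h2, h1, h1']
          rfl
        · by_cases h3 : i.val = j.val + 1
          · rw [if_neg h2, if_pos h3, if_neg h2, if_pos h3, h0, h0']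
            rfl
          · rw [if_neg h2, if_neg h3, if_neg h2, if_neg h3, neg_zero]
      · subst hj
        by_cases h2 : j.val = i.val + 1
        · rw [if_pos h2, if_pos h2, h0, h0']
          rfl
        · by_cases h3 : i.val = j.val + 1
          · rw [if_neg h2, if_pos h3, if_neg h2, if_pos h3, h3, h1, h1']
            rfl
          · rw [if_neg h2, if_neg h3, if_neg h2, if_neg h3, neg_zero]
    · have hia : i ≠ a := fun hc => hij (Or.inl hc)
      have hja : j ≠ a := fun hc => hij (Or.inr hc)
      have hiv : i.val ≠ a.val := fun hc => hia (Fin.ext hc)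
      have hjv : j.val ≠ a.val := fun hc => hja (Fin.ext hc)
      have e1 : ((Tv l c w v).mutate a).ε i j = epsW (l - 1) w i j +
          (|epsW (l - 1) w i a| * epsW (l - 1) w a j +
            epsW (l - 1) w i a * |epsW (l - 1) w a j|) / 2 := by
        unfold Seed.mutate
        simp only [if_neg hij]
        rfl
      have e2 : epsW (l - 1) w i a = 0 ∨ epsW (l - 1) w i a = -1 := by
        unfold epsW
        by_cases h2 : a.val = i.val + 1
        · right
          rw [if_pos h2, h0]
          rfl
        · by_cases h3 : i.val = a.val + 1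
          · right
            rw [if_neg h2, if_pos h3, h3, h1]
            rfl
          · left
            rw [if_neg h2, if_neg h3]
      have e3 : epsW (l - 1) w a j = 0 ∨ epsW (l - 1) w a j = 1 := by
        rw [ETB_eps_anti]
        have : epsW (l - 1) w j a = 0 ∨ epsW (l - 1) w j a = -1 := by
          unfold epsW
          by_cases h2 : a.val = j.val + 1
          · right
            rw [if_pos h2, h0]
            rfl
          · by_cases h3 : j.val = a.val + 1
            · right
              rw [if_neg h2, if_pos h3, h3, h1]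
              rfl
            · left
              rw [if_neg h2, if_neg h3]
        rcases this with h4 | h4
        · left
          rw [h4, neg_zero]
        · right
          rw [h4, neg_neg]
      have e4 : |epsW (l - 1) w i a| * epsW (l - 1) w a j +
            epsW (l - 1) w i a * |epsW (l - 1) w a j| = 0 := by
        rcases e2 with h2 | h2 <;> rcases e3 with h3 | h3 <;> rw [h2, h3] <;> rfl
      rw [e1, e4, Int.zero_ediv, add_zero]
      unfold epsW
      by_cases h2 : j.val = i.val + 1
      · rw [if_pos h2, if_pos h2, h j.val hjv (by omega)]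
      · by_cases h3 : i.val = j.val + 1
        · rw [if_neg h2, if_pos h3, if_neg h2, if_pos h3, h i.val hiv (by omega)]
        · rw [if_neg h2, if_neg h3, if_neg h2, if_neg h3]
  exact Seed.ext (funext fun i => funext fun j => hε i j) (funext hy)

/-- The opposite exchange, from `Tv_swap1` (for `w'`, `w`) and `mutate_mutate` (`y_a ≠ 0` and
`1 + y_a = x t b * x (b-1) (t-1) / (x (b-1) b * x t (t-1)) ≠ 0` for the word `w'`). -/
theorem Tv_swap2 (l : ℕ) (c : ZMod (l + 2)) (w w' : ℕ → Bool) (v : ZMod (l + 2) → Fin 2 → K) (hF : GenV v)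
    (a : Fin (l - 1)) (h0 : w a = false) (h1 : w (a + 1) = true) (h0' : w' a = true)
    (h1' : w' (a + 1) = false) (h : ∀ i, i ≠ a.val → i ≠ a.val + 1 → w i = w' i) :
    (Tv l c w v).mutate a = Tv l c w' v := by
  have hal : a.val < l - 1 := a.isLt
  have hs := Tv_swap1 l c w' w v hF a h0' h1' h0 h1 (fun i hi hi1 => (h i hi hi1).symm)
  rw [← hs]
  set t : ZMod (l + 2) := c + 1 + (nU w' (a.val + 1) : ZMod (l + 2)) with ht
  set b : ZMod (l + 2) := c - (nD w' (a.val + 1) : ZMod (l + 2)) with hb
  have h2 := ETB_tb (l := l) c w' a.val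
  rw [← ht, ← hb] at h2
  have hya : (Tv l c w' v).y a = ETB_cr v t b (b - 1) (t - 1) := by
    rw [ETB_y l c w' v a t b rfl rfl, h0', h1']
    rfl
  have n1 : t ≠ b := by
    intro hc
    rw [hc, sub_self] at h2
    exact ETB_ne (by omega) (by omega) h2.symm
  have n2 : t ≠ b - 1 := by
    intro hc
    have h3 : ((a.val + 3 : ℕ) : ZMod (l + 2)) = 0 := by
      have h4 : ((a.val + 3 : ℕ) : ZMod (l + 2)) = ((a.val + 2 : ℕ) : ZMod (l + 2)) + 1 := by
        push_cast
        ring
      rw [h4, ← h2, hc]
      ring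
    exact ETB_ne (by omega) (by omega) h3
  have n3 : b ≠ t - 1 := by
    intro hc
    have h3 : ((a.val + 1 : ℕ) : ZMod (l + 2)) = 0 := by
      have h4 : ((a.val + 1 : ℕ) : ZMod (l + 2)) = ((a.val + 2 : ℕ) : ZMod (l + 2)) - 1 := by
        push_cast
        ring
      rw [h4, ← h2, hc]
      ring
    exact ETB_ne (by omega) (by omega) h3
  have n4 : b - 1 ≠ t - 1 := fun hc => n1 (sub_left_injective hc).symm
  have hone : ∀ i : ZMod (l + 2), i ≠ i - 1 := by
    intro i hc
    have h2 : ((1 : ℕ) : ZMod (l + 2)) = 0 := by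
      push_cast
      linear_combination hc
    exact ETB_ne (by omega) (by omega) h2
  have hbb : det2 (v (b - 1)) (v b) ≠ 0 := hF _ _ (hone b).symm
  have htt : det2 (v t) (v (t - 1)) ≠ 0 := hF _ _ (hone t)
  apply mutate_mutate
  · intro i j
    exact ETB_eps_anti _ _ _ _
  · rw [hya]
    unfold ETB_cr
    exact div_ne_zero (mul_ne_zero (hF _ _ n2) (hF _ _ n3)) (mul_ne_zero hbb htt)
  · rw [hya, ETB_one_add v t b hbb htt]
    exact div_ne_zero (mul_ne_zero (hF _ _ n1) (hF _ _ n4)) (mul_ne_zero hbb htt)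

end Pool.Agent.Lib.MP_d4c67c_gt
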