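import Pool.Agent.Lib.MP_d4c67c_gt.Conn
import Pool.Agent.Lib.MP_d4c67c_gt.E.TB

/-!
# JOB ETC: all strip seeds on polygons are mutation equivalent (copy of `Conn.lean` for polygons)
-/

namespace Pool.Agent.Lib.MP_d4c67c_gt

universe u

/-- `(c, w)` and `(c', w')` are related by a sequence of mutations that does not depend on the polygon -/
def Rv (K : Type u) [Field K] (l : ℕ) (c c' : ZMod (l + 2)) (w w' : ℕ → Bool) : Prop :=
  ∃ L : List (Fin (l - 1)), ∀ v : ZMod (l + 2) → Fin 2 → K, GenV v → (Tv l c w v).muts L = Tv l c' w' v

theorem ETC_refl (K : Type u) [Field K] (l : ℕ) (c : ZMod (l + 2)) (w : ℕ → Bool) : Rv K l c c w w := by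
  exact ⟨[], fun v₀ _ => rfl⟩

theorem ETC_trans {K : Type u} [Field K] {l : ℕ} {c c' c'' : ZMod (l + 2)} {w w' w'' : ℕ → Bool}
    (h : Rv K l c c' w w') (h' : Rv K l c' c'' w' w'') : Rv K l c c'' w w'' := by
  obtain ⟨L, hL⟩ := h
  obtain ⟨L', hL'⟩ := h'
  refine ⟨L ++ L', fun v₀ hF => ?_⟩
  unfold Seed.muts
  rw [List.foldl_append]
  have h1 := hL v₀ hF
  have h2 := hL' v₀ hF
  unfold Seed.muts at h1 h2
  rw [h1, h2]

/-- exchanging two adjacent different letters at positions `a`, `a+1`, `a + 1 ≤ l - 1` (`T_swap1`, `T_swap2`) -/
theorem ETC_swap (K : Type u) [Field K] (l : ℕ) (c : ZMod (l + 2)) (w w' : ℕ → Bool) (a : ℕ)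
    (ha : a + 1 < l) (h0 : w a = !(w (a + 1))) (h0' : w' a = w (a + 1)) (h1' : w' (a + 1) = w a)
    (h : ∀ i, i ≠ a → i ≠ a + 1 → w i = w' i) : Rv K l c c w w' := by
  have ha' : a < l - 1 := by omega
  refine ⟨[⟨a, ha'⟩], fun v₀ hF => ?_⟩
  show (Tv l c w v₀).mutate ⟨a, ha'⟩ = Tv l c w' v₀
  cases h1 : w (a + 1) with
  | false =>
    rw [h1] at h0 h0'
    rw [h0] at h1'
    exact Tv_swap1 l c w w' v₀ hF ⟨a, ha'⟩ h0 h1 h0' h1' h
  | true =>
    rw [h1] at h0 h0'
    rw [h0] at h1'
    exact Tv_swap2 l c w w' v₀ hF ⟨a, ha'⟩ h0 h1 h0' h1' h

/-- Changing one letter.  Downward induction on the position `i < l`: `i = l - 1` is `T_last`.  For `i + 1 < l`, let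
`(x, y) = (w i, w (i+1))`.  If `x = y`: change the letter `i + 1` (induction hypothesis), giving `(x, !x)`, exchange:
`(!x, x)`.  If `y = !x`: exchange: `(!x, x)`, then change the letter `i + 1`: `(!x, !x)`.  In both cases only the
letter `i` has changed. -/
theorem ETC_flip (K : Type u) [Field K] (l : ℕ) (c : ZMod (l + 2)) (w : ℕ → Bool) (i : ℕ) (hi : i < l) :
    Rv K l c c w (Function.update w i (!(w i))) := by
  obtain ⟨d, hd⟩ : ∃ d, i + d + 1 = l := ⟨l - 1 - i, by omega⟩
  induction d generalizing w i with
  | zero =>
    refine ⟨[], fun v₀ _ => Tv_last l c _ _ v₀ fun j hj => ?_⟩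
    rw [Function.update_of_ne (by omega)]
  | succ d ih =>
    by_cases hx : w i = w (i + 1)
    · refine ETC_trans (ih w (i + 1) (by omega) (by omega)) ?_
      refine ETC_swap K l c _ _ i (by omega) ?_ ?_ ?_ ?_
      · rw [Function.update_of_ne (by omega), Function.update_self, Bool.not_not, hx]
      · rw [Function.update_self, Function.update_self, hx]
      · rw [Function.update_of_ne (by omega), Function.update_of_ne (by omega), hx]
      · intro j h1 h2
        rw [Function.update_of_ne h2, Function.update_of_ne h1]
    · have hx' : w i = !(w (i + 1)) := by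
        cases h1 : w i <;> cases h2 : w (i + 1) <;> simp_all
      have hx2 : w (i + 1) = !(w i) := by rw [hx', Bool.not_not]
      have s1 : Rv K l c c w (Function.update (Function.update w i (!(w i))) (i + 1) (w i)) := by
        refine ETC_swap K l c _ _ i (by omega) hx' ?_ ?_ ?_
        · rw [Function.update_of_ne (by omega), Function.update_self, hx2]
        · rw [Function.update_self]
        · intro j h1 h2
          rw [Function.update_of_ne h2, Function.update_of_ne h1]
      refine ETC_trans s1 ?_
      have s2 := ih (Function.update (Function.update w i (!(w i))) (i + 1) (w i)) (i + 1)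
        (by omega) (by omega)
      have e : Function.update (Function.update (Function.update w i (!(w i))) (i + 1) (w i)) (i + 1)
          (!(Function.update (Function.update w i (!(w i))) (i + 1) (w i) (i + 1))) =
          Function.update w i (!(w i)) := by
        rw [Function.update_self, Function.update_idem, ← hx2]
        funext j
        by_cases hj : j = i + 1
        · rw [hj, Function.update_self, Function.update_of_ne (by omega)]
        · rw [Function.update_of_ne hj]
      rw [e] at s2
      exact s2

/-- all words are related (for the same `c`): change the letters one by one, `T_last` for the letters `≥ l`. -/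
theorem ETC_words (K : Type u) [Field K] (l : ℕ) (c : ZMod (l + 2)) (w w' : ℕ → Bool) :
    Rv K l c c w w' := by
  have key : ∀ n : ℕ, n ≤ l → Rv K l c c w (fun i => if i < n then w' i else w i) := by
    intro n
    induction n with
    | zero =>
      intro _
      have e : (fun i => if i < 0 then w' i else w i) = w := by
        funext i
        rw [if_neg (by omega)]
      rw [e]
      exact ETC_refl K l c w
    | succ n ih =>
      intro hn
      refine ETC_trans (ih (by omega)) ?_
      by_cases hx : w n = w' n
      · have e : (fun i => if i < n + 1 then w' i else w i) =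
            (fun i => if i < n then w' i else w i) := by
          funext i
          by_cases h1 : i < n
          · rw [if_pos (by omega), if_pos h1]
          · by_cases h2 : i = n
            · rw [h2, if_pos (by omega), if_neg (by omega), hx]
            · rw [if_neg (by omega), if_neg h1]
        rw [e]
        exact ETC_refl K l c _
      · have s := ETC_flip K l c (fun i => if i < n then w' i else w i) n (by omega)
        have e : Function.update (fun i => if i < n then w' i else w i) n
            (!((fun i => if i < n then w' i else w i) n)) =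
            (fun i => if i < n + 1 then w' i else w i) := by
          funext i
          by_cases h1 : i = n
          · have e1 : (fun i => if i < n then w' i else w i) n = w n := by
              show (if n < n then w' n else w n) = w n
              rw [if_neg (by omega)]
            rw [h1, Function.update_self, e1, if_pos (by omega)]
            cases h2 : w n <;> cases h3 : w' n <;> simp_all
          · rw [Function.update_of_ne h1]
            by_cases h2 : i < n
            · rw [if_pos h2, if_pos (by omega)]
            · rw [if_neg h2, if_neg (by omega)]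
        rw [e] at s
        exact s
  refine ETC_trans (key l le_rfl) ⟨[], fun v₀ _ => Tv_last l c _ _ v₀ fun j hj => ?_⟩
  rw [if_pos (by omega)]

/-- same proof as `conn` in `Conn.lean`, with `Tv_first`, `Tv_last`, `Tv_swap1`, `Tv_swap2` -/
theorem connV (K : Type u) [Field K] (l : ℕ) (hl : 2 ≤ l) (c c' : ZMod (l + 2)) (w w' : ℕ → Bool) :
    Rv K l c c' w w' := by
  have _ := hl
  have step : ∀ (d : ZMod (l + 2)) (v v' : ℕ → Bool), Rv K l d (d + 1) v v' := by
    intro d v v'
    refine ETC_trans (ETC_words K l d v (fun _ => true)) ?_
    have s : Rv K l d (d + 1) (fun _ => true) (fun i => if i = 0 then false else true) :=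
      ⟨[], fun v₀ _ => Tv_first l d _ _ v₀ rfl (by rw [if_pos rfl]) fun i hi => by
        rw [if_neg (by omega)]⟩
    exact ETC_trans s (ETC_words K l (d + 1) _ v')
  have key : ∀ (n : ℕ) (v v' : ℕ → Bool), Rv K l c (c + (n : ZMod (l + 2))) v v' := by
    intro n
    induction n with
    | zero =>
      intro v v'
      rw [Nat.cast_zero, add_zero]
      exact ETC_words K l c v v'
    | succ n ih =>
      intro v v'
      have s := ETC_trans (ih v v) (step (c + (n : ZMod (l + 2))) v v')
      have e : c + ((n + 1 : ℕ) : ZMod (l + 2)) = c + (n : ZMod (l + 2)) + 1 := by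
        push_cast
        ring
      rw [e]
      exact s
  have s := key (c' - c).val w w'
  rw [ZMod.natCast_zmod_val, add_sub_cancel] at s
  exact s

end Pool.Agent.Lib.MP_d4c67c_gt
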